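import Mathlib

namespace Pool.Agent.Lib.MP_70b2ae_gt

open Finset Matrix

variable {ι : Type*} [Fintype ι] [DecidableEq ι]

/-- Bang's lemma for a matrix that becomes symmetric after a positive scaling of its rows. -/
theorem bang (K : Matrix ι ι ℝ) (κ : ι → ℝ) (hκ : ∀ i, 0 < κ i)
    (hsym : ∀ i j, κ i * K i j = κ j * K j i) (m : ι → ℝ) :
    ∃ ε : ι → ℝ, (∀ i, ε i = 1 ∨ ε i = -1) ∧ ∀ i, K i i ≤ |∑ j, K i j * ε j - m i| := by
  let sg : Bool → ℝ := fun b => if b then 1 else -1
  let F : (ι → ℝ) → ℝ := fun ε => ∑ i, ∑ j, κ i * K i j * ε i * ε j - 2 * ∑ i, κ i * m i * ε i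
  obtain ⟨β, -, hβ⟩ := Finset.exists_max_image (univ : Finset (ι → Bool))
    (fun β => F fun i => sg (β i)) ⟨fun _ => true, mem_univ _⟩
  set ε : ι → ℝ := fun i => sg (β i) with hε
  have h1 : ∀ i, ε i = 1 ∨ ε i = -1 := fun i => by
    simp only [hε, sg]; split_ifs <;> simp
  refine ⟨ε, h1, fun p => ?_⟩
  have hsq : ε p * ε p = 1 := by rcases h1 p with h | h <;> rw [h] <;> norm_num
  have h2 := hβ (Function.update β p (!β p)) (mem_univ _)
  have h3 : (fun i => sg (Function.update β p (!β p) i))
      = fun i => ε i - 2 * ε p * (if i = p then 1 else 0) := by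
    funext i
    by_cases h : i = p
    · subst h
      simp only [Function.update_self, hε, sg, if_true]
      cases β i <;> norm_num
    · simp [hε, h]
  simp only [h3] at h2
  have e1 : ∀ f : ι → ℝ, ∑ i, f i * (if i = p then (1 : ℝ) else 0) = f p := by
    intro f; simp
  have h4 : F (fun i => ε i - 2 * ε p * (if i = p then 1 else 0))
      = F ε - 4 * ε p * (κ p * ∑ j, K p j * ε j) + 4 * (κ p * K p p) + 4 * ε p * (κ p * m p) := by
    simp only [F]
    have a1 : ∀ i, ∑ j, κ i * K i j * (ε i - 2 * ε p * (if i = p then 1 else 0))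
          * (ε j - 2 * ε p * (if j = p then 1 else 0))
        = ∑ j, κ i * K i j * ε i * ε j - 2 * ε p * (κ p * (K p i * ε i))
          - (2 * ε p * (κ i * ∑ j, K i j * ε j) - 4 * (κ i * K i p))
            * (if i = p then 1 else 0) := by
      intro i
      have b1 : ∀ j, κ i * K i j * (ε i - 2 * ε p * (if i = p then 1 else 0))
          * (ε j - 2 * ε p * (if j = p then 1 else 0))
          = κ i * K i j * ε i * ε j
            - 2 * ε p * (if i = p then 1 else 0) * κ i * (K i j * ε j)
            - (2 * ε p * (κ i * K i j) * (ε i - 2 * ε p * (if i = p then 1 else 0)))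
              * (if j = p then 1 else 0) := fun j => by ring
      simp only [b1]
      rw [Finset.sum_sub_distrib, Finset.sum_sub_distrib, e1, ← Finset.mul_sum, hsym i p]
      linear_combination (4 * (if i = p then (1 : ℝ) else 0) * (κ p * K p i)) * hsq
    have a2 : ∀ i, κ i * m i * (ε i - 2 * ε p * (if i = p then 1 else 0))
        = κ i * m i * ε i - (2 * ε p * (κ i * m i)) * (if i = p then 1 else 0) := fun i => by ring
    simp only [a1, a2]
    rw [Finset.sum_sub_distrib, Finset.sum_sub_distrib, Finset.sum_sub_distrib, e1, e1,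
      ← Finset.mul_sum, ← Finset.mul_sum]
    ring
  rw [h4] at h2
  have h5 : κ p * K p p ≤ κ p * (ε p * (∑ j, K p j * ε j - m p)) := by nlinarith
  have h6 := le_of_mul_le_mul_left h5 (hκ p)
  refine h6.trans ?_
  rcases h1 p with h | h <;> rw [h]
  · rw [one_mul]; exact le_abs_self _
  · rw [neg_one_mul]; exact neg_le_abs _

/-- the rotation by the angle `s` in the coordinate plane `p, q` -/
noncomputable def giv (p q : ι) (s : ℝ) : Matrix ι ι ℝ := fun l j =>
  if j = p then (if l = p then Real.cos s else if l = q then Real.sin s else 0)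
  else if j = q then (if l = p then -Real.sin s else if l = q then Real.cos s else 0)
  else if l = j then 1 else 0

theorem mul_giv {p q : ι} (h : p ≠ q) (s : ℝ) (G : Matrix ι ι ℝ) (i j : ι) :
    (G * giv p q s) i j = if j = p then G i p * Real.cos s + G i q * Real.sin s
      else if j = q then -(G i p * Real.sin s) + G i q * Real.cos s else G i j := by
  have key : ∀ x y : ℝ, ∑ l, G i l * (if l = p then x else if l = q then y else 0)
      = G i p * x + G i q * y := by
    intro x y
    have : ∀ l, G i l * (if l = p then x else if l = q then y else 0)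
        = (if l = p then G i l * x else 0) + (if l = q then G i l * y else 0) := by
      intro l
      by_cases h1 : l = p
      · subst h1; simp [h]
      · by_cases h2 : l = q
        · subst h2; simp [h1]
        · simp [h1, h2]
    simp [this, Finset.sum_add_distrib]
  rw [Matrix.mul_apply]
  unfold giv
  split_ifs with h1 h2
  · exact key _ _
  · rw [key]; ring
  · simp

theorem giv_orth {p q : ι} (h : p ≠ q) (s : ℝ) : (giv p q s)ᵀ * giv p q s = 1 := by
  ext i j
  rw [mul_giv h]
  simp only [transpose_apply, giv, Matrix.one_apply]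
  by_cases hjp : j = p <;> by_cases hjq : j = q <;> by_cases hip : i = p <;>
    by_cases hiq : i = q <;> simp_all [eq_comm] <;> nlinarith [Real.sin_sq_add_cos_sq s]

theorem orth_compact : IsCompact {R : Matrix ι ι ℝ | Rᵀ * R = 1} := by
  have h1 : IsCompact (Set.univ.pi fun _ : ι => Set.univ.pi fun _ : ι => Set.Icc (-1 : ℝ) 1) :=
    isCompact_univ_pi fun _ => isCompact_univ_pi fun _ => isCompact_Icc
  refine h1.of_isClosed_subset ?_ ?_
  · exact isClosed_eq (continuous_id.matrix_transpose.matrix_mul continuous_id) continuous_const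
  · intro R hR l _ j _
    have h2 : ∑ k, R k j * R k j = 1 := by
      have := congrFun (congrFun hR j) j
      simpa [Matrix.mul_apply] using this
    have h3 : R l j * R l j ≤ 1 := by
      rw [← h2]
      exact Finset.single_le_sum (f := fun k => R k j * R k j) (fun k _ => mul_self_nonneg _)
        (mem_univ l)
    exact abs_le.1 (abs_le_one_iff_mul_self_le_one.2 h3)

/-- An orthogonal change of the columns makes the matrix symmetrisable without losing the
diagonal; Bang's lemma then applies. -/
theorem ball_bang (G : Matrix ι ι ℝ) (b : ι → ℝ) (hb : ∀ i, 0 < b i) (hG : ∀ i, 0 < G i i)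
    (hs : ∑ i, (b i / G i i) ^ 2 ≤ 1) :
    ∃ (R : Matrix ι ι ℝ) (t : ι → ℝ), Rᵀ * R = 1 ∧ (∀ i, 0 ≤ t i) ∧ ∑ i, t i ^ 2 ≤ 1 ∧
      ∀ m : ι → ℝ, ∃ ε : ι → ℝ, (∀ i, ε i = 1 ∨ ε i = -1) ∧
        ∀ i, b i ≤ |∑ j, (G * R) i j * (ε j * t j) - m i| := by
  let Φ : Matrix ι ι ℝ → ℝ := fun R => ∑ i, (b i / (G * R) i i) ^ 2
  let K : Set (Matrix ι ι ℝ) := {R | Rᵀ * R = 1} ∩ {R | ∀ i, b i / 2 ≤ (G * R) i i}
  have hent : ∀ i, Continuous fun R : Matrix ι ι ℝ => (G * R) i i := fun i =>
    (continuous_const.matrix_mul continuous_id).matrix_elem i i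
  have big : ∀ H : Matrix ι ι ℝ, (∀ i, 0 < H i i) → ∑ i, (b i / H i i) ^ 2 ≤ 1 →
      ∀ i, b i ≤ H i i := by
    intro H h0 h1 i
    have h2 : (b i / H i i) ^ 2 ≤ 1 :=
      (Finset.single_le_sum (f := fun i => (b i / H i i) ^ 2) (fun _ _ => sq_nonneg _)
        (mem_univ i)).trans h1
    have h3 : b i / H i i ≤ 1 := by
      by_contra hlt
      push Not at hlt
      nlinarith
    rwa [div_le_one (h0 i)] at h3
  have hK : IsCompact K := orth_compact.inter_right (by
    have : {R : Matrix ι ι ℝ | ∀ i, b i / 2 ≤ (G * R) i i} = ⋂ i, {R | b i / 2 ≤ (G * R) i i} := by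
      ext R; simp
    rw [this]
    exact isClosed_iInter fun i => isClosed_le continuous_const (hent i))
  have h1K : (1 : Matrix ι ι ℝ) ∈ K := ⟨by simp, fun i => by
    have := big G hG hs i
    have := hb i
    simp only [Matrix.mul_one]; linarith⟩
  have hΦ : ContinuousOn Φ K := by
    refine continuousOn_finsetSum _ fun i _ => ContinuousOn.pow ?_ 2
    refine continuousOn_const.div (hent i).continuousOn fun R hR => ?_
    have := hR.2 i
    have := hb i
    exact ne_of_gt (by linarith)
  obtain ⟨R, hR, hmin⟩ := hK.exists_isMinOn ⟨1, h1K⟩ hΦ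
  set H := G * R with hH
  have hpos : ∀ i, 0 < H i i := fun i => by
    have := hR.2 i
    have := hb i
    linarith
  have hle : ∑ i, (b i / H i i) ^ 2 ≤ 1 := by
    have : Φ R ≤ Φ 1 := hmin h1K
    simp only [Φ, Matrix.mul_one] at this
    exact this.trans hs
  have hbig := big H hpos hle
  have hsym : ∀ p q, b p ^ 2 / H p p ^ 3 * H p q = b q ^ 2 / H q q ^ 3 * H q p := by
    intro p q
    by_cases hpq : p = q
    · rw [hpq]
    let u : ℝ → ℝ := fun s => H p p * Real.cos s + H p q * Real.sin s
    let v : ℝ → ℝ := fun s => -(H q p * Real.sin s) + H q q * Real.cos s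
    let φ : ℝ → ℝ := fun s => (b p / u s) ^ 2 + (b q / v s) ^ 2
    have hd : ∀ s i, (G * (R * giv p q s)) i i
        = if i = p then u s else if i = q then v s else H i i := by
      intro s i
      rw [← Matrix.mul_assoc, ← hH, mul_giv hpq]
      split_ifs with h1 h2
      · rw [h1]
      · rw [h2]
      · rfl
    have hΦs : ∀ s, Φ (R * giv p q s)
        = φ s + ∑ i ∈ (univ.erase p).erase q, (b i / H i i) ^ 2 := by
      intro s
      simp only [Φ, φ]
      rw [← Finset.add_sum_erase univ _ (mem_univ p), ← Finset.add_sum_erase (univ.erase p) _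
        (mem_erase.2 ⟨Ne.symm hpq, mem_univ q⟩), hd, hd, if_pos rfl, if_neg (Ne.symm hpq),
        if_pos rfl, add_assoc]
      congr 2
      refine Finset.sum_congr rfl fun i hi => ?_
      simp only [mem_erase] at hi
      rw [hd, if_neg hi.2.1, if_neg hi.1]
    have hg0 : giv p q 0 = 1 := by
      ext l j
      simp only [giv, Real.cos_zero, Real.sin_zero, neg_zero, Matrix.one_apply]
      by_cases h1 : j = p <;> by_cases h2 : j = q <;> by_cases h3 : l = p <;>
        by_cases h4 : l = q <;> simp_all [eq_comm]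
    have hu : HasDerivAt u (H p q) 0 := by
      have := ((Real.hasDerivAt_cos 0).const_mul (H p p)).add
        ((Real.hasDerivAt_sin 0).const_mul (H p q))
      exact this.congr_deriv (by simp)
    have hv : HasDerivAt v (-H q p) 0 := by
      have := ((Real.hasDerivAt_sin 0).const_mul (H q p)).neg.add
        ((Real.hasDerivAt_cos 0).const_mul (H q q))
      exact this.congr_deriv (by simp)
    have u0 : u 0 = H p p := by simp [u]
    have v0 : v 0 = H q q := by simp [v]
    have hloc : IsLocalMin φ 0 := by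
      have e1 : ∀ᶠ s in nhds (0 : ℝ), b p / 2 < u s :=
        hu.continuousAt.eventually (lt_mem_nhds (by rw [u0]; linarith [hbig p, hb p]))
      have e2 : ∀ᶠ s in nhds (0 : ℝ), b q / 2 < v s :=
        hv.continuousAt.eventually (lt_mem_nhds (by rw [v0]; linarith [hbig q, hb q]))
      filter_upwards [e1, e2] with s h1 h2
      have hmem : R * giv p q s ∈ K := by
        refine ⟨?_, fun i => ?_⟩
        · show (R * giv p q s)ᵀ * (R * giv p q s) = 1
          have hR1 : Rᵀ * R = 1 := hR.1
          rw [Matrix.transpose_mul, Matrix.mul_assoc, ← Matrix.mul_assoc Rᵀ, hR1, Matrix.one_mul,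
            giv_orth hpq]
        · rw [hd]
          split_ifs with h3 h4
          · rw [h3]; exact h1.le
          · rw [h4]; exact h2.le
          · exact hR.2 i
      have h5 : Φ R ≤ Φ (R * giv p q s) := hmin hmem
      have h6 := hΦs 0
      rw [hg0, Matrix.mul_one] at h6
      rw [h6, hΦs s] at h5
      linarith
    have hφ := ((((hasDerivAt_const (0 : ℝ) (b p)).div hu (by rw [u0]; exact (hpos p).ne')).pow 2).add
      (((hasDerivAt_const (0 : ℝ) (b q)).div hv (by rw [v0]; exact (hpos q).ne')).pow 2))
    have h0 := hloc.hasDerivAt_eq_zero hφ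
    simp only [Pi.div_apply, u0, v0, Nat.add_one_sub_one, pow_one, Nat.cast_ofNat] at h0
    have hp := (hpos p).ne'
    have hq := (hpos q).ne'
    field_simp at h0 ⊢
    linarith
  refine ⟨R, fun i => b i / H i i, hR.1, fun i => (div_pos (hb i) (hpos i)).le, hle, fun m => ?_⟩
  obtain ⟨ε, h1, h2⟩ := bang (fun i j => H i j * (b j / H j j))
    (fun i => b i ^ 2 / H i i ^ 3 * (b i / H i i))
    (fun i => by have := hb i; have := hpos i; positivity)
    (fun i j => by linear_combination (b i / H i i) * (b j / H j j) * hsym i j) m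
  refine ⟨ε, h1, fun i => ?_⟩
  have h3 := h2 i
  have h4 : H i i * (b i / H i i) = b i := by field_simp [(hpos i).ne']
  simp only [h4] at h3
  convert h3 using 4 with j
  ring

end Pool.Agent.Lib.MP_70b2ae_gt
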