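import Pool.Agent.Lib.MP_70b2ae_gt.BgDefs

/-! The algebraic descent. -/

namespace Pool.Agent.Lib.MP_70b2ae_gt.Bg

open Function

namespace Alg

open Finset

/-- Weighted least squares: the normal equations have a solution. -/
lemma ls {E J : Type*} [AddCommGroup E] [Module ℝ E] [Fintype J] (W : Submodule ℝ E)
    (T : E →ₗ[ℝ] (J → ℝ)) (ω : J → ℝ) (hω : ∀ j, 0 ≤ ω j) (p : J → ℝ) :
    ∃ w ∈ W, ∀ w' ∈ W, ∑ j, ω j * ((T w j - p j) * T w' j) = 0 := by
  let A : (J → ℝ) →ₗ[ℝ] EuclideanSpace ℝ J :=
    { toFun := fun f => WithLp.toLp 2 fun j => √(ω j) * f j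
      map_add' := fun f g => by
        ext j
        simp [mul_add]
      map_smul' := fun r f => by
        ext j
        simp
        ring }
  let V : Submodule ℝ (EuclideanSpace ℝ J) := W.map (A.comp T)
  obtain ⟨w, hw, hw'⟩ : V.starProjection (A p) ∈ V := V.starProjection_apply_mem _
  refine ⟨w, hw, fun w' h' => ?_⟩
  have h := V.starProjection_inner_eq_zero (A p) ((A.comp T) w') ⟨w', h', rfl⟩
  rw [← hw', PiLp.inner_apply] at h
  rw [← neg_eq_zero, ← sum_neg_distrib, ← h]
  refine sum_congr rfl fun j _ => ?_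
  have hs := Real.mul_self_sqrt (hω j)
  simp only [A, LinearMap.coe_comp, LinearMap.coe_mk, AddHom.coe_mk, Function.comp_apply,
    PiLp.sub_apply, RCLike.inner_apply, conj_trivial]
  linear_combination (T w j - p j) * T w' j * hs

set_option linter.unusedSectionVars false

noncomputable section

variable {ι : Type} [Fintype ι] [DecidableEq ι]

/-- Forget the sign at `k`. -/
def rm (G : St ι) (k : ι) : St ι := Function.update G k none

lemma dn_eq (k : ι) (f : St ι → ℝ) (G : St ι) :
    dn k f G = if G k ≠ none then f (rm G k) else 0 := by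
  unfold dn rm
  by_cases h : G k = none <;> simp [h]

def lev (G : St ι) : ℕ := (univ.filter fun i => G i ≠ none).card

lemma sum_level (k : ι) (s : Option Bool) (F : St ι → ℝ) :
    (∑ G : St ι, if G k = s then F G else 0) =
      ∑ H : St ι, if H k = none then F (Function.update H k s) else 0 := by
  rw [← sum_filter, ← sum_filter]
  refine sum_bij' (fun G _ => Function.update G k none) (fun H _ => Function.update H k s)
    (fun G _ => by simp) (fun H _ => by simp) (fun G hG => ?_) (fun H hH => ?_) (fun G hG => ?_)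
  · simp only [mem_filter, mem_univ, true_and] at hG
    rw [Function.update_idem, ← hG, Function.update_eq_self]
  · simp only [mem_filter, mem_univ, true_and] at hH
    rw [Function.update_idem, ← hH, Function.update_eq_self]
  · simp only [mem_filter, mem_univ, true_and] at hG
    rw [Function.update_idem, ← hG, Function.update_eq_self]

lemma rm_update {H : St ι} {k : ι} (h : H k = none) (s : Option Bool) :
    rm (Function.update H k s) k = H := by
  unfold rm
  rw [Function.update_idem, ← h, Function.update_eq_self]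

/-- Sums over the states with a sign at `k`. -/
lemma sum_ne (k : ι) (F : St ι → ℝ) :
    (∑ G : St ι, if G k ≠ none then F G else 0) = ∑ H : St ι, up k F H := by
  have h1 : ∀ G : St ι, (if G k ≠ none then F G else 0) =
      (if G k = some true then F G else 0) + (if G k = some false then F G else 0) := fun G => by
    rcases h : G k with _ | _ | _ <;> simp
  simp only [h1]
  rw [sum_add_distrib, sum_level k (some true), sum_level k (some false), ← sum_add_distrib]
  refine sum_congr rfl fun H _ => ?_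
  unfold up
  split_ifs <;> simp

lemma adj (k : ι) (g f : St ι → ℝ) : ∑ G, g G * dn k f G = ∑ H, up k g H * f H := by
  have h1 : ∀ G : St ι, g G * dn k f G = if G k ≠ none then g G * f (rm G k) else 0 := fun G => by
    rw [dn_eq]
    split_ifs <;> simp
  simp only [h1, sum_ne]
  refine sum_congr rfl fun H _ => ?_
  unfold up
  split_ifs with h
  · simp only [rm_update h]
    ring
  · simp

lemma lev_rm {G : St ι} {k : ι} (h : G k ≠ none) : lev (rm G k) + 1 = lev G := by
  unfold lev
  have : (univ.filter fun i => G i ≠ none) = insert k (univ.filter fun i => rm G k i ≠ none) := by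
    ext i
    by_cases hi : i = k
    · subst hi
      simp [h]
    · simp [rm, hi]
  rw [this, card_insert_of_notMem (by simp [rm])]

lemma rm_comm (G : St ι) (k m : ι) : rm (rm G k) m = rm (rm G m) k := by
  unfold rm
  by_cases h : k = m
  · rw [h]
  · exact Function.update_comm h _ _ _

lemma rm_apply_ne (G : St ι) {k m : ι} (h : m ≠ k) : rm G k m = G m := by
  simp [rm, h]

lemma rm_apply (G : St ι) (k : ι) : rm G k k = none := by
  simp [rm]

section

variable (x : St ι → ℝ)

/-- The weighted scalar product. -/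
def ip (f h : St ι → ℝ) : ℝ := ∑ H, x H * (f H * h H)

def ip1 (a b : ι → St ι → ℝ) : ℝ := ∑ k, ip x (a k) (b k)

def ip2 (A B : ι → ι → St ι → ℝ) : ℝ := ∑ k, ∑ m, ip x (A k m) (B k m)

def Dn (c : ι → St ι → ℝ) (G : St ι) : ℝ := ∑ m, dn m (fun H => x H * c m H) G

def Qf (c : ι → St ι → ℝ) : ℝ := ∑ G, Dn x c G ^ 2 / x G

/-- The quadratic inequality for all admissible families. -/
def StarAll : Prop :=
  ∀ n : ι → St ι → ℝ, (∀ k G, n k G ≠ 0 → G k = none ∧ 0 < x G) → Star x n

def Ad (j : ℕ) (c : ι → St ι → ℝ) : Prop :=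
  ∀ a H, ¬ (0 < x H ∧ lev H = j ∧ H a = none) → c a H = 0

def PP (j : ℕ) : Prop :=
  ∀ O : St ι → ℝ, ∃ c, Ad x j c ∧ (∀ H, 0 < x H → lev H = j → ∑ a, c a H = O H) ∧
    ip1 x c c + Qf x c ≤ ip x (fun H => ∑ a, c a H) fun H => ∑ a, c a H

end

variable {x : St ι → ℝ}

lemma ip_comm (f h : St ι → ℝ) : ip x f h = ip x h f :=
  sum_congr rfl fun H _ => by ring

lemma ip_div {g : St ι → ℝ} (hg : ∀ G, x G = 0 → g G = 0) (f : St ι → ℝ) :
    ip x g (fun G => f G / x G) = ∑ G, g G * f G := by
  refine sum_congr rfl fun G _ => ?_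
  by_cases h : x G = 0
  · simp [h, hg G h]
  · field_simp

lemma sum_mul_Dn (g : St ι → ℝ) (v : ι → St ι → ℝ) :
    ∑ G, g G * Dn x v G = ∑ k, ip x (up k g) (v k) := by
  unfold Dn
  simp only [mul_sum]
  rw [sum_comm]
  refine sum_congr rfl fun k _ => ?_
  rw [adj]
  exact sum_congr rfl fun H _ => by ring

lemma ip_Dn {g : St ι → ℝ} (hg : ∀ G, x G = 0 → g G = 0) (v : ι → St ι → ℝ) :
    ip x g (fun G => Dn x v G / x G) = ∑ k, ip x (up k g) (v k) := by
  rw [ip_div hg, sum_mul_Dn]

lemma Dn_add (v w : ι → St ι → ℝ) (G : St ι) : Dn x (v + w) G = Dn x v G + Dn x w G := by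
  simp only [Dn, dn_eq]
  rw [← sum_add_distrib]
  refine sum_congr rfl fun k _ => ?_
  split_ifs
  · simp [mul_add]
  · simp

lemma Dn_smul (r : ℝ) (v : ι → St ι → ℝ) (G : St ι) : Dn x (r • v) G = r * Dn x v G := by
  simp only [Dn, dn_eq]
  rw [mul_sum]
  refine sum_congr rfl fun k _ => ?_
  split_ifs
  · simp only [Pi.smul_apply, smul_eq_mul]
    ring
  · simp

lemma Dn_ne {v : ι → St ι → ℝ} {G : St ι} (h : Dn x v G ≠ 0) :
    ∃ k, G k ≠ none ∧ v k (rm G k) ≠ 0 := by
  obtain ⟨k, -, hk⟩ := exists_ne_zero_of_sum_ne_zero h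
  rw [dn_eq] at hk
  split_ifs at hk with h1
  · exact ⟨k, h1, right_ne_zero_of_mul hk⟩
  · exact absurd rfl hk

lemma star_op (hS : StarAll x) (n : ι → St ι → ℝ)
    (hn : ∀ k G, n k G ≠ 0 → G k = none ∧ 0 < x G) :
    ip2 x (fun k m => up k (n m)) (fun k m => up m (n k)) ≤ ip1 x n n + Qf x n := by
  have h := hS n hn
  have e1 : ip2 x (fun k m => up k (n m)) (fun k m => up m (n k)) =
      ∑ H, x H * ∑ k, ∑ m, up k (n m) H * up m (n k) H := by
    simp only [ip2, ip, mul_sum]
    rw [sum_comm (s := (univ : Finset (St ι)))]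
    refine sum_congr rfl fun k _ => ?_
    rw [sum_comm]
  have e2 : ip1 x n n = ∑ G, x G * ∑ k, n k G ^ 2 := by
    simp only [ip1, ip, mul_sum, sq]
    rw [sum_comm]
  rw [e1, e2]
  exact h

lemma ip_add_left (f g h : St ι → ℝ) : ip x (fun H => f H + g H) h = ip x f h + ip x g h := by
  unfold ip
  rw [← sum_add_distrib]
  exact sum_congr rfl fun H _ => by ring

lemma ip_add_right (f g h : St ι → ℝ) : ip x h (fun H => f H + g H) = ip x h f + ip x h g := by
  rw [ip_comm, ip_add_left, ip_comm f, ip_comm g]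

lemma ip_sub_left (f g h : St ι → ℝ) : ip x (fun H => f H - g H) h = ip x f h - ip x g h := by
  unfold ip
  rw [← sum_sub_distrib]
  exact sum_congr rfl fun H _ => by ring

lemma ip_sub_right (f g h : St ι → ℝ) : ip x h (fun H => f H - g H) = ip x h f - ip x h g := by
  rw [ip_comm, ip_sub_left, ip_comm f, ip_comm g]

lemma ip_sum_right (g : St ι → ℝ) (v : ι → St ι → ℝ) :
    ip x g (fun H => ∑ k, v k H) = ∑ k, ip x g (v k) := by
  unfold ip
  rw [sum_comm]
  refine sum_congr rfl fun H _ => ?_
  simp only [mul_sum]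

lemma ip_nonneg (hx : ∀ G, 0 ≤ x G) (f : St ι → ℝ) : 0 ≤ ip x f f :=
  sum_nonneg fun H _ => mul_nonneg (hx H) (mul_self_nonneg _)

lemma ip2_tr (A B : ι → ι → St ι → ℝ) :
    ip2 x (fun k m => A m k) B = ip2 x A fun k m => B m k := by
  unfold ip2
  rw [sum_comm]

lemma ip2_comm (A B : ι → ι → St ι → ℝ) : ip2 x A B = ip2 x B A :=
  sum_congr rfl fun _ _ => sum_congr rfl fun _ _ => ip_comm _ _

lemma ip2_sub_left (A B C : ι → ι → St ι → ℝ) :
    ip2 x (fun k m H => A k m H - B k m H) C = ip2 x A C - ip2 x B C := by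
  unfold ip2
  simp only [ip_sub_left, sum_sub_distrib]

lemma ip2_sub_right (A B C : ι → ι → St ι → ℝ) :
    ip2 x C (fun k m H => A k m H - B k m H) = ip2 x C A - ip2 x C B := by
  unfold ip2
  simp only [ip_sub_right, sum_sub_distrib]

lemma up_add (k : ι) (f g : St ι → ℝ) (H : St ι) :
    up k (fun G => f G + g G) H = up k f H + up k g H := by
  unfold up
  split_ifs
  · ring
  · simp

lemma up_ne {k : ι} {f : St ι → ℝ} {H : St ι} (h : up k f H ≠ 0) :
    ∃ G, G k ≠ none ∧ rm G k = H ∧ f G ≠ 0 := by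
  unfold up at h
  split_ifs at h with h0
  · by_cases h1 : f (Function.update H k (some true)) = 0
    · refine ⟨Function.update H k (some false), by simp, rm_update h0 _, fun h2 => h ?_⟩
      rw [h1, h2, add_zero]
    · exact ⟨Function.update H k (some true), by simp, rm_update h0 _, h1⟩
  · exact absurd rfl h

/-- The first least squares problem. -/
lemma ls_one (hx : ∀ G, 0 ≤ x G) (hfull : ∀ G, 0 < x G → ∃ a, G a = none) (j : ℕ) (O : St ι → ℝ) :
    ∃ c, Ad x j c ∧ (∀ H, 0 < x H → lev H = j → ∑ a, c a H = O H) ∧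
      ∀ v, Ad x j v → (∀ H, ∑ a, v a H = 0) →
        ip1 x c v + ip x (fun G => Dn x c G / x G) (fun G => Dn x v G / x G) = 0 := by
  choose pick hpick using hfull
  let c0 : ι → St ι → ℝ := fun a H =>
    if h : 0 < x H then (if lev H = j ∧ a = pick H h then O H else 0) else 0
  let W : Submodule ℝ (ι → St ι → ℝ) :=
    { carrier := {v | Ad x j v ∧ ∀ H, ∑ a, v a H = 0}
      add_mem' := fun {a b} ha hb => ⟨fun i H h => by simp [ha.1 i H h, hb.1 i H h], fun H => by
        simp [sum_add_distrib, ha.2 H, hb.2 H]⟩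
      zero_mem' := ⟨fun _ _ _ => rfl, fun H => by simp⟩
      smul_mem' := fun r a ha => ⟨fun i H h => by simp [ha.1 i H h], fun H => by
        simp [← mul_sum, ha.2 H]⟩ }
  let T : (ι → St ι → ℝ) →ₗ[ℝ] ((ι × St ι) ⊕ St ι → ℝ) :=
    { toFun := fun v => Sum.elim (fun p => v p.1 p.2) fun G => Dn x v G / x G
      map_add' := fun v w => by
        ext (p | G)
        · simp
        · simp [Dn_add, add_div]
      map_smul' := fun r v => by
        ext (p | G)
        · simp
        · simp [Dn_smul, mul_div_assoc] }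
  obtain ⟨w, hw, h⟩ := ls W T (Sum.elim (fun p => x p.2) x)
    (by rintro (p | G) <;> simp [hx]) (-T c0)
  refine ⟨w + c0, fun a H hH => ?_, fun H h1 h2 => ?_, fun v hv hv' => ?_⟩
  · have : c0 a H = 0 := by
      simp only [c0]
      split_ifs with h1 h2
      · exact absurd ⟨h1, h2.1, h2.2 ▸ hpick H h1⟩ hH
      · rfl
      · rfl
    simp [hw.1 a H hH, this]
  · simp [sum_add_distrib, hw.2 H, c0, h1, h2]
  · have h1 := h v ⟨hv, hv'⟩
    rw [Fintype.sum_sum_type, Fintype.sum_prod_type] at h1
    rw [← h1]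
    simp only [T, ip1, ip, LinearMap.coe_mk, AddHom.coe_mk, Sum.elim_inl, Sum.elim_inr,
      Pi.neg_apply, sub_neg_eq_add, Dn_add, add_div, Pi.add_apply]

/-- Adissible skew families. -/
def Skew (x : St ι → ℝ) (j : ℕ) (L : ι → ι → St ι → ℝ) : Prop :=
  (∀ k m H, ¬ (0 < x H ∧ lev H = j ∧ H k = none ∧ H m = none) → L k m H = 0) ∧
    ∀ k m H, L k m H = -L m k H

def Us (x : St ι → ℝ) (L : ι → ι → St ι → ℝ) (m : ι) (G : St ι) : ℝ :=
  Dn x (fun k => L k m) G / x G

/-- The second least squares problem. -/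
lemma ls_two (hx : ∀ G, 0 ≤ x G) (j : ℕ) (D : ι → ι → St ι → ℝ) :
    ∃ L, Skew x j L ∧ ∀ L', Skew x j L' →
      ip2 x L L' - ip2 x D L' + ip1 x (Us x L) (Us x L') = 0 := by
  let W : Submodule ℝ (ι → ι → St ι → ℝ) :=
    { carrier := {L | Skew x j L}
      add_mem' := fun {a b} ha hb => ⟨fun k m H h => by simp [ha.1 k m H h, hb.1 k m H h],
        fun k m H => by
          simp only [Pi.add_apply]
          rw [ha.2 k m H, hb.2 k m H]
          ring⟩
      zero_mem' := ⟨fun _ _ _ _ => rfl, fun _ _ _ => by simp⟩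
      smul_mem' := fun r a ha => ⟨fun k m H h => by simp [ha.1 k m H h], fun k m H => by
        simp only [Pi.smul_apply, smul_eq_mul]
        rw [ha.2 k m H]
        ring⟩ }
  let T : (ι → ι → St ι → ℝ) →ₗ[ℝ] ((ι × ι × St ι) ⊕ (ι × St ι) → ℝ) :=
    { toFun := fun L => Sum.elim (fun p => L p.1 p.2.1 p.2.2) fun p => Us x L p.1 p.2
      map_add' := fun v w => by
        ext (p | p)
        · simp
        · have := Dn_add (x := x) (fun k => v k p.1) (fun k => w k p.1) p.2
          simp only [Sum.elim_inr, Pi.add_apply, Us, ← add_div, ← this]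
          rfl
      map_smul' := fun r v => by
        ext (p | p)
        · simp
        · have := Dn_smul (x := x) r (fun k => v k p.1) p.2
          simp only [Sum.elim_inr, Pi.smul_apply, Us, smul_eq_mul, RingHom.id_apply,
            ← mul_div_assoc, ← this]
          rfl }
  obtain ⟨L, hL, h⟩ := ls W T (Sum.elim (fun p => x p.2.2) fun p => x p.2)
    (by rintro (p | G) <;> simp [hx]) (Sum.elim (fun p => D p.1 p.2.1 p.2.2) fun _ => 0)
  refine ⟨L, hL, fun L' hL' => ?_⟩
  have h1 := h L' hL'
  rw [Fintype.sum_sum_type, Fintype.sum_prod_type, Fintype.sum_prod_type] at h1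
  simp only [Fintype.sum_prod_type] at h1
  rw [← h1, ← ip2_sub_left]
  simp only [T, ip1, ip2, ip, LinearMap.coe_mk, AddHom.coe_mk, Sum.elim_inl, Sum.elim_inr,
    sub_zero]

lemma Us_adj {n : ι → St ι → ℝ} (hn : ∀ m G, x G = 0 → n m G = 0) (L : ι → ι → St ι → ℝ) :
    ip1 x n (Us x L) = ip2 x (fun k m => up k (n m)) L := by
  unfold ip1 ip2
  rw [sum_comm]
  exact sum_congr rfl fun m _ => ip_Dn (hn m) _

lemma Us_adm (hx : ∀ G, 0 ≤ x G) {j : ℕ} {L : ι → ι → St ι → ℝ} (hL : Skew x j L) :
    Ad x (j + 1) (Us x L) := by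
  intro m G hG
  by_contra h
  refine hG ?_
  have h1 : x G ≠ 0 := fun h0 => h (by simp [Us, h0])
  have h2 : Dn x (fun k => L k m) G ≠ 0 := fun h0 => h (by simp [Us, h0])
  obtain ⟨k, hk, hk'⟩ := Dn_ne h2
  have h3 : 0 < x (rm G k) ∧ lev (rm G k) = j ∧ rm G k k = none ∧ rm G k m = none := by
    by_contra hc
    exact hk' (hL.1 _ _ _ hc)
  have h4 : m ≠ k := by
    rintro rfl
    have := hL.2 m m (rm G m)
    exact hk' (by linarith)
  refine ⟨lt_of_le_of_ne (hx G) (Ne.symm h1), ?_, ?_⟩
  · rw [← lev_rm hk, h3.2.1]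
  · rw [← rm_apply_ne G h4]
    exact h3.2.2.2

lemma Dn_Us (hdown : ∀ G k, 0 < x G → 0 < x (rm G k)) {j : ℕ} {L : ι → ι → St ι → ℝ}
    (hL : Skew x j L) {C : St ι} (hC : 0 < x C) : Dn x (Us x L) C = 0 := by
  have h1 : Dn x (Us x L) C = ∑ k, ∑ l, if C k ≠ none ∧ C l ≠ none then
      x (rm (rm C k) l) * L l k (rm (rm C k) l) else 0 := by
    refine sum_congr rfl fun k _ => ?_
    simp only [dn_eq, Us]
    by_cases hk : C k = none
    · simp [hk]
    · rw [if_pos hk, mul_div_cancel₀ _ (hdown C k hC).ne']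
      refine sum_congr rfl fun l _ => ?_
      simp only [dn_eq]
      by_cases hl : l = k
      · subst hl
        have := hL.2 l l (rm (rm C l) l)
        have h0 : L l l (rm (rm C l) l) = 0 := by linarith
        simp [h0]
      · rw [rm_apply_ne C hl]
        simp [hk]
  have h2 : Dn x (Us x L) C = -Dn x (Us x L) C := by
    conv_rhs => rw [h1, sum_comm]
    rw [h1, ← sum_neg_distrib]
    refine sum_congr rfl fun k _ => ?_
    rw [← sum_neg_distrib]
    refine sum_congr rfl fun l _ => ?_
    rw [rm_comm C l k, hL.2 k l]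
    by_cases hk : C k = none <;> by_cases hl : C l = none <;> simp [hk, hl]
  linarith

lemma Ad.zero {j : ℕ} {c : ι → St ι → ℝ} (hc : Ad x j c) (a : ι) (H : St ι) (h : x H = 0) :
    c a H = 0 := hc a H fun h' => h'.1.ne' h

lemma Ad.ne {j : ℕ} {c : ι → St ι → ℝ} (hc : Ad x j c) {a : ι} {H : St ι} (h : c a H ≠ 0) :
    0 < x H ∧ lev H = j ∧ H a = none := by
  by_contra h'
  exact h (hc a H h')

/-- The descent step. -/
lemma step (hx : ∀ G, 0 ≤ x G) (hdown : ∀ G k, 0 < x G → 0 < x (rm G k))
    (hfull : ∀ G, 0 < x G → ∃ a, G a = none) (hS : StarAll x) (j : ℕ) (hP : PP x (j + 1)) :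
    PP x j := by
  intro O
  obtain ⟨c, hc, hrow, hopt⟩ := ls_one hx hfull j O
  refine ⟨c, hc, hrow, ?_⟩
  set O' : St ι → ℝ := fun G => Dn x c G / x G with hO'
  have hO0 : ∀ G, x G = 0 → O' G = 0 := fun G h => by simp [hO', h]
  obtain ⟨c', hc', hrow', hle⟩ := hP O'
  have hsum : ∀ G, ∑ a, c' a G = O' G := by
    intro G
    by_cases h : 0 < x G ∧ lev G = j + 1
    · exact hrow' G h.1 h.2
    · rw [sum_eq_zero fun a _ => hc' a G fun h' => h ⟨h'.1, h'.2.1⟩]
      by_contra h0
      have h1 : x G ≠ 0 := fun h1 => h0 (hO0 G h1).symm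
      have h2 : Dn x c G ≠ 0 := fun h2 => h0 (by simp [hO', h2])
      obtain ⟨k, hk, hk'⟩ := Dn_ne h2
      exact h ⟨lt_of_le_of_ne (hx G) (Ne.symm h1), by rw [← lev_rm hk, (hc.ne hk').2.1]⟩
  simp only [hsum] at hle
  set C : ι → ι → St ι → ℝ := fun k m H => if H k = none ∧ k ≠ m then c m H else 0 with hC
  obtain ⟨L, hL, hopt2⟩ := ls_two hx j fun k m H => C k m H - up k (c' m) H
  have hU := Us_adm hx hL
  set n : ι → St ι → ℝ := fun m G => c' m G + Us x L m G with hn
  have hnA : Ad x (j + 1) n := fun m G h => by simp [hn, hc' m G h, hU m G h]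
  set U : ι → ι → St ι → ℝ := fun k m => up k (n m) with hUdef
  set D : ι → ι → St ι → ℝ := fun k m H => C k m H - U k m H with hD
  have hDs : ∀ k m H, ¬ (0 < x H ∧ lev H = j ∧ H k = none ∧ H m = none) → D k m H = 0 := by
    intro k m H h
    have a1 : C k m H = 0 := by
      simp only [hC]
      split_ifs with h1
      · exact hc m H fun h2 => h ⟨h2.1, h2.2.1, h1.1, h2.2.2⟩
      · rfl
    have a2 : U k m H = 0 := by
      by_contra h0
      obtain ⟨G, hG, rfl, hG'⟩ := up_ne h0
      obtain ⟨b1, b2, b3⟩ := hnA.ne hG'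
      have b4 : m ≠ k := by
        rintro rfl
        exact hG b3
      refine h ⟨hdown G k b1, ?_, rm_apply G k, by rw [rm_apply_ne G b4, b3]⟩
      have := lev_rm hG
      omega
    simp [hD, a1, a2]
  have hskew : Skew x j fun k m H => D k m H - D m k H := by
    refine ⟨fun k m H h => ?_, fun k m H => by ring⟩
    show D k m H - D m k H = 0
    rw [hDs k m H h, hDs m k H fun h' => h ⟨h'.1, h'.2.1, h'.2.2.2, h'.2.2.1⟩, sub_zero]
  have hDL : ∀ L', Skew x j L' → ip2 x D L' = ip2 x L L' := by
    intro L' hL'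
    have b1 := hopt2 L' hL'
    rw [Us_adj hU.zero] at b1
    have b2 : D = fun k m H => (C k m H - up k (c' m) H) - up k (Us x L m) H := by
      funext k m H
      simp only [hD, hUdef, hn, up_add]
      ring
    rw [b2, ip2_sub_left]
    linarith
  have a7 : 0 ≤ ip2 x D (fun k m => D m k) + 2 * ip2 x D L := by
    have b1 := hDL _ hskew
    rw [ip2_sub_right D (fun k m => D m k) D, ip2_sub_right D (fun k m => D m k) L] at b1
    have b2 : ip2 x L (fun k m => D m k) = -ip2 x L D := by
      rw [← ip2_tr]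
      unfold ip2 ip
      simp only [← sum_neg_distrib]
      refine sum_congr rfl fun k _ => sum_congr rfl fun m _ => sum_congr rfl fun H _ => ?_
      rw [hL.2 m k H]
      ring
    have b3 : 0 ≤ ip2 x D D := sum_nonneg fun k _ => sum_nonneg fun m _ => ip_nonneg hx _
    have b4 := ip2_comm (x := x) D L
    linarith
  have e1 : ip2 x D (fun k m => D m k) = ip2 x C (fun k m => C m k) -
      2 * ip2 x C (fun k m => U m k) + ip2 x U fun k m => U m k := by
    have b1 : ip2 x U (fun k m => C m k) = ip2 x C fun k m => U m k := by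
      rw [ip2_comm, ip2_tr]
    have b2 : ip2 x D (fun k m => D m k) =
        ip2 x (fun k m H => C k m H - U k m H) fun k m H => C m k H - U m k H := rfl
    rw [b2, ip2_sub_left, ip2_sub_right, ip2_sub_right]
    change ip2 x C (fun k m => C m k) - ip2 x C (fun k m => U m k) -
      (ip2 x U (fun k m => C m k) - ip2 x U fun k m => U m k) = _
    linarith
  have e2 : ip2 x D L = ip2 x C L - ip2 x U L := ip2_sub_left _ _ _
  have a1 : ip2 x C (fun k m => C m k) =
      ip x (fun H => ∑ a, c a H) (fun H => ∑ a, c a H) - ip1 x c c := by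
    rw [ip_sum_right, ip1, ← sum_sub_distrib]
    refine sum_congr rfl fun k _ => ?_
    rw [ip_comm _ (c k), ip_sum_right]
    have b1 : ∀ m, ip x (C k m) (C m k) = ip x (c k) (c m) - if k = m then ip x (c k) (c k) else 0 := by
      intro m
      by_cases hkm : k = m
      · subst hkm
        simp [hC, ip]
      · rw [if_neg hkm, sub_zero]
        refine sum_congr rfl fun H _ => ?_
        simp only [hC]
        by_cases h1 : c k H = 0
        · simp [h1]
        · by_cases h2 : c m H = 0
          · simp [h2]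
          · rw [if_pos ⟨(hc.ne h1).2.2, hkm⟩, if_pos ⟨(hc.ne h2).2.2, Ne.symm hkm⟩]
            ring
    simp only [b1, sum_sub_distrib, sum_ite_eq, mem_univ, if_true]
  have a2 : ip2 x C (fun k m => U m k) = ip x O' fun G => ∑ k, n k G := by
    rw [ip_sum_right]
    refine sum_congr rfl fun k _ => ?_
    rw [ip_comm O', hO', ip_Dn (hnA.zero k)]
    refine sum_congr rfl fun m _ => ?_
    rw [ip_comm]
    refine sum_congr rfl fun H _ => ?_
    simp only [hC, hUdef]
    by_cases h0 : up m (n k) H = 0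
    · simp [h0]
    · obtain ⟨G, hG, rfl, hG'⟩ := up_ne h0
      obtain ⟨-, -, b3⟩ := hnA.ne hG'
      have b4 : k ≠ m := by
        rintro rfl
        exact hG b3
      rw [if_pos ⟨by rw [rm_apply_ne G b4, b3], b4⟩]
  have a2' : (ip x O' fun G => ∑ k, n k G) = ip x O' O' + ip x O' fun G => ∑ k, Us x L k G := by
    rw [← ip_add_right]
    simp only [hn, sum_add_distrib, hsum]
  have a3 : (ip x O' fun G => ∑ k, Us x L k G) = ip2 x C L := by
    have b1 := hopt (fun k H => ∑ m, L k m H)
      (fun k H h => sum_eq_zero fun m _ => hL.1 k m H fun h' => h ⟨h'.1, h'.2.1, h'.2.2.1⟩)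
      (fun H => by
        have : ∑ k, ∑ m, L k m H = -∑ k, ∑ m, L k m H := by
          conv_rhs => rw [sum_comm]
          simp only [← sum_neg_distrib]
          exact sum_congr rfl fun k _ => sum_congr rfl fun m _ => hL.2 k m H
        linarith)
    rw [ip_Dn hO0] at b1
    have b2 : (ip x O' fun G => ∑ k, Us x L k G) =
        ∑ k, ip x (up k O') fun H => ∑ m, L k m H := by
      rw [ip_sum_right]
      simp only [ip_sum_right]
      rw [sum_comm]
      exact sum_congr rfl fun m _ => ip_Dn hO0 _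
    have b3 : ip1 x c (fun k H => ∑ m, L k m H) = -ip2 x C L := by
      unfold ip1 ip2
      simp only [ip_sum_right]
      rw [sum_comm]
      simp only [← sum_neg_distrib]
      refine sum_congr rfl fun k _ => sum_congr rfl fun m _ => ?_
      unfold ip
      rw [← sum_neg_distrib]
      refine sum_congr rfl fun H _ => ?_
      rw [hL.2 m k H]
      simp only [hC]
      split_ifs with h
      · ring
      · have : L k m H = 0 := by
          by_cases hkm : k = m
          · subst hkm
            have := hL.2 k k H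
            linarith
          · exact hL.1 k m H fun h' => h ⟨h'.2.2.1, hkm⟩
        simp [this]
    linarith
  have a4 : ip1 x n n - 2 * ip2 x U L ≤ ip1 x c' c' := by
    rw [hUdef, ← Us_adj hnA.zero]
    unfold ip1 ip
    simp only [mul_sum, ← sum_sub_distrib]
    refine sum_le_sum fun k _ => sum_le_sum fun G _ => ?_
    simp only [hn]
    nlinarith [mul_nonneg (hx G) (sq_nonneg (Us x L k G))]
  have a5 := star_op hS n fun k G h => ⟨(hnA.ne h).2.2, (hnA.ne h).1⟩
  change ip2 x U (fun k m => U m k) ≤ _ at a5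
  have a5' : Qf x n = Qf x c' := by
    refine sum_congr rfl fun G _ => ?_
    rcases (hx G).eq_or_lt with h | h
    · simp [← h]
    · have : Dn x n G = Dn x c' G + Dn x (Us x L) G := Dn_add c' (Us x L) G
      rw [this, Dn_Us hdown hL h, add_zero]
  have a8 : Qf x c = ip x O' O' := by
    rw [hO', ip_div hO0]
    refine sum_congr rfl fun G _ => ?_
    simp only [hO']
    ring
  linarith

lemma PP_all (hx : ∀ G, 0 ≤ x G) (hdown : ∀ G k, 0 < x G → 0 < x (rm G k))
    (hfull : ∀ G, 0 < x G → ∃ a, G a = none) (hS : StarAll x) (j : ℕ) : PP x j := by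
  have key : ∀ d j : ℕ, Fintype.card ι < j + d → PP x j := by
    intro d
    induction d with
    | zero =>
      intro j hj O
      refine ⟨0, fun _ _ _ => rfl, fun H _ h => ?_, ?_⟩
      · have : lev H ≤ Fintype.card ι := card_le_univ _
        omega
      · simp [ip1, ip, Qf, Dn, dn_eq]
    | succ d ih => exact fun j hj => step hx hdown hfull hS j (ih (j + 1) (by omega))
  exact key (Fintype.card ι + 1) j (by omega)

/-- The conclusion of the algebraic half. -/
theorem fin (hx : ∀ G, 0 ≤ x G) (hdown : ∀ G k, 0 < x G → 0 < x (rm G k))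
    (hfull : ∀ G, 0 < x G → ∃ a, G a = none) (hS : StarAll x) (h0 : x (fun _ => none) = 1) :
    1 ≤ ∑ a : ι, 1 / (1 + 1 / x (pt a true) + 1 / x (pt a false)) := by
  obtain ⟨c, hc, hrow, hle⟩ := PP_all hx hdown hfull hS 0 fun _ => 1
  have hz : ∀ a H, H ≠ (fun _ => none) → c a H = 0 := by
    intro a H hH
    refine hc a H fun h => hH ?_
    funext i
    have h1 := card_eq_zero.mp h.2.1
    by_contra hi
    have : i ∈ univ.filter fun i => H i ≠ none := mem_filter.mpr ⟨mem_univ _, hi⟩
    rw [h1] at this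
    exact notMem_empty _ this
  have hs : ∑ a, c a (fun _ => none) = 1 := hrow _ (by rw [h0]; exact one_pos) (by simp [lev])
  have hip : ∀ f g : St ι → ℝ, (∀ H, H ≠ (fun _ => none) → g H = 0) → ip x f g = f (fun _ => none) * g (fun _ => none) := by
    intro f g hg
    unfold ip
    rw [sum_eq_single (fun _ => none) (fun H _ hH => by simp [hg H hH]) (by simp), h0, one_mul]
  have hDn : ∀ (a : ι) (s : Bool), Dn x c (pt a s) = c a (fun _ => none) := by
    intro a s
    unfold Dn pt
    rw [sum_eq_single a (fun m _ hm => by simp [dn_eq, hm]) (by simp)]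
    simp only [dn_eq]
    rw [if_pos (by simp), rm_update (H := fun _ => none) (k := a) rfl, h0, one_mul]
  have hQ : Qf x c = ∑ a, (c a (fun _ => none) / x (pt a true) +
      c a (fun _ => none) / x (pt a false)) * c a (fun _ => none) := by
    have b1 : Qf x c = ip x (fun G => Dn x c G / x G) fun G => Dn x c G / x G := by
      rw [ip_div fun G h => by simp [h]]
      exact sum_congr rfl fun G _ => by ring
    rw [b1, ip_Dn fun G h => by simp [h]]
    refine sum_congr rfl fun a _ => ?_
    rw [hip _ _ (hz a)]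
    simp only [up, if_true]
    change (Dn x c (pt a true) / x (pt a true) + Dn x c (pt a false) / x (pt a false)) * _ = _
    rw [hDn a true, hDn a false]
  rw [hQ, hip _ _ fun H hH => sum_eq_zero fun a _ => hz a H hH, hs, ip1, ← sum_add_distrib] at hle
  have h2 : ∑ a, 2 * c a (fun _ => none) ≤ ∑ a, ((ip x (c a) (c a) + (c a (fun _ => none) / x (pt a true) +
      c a (fun _ => none) / x (pt a false)) * c a (fun _ => none)) +
      1 / (1 + 1 / x (pt a true) + 1 / x (pt a false))) := by
    refine sum_le_sum fun a _ => ?_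
    rw [hip _ _ (hz a)]
    have p1 : 0 ≤ 1 / x (pt a true) := one_div_nonneg.mpr (hx _)
    have p2 : 0 ≤ 1 / x (pt a false) := one_div_nonneg.mpr (hx _)
    rw [div_eq_mul_one_div (c a (fun _ => none)), div_eq_mul_one_div (c a (fun _ => none))]
    generalize 1 / x (pt a true) = p at p1 ⊢
    generalize 1 / x (pt a false) = q at p2 ⊢
    have hw : 0 < 1 + p + q := by positivity
    have : 0 ≤ (c a (fun _ => none) * (1 + p + q) - 1) ^ 2 / (1 + p + q) := by positivity
    have e : (c a (fun _ => none) * (1 + p + q) - 1) ^ 2 / (1 + p + q) =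
        c a (fun _ => none) * c a (fun _ => none) + (c a (fun _ => none) * p + c a (fun _ => none) * q) * c a (fun _ => none) + 1 / (1 + p + q) - 2 * c a (fun _ => none) := by
      field_simp
      ring
    linarith
  rw [sum_add_distrib, ← mul_sum, hs] at h2
  linarith

end

end Alg

variable {ι : Type} [Fintype ι] [DecidableEq ι]

theorem up_adj (k : ι) (f h : St ι → ℝ) : ∑ H, up k f H * h H = ∑ G, f G * dn k h G :=
  (Alg.adj k f h).symm

theorem alg (x : St ι → ℝ) (h0 : ∀ G, 0 ≤ x G) (h1 : x (fun _ => none) = 1)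
    (hdn : ∀ G k, 0 < x G → 0 < x (update G k none))
    (htop : ∀ G, (∀ i, G i ≠ none) → x G = 0)
    (hs : ∀ n : ι → St ι → ℝ, (∀ k G, n k G ≠ 0 → G k = none ∧ 0 < x G) → Star x n) :
    1 ≤ ∑ a, 1 / (1 + 1 / x (pt a true) + 1 / x (pt a false)) := by
  refine Alg.fin h0 hdn (fun G hG => ?_) hs h1
  by_contra hc
  exact hG.ne' (htop G fun i hi => hc ⟨i, hi⟩)

end Pool.Agent.Lib.MP_70b2ae_gt.Bg
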