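import Mathlib

/-! Definitions for the proof of the affine plank inequality. -/

namespace Pool.Agent.Lib.MP_70b2ae_gt.Bg

open MeasureTheory Function

/-- sign vectors defined on a subset of the coordinates -/
abbrev St (ι : Type) : Type := ι → Option Bool

section
variable {ι : Type} [Fintype ι] [DecidableEq ι]

/-- sum over the two ways of giving a sign to the free coordinate `k` -/
def up (k : ι) (f : St ι → ℝ) (H : St ι) : ℝ :=
  if H k = none then f (update H k (some true)) + f (update H k (some false)) else 0

/-- forget the sign of the coordinate `k` -/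
def dn (k : ι) (f : St ι → ℝ) (G : St ι) : ℝ :=
  if G k = none then 0 else f (update G k none)

/-- the state with the single sign `s` at `a` -/
def pt (a : ι) (s : Bool) : St ι := update (fun _ => none) a (some s)

/-- the quadratic inequality between the weights `x` and the family `n` -/
def Star (x : St ι → ℝ) (n : ι → St ι → ℝ) : Prop :=
  ∑ H, x H * ∑ k, ∑ m, up k (n m) H * up m (n k) H ≤
    ∑ G, x G * ∑ k, n k G ^ 2 + ∑ C, (∑ k, dn k (fun G => x G * n k G) C) ^ 2 / x C

end

/-- Lebesgue measure with a unit atom at the origin -/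
noncomputable def nu : Measure ℝ := Measure.dirac 0 + volume

instance nu_sf : SigmaFinite nu := by
  unfold nu
  infer_instance

/-- the density of the atom -/
noncomputable def dl (t : ℝ) : ℝ := if t = 0 then 1 else 0

/-- the sign of a Boolean -/
def sg (s : Bool) : ℝ := if s then 1 else -1

/-- lower end of the interval -/
def lo (R : ℝ) (s : Bool) (z : ℝ) : ℝ := if s then z else -R

/-- upper end of the interval -/
def hi (R : ℝ) (s : Bool) (z : ℝ) : ℝ := if s then R else -z

/-- the density `exp (s t / 2)` on the interval between `s z` and `s R`, without the atom -/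
noncomputable def pw (R : ℝ) (s : Bool) (z t : ℝ) : ℝ :=
  if t ≠ 0 ∧ lo R s z < t ∧ t ≤ hi R s z then Real.exp (sg s * t / 2) else 0

/-- the density attached to one coordinate of a state -/
noncomputable def pS (R : ℝ) (o : Option Bool) (z : ℝ) : ℝ → ℝ :=
  match o with
  | none => dl
  | some s => pw R s z

/-- measurable, bounded, with bounded support -/
def Ok (p : ℝ → ℝ) : Prop := Measurable p ∧ ∃ M : ℝ, ∀ t, |p t| ≤ M ∧ (M < |t| → p t = 0)

variable {n : ℕ}

/-- the multilinear functional -/
noncomputable def Phi (g : (Fin n → ℝ) → ℝ) (p : Fin n → ℝ → ℝ) : ℝ :=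
  ∫ u, Real.exp (-g u) * ∏ i, p i (u i) ∂(Measure.pi fun _ : Fin n => nu)

/-- the integral over a shifted orthant -/
noncomputable def W (g : (Fin n → ℝ) → ℝ) (R : ℝ) (C : St (Fin n)) (z : Fin n → ℝ) : ℝ :=
  Phi g fun i => pS R (C i) (z i)

/-- the integral over an orthant -/
noncomputable def X (g : (Fin n → ℝ) → ℝ) (R : ℝ) (G : St (Fin n)) : ℝ :=
  Phi g fun i => pS R (G i) 0

/-- a normalised Lipschitz midpoint convex function -/
structure Adm (B : ℝ) (g : (Fin n → ℝ) → ℝ) : Prop where
  pos : 0 ≤ B
  zero : g 0 = 0
  lip : ∀ u v, g u - g v ≤ B * ∑ i, |u i - v i|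
  mid : ∀ u v, g (fun i => (u i + v i) / 2) ≤ (g u + g v) / 2

end Pool.Agent.Lib.MP_70b2ae_gt.Bg
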