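import Pool.Agent.Lib.MP_70b2ae_gt.BgLim

/-! The affine plank inequality. -/

namespace Pool.Agent.Lib.MP_70b2ae_gt.Bg

variable {n : ℕ}

theorem geo_sg_sq (s : Bool) : sg s * sg s = 1 := by
  cases s <;> simp [sg]

theorem geo_sg_le (s : Bool) (t : ℝ) : sg s * t ≤ |t| := by
  cases s
  · simpa [sg] using neg_le_abs t
  · simpa [sg] using le_abs_self t

theorem geo_sep (K : Set (Fin n → ℝ)) (hc : IsCompact K) (hv : Convex ℝ K)
    (hcov : ∀ y ∈ K, ∃ i, |y i| < 1) (s : Fin n → Bool) :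
    ∃ (c : Fin n → ℝ) (δ : ℝ), 0 < δ ∧ (∀ i, 0 ≤ c i) ∧
      ∀ y ∈ K, δ ≤ ∑ i, c i - ∑ i, sg (s i) * c i * y i := by
  classical
  let D : Set (Fin n → ℝ) := {b | ∀ i, 1 ≤ sg (s i) * b i}
  have hDv : Convex ℝ D := by
    intro x hx z hz p q hp hq hpq i
    have h1 := mul_le_mul_of_nonneg_left (hx i) hp
    have h2 := mul_le_mul_of_nonneg_left (hz i) hq
    simp only [Pi.add_apply, Pi.smul_apply, smul_eq_mul]
    nlinarith
  have hDc : IsClosed D := by
    have : D = ⋂ i, {b : Fin n → ℝ | 1 ≤ sg (s i) * b i} := by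
      ext b
      simp [D]
    rw [this]
    exact isClosed_iInter fun i => isClosed_le continuous_const (by fun_prop)
  have hdis : Disjoint K D := by
    rw [Set.disjoint_left]
    intro y hy hD
    obtain ⟨i, hi⟩ := hcov y hy
    have h1 := hD i
    have h2 := geo_sg_le (s i) (y i)
    linarith
  obtain ⟨f, u, v, hK, huv, hD⟩ := geometric_hahn_banach_compact_closed hv hc hDv hDc hdis
  let c : Fin n → ℝ := fun i => f (Pi.single i (sg (s i)))
  have hf : ∀ y : Fin n → ℝ, f y = ∑ i, sg (s i) * c i * y i := by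
    intro y
    have hy : y = ∑ i, (sg (s i) * y i) • (Pi.single i (sg (s i)) : Fin n → ℝ) := by
      ext j
      rw [Finset.sum_apply, Finset.sum_eq_single j]
      · simp only [Pi.smul_apply, Pi.single_eq_same, smul_eq_mul]
        linear_combination (-y j) * geo_sg_sq (s j)
      · intro i _ hij
        simp [Pi.single_eq_of_ne hij.symm]
      · simp
    conv_lhs => rw [hy]
    rw [map_sum]
    refine Finset.sum_congr rfl fun i _ => ?_
    rw [map_smul, smul_eq_mul]
    simp only [c]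
    ring
  have h0 : f (fun i => sg (s i)) = ∑ i, c i := by
    rw [hf]
    refine Finset.sum_congr rfl fun i _ => ?_
    linear_combination (c i) * geo_sg_sq (s i)
  have hb0 : (fun i => sg (s i)) ∈ D := fun i => (geo_sg_sq (s i)).ge
  refine ⟨c, v - u, by linarith, fun i => ?_, fun y hy => ?_⟩
  · by_contra hneg
    have hneg : c i < 0 := not_le.mp hneg
    have hpos : 0 < f (fun i => sg (s i)) - v := sub_pos.mpr (hD _ hb0)
    let t : ℝ := (f (fun i => sg (s i)) - v) / (-c i)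
    have ht : 0 ≤ t := div_nonneg hpos.le (by linarith)
    have hmem : (fun j => sg (s j)) + t • (Pi.single i (sg (s i)) : Fin n → ℝ) ∈ D := by
      intro j
      simp only [Pi.add_apply, Pi.smul_apply, smul_eq_mul]
      by_cases hj : j = i
      · subst hj
        rw [Pi.single_eq_same]
        have := geo_sg_sq (s j)
        nlinarith
      · rw [Pi.single_eq_of_ne hj]
        have := geo_sg_sq (s j)
        nlinarith
    have h3 := hD _ hmem
    rw [map_add, map_smul, smul_eq_mul] at h3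
    have h4 : t * c i = -(f (fun i => sg (s i)) - v) := by
      have hne : c i ≠ 0 := hneg.ne
      simp only [t]
      field_simp
    have h5 : t * f (Pi.single i (sg (s i))) = t * c i := rfl
    linarith
  · have h1 := hK y hy
    have h2 := hD _ hb0
    rw [← hf y, ← h0]
    linarith

theorem bang (K : Set (Fin n → ℝ)) (hc : IsCompact K) (hv : Convex ℝ K) (hne : K.Nonempty)
    (hcov : ∀ y ∈ K, ∃ i, |y i| < 1) (yp ym : Fin n → Fin n → ℝ) (hp : ∀ a, yp a ∈ K)
    (hm : ∀ a, ym a ∈ K) (hlt : ∀ a, ym a a < yp a a) : 1 ≤ ∑ a, 2 / (yp a a - ym a a) := by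
  have hex : ∀ u : Fin n → ℝ, ∃ y ∈ K, ∀ z ∈ K, ∑ i, u i * z i ≤ ∑ i, u i * y i := by
    intro u
    obtain ⟨y, hy, hmax⟩ := hc.exists_isMaxOn hne (f := fun z => ∑ i, u i * z i)
      (Continuous.continuousOn (by fun_prop))
    exact ⟨y, hy, fun z hz => hmax hz⟩
  choose Y hYK hY using hex
  obtain ⟨B, hB⟩ := hc.isBounded.exists_norm_le
  have hB0 : 0 ≤ B := by
    obtain ⟨y, hy⟩ := hne
    exact (norm_nonneg y).trans (hB y hy)
  have hBi : ∀ y ∈ K, ∀ i, |y i| ≤ B := fun y hy i => (norm_le_pi_norm y i).trans (hB y hy)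
  let g : (Fin n → ℝ) → ℝ := fun u => (∑ i, u i * Y u i) / 2
  have hg : Adm B g := by
    refine ⟨hB0, by simp [g], fun u v => ?_, fun u v => ?_⟩
    · have h1 := hY v (Y u) (hYK u)
      have h2 : ∑ i, u i * Y u i - ∑ i, v i * Y u i ≤ B * ∑ i, |u i - v i| := by
        rw [← Finset.sum_sub_distrib, Finset.mul_sum]
        refine Finset.sum_le_sum fun i _ => ?_
        rw [← sub_mul]
        calc (u i - v i) * Y u i ≤ |(u i - v i) * Y u i| := le_abs_self _
          _ = |u i - v i| * |Y u i| := abs_mul _ _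
          _ ≤ |u i - v i| * B := mul_le_mul_of_nonneg_left (hBi _ (hYK u) i) (abs_nonneg _)
          _ = B * |u i - v i| := mul_comm _ _
      have h3 : 0 ≤ B * ∑ i, |u i - v i| :=
        mul_nonneg hB0 (Finset.sum_nonneg fun i _ => abs_nonneg _)
      simp only [g]
      linarith
    · have h1 := hY u _ (hYK fun i => (u i + v i) / 2)
      have h2 := hY v _ (hYK fun i => (u i + v i) / 2)
      have h3 : ∑ i, (u i + v i) / 2 * Y (fun i => (u i + v i) / 2) i =
          (∑ i, u i * Y (fun i => (u i + v i) / 2) i +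
            ∑ i, v i * Y (fun i => (u i + v i) / 2) i) / 2 := by
        rw [← Finset.sum_add_distrib, Finset.sum_div]
        refine Finset.sum_congr rfl fun i _ => ?_
        ring
      simp only [g]
      rw [h3]
      linarith
  refine core hg (fun s M => ?_) yp ym (fun a u => ?_) (fun a u => ?_) hlt
  · obtain ⟨c, δ, hδ, hc0, hsep⟩ := geo_sep K hc hv hcov s
    let j : ℝ := 2 * |M| / δ
    have hj : 0 ≤ j := by positivity
    have hjδ : j * δ = 2 * |M| := by
      simp only [j]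
      field_simp
    refine ⟨fun i => j * c i, fun i => mul_nonneg hj (hc0 i), ?_⟩
    have h1 := mul_le_mul_of_nonneg_left (hsep _ (hYK fun i => sg (s i) * (j * c i))) hj
    have h2 : ∑ i, sg (s i) * (j * c i) * Y (fun i => sg (s i) * (j * c i)) i =
        j * ∑ i, sg (s i) * c i * Y (fun i => sg (s i) * (j * c i)) i := by
      rw [Finset.mul_sum]
      refine Finset.sum_congr rfl fun i _ => ?_
      ring
    have h3 := le_abs_self M
    simp only [g]
    rw [h2, ← Finset.mul_sum]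
    rw [mul_sub] at h1
    linarith
  · have := hY u _ (hp a)
    simp only [g]
    linarith
  · have := hY u _ (hm a)
    simp only [g]
    linarith

theorem geo_theta (K : Set (Fin n → ℝ)) (hc : IsCompact K) (hne : K.Nonempty)
    (hcov : ∀ y ∈ K, ∃ i, |y i| < 1) :
    ∃ θ : ℝ, 0 < θ ∧ θ < 1 ∧ ∀ y ∈ K, ∃ i, |y i| < θ := by
  have : Nonempty {θ : ℝ // θ < 1} := ⟨⟨0, zero_lt_one⟩⟩
  obtain ⟨θ, hθ⟩ := hc.elim_directed_cover
    (fun θ : {θ : ℝ // θ < 1} => ⋃ i, {y : Fin n → ℝ | |y i| < θ.1})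
    (fun θ => isOpen_iUnion fun i => isOpen_lt (by fun_prop) continuous_const)
    (by
      intro y hy
      obtain ⟨i, hi⟩ := hcov y hy
      obtain ⟨θ, h1, h2⟩ := exists_between hi
      exact Set.mem_iUnion.mpr ⟨⟨θ, h2⟩, Set.mem_iUnion.mpr ⟨i, h1⟩⟩)
    (by
      intro p q
      refine ⟨⟨max p.1 q.1, max_lt p.2 q.2⟩, ?_, ?_⟩
      · refine Set.iUnion_mono fun i y hy => ?_
        exact lt_of_lt_of_le (show |y i| < p.1 from hy) (le_max_left p.1 q.1)
      · refine Set.iUnion_mono fun i y hy => ?_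
        exact lt_of_lt_of_le (show |y i| < q.1 from hy) (le_max_right p.1 q.1))
  have h : ∀ y ∈ K, ∃ i, |y i| < θ.1 := fun y hy => by
    obtain ⟨i, hi⟩ := Set.mem_iUnion.mp (hθ hy)
    exact ⟨i, hi⟩
  obtain ⟨y, hy⟩ := hne
  obtain ⟨i, hi⟩ := h y hy
  exact ⟨θ.1, (abs_nonneg _).trans_lt hi, θ.2, h⟩

theorem bang_lt (K : Set (Fin n → ℝ)) (hc : IsCompact K) (hv : Convex ℝ K) (hne : K.Nonempty)
    (hcov : ∀ y ∈ K, ∃ i, |y i| < 1) (yp ym : Fin n → Fin n → ℝ) (hp : ∀ a, yp a ∈ K)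
    (hm : ∀ a, ym a ∈ K) (hlt : ∀ a, ym a a < yp a a) : 1 < ∑ a, 2 / (yp a a - ym a a) := by
  obtain ⟨θ, h0, h1, hθ⟩ := geo_theta K hc hne hcov
  have hi0 : 0 < θ⁻¹ := inv_pos.mpr h0
  have h := bang ((fun y : Fin n → ℝ => θ⁻¹ • y) '' K) (hc.image (by fun_prop)) (hv.smul θ⁻¹)
    (hne.image _)
    (by
      rintro _ ⟨y, hy, rfl⟩
      obtain ⟨i, hi⟩ := hθ y hy
      refine ⟨i, ?_⟩
      simp only [Pi.smul_apply, smul_eq_mul, abs_mul, abs_of_pos hi0]
      rw [inv_mul_lt_iff₀ h0, mul_one]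
      exact hi)
    (fun a => θ⁻¹ • yp a) (fun a => θ⁻¹ • ym a) (fun a => ⟨_, hp a, rfl⟩)
    (fun a => ⟨_, hm a, rfl⟩)
    (fun a => by
      simp only [Pi.smul_apply, smul_eq_mul]
      exact mul_lt_mul_of_pos_left (hlt a) hi0)
  have h2 : ∑ a, 2 / ((θ⁻¹ • yp a) a - (θ⁻¹ • ym a) a) = θ * ∑ a, 2 / (yp a a - ym a a) := by
    rw [Finset.mul_sum]
    refine Finset.sum_congr rfl fun a _ => ?_
    have hne' : yp a a - ym a a ≠ 0 := (sub_pos.mpr (hlt a)).ne'
    have hθ0 : θ ≠ 0 := h0.ne'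
    simp only [Pi.smul_apply, smul_eq_mul]
    rw [← mul_sub]
    field_simp
  rw [h2] at h
  by_contra hS
  have hS := not_lt.mp hS
  nlinarith

theorem geo_width {d : ℕ} (C : Set (EuclideanSpace ℝ (Fin d))) (hc : IsCompact C)
    (hi : (interior C).Nonempty) (a : EuclideanSpace ℝ (Fin d)) (ha : a ≠ 0) :
    ∃ xp ∈ C, ∃ xm ∈ C, inner ℝ a xm < inner ℝ a xp ∧
      ∀ x ∈ C, inner ℝ a xm ≤ inner ℝ a x ∧ inner ℝ a x ≤ inner ℝ a xp := by
  have hne : C.Nonempty := hi.mono interior_subset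
  have hcont : Continuous fun x : EuclideanSpace ℝ (Fin d) => inner ℝ a x := by fun_prop
  obtain ⟨xp, hxp, hmax⟩ := hc.exists_isMaxOn hne hcont.continuousOn
  obtain ⟨xm, hxm, hmin⟩ := hc.exists_isMinOn hne hcont.continuousOn
  refine ⟨xp, hxp, xm, hxm, ?_, fun x hx => ⟨hmin hx, hmax hx⟩⟩
  obtain ⟨x0, hx0⟩ := hi
  have hnh : C ∈ nhds x0 := mem_interior_iff_mem_nhds.mp hx0
  have hcf : Continuous fun δ : ℝ => x0 + δ • a := by fun_prop
  have hev : ∀ᶠ δ : ℝ in nhds 0, x0 + δ • a ∈ C := by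
    have := hcf.tendsto 0
    simp only [zero_smul, add_zero] at this
    exact this hnh
  obtain ⟨δ, hδ, hmem⟩ := hev.exists_gt
  have h1 : inner ℝ a xm ≤ inner ℝ a x0 := hmin (interior_subset hx0)
  have h2 : inner ℝ a (x0 + δ • a) ≤ inner ℝ a xp := hmax hmem
  rw [inner_add_right, real_inner_smul_right] at h2
  have h3 : 0 < inner ℝ a a := real_inner_self_pos.mpr ha
  have h4 := mul_pos hδ h3
  linarith

theorem slice :
    ∀ d : ℕ, 2 ≤ d →
    ∀ C : Set (EuclideanSpace ℝ (Fin d)),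
      IsCompact C → Convex ℝ C → (interior C).Nonempty →
    ∀ m : ℕ, ∀ a : Fin m → EuclideanSpace ℝ (Fin d), ∀ b : Fin m → ℝ,
      (∀ i, a i ≠ 0) →
      ∃ σ : Fin m → Bool, ∃ t : EuclideanSpace ℝ (Fin d),
        ∀ x ∈ C,
          t + (1 / ((m : ℝ) + 1)) • x ∈ C ∧
          ∀ i : Fin m,
            (σ i = true → inner ℝ (a i) (t + (1 / ((m : ℝ) + 1)) • x) ≤ b i) ∧
            (σ i = false → b i ≤ inner ℝ (a i) (t + (1 / ((m : ℝ) + 1)) • x)) := by
  intro d _ C hc hv hi m a b ha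
  classical
  have hne : C.Nonempty := hi.mono interior_subset
  choose xp hxp xm hxm hlt hbd using fun i => geo_width C hc hi (a i) (ha i)
  set lam : ℝ := 1 / ((m : ℝ) + 1) with hlam
  have hm0 : (0 : ℝ) ≤ m := Nat.cast_nonneg m
  have hl0 : 0 < lam := by positivity
  have hlm : 1 - lam = m * lam := by
    rw [hlam]
    field_simp
    ring
  have hl1 : 0 ≤ 1 - lam := by
    rw [hlm]
    positivity
  have key : ∃ z ∈ C, ∀ i, (1 - lam) * inner ℝ (a i) z + lam * inner ℝ (a i) (xp i) ≤ b i ∨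
      b i ≤ (1 - lam) * inner ℝ (a i) z + lam * inner ℝ (a i) (xm i) := by
    by_contra hcon
    push Not at hcon
    have hmpos : (0 : ℝ) < m := by
      obtain ⟨z, hz⟩ := hne
      obtain ⟨i, -⟩ := hcon z hz
      exact_mod_cast i.pos
    let w : Fin m → ℝ := fun i => lam * (inner ℝ (a i) (xp i) - inner ℝ (a i) (xm i)) / 2
    have hw : ∀ i, 0 < w i := fun i => by
      have := sub_pos.mpr (hlt i)
      simp only [w]
      positivity
    let c : Fin m → ℝ := fun i => b i - lam * (inner ℝ (a i) (xp i) + inner ℝ (a i) (xm i)) / 2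
    let Y : EuclideanSpace ℝ (Fin d) → Fin m → ℝ := fun z i =>
      ((1 - lam) * inner ℝ (a i) z - c i) / w i
    have hYc : Continuous Y := by
      simp only [Y]
      fun_prop
    have hYv : Convex ℝ (Y '' C) := by
      rintro _ ⟨x, hx, rfl⟩ _ ⟨z, hz, rfl⟩ p q hp hq hpq
      refine ⟨p • x + q • z, hv hx hz hp hq hpq, ?_⟩
      ext i
      simp only [Y, Pi.add_apply, Pi.smul_apply, smul_eq_mul, inner_add_right,
        real_inner_smul_right]
      have hq' : q = 1 - p := by linarith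
      rw [hq']
      ring
    have hdiff : ∀ i, Y (xp i) i - Y (xm i) i = 2 * m := by
      intro i
      have h1 : inner ℝ (a i) (xp i) - inner ℝ (a i) (xm i) ≠ 0 := (sub_pos.mpr (hlt i)).ne'
      have h2 : lam ≠ 0 := hl0.ne'
      simp only [Y]
      rw [← sub_div, div_eq_iff (hw i).ne', hlm]
      simp only [w]
      ring
    have h := bang_lt (Y '' C) (hc.image hYc) hYv (hne.image _)
      (by
        rintro _ ⟨z, hz, rfl⟩
        obtain ⟨i, h1, h2⟩ := hcon z hz
        refine ⟨i, ?_⟩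
        simp only [Y]
        rw [abs_div, abs_of_pos (hw i), div_lt_one (hw i), abs_lt]
        simp only [w, c]
        constructor <;> linarith)
      (fun i => Y (xp i)) (fun i => Y (xm i)) (fun i => ⟨_, hxp i, rfl⟩)
      (fun i => ⟨_, hxm i, rfl⟩)
      (fun i => by
        have := hdiff i
        linarith)
    simp only [hdiff, Finset.sum_const, Finset.card_univ, Fintype.card_fin, nsmul_eq_mul] at h
    have h3 : (m : ℝ) * (2 / (2 * m)) = 1 := by
      field_simp
    linarith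
  obtain ⟨z, hz, hkey⟩ := key
  refine ⟨fun i => decide ((1 - lam) * inner ℝ (a i) z + lam * inner ℝ (a i) (xp i) ≤ b i),
    (1 - lam) • z, fun x hx => ⟨hv hz hx hl1 hl0.le (by ring), fun i => ?_⟩⟩
  rw [inner_add_right, real_inner_smul_right, real_inner_smul_right]
  obtain ⟨h1, h2⟩ := hbd i x hx
  have h3 := mul_le_mul_of_nonneg_left h1 hl0.le
  have h4 := mul_le_mul_of_nonneg_left h2 hl0.le
  constructor
  · intro h
    have h := of_decide_eq_true h
    linarith
  · intro h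
    have h := of_decide_eq_false h
    rcases hkey i with h5 | h5
    · exact absurd h5 h
    · linarith

end Pool.Agent.Lib.MP_70b2ae_gt.Bg
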