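import Pool.Agent.Lib.MP_70b2ae_gt.BgStar

/-! Removing the truncation. -/

namespace Pool.Agent.Lib.MP_70b2ae_gt.Bg

open MeasureTheory Function Filter Topology

variable {n : ℕ} {B : ℝ} {g : (Fin n → ℝ) → ℝ}

theorem lim_pS_mono {R R' : ℝ} (h : R ≤ R') (o : Option Bool) (t : ℝ) :
    pS R o 0 t ≤ pS R' o 0 t := by
  cases o with
  | none => exact le_rfl
  | some s =>
    change pw R s 0 t ≤ pw R' s 0 t
    unfold pw
    by_cases h1 : t ≠ 0 ∧ lo R s 0 < t ∧ t ≤ hi R s 0
    · have h2 : t ≠ 0 ∧ lo R' s 0 < t ∧ t ≤ hi R' s 0 := by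
        obtain ⟨a, b, c⟩ := h1
        refine ⟨a, ?_, ?_⟩
        · cases s
          · simp only [lo, Bool.false_eq_true, if_false] at b ⊢
            linarith
          · simpa [lo] using b
        · cases s
          · simpa [hi] using c
          · simp only [hi, if_true] at c ⊢
            linarith
      rw [if_pos h1, if_pos h2]
    · rw [if_neg h1]
      split_ifs
      · exact (Real.exp_pos _).le
      · exact le_rfl

theorem lim_X_mono (hg : Adm B g) (G : St (Fin n)) : Monotone fun R => X g R G := by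
  intro R R' h
  exact phi_mono hg (fun i => ok_pS _ _ _) (fun i => ok_pS _ _ _)
    (fun i t => pS_nonneg _ _ _ _) (fun i t => lim_pS_mono h _ _)

theorem lim_abs_sg (s : Bool) : |sg s| = 1 := by
  cases s <;> simp [sg]

theorem lim_int_ge (hB : 0 ≤ B) (s : Bool) {T R : ℝ} (hT : 0 ≤ T) (hR : T + 1 ≤ R) :
    Real.exp (T / 2 - B) ≤ ∫ t, Real.exp (-(B * |t - sg s * T|)) * pw R s 0 t ∂nu := by
  have hψ : Continuous fun t : ℝ => Real.exp (-(B * |t - sg s * T|)) := by fun_prop
  rw [int_pw hψ s (by linarith : (0 : ℝ) ≤ R)]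
  have hc : Continuous fun t : ℝ =>
      Real.exp (-(B * |sg s * t - sg s * T|)) * Real.exp (t / 2) := by fun_prop
  have h1 : ∫ t in T..(T + 1), Real.exp (-(B * |sg s * t - sg s * T|)) * Real.exp (t / 2) ≤
      ∫ t in (0 : ℝ)..R, Real.exp (-(B * |sg s * t - sg s * T|)) * Real.exp (t / 2) :=
    intervalIntegral.integral_mono_interval hT (by linarith) hR
      (Eventually.of_forall fun t => by positivity) (hc.intervalIntegrable _ _)
  refine le_trans ?_ h1
  have h2 : ∫ _t in T..(T + 1), Real.exp (T / 2 - B) = Real.exp (T / 2 - B) := by simp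
  rw [← h2]
  refine intervalIntegral.integral_mono_on (by linarith) (by simp) (hc.intervalIntegrable _ _) ?_
  intro t ht
  rw [← Real.exp_add]
  apply Real.exp_le_exp.2
  have h3 : |sg s * t - sg s * T| ≤ 1 := by
    rw [← mul_sub, abs_mul, lim_abs_sg, one_mul, abs_le]
    constructor <;> linarith [ht.1, ht.2]
  have h4 : B * |sg s * t - sg s * T| ≤ B := by
    simpa using mul_le_mul_of_nonneg_left h3 hB
  linarith [ht.1]

theorem lim_int_le (s : Bool) (y : ℝ) {R : ℝ} (hR : 0 ≤ R) (hφ : 0 < (sg s * y - 1) / 2) :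
    ∫ t, Real.exp (-(t * y / 2)) * pw R s 0 t ∂nu ≤ 1 / ((sg s * y - 1) / 2) := by
  have hψ : Continuous fun t : ℝ => Real.exp (-(t * y / 2)) := by fun_prop
  rw [int_pw hψ s hR]
  obtain ⟨φ, hφe⟩ : ∃ φ, φ = (sg s * y - 1) / 2 := ⟨_, rfl⟩
  rw [← hφe] at hφ ⊢
  have h1 : ∀ t : ℝ, Real.exp (-(sg s * t * y / 2)) * Real.exp (t / 2) = Real.exp (-φ * t) := by
    intro t
    rw [← Real.exp_add, hφe]
    congr 1
    ring
  simp_rw [h1]
  have hd : ∀ t ∈ Set.uIcc (0 : ℝ) R,
      HasDerivAt (fun t : ℝ => -(Real.exp (-φ * t)) / φ) (Real.exp (-φ * t)) t := by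
    intro t _
    have h2 : HasDerivAt (fun t : ℝ => -φ * t) (-φ) t := by
      simpa using (hasDerivAt_id t).const_mul (-φ)
    have h3 := (h2.exp.neg).div_const φ
    have h4 : -(Real.exp (-φ * t) * -φ) / φ = Real.exp (-φ * t) := by
      field_simp
    rw [h4] at h3
    exact h3
  have hc : Continuous fun t : ℝ => Real.exp (-φ * t) := by fun_prop
  rw [intervalIntegral.integral_eq_sub_of_hasDerivAt hd (hc.intervalIntegrable _ _)]
  have h5 : 0 < Real.exp (-φ * R) / φ := by positivity
  have h6 : -Real.exp (-φ * R) / φ - -Real.exp (-φ * 0) / φ =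
      1 / φ - Real.exp (-φ * R) / φ := by
    rw [mul_zero, Real.exp_zero]
    ring
  rw [h6]
  linarith

/-- the untruncated orthant integral, or zero if it diverges -/
noncomputable def limX (g : (Fin n → ℝ) → ℝ) (G : St (Fin n)) : ℝ := ⨆ R : ℝ, X g R G

theorem lim_pos (hg : Adm B g) {G : St (Fin n)} (h : BddAbove (Set.range fun R => X g R G)) :
    0 < limX g G :=
  lt_of_lt_of_le (X_pos hg one_pos G) (le_ciSup h 1)

theorem lim_zero {G : St (Fin n)} (h : ¬ BddAbove (Set.range fun R => X g R G)) :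
    limX g G = 0 :=
  Real.iSup_of_not_bddAbove h

theorem lim_bdd {G : St (Fin n)} (h : 0 < limX g G) : BddAbove (Set.range fun R => X g R G) := by
  by_contra h1
  rw [lim_zero h1] at h
  exact lt_irrefl _ h

theorem lim_nonneg (hg : Adm B g) (G : St (Fin n)) : 0 ≤ limX g G := by
  by_cases h : BddAbove (Set.range fun R => X g R G)
  · exact (lim_pos hg h).le
  · exact (lim_zero h).ge

theorem lim_bdd_of (hg : Adm B g) {G : St (Fin n)} {b R0 : ℝ} (h : ∀ R, R0 ≤ R → X g R G ≤ b) :
    ∀ R, X g R G ≤ b := by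
  intro R
  rcases le_total R0 R with h1 | h1
  · exact h R h1
  · exact le_trans (lim_X_mono hg G h1) (h R0 le_rfl)

theorem lim_tend (hg : Adm B g) {G : St (Fin n)} (h : BddAbove (Set.range fun R => X g R G)) :
    Tendsto (fun R => X g R G) atTop (𝓝 (limX g G)) :=
  tendsto_atTop_ciSup (lim_X_mono hg G) h

theorem lim_tend_mul (hg : Adm B g) (G : St (Fin n)) {c : ℝ} (hc : limX g G = 0 → c = 0) :
    Tendsto (fun R => X g R G * c) atTop (𝓝 (limX g G * c)) := by
  by_cases h : BddAbove (Set.range fun R => X g R G)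
  · exact (lim_tend hg h).mul_const c
  · rw [hc (lim_zero h)]
    simp

theorem lim_tend_inv (hg : Adm B g) (G : St (Fin n)) :
    Tendsto (fun R => (X g R G)⁻¹) atTop (𝓝 (limX g G)⁻¹) := by
  by_cases h : BddAbove (Set.range fun R => X g R G)
  · exact (lim_tend hg h).inv₀ (lim_pos hg h).ne'
  · rw [lim_zero h, inv_zero]
    exact (tendsto_atTop_atTop_of_monotone' (lim_X_mono hg G) h).inv_tendsto_atTop

theorem lim_one (hg : Adm B g) : limX g (fun _ => none) = 1 := by
  have h : ∀ R : ℝ, X g R (fun _ => none) = 1 := fun R => phi_dl hg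
  unfold limX
  simp_rw [h]
  exact ciSup_const

theorem lim_X_update (R : ℝ) (G : St (Fin n)) (k : Fin n) (o : Option Bool) :
    X g R (update G k o) = Phi g (update (fun i => pS R (G i) 0) k (pS R o 0)) := by
  unfold X
  congr 1
  funext i
  by_cases h : i = k
  · subst h
    simp
  · simp [update_of_ne h]

theorem lim_dn (hg : Adm B g) (G : St (Fin n)) (k : Fin n) (h : 0 < limX g G) :
    0 < limX g (update G k none) := by
  cases hk : G k with
  | none =>
    rw [← hk, update_eq_self]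
    exact h
  | some s =>
    obtain ⟨b, hb⟩ := lim_bdd h
    apply lim_pos hg
    refine ⟨b / Real.exp (0 / 2 - B), ?_⟩
    rintro _ ⟨R, rfl⟩
    refine lim_bdd_of hg (R0 := 0 + 1) ?_ R
    intro R hR
    have h1 := lim_int_ge hg.pos s le_rfl hR
    have h2 := phi_dn hg (p := fun i => pS R (G i) 0) (fun i => ok_pS _ _ _)
      (fun i t => pS_nonneg _ _ _ _) k (ok_pS R (some s) 0) (fun t => pS_nonneg _ _ _ _)
    have h3 : X g R G = Phi g (update (fun i => pS R (G i) 0) k (pS R (some s) 0)) := by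
      rw [← lim_X_update, ← hk, update_eq_self]
    have h4 : X g R (update G k none) = Phi g (update (fun i => pS R (G i) 0) k dl) :=
      lim_X_update R G k none
    rw [← h3, ← h4] at h2
    have h5 : X g R G ≤ b := hb ⟨R, rfl⟩
    have h6 : 0 < X g R (update G k none) := X_pos hg (by linarith) _
    simp only [mul_zero, sub_zero] at h1
    rw [le_div_iff₀ (Real.exp_pos _)]
    have h7 : Real.exp (0 / 2 - B) * X g R (update G k none) ≤
        (∫ t, Real.exp (-(B * |t|)) * pS R (some s) 0 t ∂nu) * X g R (update G k none) :=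
      mul_le_mul_of_nonneg_right h1 h6.le
    linarith

theorem lim_top (hg : Adm B g)
    (htop : ∀ (s : Fin n → Bool) (M : ℝ), ∃ T : Fin n → ℝ, (∀ i, 0 ≤ T i) ∧
      M ≤ (∑ i, T i) / 2 - g fun i => sg (s i) * T i)
    (G : St (Fin n)) (hG : ∀ i, G i ≠ none) : limX g G = 0 := by
  apply lim_zero
  rintro ⟨b, hb⟩
  have hs : ∀ i, ∃ s, G i = some s := fun i => Option.ne_none_iff_exists'.1 (hG i)
  choose s hs using hs
  obtain ⟨T, hT, hM⟩ := htop s (b + n * B)
  have hR : ∀ i, T i + 1 ≤ ∑ j, T j + 1 := fun i => by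
    have := Finset.single_le_sum (f := T) (fun j _ => hT j) (Finset.mem_univ i)
    linarith
  have h1 := phi_ge hg (p := fun i => pS (∑ j, T j + 1) (G i) 0) (fun i => ok_pS _ _ _)
    (fun i t => pS_nonneg _ _ _ _) (fun i => sg (s i) * T i)
  have h2 : ∏ i, Real.exp (T i / 2 - B) ≤ ∏ i, ∫ t, Real.exp (-(B * |t - sg (s i) * T i|)) *
      pS (∑ j, T j + 1) (G i) 0 t ∂nu := by
    refine Finset.prod_le_prod (fun i _ => (Real.exp_pos _).le) fun i _ => ?_
    rw [hs i]
    exact lim_int_ge hg.pos (s i) (hT i) (hR i)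
  have h3 : X g (∑ j, T j + 1) G ≤ b := hb ⟨_, rfl⟩
  have h4 := le_trans (mul_le_mul_of_nonneg_left h2 (Real.exp_pos
    (-g fun i => sg (s i) * T i)).le) (le_trans h1 h3)
  rw [← Real.exp_sum, ← Real.exp_add, Finset.sum_sub_distrib, ← Finset.sum_div] at h4
  simp only [Finset.sum_const, Finset.card_univ, Fintype.card_fin, nsmul_eq_mul] at h4
  have h5 := Real.add_one_le_exp ((-g fun i => sg (s i) * T i) + ((∑ i, T i) / 2 - n * B))
  linarith

theorem lim_pt (hg : Adm B g) (a : Fin n) (s : Bool) (y : Fin n → ℝ)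
    (hy : ∀ u, (∑ i, u i * y i) / 2 ≤ g u) : (sg s * y a - 1) / 2 ≤ 1 / limX g (pt a s) := by
  rcases le_or_gt ((sg s * y a - 1) / 2) 0 with hφ | hφ
  · exact le_trans hφ (one_div_nonneg.2 (lim_nonneg hg _))
  · have h1 : ∀ R, X g R (pt a s) ≤ 1 / ((sg s * y a - 1) / 2) := by
      refine lim_bdd_of hg (R0 := 0) ?_
      intro R hR
      have h2 := phi_le hg (p := fun i => pS R (pt a s i) 0) (fun i => ok_pS _ _ _)
        (fun i t => pS_nonneg _ _ _ _) y hy
      refine le_trans h2 ?_
      rw [Finset.prod_eq_single a]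
      · have h3 : pt a s a = some s := by simp [pt]
        rw [h3]
        exact lim_int_le s (y a) hR hφ
      · intro i _ hi
        have h3 : pt a s i = none := by simp [pt, update_of_ne hi]
        rw [h3]
        have h4 := int_dl fun t => Real.exp (-(t * y i / 2))
        simp only [zero_mul, zero_div, neg_zero, Real.exp_zero] at h4
        exact h4
      · intro h
        exact absurd (Finset.mem_univ a) h
    have hb : BddAbove (Set.range fun R => X g R (pt a s)) := by
      refine ⟨1 / ((sg s * y a - 1) / 2), ?_⟩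
      rintro _ ⟨R, rfl⟩
      exact h1 R
    have h5 : limX g (pt a s) ≤ 1 / ((sg s * y a - 1) / 2) := ciSup_le h1
    exact (le_one_div hφ (lim_pos hg hb)).2 h5

theorem lim_star (hg : Adm B g) (N : Fin n → St (Fin n) → ℝ)
    (hN : ∀ k G, N k G ≠ 0 → G k = none ∧ 0 < limX g G) : Star (limX g) N := by
  have hz : ∀ k G, limX g G = 0 → N k G = 0 := by
    intro k G h
    by_contra h1
    have h2 := (hN k G h1).2
    rw [h] at h2
    exact lt_irrefl _ h2
  have hup : ∀ k m H, limX g H = 0 → up k (N m) H = 0 := by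
    intro k m H h
    unfold up
    split_ifs with hk
    · have h3 : ∀ b : Bool, N m (update H k (some b)) = 0 := by
        intro b
        by_contra h1
        have h2 := lim_dn hg _ k (hN m _ h1).2
        rw [update_idem, ← hk, update_eq_self, h] at h2
        exact lt_irrefl _ h2
      rw [h3, h3, add_zero]
    · rfl
  have hL : Tendsto (fun R => ∑ H, X g R H * ∑ k, ∑ m, up k (N m) H * up m (N k) H) atTop
      (𝓝 (∑ H, limX g H * ∑ k, ∑ m, up k (N m) H * up m (N k) H)) := by
    refine tendsto_finsetSum _ fun H _ => lim_tend_mul hg H fun h => ?_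
    refine Finset.sum_eq_zero fun k _ => Finset.sum_eq_zero fun m _ => ?_
    rw [hup k m H h, zero_mul]
  have hR1 : Tendsto (fun R => ∑ G, X g R G * ∑ k, N k G ^ 2) atTop
      (𝓝 (∑ G, limX g G * ∑ k, N k G ^ 2)) := by
    refine tendsto_finsetSum _ fun G _ => lim_tend_mul hg G fun h => ?_
    refine Finset.sum_eq_zero fun k _ => ?_
    rw [hz k G h]
    norm_num
  have hD : ∀ k C, Tendsto (fun R => dn k (fun G => X g R G * N k G) C) atTop
      (𝓝 (dn k (fun G => limX g G * N k G) C)) := by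
    intro k C
    unfold dn
    split_ifs
    · exact tendsto_const_nhds
    · exact lim_tend_mul hg _ (hz k _)
  have hR2 : Tendsto (fun R => ∑ C, (∑ k, dn k (fun G => X g R G * N k G) C) ^ 2 / X g R C) atTop
      (𝓝 (∑ C, (∑ k, dn k (fun G => limX g G * N k G) C) ^ 2 / limX g C)) := by
    refine tendsto_finsetSum _ fun C _ => ?_
    simp only [div_eq_mul_inv]
    exact ((tendsto_finsetSum _ fun k _ => hD k C).pow 2).mul (lim_tend_inv hg C)
  refine le_of_tendsto_of_tendsto hL (hR1.add hR2) ?_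
  filter_upwards [eventually_gt_atTop (0 : ℝ)] with R hR
  exact star_X hg hR N fun k G h => (hN k G h).1

theorem core (hg : Adm B g)
    (htop : ∀ (s : Fin n → Bool) (M : ℝ), ∃ T : Fin n → ℝ, (∀ i, 0 ≤ T i) ∧
      M ≤ (∑ i, T i) / 2 - g fun i => sg (s i) * T i)
    (yp ym : Fin n → Fin n → ℝ) (hp : ∀ a u, (∑ i, u i * yp a i) / 2 ≤ g u)
    (hm : ∀ a u, (∑ i, u i * ym a i) / 2 ≤ g u) (hlt : ∀ a, ym a a < yp a a) :
    1 ≤ ∑ a, 2 / (yp a a - ym a a) := by
  have h := alg (limX g) (lim_nonneg hg) (lim_one hg) (lim_dn hg) (lim_top hg htop) (lim_star hg)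
  refine le_trans h (Finset.sum_le_sum fun a _ => ?_)
  have h1 := lim_pt hg a true (yp a) (hp a)
  have h2 := lim_pt hg a false (ym a) (hm a)
  have e1 : sg true = 1 := rfl
  have e2 : sg false = -1 := by simp [sg]
  rw [e1] at h1
  rw [e2] at h2
  have h3 : 0 < (yp a a - ym a a) / 2 := by linarith [hlt a]
  have h4 : (yp a a - ym a a) / 2 ≤ 1 + 1 / limX g (pt a true) + 1 / limX g (pt a false) := by
    linarith
  have h5 := one_div_le_one_div_of_le h3 h4
  rwa [one_div_div] at h5

end Pool.Agent.Lib.MP_70b2ae_gt.Bg
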