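import Pool.Agent.Lib.MP_70b2ae_gt.BgPhi

/-! Densities concentrating at the origin. -/

namespace Pool.Agent.Lib.MP_70b2ae_gt.Bg

open MeasureTheory Function Filter Topology

variable {n : ℕ} {B : ℝ} {g : (Fin n → ℝ) → ℝ}

theorem lims_int {a : ℝ → ℝ} (ha : Ok a) (hB : 0 ≤ B) {r : ℝ} (hs : ∀ t, a t ≠ 0 → |t| ≤ r) :
    ∫ t, Real.exp (B * |t|) * |a t| ∂nu ≤ Real.exp (B * r) * ∫ t, |a t| ∂nu := by
  rw [← integral_const_mul]
  refine integral_mono (ha.abs.int (ψ := fun t => Real.exp (B * |t|)) (by fun_prop))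
    (ha.abs.int (ψ := fun _ => Real.exp (B * r)) continuous_const) fun t => ?_
  by_cases h : a t = 0
  · simp [h]
  · exact mul_le_mul_of_nonneg_right
      (Real.exp_le_exp.2 (mul_le_mul_of_nonneg_left (hs t h) hB)) (abs_nonneg _)

theorem phi_lim {α : Type} {l : Filter α} (hg : Adm B g) (a : α → Fin n → ℝ → ℝ)
    (c : Fin n → ℝ) (r : α → ℝ) (hr : Tendsto r l (𝓝 0)) (ha : ∀ e i, Ok (a e i))
    (hs : ∀ e i t, a e i t ≠ 0 → |t| ≤ r e)
    (hc : ∀ i, Tendsto (fun e => ∫ t, a e i t ∂nu) l (𝓝 (c i)))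
    (hc' : ∀ i, ∀ᶠ e in l, ∫ t, |a e i t| ∂nu = |∫ t, a e i t ∂nu|)
    (S : Finset (Fin n)) (p : Fin n → ℝ → ℝ) (hp : ∀ i, Ok (p i)) :
    Tendsto (fun e => Phi g (S.piecewise (a e) p)) l
      (𝓝 ((∏ i ∈ S, c i) * Phi g (S.piecewise (fun _ => dl) p))) := by
  have habs : ∀ i, Tendsto (fun e => ∫ t, |a e i t| ∂nu) l (𝓝 |c i|) := fun i =>
    (hc i).abs.congr' ((hc' i).mono fun e he => he.symm)
  have hexp : Tendsto (fun e => Real.exp (B * r e)) l (𝓝 1) := by
    have := (Real.continuous_exp.tendsto _).comp (hr.const_mul B)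
    rw [mul_zero, Real.exp_zero] at this
    exact this
  induction S using Finset.induction_on generalizing p with
  | empty => simpa using tendsto_const_nhds
  | insert k S hk ih =>
    have hp' : ∀ i, Ok (update p k dl i) := fun i => by
      by_cases h : i = k
      · subst h
        rw [update_self]
        exact ok_dl
      · rw [update_of_ne h]
        exact hp i
    have hP : ∀ e i, Ok (S.piecewise (a e) p i) := fun e i => by
      by_cases h : i ∈ S
      · rw [Finset.piecewise_eq_of_mem _ _ _ h]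
        exact ha e i
      · rw [Finset.piecewise_eq_of_notMem _ _ _ h]
        exact hp i
    have h1 := (hc k).mul (ih _ hp')
    simp only [← Finset.update_piecewise_of_notMem _ _ _ hk] at h1
    simp only [Finset.piecewise_insert, Finset.prod_insert hk, mul_assoc]
    let b : α → Fin n → ℝ := fun e i => if i ∈ S then Real.exp (B * r e) * ∫ t, |a e i t| ∂nu
      else ∫ t, Real.exp (B * |t|) * |p i t| ∂nu
    have hb : ∀ i, ∃ β, Tendsto (fun e => b e i) l (𝓝 β) := fun i => by
      by_cases h : i ∈ S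
      · simp only [b, if_pos h]
        exact ⟨_, hexp.mul (habs i)⟩
      · simp only [b, if_neg h]
        exact ⟨_, tendsto_const_nhds⟩
    choose β hβ using hb
    have h2 : Tendsto (fun e => |Real.exp (B * r e) - 1| * (∫ t, |a e k t| ∂nu) *
        ∏ i ∈ Finset.univ.erase k, b e i) l (𝓝 0) := by
      have := ((hexp.sub_const 1).abs.mul (habs k)).mul
        (tendsto_finsetProd (Finset.univ.erase k) fun i _ => hβ i)
      simpa using this
    have h3 : Tendsto (fun e => Phi g (update (S.piecewise (a e) p) k (a e k)) -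
        (∫ t, a e k t ∂nu) * Phi g (update (S.piecewise (a e) p) k dl)) l (𝓝 0) := by
      refine squeeze_zero_norm (fun e => ?_) h2
      refine (phi_cmp hg (hP e) k (ha e k) (hs e k)).trans ?_
      refine mul_le_mul_of_nonneg_left (Finset.prod_le_prod (fun i _ => ?_) fun i _ => ?_)
        (mul_nonneg (abs_nonneg _) (integral_nonneg fun t => abs_nonneg _))
      · exact integral_nonneg fun t => by positivity
      · by_cases h : i ∈ S
        · simp only [b, if_pos h, Finset.piecewise_eq_of_mem _ _ _ h]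
          exact lims_int (ha e i) hg.pos (hs e i)
        · simp only [b, if_neg h, Finset.piecewise_eq_of_notMem _ _ _ h, le_refl]
    simpa using h3.add h1

end Pool.Agent.Lib.MP_70b2ae_gt.Bg
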