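import Pool.Agent.Lib.MP_70b2ae_gt.BgPhi
import Pool.Agent.Lib.MP_bd7e44_co.H96PL

/-! Midpoint log-concavity of the shifted orthant integrals. -/

namespace Pool.Agent.Lib.MP_70b2ae_gt.Bg

open MeasureTheory Function
open scoped ENNReal

/-- the midpoint inequality with three densities -/
def pl_P {E : Type} [MeasurableSpace E] (μ : Measure E) (m : E → E → E)
    (q₁ q₂ q₃ : E → ℝ≥0∞) : Prop :=
  ∀ f g h : E → ℝ≥0∞, Measurable f → Measurable g → Measurable h →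
    (∀ x y, f x * g y ≤ h (m x y) ^ 2) →
    (∫⁻ x, f x * q₁ x ∂μ) * (∫⁻ x, g x * q₂ x ∂μ) ≤ (∫⁻ x, h x * q₃ x ∂μ) ^ 2

theorem pl_int_prod {E F : Type} [MeasurableSpace E] [MeasurableSpace F] (μ : Measure E)
    (ν : Measure F) [SFinite ν] {q : E → ℝ≥0∞} {r : F → ℝ≥0∞} {f : E × F → ℝ≥0∞}
    (hq : Measurable q) (hr : Measurable r) (hf : Measurable f) :
    ∫⁻ p, f p * (q p.1 * r p.2) ∂μ.prod ν = ∫⁻ x, (∫⁻ y, f (x, y) * r y ∂ν) * q x ∂μ := by
  rw [lintegral_prod _ (by fun_prop)]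
  refine lintegral_congr fun x => ?_
  rw [← lintegral_mul_const _ (by fun_prop)]
  refine lintegral_congr fun y => ?_
  ring

theorem pl_prod {E F : Type} [MeasurableSpace E] [MeasurableSpace F] {μ : Measure E}
    {ν : Measure F} [SFinite ν] {m : E → E → E} {k : F → F → F} {q₁ q₂ q₃ : E → ℝ≥0∞}
    {r₁ r₂ r₃ : F → ℝ≥0∞} (h1 : pl_P μ m q₁ q₂ q₃) (h2 : pl_P ν k r₁ r₂ r₃)
    (a₁ : Measurable q₁) (a₂ : Measurable q₂) (a₃ : Measurable q₃)
    (b₁ : Measurable r₁) (b₂ : Measurable r₂) (b₃ : Measurable r₃) :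
    pl_P (μ.prod ν) (fun p q => (m p.1 q.1, k p.2 q.2)) (fun p => q₁ p.1 * r₁ p.2)
      (fun p => q₂ p.1 * r₂ p.2) fun p => q₃ p.1 * r₃ p.2 := fun f g h hf hg hh H => by
  rw [pl_int_prod μ ν a₁ b₁ hf, pl_int_prod μ ν a₂ b₂ hg, pl_int_prod μ ν a₃ b₃ hh]
  exact h1 _ _ _ (hf.mul (b₁.comp measurable_snd)).lintegral_prod_right'
    (hg.mul (b₂.comp measurable_snd)).lintegral_prod_right'
    (hh.mul (b₃.comp measurable_snd)).lintegral_prod_right'
    fun s t => h2 _ _ _ (hf.comp measurable_prodMk_left) (hg.comp measurable_prodMk_left)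
      (hh.comp measurable_prodMk_left) fun x y => H (s, x) (t, y)

theorem pl_fin : ∀ (n : ℕ) (q₁ q₂ q₃ : Fin n → ℝ → ℝ≥0∞), (∀ i, Measurable (q₁ i)) →
    (∀ i, Measurable (q₂ i)) → (∀ i, Measurable (q₃ i)) →
    (∀ i, pl_P nu (fun x y => (x + y) / 2) (q₁ i) (q₂ i) (q₃ i)) →
    pl_P (Measure.pi fun _ : Fin n => nu) (fun x y i => (x i + y i) / 2)
      (fun u => ∏ i, q₁ i (u i)) (fun u => ∏ i, q₂ i (u i)) fun u => ∏ i, q₃ i (u i) := by
  intro n
  induction n with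
  | zero =>
    intro q₁ q₂ q₃ _ _ _ _ f g h _ _ _ H
    have e : (Measure.pi fun _ : Fin 0 => nu) = Measure.dirac default := Measure.pi_of_empty _ _
    rw [e, lintegral_dirac, lintegral_dirac, lintegral_dirac]
    simp only [Finset.univ_eq_empty, Finset.prod_empty, mul_one]
    exact (H _ _).trans_eq (by congr 2; exact Subsingleton.elim _ _)
  | succ n ih =>
    intro q₁ q₂ q₃ a₁ a₂ a₃ hP f g h hf hg hh H
    have mp : ∀ q : Fin (n + 1) → ℝ → ℝ≥0∞, (∀ i, Measurable (q i)) →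
        Measurable fun u : Fin n → ℝ => ∏ i, q (Fin.succ i) (u i) := fun q hq =>
      Finset.measurable_prod _ fun i _ => (hq _).comp (measurable_pi_apply i)
    have he := (measurePreserving_piFinSuccAbove (fun _ : Fin (n + 1) => nu) 0).symm
    have key := pl_prod (hP 0) (ih (fun i => q₁ i.succ) (fun i => q₂ i.succ) (fun i => q₃ i.succ)
      (fun i => a₁ _) (fun i => a₂ _) (fun i => a₃ _) fun i => hP _) (a₁ 0) (a₂ 0) (a₃ 0)
      (mp _ a₁) (mp _ a₂) (mp _ a₃)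
    set e := (MeasurableEquiv.piFinSuccAbove (fun _ : Fin (n + 1) => ℝ) 0).symm with he'
    have e0 : ∀ p : ℝ × (Fin n → ℝ), e p = Fin.cons p.1 p.2 := fun p => by
      simp [he', MeasurableEquiv.piFinSuccAbove_symm_apply, Fin.consEquiv]
    have tr : ∀ (φ : (Fin (n + 1) → ℝ) → ℝ≥0∞) (q : Fin (n + 1) → ℝ → ℝ≥0∞), Measurable φ →
        (∀ i, Measurable (q i)) →
        ∫⁻ u, φ u * ∏ i, q i (u i) ∂(Measure.pi fun _ : Fin (n + 1) => nu) =
          ∫⁻ p, φ (e p) * (q 0 p.1 * ∏ i, q (Fin.succ i) (p.2 i))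
            ∂(nu.prod (Measure.pi fun _ : Fin n => nu)) := fun φ q hφ hq => by
      rw [← he.lintegral_comp (f := fun u => φ u * ∏ i, q i (u i))
        (hφ.mul (Finset.measurable_prod _ fun i _ => (hq _).comp (measurable_pi_apply i)))]
      refine lintegral_congr fun p => ?_
      rw [Fin.prod_univ_succ, e0]
      simp only [Fin.cons_zero, Fin.cons_succ]
    rw [tr f q₁ hf a₁, tr g q₂ hg a₂, tr h q₃ hh a₃]
    refine key _ _ _ (hf.comp e.measurable) (hg.comp e.measurable) (hh.comp e.measurable)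
      fun x y => (H _ _).trans_eq ?_
    congr 2
    funext i
    simp only [e0]
    refine Fin.cases ?_ (fun j => ?_) i <;> simp only [Fin.cons_zero, Fin.cons_succ]

theorem pl_ne : ∀ᵐ t : ℝ, t ≠ 0 := by
  simp [ae_iff]

theorem pl_int_dl (f : ℝ → ℝ≥0∞) : ∫⁻ t, f t * ENNReal.ofReal (dl t) ∂nu = f 0 := by
  have h : ∫⁻ t, f t * ENNReal.ofReal (dl t) = ∫⁻ _ : ℝ, 0 :=
    lintegral_congr_ae (pl_ne.mono fun t ht => by simp [dl, ht])
  rw [nu, lintegral_add_measure, lintegral_dirac, h]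
  simp [dl]

/-- the density with the origin put back -/
noncomputable def pl_w (R : ℝ) (s : Bool) (z t : ℝ) : ℝ≥0∞ :=
  (Set.Ioc (lo R s z) (hi R s z)).indicator (fun t => ENNReal.ofReal (Real.exp (sg s * t / 2))) t

theorem pl_w_meas (R : ℝ) (s : Bool) (z : ℝ) : Measurable (pl_w R s z) :=
  Measurable.indicator (by fun_prop) measurableSet_Ioc

theorem pl_int_pw (f : ℝ → ℝ≥0∞) (R : ℝ) (s : Bool) (z : ℝ) :
    ∫⁻ t, f t * ENNReal.ofReal (pw R s z t) ∂nu = ∫⁻ t, f t * pl_w R s z t := by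
  have h : ∫⁻ t, f t * ENNReal.ofReal (pw R s z t) = ∫⁻ t, f t * pl_w R s z t := by
    refine lintegral_congr_ae (pl_ne.mono fun t ht => ?_)
    by_cases c : lo R s z < t ∧ t ≤ hi R s z
    · simp only [pw, pl_w, if_pos (And.intro ht c), Set.indicator_of_mem (Set.mem_Ioc.2 c)]
    · have c' : ¬ (t ≠ 0 ∧ lo R s z < t ∧ t ≤ hi R s z) := fun h => c h.2
      simp only [pw, pl_w, if_neg c', Set.indicator_of_notMem (fun h => c (Set.mem_Ioc.1 h)),
        ENNReal.ofReal_zero]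
  rw [nu, lintegral_add_measure, lintegral_dirac, h]
  simp [pw]

theorem pl_w_mid (R : ℝ) (s : Bool) (z x y : ℝ) :
    pl_w R s z x * pl_w R s (-z) y ≤ pl_w R s 0 ((x + y) / 2) ^ 2 := by
  by_cases hx : x ∈ Set.Ioc (lo R s z) (hi R s z)
  swap
  · simp [pl_w, Set.indicator_of_notMem hx]
  by_cases hy : y ∈ Set.Ioc (lo R s (-z)) (hi R s (-z))
  swap
  · simp [pl_w, Set.indicator_of_notMem hy]
  have hm : (x + y) / 2 ∈ Set.Ioc (lo R s 0) (hi R s 0) := by
    obtain ⟨x1, x2⟩ := hx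
    obtain ⟨y1, y2⟩ := hy
    cases s <;> simp only [lo, hi, Bool.false_eq_true, if_false, if_true] at x1 x2 y1 y2 ⊢ <;>
      constructor <;> linarith
  simp only [pl_w, Set.indicator_of_mem hx, Set.indicator_of_mem hy, Set.indicator_of_mem hm]
  rw [sq, ← ENNReal.ofReal_mul (Real.exp_pos _).le, ← ENNReal.ofReal_mul (Real.exp_pos _).le,
    ← Real.exp_add, ← Real.exp_add]
  refine le_of_eq ?_
  congr 2
  ring

theorem pl_one (R : ℝ) (o : Option Bool) (z : ℝ) :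
    pl_P nu (fun x y => (x + y) / 2) (fun t => ENNReal.ofReal (pS R o z t))
      (fun t => ENNReal.ofReal (pS R o (-z) t)) fun t => ENNReal.ofReal (pS R o 0 t) := by
  intro f g h hf hg hh H
  cases o with
  | none =>
    simp only [pS, pl_int_dl]
    simpa using H 0 0
  | some s =>
    simp only [pS, pl_int_pw]
    refine Pool.Agent.Lib.MP_bd7e44_co.LR.PL.P_real _ _ _ (hf.mul (pl_w_meas _ _ _))
      (hg.mul (pl_w_meas _ _ _)) (hh.mul (pl_w_meas _ _ _)) fun x y => ?_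
    rw [mul_mul_mul_comm, mul_pow]
    exact mul_le_mul' (H x y) (pl_w_mid R s z x y)

variable {n : ℕ} {B : ℝ} {g : (Fin n → ℝ) → ℝ}

theorem pl_nonneg (g : (Fin n → ℝ) → ℝ) (R : ℝ) (C : St (Fin n)) (z u : Fin n → ℝ) :
    0 ≤ Real.exp (-g u) * ∏ i, pS R (C i) (z i) (u i) :=
  mul_nonneg (Real.exp_pos _).le (Finset.prod_nonneg fun _ _ => pS_nonneg _ _ _ _)

theorem pl_W (hg : Adm B g) (R : ℝ) (C : St (Fin n)) (z : Fin n → ℝ) :
    ENNReal.ofReal (W g R C z) = ∫⁻ u, ENNReal.ofReal (Real.exp (-g u)) *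
      ∏ i, ENNReal.ofReal (pS R (C i) (z i) (u i)) ∂(Measure.pi fun _ : Fin n => nu) := by
  rw [W, Phi, ofReal_integral_eq_lintegral_ofReal (phi_int hg fun i => ok_pS R (C i) (z i))
    (Filter.Eventually.of_forall fun u => pl_nonneg g R C z u)]
  refine lintegral_congr fun u => ?_
  rw [ENNReal.ofReal_mul (Real.exp_pos _).le,
    ENNReal.ofReal_prod_of_nonneg fun _ _ => pS_nonneg _ _ _ _]

theorem W_mul_le (hg : Adm B g) (R : ℝ) (C : St (Fin n)) (z : Fin n → ℝ) :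
    W g R C z * W g R C (fun i => -z i) ≤ X g R C ^ 2 := by
  have h0 : ∀ z, 0 ≤ W g R C z := fun z => integral_nonneg fun u => pl_nonneg g R C z u
  have hX : X g R C = W g R C fun _ => 0 := rfl
  have hm : Measurable fun u => ENNReal.ofReal (Real.exp (-g u)) :=
    (Real.continuous_exp.comp hg.cont.neg).measurable.ennreal_ofReal
  have key := pl_fin n (fun i t => ENNReal.ofReal (pS R (C i) (z i) t))
    (fun i t => ENNReal.ofReal (pS R (C i) (-z i) t)) (fun i t => ENNReal.ofReal (pS R (C i) 0 t))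
    (fun i => (ok_pS _ _ _).1.ennreal_ofReal) (fun i => (ok_pS _ _ _).1.ennreal_ofReal)
    (fun i => (ok_pS _ _ _).1.ennreal_ofReal) (fun i => pl_one R (C i) (z i)) _ _ _ hm hm hm
    (fun u v => by
      rw [sq, ← ENNReal.ofReal_mul (Real.exp_pos _).le, ← ENNReal.ofReal_mul (Real.exp_pos _).le,
        ← Real.exp_add, ← Real.exp_add]
      refine ENNReal.ofReal_le_ofReal (Real.exp_le_exp.2 ?_)
      have := hg.mid u v
      linarith)
  rw [← pl_W hg R C z, ← pl_W hg R C fun i => -z i, ← pl_W hg R C fun _ => 0,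
    ← ENNReal.ofReal_mul (h0 _), ← ENNReal.ofReal_pow (h0 _)] at key
  rw [hX]
  exact (ENNReal.ofReal_le_ofReal_iff (sq_nonneg _)).1 key

end Pool.Agent.Lib.MP_70b2ae_gt.Bg
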