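import Pool.Agent.Lib.MP_70b2ae_gt.BgDefs

/-! Basic estimates for the multilinear functional. -/

namespace Pool.Agent.Lib.MP_70b2ae_gt.Bg

open MeasureTheory Function

theorem ok_dl : Ok dl := by
  refine ⟨?_, 1, fun t => ⟨?_, fun h => ?_⟩⟩
  · exact Measurable.ite (measurableSet_singleton (0 : ℝ)) measurable_const measurable_const
  · unfold dl
    split_ifs <;> simp
  · unfold dl
    rw [if_neg]
    rintro rfl
    norm_num at h

theorem phi1_abs_sg (s : Bool) : |sg s| = 1 := by
  cases s <;> simp [sg]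

theorem phi1_supp {R : ℝ} {s : Bool} {z t : ℝ} (h1 : lo R s z < t) (h2 : t ≤ hi R s z) :
    |t| ≤ |R| + |z| := by
  have a1 := le_abs_self R
  have a2 := neg_abs_le R
  have a3 := le_abs_self z
  have a4 := neg_abs_le z
  have a5 := abs_nonneg R
  have a6 := abs_nonneg z
  cases s
  · simp only [lo, hi, Bool.false_eq_true, if_false] at h1 h2
    rw [abs_le]
    constructor <;> linarith
  · simp only [lo, hi, if_true] at h1 h2
    rw [abs_le]
    constructor <;> linarith

theorem ok_pw (R : ℝ) (s : Bool) (z : ℝ) : Ok (pw R s z) := by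
  refine ⟨?_, |R| + |z| + Real.exp (|R| + |z|), fun t => ⟨?_, fun h => ?_⟩⟩
  · refine Measurable.ite ?_ (by fun_prop) measurable_const
    exact (measurableSet_singleton (0 : ℝ)).compl.inter (measurableSet_Ioc (a := lo R s z)
      (b := hi R s z))
  · have e0 := Real.exp_pos (|R| + |z|)
    have a5 := abs_nonneg R
    have a6 := abs_nonneg z
    unfold pw
    split_ifs with h
    · have h1 := phi1_supp h.2.1 h.2.2
      have h2 : sg s * t ≤ |t| := by
        have := le_abs_self (sg s * t)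
        rwa [abs_mul, phi1_abs_sg, one_mul] at this
      have h3 : Real.exp (sg s * t / 2) ≤ Real.exp (|R| + |z|) :=
        Real.exp_le_exp.mpr (by linarith)
      rw [abs_of_pos (Real.exp_pos _)]
      linarith
    · rw [abs_zero]
      linarith
  · unfold pw
    rw [if_neg]
    rintro ⟨-, h1, h2⟩
    have := phi1_supp h1 h2
    have e0 := Real.exp_pos (|R| + |z|)
    linarith

theorem ok_pS (R : ℝ) (o : Option Bool) (z : ℝ) : Ok (pS R o z) := by
  cases o with
  | none => exact ok_dl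
  | some s => exact ok_pw R s z

theorem Ok.add {p q : ℝ → ℝ} (hp : Ok p) (hq : Ok q) : Ok fun t => p t + q t := by
  obtain ⟨mp, M, hM⟩ := hp
  obtain ⟨mq, N, hN⟩ := hq
  have M0 : 0 ≤ M := (abs_nonneg _).trans (hM 0).1
  have N0 : 0 ≤ N := (abs_nonneg _).trans (hN 0).1
  refine ⟨mp.add mq, M + N, fun t => ⟨?_, fun h => ?_⟩⟩
  · exact (abs_add_le _ _).trans (add_le_add (hM t).1 (hN t).1)
  · show p t + q t = 0
    rw [(hM t).2 (by linarith), (hN t).2 (by linarith), add_zero]

theorem Ok.const_mul {p : ℝ → ℝ} (hp : Ok p) (c : ℝ) : Ok fun t => c * p t := by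
  obtain ⟨mp, M, hM⟩ := hp
  have M0 : 0 ≤ M := (abs_nonneg _).trans (hM 0).1
  have h0 : 0 ≤ |c| * M := mul_nonneg (abs_nonneg _) M0
  refine ⟨mp.const_mul c, M + |c| * M, fun t => ⟨?_, fun h => ?_⟩⟩
  · show |c * p t| ≤ _
    rw [abs_mul]
    have := mul_le_mul_of_nonneg_left (hM t).1 (abs_nonneg c)
    linarith
  · show c * p t = 0
    rw [(hM t).2 (by linarith), mul_zero]

theorem Ok.sub {p q : ℝ → ℝ} (hp : Ok p) (hq : Ok q) : Ok fun t => p t - q t := by
  have h := hp.add (hq.const_mul (-1))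
  simpa only [neg_mul, one_mul, ← sub_eq_add_neg] using h

theorem Ok.abs {p : ℝ → ℝ} (hp : Ok p) : Ok fun t => |p t| := by
  obtain ⟨mp, M, hM⟩ := hp
  refine ⟨mp.abs, M, fun t => ⟨?_, fun h => ?_⟩⟩
  · show |(|p t|)| ≤ M
    rw [abs_abs]
    exact (hM t).1
  · show |p t| = 0
    rw [(hM t).2 h, abs_zero]

theorem phi1_int_vol {p ψ : ℝ → ℝ} (hp : Ok p) (hψ : Continuous ψ) :
    Integrable (fun t => ψ t * p t) volume := by
  obtain ⟨mp, M, hM⟩ := hp
  have h1 : IntegrableOn (fun t => ψ t * p t) (Set.Icc (-M) M) volume := by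
    have h2 : IntegrableOn ψ (Set.Icc (-M) M) volume := hψ.continuousOn.integrableOn_Icc
    exact Integrable.mul_bdd (c := M) h2 mp.aestronglyMeasurable
      (Filter.Eventually.of_forall fun t => (hM t).1)
  refine h1.integrable_of_forall_notMem_eq_zero fun t ht => ?_
  rw [(hM t).2, mul_zero]
  by_contra h
  exact ht (abs_le.mp (not_lt.mp h))

theorem Ok.int {p ψ : ℝ → ℝ} (hp : Ok p) (hψ : Continuous ψ) :
    Integrable (fun t => ψ t * p t) nu := by
  unfold nu
  exact (integrable_dirac enorm_lt_top).add_measure (phi1_int_vol hp hψ)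

theorem pS_nonneg (R : ℝ) (o : Option Bool) (z t : ℝ) : 0 ≤ pS R o z t := by
  cases o with
  | none =>
    show 0 ≤ dl t
    unfold dl
    split_ifs <;> norm_num
  | some s =>
    show 0 ≤ pw R s z t
    unfold pw
    split_ifs
    · exact (Real.exp_pos _).le
    · exact le_rfl

theorem phi1_ae_ne : ∀ᵐ t : ℝ ∂volume, t ≠ 0 := by
  rw [ae_iff]
  simp

theorem int_dl (ψ : ℝ → ℝ) : ∫ t, ψ t * dl t ∂nu = ψ 0 := by
  have h0 : (fun t => ψ t * dl t) =ᵐ[volume] fun _ => (0 : ℝ) := by
    filter_upwards [phi1_ae_ne] with t ht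
    unfold dl
    rw [if_neg ht, mul_zero]
  unfold nu
  rw [integral_add_measure (integrable_dirac enorm_lt_top) ((integrable_zero _ _ _).congr h0.symm),
    integral_dirac, integral_congr_ae h0]
  simp [dl]

theorem int_pw {ψ : ℝ → ℝ} (hψ : Continuous ψ) {R : ℝ} (s : Bool) {z : ℝ} (hz : z ≤ R) :
    ∫ t, ψ t * pw R s z t ∂nu = ∫ t in z..R, ψ (sg s * t) * Real.exp (t / 2) := by
  have h0 : (fun t => ψ t * pw R s z t) =ᵐ[volume]
      (Set.Ioc (lo R s z) (hi R s z)).indicator fun t => ψ t * Real.exp (sg s * t / 2) := by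
    filter_upwards [phi1_ae_ne] with t ht
    unfold pw
    by_cases h : t ∈ Set.Ioc (lo R s z) (hi R s z)
    · rw [Set.indicator_of_mem h, if_pos ⟨ht, h.1, h.2⟩]
    · rw [Set.indicator_of_notMem h, if_neg fun h' => h ⟨h'.2.1, h'.2.2⟩, mul_zero]
  have h1 : pw R s z 0 = 0 := by
    unfold pw
    rw [if_neg fun h => h.1 rfl]
  unfold nu
  rw [integral_add_measure (integrable_dirac enorm_lt_top) (phi1_int_vol (ok_pw R s z) hψ),
    integral_dirac, h1, mul_zero, zero_add, integral_congr_ae h0,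
    integral_indicator measurableSet_Ioc]
  cases s
  · simp only [lo, hi, sg, Bool.false_eq_true, if_false]
    rw [← intervalIntegral.integral_of_le (by linarith),
      ← intervalIntegral.integral_comp_neg fun t => ψ t * Real.exp (-1 * t / 2)]
    refine intervalIntegral.integral_congr fun t _ => ?_
    simp
  · simp only [lo, hi, sg, if_true, one_mul]
    rw [← intervalIntegral.integral_of_le hz]

variable {n : ℕ} {B : ℝ} {g : (Fin n → ℝ) → ℝ} {p q : Fin n → ℝ → ℝ}

theorem Adm.phi2_abs (hg : Adm B g) (u v : Fin n → ℝ) : |g u - g v| ≤ B * ∑ i, |u i - v i| := by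
  refine abs_sub_le_iff.2 ⟨hg.lip u v, (hg.lip v u).trans_eq ?_⟩
  simp only [abs_sub_comm]

theorem Adm.cont (hg : Adm B g) : Continuous g := by
  refine continuous_iff_continuousAt.2 fun v => ?_
  rw [ContinuousAt, ← tendsto_sub_nhds_zero_iff]
  refine squeeze_zero_norm (fun u => hg.phi2_abs u v) ?_
  have h : Continuous fun u : Fin n → ℝ => B * ∑ i, |u i - v i| := by fun_prop
  simpa using h.tendsto v

theorem Adm.phi2_exp (hg : Adm B g) (u : Fin n → ℝ) :
    Real.exp (-g u) ≤ ∏ i, Real.exp (B * |u i|) := by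
  rw [← Real.exp_sum, ← Finset.mul_sum]
  have h := hg.lip 0 u
  rw [hg.zero] at h
  simpa using h

theorem phi2_int {ψ : Fin n → ℝ → ℝ} (hp : ∀ i, Ok (p i)) (hψ : ∀ i, Continuous (ψ i)) :
    Integrable (fun u : Fin n → ℝ => ∏ i, ψ i (u i) * p i (u i))
      (Measure.pi fun _ : Fin n => nu) :=
  Integrable.fintype_prod (f := fun i t => ψ i t * p i t) fun i => (hp i).int (hψ i)

theorem phi_int (hg : Adm B g) (hp : ∀ i, Ok (p i)) :
    Integrable (fun u => Real.exp (-g u) * ∏ i, p i (u i)) (Measure.pi fun _ : Fin n => nu) := by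
  refine (phi2_int (p := fun i t => |p i t|) (ψ := fun _ t => Real.exp (B * |t|))
    (fun i => (hp i).abs) fun _ => by fun_prop).mono' ?_ (Filter.Eventually.of_forall fun u => ?_)
  · refine (hg.cont.neg.rexp.measurable.mul ?_).aestronglyMeasurable
    exact Finset.measurable_prod _ fun i _ => (hp i).1.comp (measurable_pi_apply i)
  · rw [Real.norm_eq_abs, abs_mul, Finset.abs_prod, Finset.prod_mul_distrib,
      abs_of_pos (Real.exp_pos _)]
    exact mul_le_mul_of_nonneg_right (hg.phi2_exp u) (Finset.prod_nonneg fun _ _ => abs_nonneg _)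

theorem phi_mono (hg : Adm B g) (hp : ∀ i, Ok (p i)) (hq : ∀ i, Ok (q i))
    (h0 : ∀ i t, 0 ≤ p i t) (h : ∀ i t, p i t ≤ q i t) : Phi g p ≤ Phi g q := by
  refine integral_mono (phi_int hg hp) (phi_int hg hq) fun u => ?_
  exact mul_le_mul_of_nonneg_left (Finset.prod_le_prod (fun i _ => h0 i _) fun i _ => h i _)
    (Real.exp_pos _).le

theorem phi_ge (hg : Adm B g) (hp : ∀ i, Ok (p i)) (h0 : ∀ i t, 0 ≤ p i t) (v : Fin n → ℝ) :
    Real.exp (-g v) * ∏ i, ∫ t, Real.exp (-(B * |t - v i|)) * p i t ∂nu ≤ Phi g p := by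
  rw [← integral_fintype_prod_eq_prod (fun i t => Real.exp (-(B * |t - v i|)) * p i t),
    ← integral_const_mul]
  refine integral_mono ((phi2_int (ψ := fun i t => Real.exp (-(B * |t - v i|))) hp
    fun _ => by fun_prop).const_mul _) (phi_int hg hp) fun u => ?_
  dsimp only
  rw [Finset.prod_mul_distrib, ← mul_assoc, ← Real.exp_sum, ← Real.exp_add]
  refine mul_le_mul_of_nonneg_right (Real.exp_le_exp.2 ?_) (Finset.prod_nonneg fun i _ => h0 i _)
  rw [Finset.sum_neg_distrib, ← Finset.mul_sum]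
  linarith [hg.lip u v]

theorem phi_le (hg : Adm B g) (hp : ∀ i, Ok (p i)) (h0 : ∀ i t, 0 ≤ p i t) (y : Fin n → ℝ)
    (hy : ∀ u, (∑ i, u i * y i) / 2 ≤ g u) :
    Phi g p ≤ ∏ i, ∫ t, Real.exp (-(t * y i / 2)) * p i t ∂nu := by
  rw [← integral_fintype_prod_eq_prod (fun i t => Real.exp (-(t * y i / 2)) * p i t)]
  refine integral_mono (phi_int hg hp) (phi2_int (ψ := fun i t => Real.exp (-(t * y i / 2))) hp
    fun _ => by fun_prop) fun u => ?_
  dsimp only
  rw [Finset.prod_mul_distrib, ← Real.exp_sum]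
  refine mul_le_mul_of_nonneg_right (Real.exp_le_exp.2 ?_) (Finset.prod_nonneg fun i _ => h0 i _)
  rw [Finset.sum_neg_distrib, ← Finset.sum_div]
  linarith [hy u]

theorem phi2_int_dl : ∫ t, dl t ∂nu = 1 := by
  simpa using int_dl fun _ => 1

theorem phi_dl (hg : Adm B g) : Phi g (fun _ => dl) = 1 := by
  have h : ∀ u : Fin n → ℝ, Real.exp (-g u) * ∏ i, dl (u i) = ∏ i, dl (u i) := by
    intro u
    by_cases hu : u = 0
    · rw [hu, hg.zero, neg_zero, Real.exp_zero, one_mul]
    · obtain ⟨i, hi⟩ := Function.ne_iff.1 hu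
      rw [Finset.prod_eq_zero (Finset.mem_univ i) (if_neg hi), mul_zero]
  unfold Phi
  simp only [h]
  rw [integral_fintype_prod_eq_prod (fun _ : Fin n => dl)]
  simp [phi2_int_dl]

theorem phi2_prod (p : Fin n → ℝ → ℝ) (k : Fin n) (a : ℝ → ℝ) (u : Fin n → ℝ) :
    ∏ i, update p k a i (u i) = a (u k) * ∏ i ∈ Finset.univ.erase k, p i (u i) := by
  rw [← Finset.mul_prod_erase _ _ (Finset.mem_univ k), update_self]
  congr 1
  exact Finset.prod_congr rfl fun i hi => by rw [update_of_ne (Finset.ne_of_mem_erase hi)]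

theorem phi2_split (k : Fin (n + 1)) (a : ℝ → ℝ) (H : (Fin n → ℝ) → ℝ) :
    ∫ u, a (u k) * H (fun j => u (k.succAbove j)) ∂(Measure.pi fun _ : Fin (n + 1) => nu) =
      (∫ t, a t ∂nu) * ∫ w, H w ∂(Measure.pi fun _ : Fin n => nu) := by
  rw [← integral_prod_mul,
    ← (measurePreserving_piFinSuccAbove (fun _ : Fin (n + 1) => nu) k).integral_comp']
  rfl

theorem phi2_fub {g : (Fin (n + 1) → ℝ) → ℝ} (p : Fin (n + 1) → ℝ → ℝ) (k : Fin (n + 1))
    (a : ℝ → ℝ) :
    ∫ u, Real.exp (-g (update u k 0)) * ∏ i, update p k a i (u i)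
      ∂(Measure.pi fun _ : Fin (n + 1) => nu) = (∫ t, a t ∂nu) *
      ∫ w, Real.exp (-g (k.insertNth 0 w)) * ∏ j, p (k.succAbove j) (w j)
        ∂(Measure.pi fun _ : Fin n => nu) := by
  rw [← phi2_split k a]
  congr 1
  funext u
  have e : update u k 0 = k.insertNth 0 fun j => u (k.succAbove j) := by
    refine (Fin.eq_insertNth_iff).2 ⟨update_self _ _ _, ?_⟩
    funext j
    exact update_of_ne (Fin.succAbove_ne k j) _ _
  rw [Fin.prod_univ_succAbove _ k, update_self, e]
  simp only [update_of_ne (Fin.succAbove_ne k _)]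
  ring

theorem phi_fub (p : Fin n → ℝ → ℝ) (k : Fin n) (a : ℝ → ℝ) :
    ∫ u, Real.exp (-g (update u k 0)) * ∏ i, update p k a i (u i)
      ∂(Measure.pi fun _ : Fin n => nu) = (∫ t, a t ∂nu) * Phi g (update p k dl) := by
  cases n with
  | zero => exact k.elim0
  | succ n =>
    have h : Phi g (update p k dl) = ∫ u, Real.exp (-g (update u k 0)) * ∏ i, update p k dl i (u i)
        ∂(Measure.pi fun _ : Fin (n + 1) => nu) := by
      unfold Phi
      congr 1
      funext u
      by_cases hu : u k = 0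
      · rw [← hu, update_eq_self]
      · rw [phi2_prod, show dl (u k) = 0 from if_neg hu, zero_mul, mul_zero, mul_zero]
    rw [h, phi2_fub, phi2_fub, phi2_int_dl, one_mul]

theorem phi2_ok (hp : ∀ i, Ok (p i)) (k : Fin n) {a : ℝ → ℝ} (ha : Ok a) (i : Fin n) :
    Ok (update p k a i) := by
  by_cases h : i = k
  · rw [h, update_self]
    exact ha
  · rw [update_of_ne h]
    exact hp i

theorem Adm.phi2_upd (hg : Adm B g) (u : Fin n → ℝ) (k : Fin n) :
    |g u - g (update u k 0)| ≤ B * |u k| := by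
  refine (hg.phi2_abs _ _).trans_eq ?_
  rw [Finset.sum_eq_single k (fun i _ hi => by rw [update_of_ne hi, sub_self, abs_zero])
    (by simp), update_self, sub_zero]

theorem Adm.phi2_adm (hg : Adm B g) (k : Fin n) : Adm B fun u => g (update u k 0) := by
  refine ⟨hg.pos, ?_, fun u v => (hg.lip _ _).trans (mul_le_mul_of_nonneg_left
    (Finset.sum_le_sum fun i _ => ?_) hg.pos), fun u v => le_of_eq_of_le ?_ (hg.mid _ _)⟩
  · rw [show update (0 : Fin n → ℝ) k 0 = 0 from update_eq_self k 0]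
    exact hg.zero
  · by_cases h : i = k
    · simp [h]
    · simp [update_of_ne h]
  · congr 1
    funext i
    by_cases h : i = k
    · simp [h]
    · simp [update_of_ne h]

theorem phi_dn (hg : Adm B g) (hp : ∀ i, Ok (p i)) (h0 : ∀ i t, 0 ≤ p i t) (k : Fin n)
    {a : ℝ → ℝ} (ha : Ok a) (a0 : ∀ t, 0 ≤ a t) :
    (∫ t, Real.exp (-(B * |t|)) * a t ∂nu) * Phi g (update p k dl) ≤ Phi g (update p k a) := by
  rw [← phi_fub]
  have hP : ∀ u : Fin n → ℝ, 0 ≤ ∏ i ∈ Finset.univ.erase k, p i (u i) := fun u =>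
    Finset.prod_nonneg fun i _ => h0 i _
  refine integral_mono_of_nonneg (Filter.Eventually.of_forall fun u => ?_)
    (phi_int hg (phi2_ok hp k ha)) (Filter.Eventually.of_forall fun u => ?_)
  · dsimp only
    rw [phi2_prod]
    exact mul_nonneg (Real.exp_pos _).le (mul_nonneg (mul_nonneg (Real.exp_pos _).le (a0 _)) (hP u))
  · dsimp only
    rw [phi2_prod, phi2_prod, mul_assoc, ← mul_assoc, ← Real.exp_add]
    refine mul_le_mul_of_nonneg_right (Real.exp_le_exp.2 ?_) (mul_nonneg (a0 _) (hP u))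
    linarith [(abs_le.1 (hg.phi2_upd u k)).2]

theorem phi2_exp_sub {d s : ℝ} (h : |d| ≤ s) : |Real.exp d - 1| ≤ |Real.exp s - 1| := by
  obtain ⟨h1, h2⟩ := abs_le.1 h
  refine le_trans (abs_le.2 ⟨?_, ?_⟩) (le_abs_self _)
  · linarith [Real.add_one_le_exp d, Real.add_one_le_exp s]
  · linarith [Real.exp_le_exp.2 h2]

theorem phi_cmp (hg : Adm B g) (hp : ∀ i, Ok (p i)) (k : Fin n) {a : ℝ → ℝ} (ha : Ok a) {r : ℝ}
    (hr : ∀ t, a t ≠ 0 → |t| ≤ r) :
    |Phi g (update p k a) - (∫ t, a t ∂nu) * Phi g (update p k dl)| ≤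
      |Real.exp (B * r) - 1| * (∫ t, |a t| ∂nu) *
        ∏ i ∈ Finset.univ.erase k, ∫ t, Real.exp (B * |t|) * |p i t| ∂nu := by
  have e : (∫ t, |a t| ∂nu) * ∏ i ∈ Finset.univ.erase k, ∫ t, Real.exp (B * |t|) * |p i t| ∂nu =
      ∫ u, ∏ i, update (fun i t => Real.exp (B * |t|) * |p i t|) k (fun t => |a t|) i (u i)
        ∂(Measure.pi fun _ : Fin n => nu) := by
    rw [integral_fintype_prod_eq_prod, ← Finset.mul_prod_erase _ _ (Finset.mem_univ k),
      update_self]
    congr 1
    exact Finset.prod_congr rfl fun i hi => by rw [update_of_ne (Finset.ne_of_mem_erase hi)]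
  have hI : Integrable (fun u : Fin n → ℝ =>
      ∏ i, update (fun i t => Real.exp (B * |t|) * |p i t|) k (fun t => |a t|) i (u i))
      (Measure.pi fun _ : Fin n => nu) := by
    refine Integrable.fintype_prod fun i => ?_
    by_cases h : i = k
    · rw [h, update_self]
      simpa using ha.abs.int (continuous_const (y := (1 : ℝ)))
    · rw [update_of_ne h]
      exact (hp i).abs.int (by fun_prop)
  rw [← phi_fub, mul_assoc, e, ← integral_const_mul]
  unfold Phi
  rw [← integral_sub (phi_int hg (phi2_ok hp k ha)) (phi_int (hg.phi2_adm k) (phi2_ok hp k ha))]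
  rw [← Real.norm_eq_abs]
  refine norm_integral_le_of_norm_le (hI.const_mul _) (Filter.Eventually.of_forall fun u => ?_)
  rw [← sub_mul, phi2_prod, phi2_prod, Real.norm_eq_abs, abs_mul, abs_mul, Finset.abs_prod,
    Finset.prod_mul_distrib]
  by_cases h : a (u k) = 0
  · simp [h]
  · have h1 : Real.exp (-g (update u k 0)) ≤ ∏ i ∈ Finset.univ.erase k, Real.exp (B * |u i|) := by
      refine (hg.phi2_exp _).trans_eq ?_
      rw [← Finset.mul_prod_erase _ _ (Finset.mem_univ k), update_self, abs_zero, mul_zero,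
        Real.exp_zero, one_mul]
      exact Finset.prod_congr rfl fun i hi => by rw [update_of_ne (Finset.ne_of_mem_erase hi)]
    have h2 : |Real.exp (g (update u k 0) - g u) - 1| ≤ |Real.exp (B * r) - 1| := by
      refine phi2_exp_sub ?_
      rw [abs_sub_comm]
      exact (hg.phi2_upd u k).trans (mul_le_mul_of_nonneg_left (hr _ h) hg.pos)
    have h3 : Real.exp (-g u) - Real.exp (-g (update u k 0)) =
        (Real.exp (g (update u k 0) - g u) - 1) * Real.exp (-g (update u k 0)) := by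
      rw [sub_mul, ← Real.exp_add, one_mul]
      congr 2
      ring
    rw [h3, abs_mul, abs_of_pos (Real.exp_pos _)]
    have h4 : 0 ≤ |a (u k)| * ∏ i ∈ Finset.univ.erase k, |p i (u i)| :=
      mul_nonneg (abs_nonneg _) (Finset.prod_nonneg fun _ _ => abs_nonneg _)
    refine (mul_le_mul_of_nonneg_right (mul_le_mul h2 h1 (Real.exp_pos _).le (abs_nonneg _))
      h4).trans_eq ?_
    ring

theorem X_pos (hg : Adm B g) {R : ℝ} (hR : 0 < R) (G : St (Fin n)) : 0 < X g R G := by
  refine lt_of_lt_of_le (mul_pos (Real.exp_pos _) (Finset.prod_pos fun i _ => ?_))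
    (phi_ge hg (fun i => ok_pS R (G i) 0) (fun i t => pS_nonneg R (G i) 0 t) 0)
  cases G i with
  | none =>
    rw [show pS R none 0 = dl from rfl, int_dl]
    exact Real.exp_pos _
  | some s =>
    rw [show pS R (some s) 0 = pw R s 0 from rfl, int_pw (by fun_prop) s hR.le]
    exact intervalIntegral.intervalIntegral_pos_of_pos
      (Continuous.intervalIntegrable (by fun_prop) _ _) (fun t => by positivity) hR

end Pool.Agent.Lib.MP_70b2ae_gt.Bg
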