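import Pool.Agent.Lib.MP_70b2ae_gt.BgPhi

/-! One variable facts and second order expansions. -/

namespace Pool.Agent.Lib.MP_70b2ae_gt.Bg

open MeasureTheory Function Filter Topology

theorem sa_int_pw {R : ℝ} (s : Bool) {z : ℝ} (hz : z ≤ R) :
    ∫ t, pw R s z t ∂nu = 2 * Real.exp (R / 2) - 2 * Real.exp (z / 2) := by
  have h := int_pw (ψ := fun _ => 1) continuous_const s hz
  simp only [one_mul] at h
  rw [h]
  have hd : ∀ t ∈ Set.uIcc z R, HasDerivAt (fun t : ℝ => 2 * Real.exp (t / 2))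
      (Real.exp (t / 2)) t := fun t _ => by
    have := (((hasDerivAt_id t).div_const 2).exp).const_mul 2
    refine this.congr_deriv ?_
    simp only [id]
    ring
  exact intervalIntegral.integral_eq_sub_of_hasDerivAt hd
    ((by fun_prop : Continuous fun t : ℝ => Real.exp (t / 2)).intervalIntegrable _ _)

theorem sa_integrable {p : ℝ → ℝ} (hp : Ok p) : Integrable p nu := by
  simpa using hp.int (ψ := fun _ => 1) continuous_const

theorem sa_int_diff {R : ℝ} (hR : 0 ≤ R) (s : Bool) {z : ℝ} (hz : z ≤ R) :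
    ∫ t, (pw R s 0 t - pw R s z t) ∂nu = 2 * Real.exp (z / 2) - 2 := by
  rw [integral_sub (sa_integrable (ok_pw _ _ _)) (sa_integrable (ok_pw _ _ _)), sa_int_pw s hR,
    sa_int_pw s hz]
  simp

theorem sa_anti (R : ℝ) (s : Bool) {z w : ℝ} (h : z ≤ w) (t : ℝ) : pw R s w t ≤ pw R s z t := by
  unfold pw
  split_ifs with h1 h2 h2
  · exact le_rfl
  · refine absurd ⟨h1.1, ?_, ?_⟩ h2
    · have := h1.2.1
      cases s <;> simp only [lo, if_true, Bool.false_eq_true, if_false] at this ⊢ <;> linarith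
    · have := h1.2.2
      cases s <;> simp only [hi, if_true, Bool.false_eq_true, if_false] at this ⊢ <;> linarith
  · exact (Real.exp_pos _).le
  · exact le_rfl

theorem sa_supp {R : ℝ} {s : Bool} {z t : ℝ} (h : pw R s 0 t - pw R s z t ≠ 0) : |t| ≤ |z| := by
  by_contra k
  apply h
  have k1 := le_abs_self z
  have k2 := neg_abs_le z
  have e : (lo R s 0 < t ∧ t ≤ hi R s 0) ↔ (lo R s z < t ∧ t ≤ hi R s z) := by
    rcases lt_abs.1 (not_le.1 k) with k3 | k3 <;> cases s <;>
      simp only [lo, hi, if_true, Bool.false_eq_true, if_false] <;>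
      constructor <;> rintro ⟨a, b⟩ <;> constructor <;> linarith
  simp only [pw, e, sub_self]

theorem sa_abs {f : ℝ → ℝ} (h : (∀ t, 0 ≤ f t) ∨ ∀ t, f t ≤ 0) :
    ∫ t, |f t| ∂nu = |∫ t, f t ∂nu| := by
  rcases h with h | h
  · rw [abs_of_nonneg (integral_nonneg h)]
    exact integral_congr_ae (Eventually.of_forall fun t => abs_of_nonneg (h t))
  · rw [abs_of_nonpos (integral_nonpos h), ← integral_neg]
    exact integral_congr_ae (Eventually.of_forall fun t => abs_of_nonpos (h t))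

/-- the normalised first order bump -/
noncomputable def ah (R : ℝ) (o : Option Bool) (z e t : ℝ) : ℝ :=
  e⁻¹ * (pS R o 0 t - pS R o (e * z) t)

theorem ok_ah (R : ℝ) (o : Option Bool) (z e : ℝ) : Ok (ah R o z e) :=
  ((ok_pS R o 0).sub (ok_pS R o (e * z))).const_mul _

theorem ah_none (R z e : ℝ) : ah R none z e = fun _ => 0 := by
  funext t
  simp [ah, pS]

theorem ah_supp {R : ℝ} {o : Option Bool} {z e t : ℝ} (h : ah R o z e t ≠ 0) :
    |t| ≤ |e| * |z| := by
  cases o with
  | none => exact absurd (by rw [ah_none]) h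
  | some s =>
    rw [← abs_mul]
    exact sa_supp (right_ne_zero_of_mul h)

theorem ah_abs (R : ℝ) (o : Option Bool) (z e : ℝ) :
    ∫ t, |ah R o z e t| ∂nu = |∫ t, ah R o z e t ∂nu| := by
  cases o with
  | none => simp [ah_none]
  | some s =>
    apply sa_abs
    rcases le_total 0 (e * z) with h | h <;> rcases le_total 0 e⁻¹ with k | k
    · exact Or.inl fun t => mul_nonneg k (sub_nonneg.2 (sa_anti R s h t))
    · exact Or.inr fun t => mul_nonpos_of_nonpos_of_nonneg k (sub_nonneg.2 (sa_anti R s h t))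
    · exact Or.inr fun t => mul_nonpos_of_nonneg_of_nonpos k (sub_nonpos.2 (sa_anti R s h t))
    · exact Or.inl fun t => mul_nonneg_of_nonpos_of_nonpos k (sub_nonpos.2 (sa_anti R s h t))

theorem sa_small {R : ℝ} (hR : 0 < R) (z : ℝ) : ∀ᶠ e in 𝓝[≠] (0 : ℝ), |e * z| ≤ R := by
  have : Tendsto (fun e : ℝ => |e * z|) (𝓝 0) (𝓝 |0 * z|) :=
    (by fun_prop : Continuous fun e : ℝ => |e * z|).tendsto 0
  rw [zero_mul, abs_zero] at this
  exact (this.eventually (ge_mem_nhds hR)).filter_mono nhdsWithin_le_nhds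

theorem sa_slope (c : ℝ) :
    Tendsto (fun e : ℝ => e⁻¹ * (Real.exp (e * c) - 1)) (𝓝[≠] 0) (𝓝 c) := by
  have h : HasDerivAt (fun e : ℝ => Real.exp (e * c)) c 0 := by
    have := ((hasDerivAt_id (0 : ℝ)).mul_const c).exp
    refine this.congr_deriv ?_
    simp
  simpa using hasDerivAt_iff_tendsto_slope_zero.1 h

theorem ah_lim {R : ℝ} (hR : 0 < R) (s : Bool) (z : ℝ) :
    Tendsto (fun e => ∫ t, ah R (some s) z e t ∂nu) (𝓝[≠] 0) (𝓝 z) := by
  have h := (sa_slope (z / 2)).const_mul 2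
  rw [show 2 * (z / 2) = z by ring] at h
  refine h.congr' ((sa_small hR z).mono fun e he => ?_)
  simp only [ah, pS]
  rw [integral_const_mul, sa_int_diff hR.le s ((le_abs_self _).trans he), mul_div_assoc]
  ring

/-- the normalised second order bump -/
noncomputable def bh (R z e t : ℝ) : ℝ :=
  e⁻¹ * ((ah R (some true) z e t - ah R (some true) z (-e) t) +
    (ah R (some false) z e t - ah R (some false) z (-e) t))

theorem ok_bh (R z e : ℝ) : Ok (bh R z e) :=
  (((ok_ah _ _ _ _).sub (ok_ah _ _ _ _)).add ((ok_ah _ _ _ _).sub (ok_ah _ _ _ _))).const_mul _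

theorem bh_supp {R z e t : ℝ} (h : bh R z e t ≠ 0) : |t| ≤ |e| * |z| := by
  by_contra k
  have k1 : ∀ o, ah R o z e t = 0 := fun o => by_contra fun c => k (ah_supp c)
  have k2 : ∀ o, ah R o z (-e) t = 0 := fun o => by_contra fun c => k (by simpa using ah_supp c)
  exact h (by simp [bh, k1, k2])

theorem bh_eq (R z e t : ℝ) : bh R z e t = e⁻¹ ^ 2 *
    (((pw R true 0 t - pw R true (e * z) t) + (pw R true 0 t - pw R true (-(e * z)) t)) +
      ((pw R false 0 t - pw R false (e * z) t) + (pw R false 0 t - pw R false (-(e * z)) t))) := by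
  simp only [bh, ah, pS, inv_neg, neg_mul]
  ring

theorem sa_four {R w : ℝ} (h0 : 0 ≤ w) (h : w ≤ R) (t : ℝ) :
    0 ≤ ((pw R true 0 t - pw R true w t) + (pw R true 0 t - pw R true (-w) t)) +
      ((pw R false 0 t - pw R false w t) + (pw R false 0 t - pw R false (-w) t)) := by
  have e1 := Real.exp_pos (1 * t / 2)
  have e2 := Real.exp_pos (-1 * t / 2)
  simp only [pw, lo, hi, sg, if_true, Bool.false_eq_true, if_false, neg_zero, neg_neg]
  rcases lt_trichotomy t 0 with ht | ht | ht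
  · have e3 : Real.exp (1 * t / 2) ≤ Real.exp (-1 * t / 2) := Real.exp_le_exp.2 (by linarith)
    have n := ht.ne
    split_ifs <;> first | linarith | (exfalso; simp only [not_and, not_le, not_lt] at *; grind)
  · simp [ht]
  · have e3 : Real.exp (-1 * t / 2) ≤ Real.exp (1 * t / 2) := Real.exp_le_exp.2 (by linarith)
    have n := ht.ne'
    split_ifs <;> first | linarith | (exfalso; simp only [not_and, not_le, not_lt] at *; grind)

theorem bh_abs {R : ℝ} (hR : 0 < R) (z : ℝ) :
    ∀ᶠ e in 𝓝[≠] (0 : ℝ), ∫ t, |bh R z e t| ∂nu = |∫ t, bh R z e t ∂nu| :=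
  (sa_small hR z).mono fun e he => sa_abs (Or.inl fun t => by
    rw [bh_eq]
    refine mul_nonneg (sq_nonneg _) ?_
    rcases le_total 0 (e * z) with h | h
    · exact sa_four h ((le_abs_self _).trans he) t
    · have := sa_four (neg_nonneg.2 h) ((neg_le_abs _).trans he) t
      rw [neg_neg] at this
      linarith)

theorem bh_lim {R : ℝ} (hR : 0 < R) (z : ℝ) :
    Tendsto (fun e => ∫ t, bh R z e t ∂nu) (𝓝[≠] 0) (𝓝 (z ^ 2)) := by
  have h := (((sa_slope (z / 4)).sub (sa_slope (-(z / 4)))).const_mul 2).pow 2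
  rw [show 2 * (z / 4 - -(z / 4)) = z by ring] at h
  refine h.congr' ((sa_small hR z).mono fun e he => ?_)
  have i : ∀ s w, Integrable (fun t => pw R s 0 t - pw R s w t) nu := fun s w =>
    sa_integrable ((ok_pw _ _ _).sub (ok_pw _ _ _))
  have j : ∀ s w v, Integrable (fun t => (pw R s 0 t - pw R s w t) + (pw R s 0 t - pw R s v t)) nu :=
    fun s w v => (i s w).add (i s v)
  have h1 := (le_abs_self _).trans he
  have h2 := (neg_le_abs _).trans he
  simp only [bh_eq]
  rw [integral_const_mul, integral_add (j _ _ _) (j _ _ _),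
    integral_add (i _ _) (i _ _), integral_add (i _ _) (i _ _), sa_int_diff hR.le _ h1,
    sa_int_diff hR.le _ h1, sa_int_diff hR.le _ h2, sa_int_diff hR.le _ h2]
  have a1 : Real.exp (e * z / 2) = Real.exp (e * (z / 4)) ^ 2 := by
    rw [← Real.exp_nat_mul]
    congr 1
    push_cast
    ring
  have a2 : Real.exp (-(e * z) / 2) = Real.exp (e * -(z / 4)) ^ 2 := by
    rw [← Real.exp_nat_mul]
    congr 1
    push_cast
    ring
  have a3 : Real.exp (e * (z / 4)) * Real.exp (e * -(z / 4)) = 1 := by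
    rw [← Real.exp_add, ← Real.exp_zero]
    congr 1
    ring
  rw [a1, a2]
  linear_combination (-8 * e⁻¹ ^ 2) * a3

section
variable {ι : Type} [Fintype ι] [DecidableEq ι]

theorem sa_one (f : Finset ι → ℝ) : ∑ S : Finset ι, (if S.card = 1 then f S else 0) = ∑ k, f {k} := by
  rw [← Finset.sum_filter]
  symm
  refine Finset.sum_bij (fun k _ => {k}) (by simp) (by simp) (fun S hS => ?_) fun _ _ => rfl
  obtain ⟨k, rfl⟩ := Finset.card_eq_one.1 (Finset.mem_filter.1 hS).2
  exact ⟨k, Finset.mem_univ _, rfl⟩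

theorem sa_two (f : Finset ι → ℝ) : ∑ S : Finset ι, (if S.card = 2 then 2 * f S else 0) =
    ∑ k, ∑ m, if k = m then 0 else f {k, m} := by
  have e1 : ∀ S : Finset ι, (if S.card = 2 then 2 * f S else 0) =
      ∑ k, if S.card = 2 ∧ k ∈ S then f S else 0 := fun S => by
    by_cases h : S.card = 2
    · simp [h]
    · simp [h]
  simp only [e1]
  rw [Finset.sum_comm]
  refine Finset.sum_congr rfl fun k _ => ?_
  have e2 : ∀ m, (if k = m then 0 else f {k, m}) = if k ≠ m then f {k, m} else 0 := fun m => by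
    by_cases h : k = m <;> simp [h]
  simp only [e2]
  rw [← Finset.sum_filter, ← Finset.sum_filter]
  symm
  refine Finset.sum_bij (fun m _ => {k, m}) (fun m hm => ?_) (fun a ha b hb h => ?_)
    (fun S hS => ?_) fun _ _ => rfl
  · simp [Finset.card_pair (Finset.mem_filter.1 hm).2]
  · have h1 : a ∈ ({k, b} : Finset ι) := h ▸ by simp
    rcases Finset.mem_insert.1 h1 with h2 | h2
    · exact absurd h2.symm (Finset.mem_filter.1 ha).2
    · exact Finset.mem_singleton.1 h2
  · obtain ⟨h1, h2⟩ := (Finset.mem_filter.1 hS).2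
    obtain ⟨a, b, hab, rfl⟩ := Finset.card_eq_two.1 h1
    rcases Finset.mem_insert.1 h2 with h3 | h3
    · subst h3
      exact ⟨b, by simpa using hab, rfl⟩
    · obtain rfl := Finset.mem_singleton.1 h3
      exact ⟨a, by simpa using hab.symm, Finset.pair_comm _ _⟩

theorem sa_ne : ∀ᶠ e in 𝓝[≠] (0 : ℝ), e ≠ 0 := self_mem_nhdsWithin

theorem sa_neg : Tendsto (fun e : ℝ => -e) (𝓝[≠] 0) (𝓝[≠] 0) := by
  refine tendsto_nhdsWithin_iff.2 ⟨?_, sa_ne.mono fun e he => by simpa using he⟩
  have : Tendsto (fun e : ℝ => -e) (𝓝 0) (𝓝 (-0)) := continuous_neg.tendsto 0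
  rw [neg_zero] at this
  exact this.mono_left nhdsWithin_le_nhds

theorem sa_pow (r : ℕ) : Tendsto (fun e : ℝ => e ^ r) (𝓝[≠] 0) (𝓝 (0 ^ r)) :=
  ((continuous_pow r).tendsto 0).mono_left nhdsWithin_le_nhds

variable {F : Finset ι → ℝ → ℝ} {Y : Finset ι → ℝ} {x : ℝ}

theorem sa_odd (hF : ∀ S, Tendsto (F S) (𝓝[≠] 0) (𝓝 (Y S))) (h0 : ∀ e, F ∅ e = x) :
    Tendsto (fun e : ℝ => e⁻¹ * (∑ S, (-e) ^ S.card * F S e - ∑ S, (- -e) ^ S.card * F S (-e)))
      (𝓝[≠] 0) (𝓝 (-2 * ∑ k, Y {k})) := by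
  rw [Finset.mul_sum, ← sa_one fun S => -2 * Y S]
  simp only [← Finset.sum_sub_distrib, Finset.mul_sum]
  refine tendsto_finsetSum _ fun S _ => ?_
  rcases hc : S.card with _ | r
  · rw [Finset.card_eq_zero.1 hc]
    simp [h0]
  · have h := (sa_pow r).mul (((hF S).const_mul ((-1) ^ (r + 1))).sub ((hF S).comp sa_neg))
    have e : (0 : ℝ) ^ r * ((-1) ^ (r + 1) * Y S - Y S) = if r + 1 = 1 then -2 * Y S else 0 := by
      rcases r with _ | r
      · simp only [pow_zero, zero_add, pow_one, if_true]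
        ring
      · simp
    rw [e] at h
    refine h.congr' (sa_ne.mono fun e he => ?_)
    simp only [comp_apply, neg_neg]
    rw [neg_pow e]
    field_simp
    ring

theorem sa_even (hF : ∀ S, Tendsto (F S) (𝓝[≠] 0) (𝓝 (Y S))) (h0 : ∀ e, F ∅ e = x) :
    Tendsto (fun e : ℝ => e⁻¹ ^ 2 * (∑ S, (-e) ^ S.card * F S e +
        ∑ S, (- -e) ^ S.card * F S (-e) - 2 * x) + ∑ k, e⁻¹ * (F {k} e - F {k} (-e)))
      (𝓝[≠] 0) (𝓝 (∑ k, ∑ m, if k = m then 0 else Y {k, m})) := by
  have e0 : 2 * x = ∑ S : Finset ι, if S = ∅ then 2 * x else 0 := by simp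
  have e1 : ∀ e : ℝ, ∑ k, e⁻¹ * (F {k} e - F {k} (-e)) =
      ∑ S : Finset ι, if S.card = 1 then e⁻¹ * (F S e - F S (-e)) else 0 := fun e =>
    (sa_one fun S => e⁻¹ * (F S e - F S (-e))).symm
  rw [← sa_two, e0]
  simp only [e1, ← Finset.sum_add_distrib, ← Finset.sum_sub_distrib, Finset.mul_sum]
  refine tendsto_finsetSum _ fun S _ => ?_
  rcases hc : S.card with _ | _ | r
  · rw [Finset.card_eq_zero.1 hc]
    simp [h0, two_mul]
  · have hS : S ≠ ∅ := fun h => by simp [h] at hc
    refine (tendsto_const_nhds (x := (0 : ℝ))).congr' (sa_ne.mono fun e he => ?_)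
    simp only [hS, if_false, zero_add, if_true, pow_one, neg_neg]
    field_simp
    ring
  · have hS : S ≠ ∅ := fun h => by simp [h] at hc
    have h := (sa_pow r).mul (((hF S).const_mul ((-1) ^ (r + 2))).add ((hF S).comp sa_neg))
    have e : (0 : ℝ) ^ r * ((-1) ^ (r + 2) * Y S + Y S) =
        if r + 1 + 1 = 2 then 2 * Y S else 0 := by
      rcases r with _ | r
      · simp only [pow_zero, zero_add, if_true]
        ring
      · simp
    rw [e] at h
    refine h.congr' (sa_ne.mono fun e he => ?_)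
    have n1 : ¬(r + 1 + 1 = 1) := by omega
    simp only [comp_apply, neg_neg, hS, n1, if_false]
    rw [neg_pow e]
    field_simp
    ring

end

end Pool.Agent.Lib.MP_70b2ae_gt.Bg
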