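import Pool.Agent.Lib.MP_70b2ae_gt.BgAlg
import Pool.Agent.Lib.MP_70b2ae_gt.BgPL
import Pool.Agent.Lib.MP_70b2ae_gt.BgLimS
import Pool.Agent.Lib.MP_70b2ae_gt.BgStarA

/-! The quadratic inequality for the truncated orthant integrals. -/

namespace Pool.Agent.Lib.MP_70b2ae_gt.Bg

open MeasureTheory Function Filter Topology

variable {n : ℕ} {B : ℝ} {g : (Fin n → ℝ) → ℝ}

theorem st_ok_pw {a p : Fin n → ℝ → ℝ} (ha : ∀ i, Ok (a i)) (hp : ∀ i, Ok (p i))
    (S : Finset (Fin n)) (i : Fin n) : Ok (S.piecewise a p i) := by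
  by_cases h : i ∈ S
  · rw [Finset.piecewise_eq_of_mem _ _ _ h]
    exact ha i
  · rw [Finset.piecewise_eq_of_notMem _ _ _ h]
    exact hp i

theorem st_ok_upd {p : Fin n → ℝ → ℝ} (hp : ∀ i, Ok (p i)) (k : Fin n) {a : ℝ → ℝ} (ha : Ok a)
    (i : Fin n) : Ok (update p k a i) := by
  by_cases h : i = k
  · subst h
    rwa [update_self]
  · rw [update_of_ne h]
    exact hp i

theorem st_expand (hg : Adm B g) {a p : Fin n → ℝ → ℝ} (ha : ∀ i, Ok (a i)) (hp : ∀ i, Ok (p i))
    (e : ℝ) : Phi g (fun i t => p i t - e * a i t) =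
      ∑ S : Finset (Fin n), (-e) ^ S.card * Phi g (S.piecewise a p) := by
  simp only [Phi, ← integral_const_mul]
  rw [← integral_finsetSum _ fun S _ => (phi_int hg (st_ok_pw ha hp S)).const_mul _]
  refine integral_congr_ae (Eventually.of_forall fun u => ?_)
  have e1 : ∀ i, p i (u i) - e * a i (u i) = -e * a i (u i) + p i (u i) := fun i => by ring
  simp only [e1]
  rw [Finset.prod_add, Finset.powerset_univ, Finset.mul_sum]
  refine Finset.sum_congr rfl fun S _ => ?_
  have e2 : ∀ i, S.piecewise a p i (u i) =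
      S.piecewise (fun i => a i (u i)) (fun i => p i (u i)) i := fun i => by
    by_cases h : i ∈ S <;> simp [h]
  simp only [e2]
  rw [Finset.prod_piecewise, Finset.prod_mul_distrib, Finset.prod_const, Finset.univ_inter]
  ring

theorem st_prod (p : Fin n → ℝ → ℝ) (k : Fin n) (a : ℝ → ℝ) (u : Fin n → ℝ) :
    ∏ i, update p k a i (u i) = a (u k) * ∏ i ∈ Finset.univ.erase k, p i (u i) := by
  rw [← Finset.mul_prod_erase _ _ (Finset.mem_univ k), update_self]
  congr 1
  exact Finset.prod_congr rfl fun i hi => by rw [update_of_ne (Finset.ne_of_mem_erase hi)]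

theorem st_lin (hg : Adm B g) {p : Fin n → ℝ → ℝ} (hp : ∀ i, Ok (p i)) (k : Fin n)
    {a b c d : ℝ → ℝ} (ha : Ok a) (hb : Ok b) (hc : Ok c) (hd : Ok d) (r : ℝ) :
    r * (Phi g (update p k a) - Phi g (update p k b)) +
      r * (Phi g (update p k c) - Phi g (update p k d)) =
      Phi g (update p k fun t => r * ((a t - b t) + (c t - d t))) := by
  have i : ∀ {a : ℝ → ℝ}, Ok a → Integrable (fun u => Real.exp (-g u) * ∏ i, update p k a i (u i))
      (Measure.pi fun _ : Fin n => nu) := fun ha => phi_int hg (st_ok_upd hp k ha)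
  have j : ∀ {a b : ℝ → ℝ}, Ok a → Ok b → Integrable (fun u =>
      Real.exp (-g u) * ∏ i, update p k a i (u i) - Real.exp (-g u) * ∏ i, update p k b i (u i))
      (Measure.pi fun _ : Fin n => nu) := fun ha hb => (i ha).sub (i hb)
  unfold Phi
  rw [← mul_add, ← integral_sub (i ha) (i hb), ← integral_sub (i hc) (i hd),
    ← integral_add (j ha hb) (j hc hd), ← integral_const_mul]
  refine integral_congr_ae (Eventually.of_forall fun u => ?_)
  simp only [st_prod]
  ring

/-- the shift attached to a state -/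
def zC (N : Fin n → St (Fin n) → ℝ) (C : St (Fin n)) (i : Fin n) : ℝ := dn i (N i) C

/-- the coefficients of the expansion -/
noncomputable def FC (g : (Fin n → ℝ) → ℝ) (R : ℝ) (N : Fin n → St (Fin n) → ℝ) (C : St (Fin n))
    (S : Finset (Fin n)) (e : ℝ) : ℝ :=
  Phi g (S.piecewise (fun i => ah R (C i) (zC N C i) e) fun i => pS R (C i) 0)

/-- their limits -/
noncomputable def YC (g : (Fin n → ℝ) → ℝ) (R : ℝ) (N : Fin n → St (Fin n) → ℝ) (C : St (Fin n))
    (S : Finset (Fin n)) : ℝ :=
  (∏ i ∈ S, zC N C i) * X g R (S.piecewise (fun _ => none) C)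

variable {R : ℝ} {N : Fin n → St (Fin n) → ℝ}

theorem st_abs (c : ℝ) : Tendsto (fun e : ℝ => |e| * c) (𝓝[≠] 0) (𝓝 0) := by
  have : Tendsto (fun e : ℝ => |e| * c) (𝓝 0) (𝓝 (|0| * c)) :=
    (by fun_prop : Continuous fun e : ℝ => |e| * c).tendsto 0
  rw [abs_zero, zero_mul] at this
  exact this.mono_left nhdsWithin_le_nhds

theorem st_FC (hg : Adm B g) (hR : 0 < R) (C : St (Fin n)) (S : Finset (Fin n)) :
    Tendsto (FC g R N C S) (𝓝[≠] 0) (𝓝 (YC g R N C S)) := by
  have h := phi_lim (l := 𝓝[≠] (0 : ℝ)) hg (fun e i => ah R (C i) (zC N C i) e) (zC N C)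
    (fun e => |e| * ∑ i, |zC N C i|) (st_abs _) (fun e i => ok_ah _ _ _ _)
    (fun e i t h => (ah_supp h).trans (mul_le_mul_of_nonneg_left
      (Finset.single_le_sum (f := fun i => |zC N C i|) (fun _ _ => abs_nonneg _)
        (Finset.mem_univ i)) (abs_nonneg _)))
    (fun i => ?_) (fun i => Eventually.of_forall fun e => ah_abs _ _ _ _) S
    (fun i => pS R (C i) 0) fun i => ok_pS _ _ _
  · have e : S.piecewise (fun _ => dl) (fun i => pS R (C i) 0) =
        fun i => pS R (S.piecewise (fun _ => none) C i) 0 := by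
      funext i
      by_cases h : i ∈ S <;> simp [h, pS]
    rw [e] at h
    exact h
  · rcases hc : C i with _ | s
    · simp [ah_none, zC, dn, hc]
    · exact ah_lim hR s _

theorem st_W (hg : Adm B g) (C : St (Fin n)) {e : ℝ} (he : e ≠ 0) :
    W g R C (fun i => e * zC N C i) = ∑ S, (-e) ^ S.card * FC g R N C S e := by
  unfold FC
  rw [← st_expand hg (fun i => ok_ah _ _ _ _) fun i => ok_pS _ _ _]
  unfold W
  congr 1
  funext i t
  simp only [ah]
  field_simp
  ring

theorem st_ineq (hg : Adm B g) (hR : 0 < R) (C : St (Fin n)) {e : ℝ} (he : e ≠ 0) :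
    e⁻¹ ^ 2 * (∑ S, (-e) ^ S.card * FC g R N C S e +
      ∑ S, (- -e) ^ S.card * FC g R N C S (-e) - 2 * X g R C) ≤
      (e⁻¹ * (∑ S, (-e) ^ S.card * FC g R N C S e -
        ∑ S, (- -e) ^ S.card * FC g R N C S (-e))) ^ 2 / (4 * X g R C) := by
  rw [← st_W hg C he, ← st_W hg C (neg_ne_zero.2 he)]
  have h := W_mul_le hg R C fun i => e * zC N C i
  simp only [← neg_mul] at h
  have hx := X_pos hg hR C
  generalize W g R C (fun i => e * zC N C i) = a at *
  generalize W g R C (fun i => -e * zC N C i) = b at *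
  generalize X g R C = x at *
  rw [le_div_iff₀ (by positivity), mul_pow, mul_assoc]
  exact mul_le_mul_of_nonneg_left (by nlinarith [sq_nonneg (a + b - 2 * x)]) (sq_nonneg _)

theorem st_diag (hg : Adm B g) (k : Fin n) (e : ℝ) :
    ∑ C, e⁻¹ * (FC g R N C {k} e - FC g R N C {k} (-e)) =
      ∑ H : St (Fin n), if H k = none then
        Phi g (update (fun i => pS R (H i) 0) k (bh R (N k H) e)) else 0 := by
  have h := up_adj k (fun C => e⁻¹ * (FC g R N C {k} e - FC g R N C {k} (-e))) fun _ => 1
  have e1 : ∀ C : St (Fin n), e⁻¹ * (FC g R N C {k} e - FC g R N C {k} (-e)) * dn k (fun _ => 1) C =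
      e⁻¹ * (FC g R N C {k} e - FC g R N C {k} (-e)) := fun C => by
    unfold dn
    split_ifs with c
    · simp [FC, Finset.piecewise_singleton, c, ah_none]
    · rw [mul_one]
  simp only [e1, mul_one] at h
  rw [← h]
  refine Finset.sum_congr rfl fun H _ => ?_
  unfold up
  split_ifs with c
  · have e2 : ∀ s f, FC g R N (update H k (some s)) {k} f =
        Phi g (update (fun i => pS R (H i) 0) k (ah R (some s) (N k H) f)) := fun s f => by
      have e3 : update H k none = H := by rw [← c, update_eq_self]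
      unfold FC
      congr 1
      funext i
      by_cases hi : i = k
      · subst hi
        simp [zC, dn, e3]
      · simp [hi]
    simp only [e2]
    exact st_lin hg (fun i => ok_pS _ _ _) k (ok_ah _ _ _ _) (ok_ah _ _ _ _) (ok_ah _ _ _ _)
      (ok_ah _ _ _ _) _
  · rfl

theorem st_diag_lim (hg : Adm B g) (hR : 0 < R) (hN : ∀ k G, N k G ≠ 0 → G k = none) (k : Fin n) :
    Tendsto (fun e : ℝ => ∑ C, e⁻¹ * (FC g R N C {k} e - FC g R N C {k} (-e))) (𝓝[≠] 0)
      (𝓝 (∑ G, X g R G * N k G ^ 2)) := by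
  simp only [st_diag hg]
  refine tendsto_finsetSum _ fun H _ => ?_
  by_cases c : H k = none
  · have h := phi_lim (l := 𝓝[≠] (0 : ℝ)) hg (fun e _ => bh R (N k H) e) (fun _ => N k H ^ 2)
      (fun e => |e| * |N k H|) (st_abs _) (fun e i => ok_bh _ _ _) (fun e i t h => bh_supp h)
      (fun _ => bh_lim hR _) (fun _ => bh_abs hR _) {k} (fun i => pS R (H i) 0)
      fun i => ok_pS _ _ _
    have e : update (fun i => pS R (H i) 0) k dl = fun i => pS R (H i) 0 := by
      funext i
      by_cases hi : i = k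
      · subst hi
        simp [c, pS]
      · simp [hi]
    simp only [Finset.piecewise_singleton, Finset.prod_singleton, e] at h
    simp only [c, if_true]
    rw [mul_comm]
    exact h
  · have : N k H = 0 := by_contra fun h => c (hN k H h)
    simp [c, this]

theorem st_Y1 (C : St (Fin n)) (k : Fin n) :
    YC g R N C {k} = dn k (fun G => X g R G * N k G) C := by
  simp only [YC, Finset.prod_singleton, Finset.piecewise_singleton, zC, dn]
  split_ifs
  · rw [zero_mul]
  · rw [mul_comm]

theorem st_Y2 (hN : ∀ k G, N k G ≠ 0 → G k = none) (k m : Fin n) :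
    ∑ C, (if k = m then 0 else YC g R N C {k, m}) =
      ∑ H, X g R H * (up k (N m) H * up m (N k) H) := by
  by_cases h : k = m
  · subst h
    simp only [if_true]
    refine Finset.sum_congr rfl fun H _ => ?_
    have : ∀ s, N k (update H k (some s)) = 0 := fun s => by_contra fun c => by simpa using hN _ _ c
    simp [up, this]
  · have h' : m ≠ k := Ne.symm h
    have e1 : ∀ C, YC g R N C {k, m} =
        (dn k (N k) C * dn m (N m) C) * dn m (dn k (X g R)) C := fun C => by
      simp only [YC, Finset.prod_pair h, Finset.piecewise_insert, Finset.piecewise_singleton, zC]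
      by_cases c1 : C k = none
      · simp [dn, c1]
      · by_cases c2 : C m = none
        · simp [dn, c2]
        · simp [dn, c1, c2, h]
    simp only [h, if_false, e1]
    rw [← up_adj, ← up_adj]
    refine Finset.sum_congr rfl fun H _ => ?_
    rw [mul_comm]
    congr 1
    by_cases c1 : H k = none
    · by_cases c2 : H m = none
      · have e3 : update H k none = H := by rw [← c1, update_eq_self]
        have e4 : ∀ s, update (update H k s) m none = update H k s := fun s => by
          rw [← c2, ← update_of_ne h' s H, update_eq_self]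
        have e5 : ∀ s t, update (update (update H k s) m t) k none = update H m t := fun s t => by
          rw [update_comm h, update_idem, update_comm h', e3]
        simp [up, dn, c1, c2, h, h', e4, e5]
        ring
      · simp [up, c2, h']
    · simp [up, c1]

theorem star_X (hg : Adm B g) {R : ℝ} (hR : 0 < R) (N : Fin n → St (Fin n) → ℝ)
    (hN : ∀ k G, N k G ≠ 0 → G k = none) : Star (X g R) N := by
  have h0 : ∀ C e, FC g R N C ∅ e = X g R C := fun C e => by simp [FC, X]
  have a1 := tendsto_finsetSum Finset.univ fun C _ =>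
    sa_even (fun S => st_FC (N := N) hg hR C S) (h0 C)
  have a2 := tendsto_finsetSum Finset.univ fun k _ => st_diag_lim hg hR hN k
  have a3 := tendsto_finsetSum Finset.univ fun C _ =>
    ((sa_odd (fun S => st_FC (N := N) hg hR C S) (h0 C)).pow 2).div_const (4 * X g R C)
  have a4 := le_of_tendsto_of_tendsto a1 (a2.add a3) (sa_ne.mono fun e he => by
    simp only [Finset.sum_add_distrib]
    rw [add_comm, Finset.sum_comm]
    exact add_le_add le_rfl (Finset.sum_le_sum fun C _ => st_ineq hg hR C he))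
  have b1 : ∑ C, ∑ k, ∑ m, (if k = m then 0 else YC g R N C {k, m}) =
      ∑ H, X g R H * ∑ k, ∑ m, up k (N m) H * up m (N k) H := by
    simp only [Finset.mul_sum]
    rw [Finset.sum_comm, Finset.sum_comm (s := (Finset.univ : Finset (St (Fin n))))]
    refine Finset.sum_congr rfl fun k _ => ?_
    rw [Finset.sum_comm, Finset.sum_comm (s := (Finset.univ : Finset (St (Fin n))))]
    exact Finset.sum_congr rfl fun m _ => st_Y2 hN k m
  have b2 : ∑ k, ∑ G, X g R G * N k G ^ 2 = ∑ G, X g R G * ∑ k, N k G ^ 2 := by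
    simp only [Finset.mul_sum]
    exact Finset.sum_comm
  have b3 : ∀ C, (-2 * ∑ k, YC g R N C {k}) ^ 2 / (4 * X g R C) =
      (∑ k, dn k (fun G => X g R G * N k G) C) ^ 2 / X g R C := fun C => by
    have := (X_pos hg hR C).ne'
    simp only [st_Y1]
    field_simp
    ring
  simp only [b1, b2, b3] at a4
  exact a4

end Pool.Agent.Lib.MP_70b2ae_gt.Bg
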