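import Mathlib

namespace Pool.Agent.Lib.MP_70b2ae_gt

open Finset

theorem inner2 (u z : EuclideanSpace ℝ (Fin 2)) : inner ℝ u z = u 0 * z 0 + u 1 * z 1 := by
  simp [PiLp.inner_apply, Fin.sum_univ_two, mul_comm]

theorem chain_step {C : Set (EuclideanSpace ℝ (Fin 2))} {n : ℕ}
    (p : Fin n → EuclideanSpace ℝ (Fin 2)) {v0 v v' u : EuclideanSpace ℝ (Fin 2)} (hv' : v' ∈ C)
    (hs : ∑ k, p k = v - v0)
    (h1 : ∃ x ∈ C, ∑ k, max (inner ℝ u (p k)) 0 ≤ inner ℝ u (x - v0))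
    (h4 : 0 < inner ℝ u (v' - v) → ∀ k, 0 ≤ inner ℝ u (p k)) :
    ∃ x ∈ C, max (inner ℝ u (v' - v)) 0 + ∑ k, max (inner ℝ u (p k)) 0 ≤ inner ℝ u (x - v0) := by
  rcases le_or_gt (inner ℝ u (v' - v)) 0 with h | h
  · rw [max_eq_right h, zero_add]; exact h1
  · refine ⟨v', hv', le_of_eq ?_⟩
    rw [max_eq_left h.le, Finset.sum_congr rfl fun k _ => max_eq_left (h4 h k), ← inner_sum, hs,
      ← inner_add_right]
    congr 1; abel

theorem chain_aux {C : Set (EuclideanSpace ℝ (Fin 2))} (hC : IsCompact C) {σ : ℝ}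
    (hσ : σ * σ = 1) {v0 : EuclideanSpace ℝ (Fin 2)} (hv0 : v0 ∈ C) (h0 : ∀ x ∈ C, v0 0 ≤ x 0)
    (T : Finset ℝ) : ∃ (n : ℕ) (p : Fin n → EuclideanSpace ℝ (Fin 2))
      (v : EuclideanSpace ℝ (Fin 2)), v ∈ C ∧ (∀ k, 0 ≤ p k 0) ∧ ∑ k, p k = v - v0 ∧
      (∀ u : EuclideanSpace ℝ (Fin 2), 0 ≤ σ * u 1 →
        ∃ x ∈ C, ∑ k, max (inner ℝ u (p k)) 0 ≤ inner ℝ u (x - v0)) ∧
      (∀ u : EuclideanSpace ℝ (Fin 2), 0 < σ * u 1 → u 0 / (σ * u 1) ∈ T →
        ∀ x ∈ C, inner ℝ u (x - v0) ≤ ∑ k, max (inner ℝ u (p k)) 0) ∧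
      (∀ t, (∀ t' ∈ T, t' ≤ t) → ∀ k, 0 ≤ t * p k 0 + σ * p k 1) ∧
      (∀ x ∈ C, v 0 ≤ x 0 → ∀ u : EuclideanSpace ℝ (Fin 2), 0 ≤ σ * u 1 →
        0 < inner ℝ u (x - v) → ∀ k, 0 ≤ inner ℝ u (p k)) ∧
      (∀ t, (∀ t' ∈ T, t' < t) → ∀ x ∈ C, t * v 0 + σ * v 1 ≤ t * x 0 + σ * x 1 → v 0 ≤ x 0) := by
  induction T using Finset.induction_on_max with
  | empty =>
    refine ⟨0, Fin.elim0, v0, hv0, fun k => k.elim0, by simp, fun u _ => ⟨v0, hv0, by simp⟩,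
      by simp, fun _ _ k => k.elim0, fun _ _ _ _ _ _ k => k.elim0, fun _ _ x hx _ => h0 x hx⟩
  | insert t T ht ih =>
    obtain ⟨n, p, v, hv, a0, as, a1, a2, a3, a4, a5⟩ := ih
    obtain ⟨v', hv', hmax⟩ := hC.exists_isMaxOn
      (f := fun x : EuclideanSpace ℝ (Fin 2) => t * x 0 + σ * x 1) ⟨v0, hv0⟩ (by fun_prop)
    have hm : ∀ x ∈ C, t * x 0 + σ * x 1 ≤ t * v' 0 + σ * v' 1 := fun x hx => hmax hx
    have hq : v 0 ≤ v' 0 := a5 t ht v' hv' (hm v hv)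
    have hq' := hm v hv
    have hi : ∀ u z : EuclideanSpace ℝ (Fin 2), inner ℝ u z = u 0 * z 0 + (σ * u 1) * (σ * z 1) :=
      fun u z => by rw [inner2]; linear_combination (-(u 1 * z 1)) * hσ
    have b3 : ∀ k, 0 ≤ t * (Fin.cons (v' - v) p : Fin (n + 1) → _) k 0
        + σ * (Fin.cons (v' - v) p : Fin (n + 1) → _) k 1 := by
      refine Fin.cases ?_ fun k => ?_
      · simp only [Fin.cons_zero, PiLp.sub_apply]; linarith
      · simpa using a3 t (fun t' h => (ht t' h).le) k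
    have b0 : ∀ k, 0 ≤ (Fin.cons (v' - v) p : Fin (n + 1) → _) k 0 := by
      refine Fin.cases ?_ fun k => ?_
      · simpa using hq
      · simpa using a0 k
    have bs : ∑ k, (Fin.cons (v' - v) p : Fin (n + 1) → _) k = v' - v0 := by
      rw [Fin.sum_univ_succ]; simp [as]
    refine ⟨n + 1, Fin.cons (v' - v) p, v', hv', b0, bs, fun u hu => ?_, fun u hu hT x hx => ?_,
      fun t' ht' k => ?_, fun x hx h1 u hu h2 k => ?_, fun t' ht' x hx h1 => ?_⟩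
    · rw [Fin.sum_univ_succ]
      simp only [Fin.cons_zero, Fin.cons_succ]
      exact chain_step p hv' as (a1 u hu) (a4 v' hv' hq u hu)
    · rcases Finset.mem_insert.1 hT with h | h
      · refine le_trans ?_ (Finset.sum_le_sum fun k _ => le_max_left _ _)
        rw [← inner_sum, bs, hi, hi]
        have h2 : u 0 = t * (σ * u 1) := by rw [← h, div_mul_cancel₀ _ hu.ne']
        have h3 := mul_le_mul_of_nonneg_left (hm x hx) hu.le
        simp only [PiLp.sub_apply]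
        rw [h2]
        nlinarith
      · rw [Fin.sum_univ_succ]
        simp only [Fin.cons_zero, Fin.cons_succ]
        linarith [a2 u hu h x hx, le_max_right (inner ℝ u (v' - v)) 0]
    · have := mul_le_mul_of_nonneg_right (ht' t (mem_insert_self _ _)) (b0 k)
      linarith [b3 k]
    · rw [hi] at h2 ⊢
      simp only [PiLp.sub_apply] at h2
      have h3 := mul_le_mul_of_nonneg_left (hm x hx) hu
      have h4 : 0 < (x 0 - v' 0) * (u 0 - t * (σ * u 1)) := by nlinarith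
      have h5 : 0 < u 0 - t * (σ * u 1) := (pos_iff_pos_of_mul_pos h4).1
        (lt_of_le_of_ne (sub_nonneg.2 h1) fun h6 => by rw [← h6, zero_mul] at h4; exact h4.false)
      nlinarith [mul_nonneg hu (b3 k), mul_nonneg h5.le (b0 k)]
    · have h2 := ht' t (mem_insert_self _ _)
      have h3 := hm x hx
      nlinarith

/-- The upper (`σ = 1`) or lower (`σ = -1`) chain of a polygon inscribed in `C`. -/
theorem chain {C : Set (EuclideanSpace ℝ (Fin 2))} (hC : IsCompact C) {σ : ℝ}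
    (hσ : σ * σ = 1) {v0 v1 : EuclideanSpace ℝ (Fin 2)} (hv0 : v0 ∈ C) (hv1 : v1 ∈ C)
    (h0 : ∀ x ∈ C, v0 0 ≤ x 0) (h1 : ∀ x ∈ C, x 0 ≤ v1 0) (U : Finset (EuclideanSpace ℝ (Fin 2))) :
    ∃ (n : ℕ) (p : Fin n → EuclideanSpace ℝ (Fin 2)), (∀ k, 0 ≤ p k 0) ∧ ∑ k, p k = v1 - v0 ∧
      (∀ u : EuclideanSpace ℝ (Fin 2), 0 ≤ σ * u 1 →
        ∃ x ∈ C, ∑ k, max (inner ℝ u (p k)) 0 ≤ inner ℝ u (x - v0)) ∧
      (∀ u ∈ U, 0 ≤ σ * u 1 → ∀ x ∈ C, inner ℝ u (x - v0) ≤ ∑ k, max (inner ℝ u (p k)) 0) := by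
  classical
  obtain ⟨n, p, v, hv, a0, as, a1, a2, -, a4, -⟩ :=
    chain_aux hC hσ hv0 h0 (U.image fun u => u 0 / (σ * u 1))
  have bs : ∑ k, (Fin.cons (v1 - v) p : Fin (n + 1) → _) k = v1 - v0 := by
    rw [Fin.sum_univ_succ]; simp [as]
  refine ⟨n + 1, Fin.cons (v1 - v) p, ?_, bs, fun u hu => ?_, fun u hU hu x hx => ?_⟩
  · refine Fin.cases ?_ fun k => ?_
    · simpa using h1 v hv
    · simpa using a0 k
  · rw [Fin.sum_univ_succ]
    simp only [Fin.cons_zero, Fin.cons_succ]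
    exact chain_step p hv1 as (a1 u hu) (a4 v1 hv1 (h1 v hv) u hu)
  · rcases hu.lt_or_eq with h | h
    · rw [Fin.sum_univ_succ]
      simp only [Fin.cons_zero, Fin.cons_succ]
      linarith [a2 u h (mem_image_of_mem _ hU) x hx, le_max_right (inner ℝ u (v1 - v)) 0]
    · have h2 : u 1 = 0 := by linear_combination (-σ) * h - u 1 * hσ
      rcases le_total (u 0) 0 with h3 | h3
      · refine le_trans ?_ (Finset.sum_nonneg fun k _ => le_max_right _ _)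
        rw [inner2, h2]
        simp only [PiLp.sub_apply]
        nlinarith [h0 x hx]
      · refine le_trans ?_ (Finset.sum_le_sum fun k _ => le_max_left _ _)
        rw [← inner_sum, bs, inner2, inner2, h2]
        simp only [PiLp.sub_apply]
        nlinarith [h1 x hx]

end Pool.Agent.Lib.MP_70b2ae_gt
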