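import Mathlib
import Pool.Agent.Lib.MP_70b2ae_gt.BallBang

namespace Pool.Agent.Lib.MP_70b2ae_gt

open Finset Matrix Pointwise

variable {E : Type} [NormedAddCommGroup E] [InnerProductSpace ℝ E]

/-- Every rotated and weighted sign sum of the vectors `y` fits into `X` after a translation. -/
def Fits {ι : Type} [Fintype ι] [DecidableEq ι] (X : Set E) (y : ι → E) : Prop :=
  ∀ (R : Matrix ι ι ℝ) (t : ι → ℝ), Rᵀ * R = 1 → (∀ i, 0 ≤ t i) → ∑ i, t i ^ 2 ≤ 1 →
    ∃ w : E, ∀ ε : ι → ℝ, (∀ i, ε i = 1 ∨ ε i = -1) →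
      w + ∑ l, (∑ j, R l j * (ε j * t j)) • y l ∈ X

/-- The property of a set that drives the plank theorem and is closed under Minkowski sums. -/
def Good (X : Set E) : Prop :=
  ∀ (ι : Type) [Fintype ι] [DecidableEq ι] (a : ι → E) (ω : ι → ℝ), (∀ i, 0 ≤ ω i) →
    ∑ i, ω i ≤ 1 → ∃ (h : ι → ℝ) (y : ι → E), (∀ i, ∀ p ∈ X, ∀ q ∈ X, inner ℝ (a i) (p - q) ≤ 2 * h i) ∧
      (∀ i, inner ℝ (a i) (y i) = Real.sqrt (ω i) * h i) ∧ Fits X y

theorem good_zero : Good (0 : Set E) := by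
  intro ι _ _ a ω _ _
  refine ⟨fun _ => 0, fun _ => 0, ?_, by simp, fun R t _ _ _ => ⟨0, by simp⟩⟩
  intro i p hp q hq
  rw [Set.mem_zero] at hp hq
  simp [hp, hq]

theorem Good.add {X Y : Set E} (hX : Good X) (hY : Good Y) : Good (X + Y) := by
  intro ι _ _ a ω h0 h1
  obtain ⟨h, y, a1, a2, a3⟩ := hX ι a ω h0 h1
  obtain ⟨h', y', b1, b2, b3⟩ := hY ι a ω h0 h1
  refine ⟨fun i => h i + h' i, fun i => y i + y' i, ?_, ?_, ?_⟩
  · rintro i _ ⟨p, hp, p', hp', rfl⟩ _ ⟨q, hq, q', hq', rfl⟩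
    have e : p + p' - (q + q') = (p - q) + (p' - q') := by abel
    have := a1 i p hp q hq
    have := b1 i p' hp' q' hq'
    simp only [e, inner_add_right]
    linarith
  · intro i
    rw [inner_add_right, a2, b2]; ring
  · intro R t r1 r2 r3
    obtain ⟨w, hw⟩ := a3 R t r1 r2 r3
    obtain ⟨w', hw'⟩ := b3 R t r1 r2 r3
    refine ⟨w + w', fun ε hε => ⟨_, hw ε hε, _, hw' ε hε, ?_⟩⟩
    simp only [smul_add, Finset.sum_add_distrib]
    abel

theorem good_sum {k : ℕ} (W : Fin k → Set E) (h : ∀ j, Good (W j)) : Good (∑ j, W j) :=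
  Finset.sum_induction W Good (fun _ _ => Good.add) good_zero fun j _ => h j

theorem sum_mul_le_one {ι : Type} [Fintype ι] (f g : ι → ℝ) (hf : ∑ i, f i ^ 2 ≤ 1)
    (hg : ∑ i, g i ^ 2 ≤ 1) : ∑ i, f i * g i ≤ 1 := by
  calc ∑ i, f i * g i ≤ ∑ i, (f i ^ 2 / 2 + g i ^ 2 / 2) :=
        Finset.sum_le_sum fun i _ => by nlinarith [sq_nonneg (f i - g i)]
    _ ≤ 1 := by
        rw [Finset.sum_add_distrib, ← Finset.sum_div, ← Finset.sum_div]; linarith

/-- a convex combination with a filler point -/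
theorem mem_of_weights {ι : Type} [Fintype ι] {X : Set E} (hX : Convex ℝ X) {c : E} (hc : c ∈ X)
    (s : ι → ℝ) (hs : ∀ i, 0 ≤ s i) (h1 : ∑ i, s i ≤ 1) (p : ι → E) (hp : ∀ i, p i ∈ X) :
    c + ∑ i, s i • (p i - c) ∈ X := by
  have := hX.sum_mem (t := (univ : Finset (Option ι)))
    (w := fun o => o.elim (1 - ∑ i, s i) s) (z := fun o => o.elim c p)
    (by rintro (_ | i) _ <;> simp [hs, h1]) (by simp [Fintype.sum_option])
    (by rintro (_ | i) _ <;> simp [hc, hp])
  convert this using 1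
  simp only [Fintype.sum_option, Option.elim, smul_sub, Finset.sum_sub_distrib, sub_smul, one_smul,
    Finset.sum_smul]
  abel

theorem good_symm {S : Set E} (hS : IsCompact S) (hne : S.Nonempty) (hc : Convex ℝ S) (c : E)
    (hsym : ∀ x ∈ S, c + c - x ∈ S) : Good S := by
  intro ι _ _ a ω h0 h1
  have hcS : c ∈ S := by
    obtain ⟨x, hx⟩ := hne
    have := hc hx (hsym x hx) (by norm_num : (0 : ℝ) ≤ 1 / 2) (by norm_num : (0 : ℝ) ≤ 1 / 2)
      (by norm_num)
    convert this using 1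
    module
  have hx : ∀ i, ∃ x ∈ S, ∀ p ∈ S, inner ℝ (a i) p ≤ inner ℝ (a i) x := fun i => by
    obtain ⟨x, hx, hmax⟩ := hS.exists_isMaxOn (f := fun p => inner ℝ (a i) p) hne
      (continuous_const.inner continuous_id).continuousOn
    exact ⟨x, hx, fun p hp => hmax hp⟩
  choose x hxS hx using hx
  refine ⟨fun i => inner ℝ (a i) (x i - c), fun i => Real.sqrt (ω i) • (x i - c), ?_, ?_, ?_⟩
  · intro i p hp q hq
    have b1 := hx i p hp
    have b2 := hx i _ (hsym q hq)
    simp only [inner_sub_right, inner_add_right] at b2 ⊢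
    linarith
  · intro i
    rw [inner_smul_right]
  · intro R t r1 _ r3
    refine ⟨c, fun ε hε => ?_⟩
    set η : ι → ℝ := fun l => ∑ j, R l j * (ε j * t j) with hη
    have e1 : ∑ l, η l ^ 2 = ∑ j, t j ^ 2 := by
      have : η = R *ᵥ fun j => ε j * t j := rfl
      have e2 : (R *ᵥ fun j => ε j * t j) ⬝ᵥ (R *ᵥ fun j => ε j * t j)
          = (fun j => ε j * t j) ⬝ᵥ fun j => ε j * t j := by
        rw [Matrix.dotProduct_mulVec, Matrix.vecMul_mulVec, r1, Matrix.vecMul_one]
      rw [← this] at e2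
      simp only [dotProduct] at e2
      simp only [sq, e2]
      refine Finset.sum_congr rfl fun j _ => ?_
      rcases hε j with h | h <;> rw [h] <;> ring
    have := mem_of_weights hc hcS (fun l => Real.sqrt (ω l) * |η l|) (fun l => by positivity)
      (sum_mul_le_one _ _ (by simpa [Real.sq_sqrt, h0] using h1) (by simpa [sq_abs, e1] using r3))
      (fun l => if 0 ≤ η l then x l else c + c - x l)
      (fun l => by split_ifs; exacts [hxS l, hsym _ (hxS l)])
    convert this using 3 with l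
    show η l • Real.sqrt (ω l) • (x l - c) = _
    split_ifs with h
    · rw [abs_of_nonneg h, smul_smul, mul_comm]
    · rw [abs_of_neg (not_le.1 h)]
      module

theorem good_ellipsoid [CompleteSpace E] {W : Set E} (hc : Convex ℝ W) (T : E →L[ℝ] E)
    (hW : W - W = T '' Metric.closedBall 0 1) : Good W := by
  intro ι _ _ a ω h0 h1
  have unit : ∀ z : E, ∃ u : E, ‖u‖ ≤ 1 ∧ ‖z‖ • u = z := by
    intro z
    by_cases hz : z = 0
    · exact ⟨0, by simp, by simp [hz]⟩
    · have : ‖z‖ ≠ 0 := norm_ne_zero_iff.2 hz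
      exact ⟨‖z‖⁻¹ • z, by simp [norm_smul, this], by simp [smul_smul, this]⟩
  have chord : ∀ u : E, ‖u‖ ≤ 1 → ∃ p ∈ W, ∃ q ∈ W, p - q = T u := by
    intro u hu
    have : T u ∈ W - W := hW ▸ ⟨u, by simpa using hu, rfl⟩
    exact this
  choose z hz1 hz2 using fun i => unit (ContinuousLinearMap.adjoint T (a i))
  refine ⟨fun i => ‖ContinuousLinearMap.adjoint T (a i)‖ / 2,
    fun i => (Real.sqrt (ω i) / 2) • T (z i), ?_, ?_, ?_⟩
  · intro i p hp q hq
    obtain ⟨u, hu, hu'⟩ : p - q ∈ T '' Metric.closedBall 0 1 := hW ▸ ⟨p, hp, q, hq, rfl⟩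
    rw [← hu', ← ContinuousLinearMap.adjoint_inner_left]
    have b1 := real_inner_le_norm (ContinuousLinearMap.adjoint T (a i)) u
    have b2 : ‖u‖ ≤ 1 := by simpa using hu
    nlinarith [norm_nonneg (ContinuousLinearMap.adjoint T (a i))]
  · intro i
    rw [inner_smul_right, ← ContinuousLinearMap.adjoint_inner_left]
    have b0 := hz2 i
    beta_reduce
    generalize ContinuousLinearMap.adjoint T (a i) = v at b0 ⊢
    have b1 : ‖v‖ * inner ℝ v (z i) = ‖v‖ * ‖v‖ := by
      rw [← inner_smul_right, b0, real_inner_self_eq_norm_mul_norm]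
    by_cases hv : v = 0
    · simp [hv]
    · rw [mul_left_cancel₀ (norm_ne_zero_iff.2 hv) b1]; ring
  · intro R t r1 r2 r3
    let ζ : ι → E := fun j => ∑ l, (R l j * Real.sqrt (ω l)) • z l
    have r4 : R * Rᵀ = 1 := mul_eq_one_comm.1 r1
    have e1 : ∑ j, ‖ζ j‖ ^ 2 ≤ 1 := by
      have b1 : ∀ j, ‖ζ j‖ ^ 2 = ∑ l, ∑ l', R l j * R l' j *
          (Real.sqrt (ω l) * Real.sqrt (ω l') * inner ℝ (z l) (z l')) := by
        intro j
        rw [← real_inner_self_eq_norm_sq]
        simp only [ζ, sum_inner, inner_sum, inner_smul_left, inner_smul_right, conj_trivial,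
          Finset.mul_sum]
        rw [Finset.sum_comm]
        exact Finset.sum_congr rfl fun l _ => Finset.sum_congr rfl fun l' _ => by ring
      have b2 : ∀ l l', ∑ j, R l j * R l' j = if l = l' then 1 else 0 := by
        intro l l'
        have := congrFun (congrFun r4 l) l'
        simpa [Matrix.mul_apply, Matrix.one_apply] using this
      simp only [b1]
      rw [Finset.sum_comm]
      refine le_trans (Finset.sum_le_sum fun l _ => ?_) h1
      rw [Finset.sum_comm]
      simp only [← Finset.sum_mul, b2, ite_mul, one_mul, zero_mul, Finset.sum_ite_eq, mem_univ,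
        if_true]
      rw [Real.mul_self_sqrt (h0 l), real_inner_self_eq_norm_sq]
      have := hz1 l
      have b3 : ‖z l‖ ^ 2 ≤ 1 := pow_le_one₀ (norm_nonneg _) this
      nlinarith [h0 l]
    choose u hu1 hu2 using fun j => unit (ζ j)
    choose p hp q hq hpq using fun j => chord (u j) (hu1 j)
    obtain ⟨c, hcW, -⟩ := chord 0 (by simp)
    refine ⟨c + ∑ j, (t j * ‖ζ j‖) • ((1 / 2 : ℝ) • (p j + q j) - c), fun ε hε => ?_⟩
    have := mem_of_weights hc hcW (fun j => t j * ‖ζ j‖)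
      (fun j => mul_nonneg (r2 j) (norm_nonneg _)) (sum_mul_le_one _ _ r3 e1)
      (fun j => if ε j = 1 then p j else q j) (fun j => by split_ifs; exacts [hp j, hq j])
    convert this using 1
    have e2 : ∑ l, (∑ j, R l j * (ε j * t j)) • (Real.sqrt (ω l) / 2) • T (z l)
        = ∑ j, (ε j * t j / 2) • T (ζ j) := by
      simp only [ζ, map_sum, map_smul, Finset.sum_smul, Finset.smul_sum]
      rw [Finset.sum_comm]
      simp only [smul_smul]
      refine Finset.sum_congr rfl fun j _ => Finset.sum_congr rfl fun l _ => ?_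
      congr 1; ring
    rw [e2, add_assoc, ← Finset.sum_add_distrib]
    congr 1
    refine Finset.sum_congr rfl fun j _ => ?_
    have e3 : T (ζ j) = ‖ζ j‖ • (p j - q j) := by
      rw [hpq, ← map_smul, hu2]
    rw [e3]
    rcases hε j with h | h
    · rw [if_pos h, h]; module
    · rw [if_neg (by rw [h]; norm_num), h]; module

/-- The plank theorem for a set with the property `Good`. -/
theorem Good.plank {X : Set E} (hX : Good X) {ι : Type} [Fintype ι] (a : ι → E) (ω m : ι → ℝ)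
    (h0 : ∀ i, 0 ≤ ω i) (h1 : ∑ i, ω i ≤ 1) :
    ∃ x ∈ X, ∀ i, ∀ p ∈ X, ∀ q ∈ X,
      ω i * inner ℝ (a i) (p - q) ≤ 2 * |inner ℝ (a i) x - m i| := by
  classical
  let P : ι → Prop := fun i => 0 < ω i ∧ ∃ p ∈ X, ∃ q ∈ X, 0 < inner ℝ (a i) (p - q)
  have hs : ∑ i : Subtype P, ω i ≤ 1 := by
    rw [← Finset.sum_subtype (univ.filter P) (fun x => by rw [mem_filter]; exact and_iff_right (mem_univ x)) ω]
    exact (Finset.sum_le_sum_of_subset_of_nonneg (Finset.filter_subset _ _)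
      fun i _ _ => h0 i).trans h1
  obtain ⟨h, y, a1, a2, a3⟩ := hX (Subtype P) (fun i => a i) (fun i => ω i) (fun i => h0 i) hs
  have hh : ∀ i, 0 < h i := by
    intro i
    obtain ⟨p, hp, q, hq, hpq⟩ := i.2.2
    have := a1 i p hp q hq
    linarith
  have hω : ∀ i : Subtype P, 0 < Real.sqrt (ω i) := fun i => Real.sqrt_pos.2 i.2.1
  obtain ⟨R, t, r1, r2, r3, r4⟩ := ball_bang
    (Matrix.of fun i l : Subtype P => inner ℝ (a i) (y l)) (fun i => ω i * h i)
    (fun i => mul_pos i.2.1 (hh i))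
    (fun i => by rw [Matrix.of_apply, a2]; exact mul_pos (hω i) (hh i)) (by
      refine le_of_eq_of_le (Finset.sum_congr rfl fun i _ => ?_) hs
      rw [Matrix.of_apply, a2, mul_div_mul_right _ _ (hh i).ne', Real.div_sqrt,
        Real.sq_sqrt (h0 i)])
  obtain ⟨w, hw⟩ := a3 R t r1 r2 r3
  obtain ⟨ε, e1, e2⟩ := r4 fun i => m i - inner ℝ (a i) w
  refine ⟨_, hw ε e1, fun i p hp q hq => ?_⟩
  by_cases hi : P i
  · have b1 := e2 ⟨i, hi⟩
    have b2 := a1 ⟨i, hi⟩ p hp q hq
    have b3 : inner ℝ (a i) (w + ∑ l, (∑ j, R l j * (ε j * t j)) • y l) - m i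
        = ∑ j, ((Matrix.of fun i l : Subtype P => inner ℝ (a i) (y l)) * R) ⟨i, hi⟩ j
            * (ε j * t j) - (m i - inner ℝ (a i) w) := by
      simp only [inner_add_right, inner_sum, inner_smul_right, Matrix.mul_apply, Matrix.of_apply,
        Finset.sum_mul]
      rw [Finset.sum_comm]
      have : ∀ j l, R l j * (ε j * t j) * inner ℝ (a i) (y l)
          = inner ℝ (a i) (y l) * R l j * (ε j * t j) := fun j l => by ring
      simp only [this]
      ring
    rw [b3]
    nlinarith [h0 i]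
  · refine le_trans ?_ (mul_nonneg zero_le_two (abs_nonneg _))
    rcases (h0 i).lt_or_eq with h2 | h2
    · refine mul_nonpos_of_nonneg_of_nonpos (h0 i) (not_lt.1 fun h3 => hi ⟨h2, p, hp, q, hq, h3⟩)
    · rw [← h2, zero_mul]

omit [NormedAddCommGroup E] [InnerProductSpace ℝ E] in
theorem exists_mid {X : Set E} (hne : X.Nonempty) (f : E → ℝ) (K : ℝ)
    (hK : ∀ p ∈ X, ∀ q ∈ X, f p - f q ≤ K) :
    ∃ μ : ℝ, ∀ L : ℝ, (∀ p ∈ X, ∀ q ∈ X, f p - f q ≤ 2 * L) → ∀ c ∈ X, |f c - μ| ≤ L := by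
  obtain ⟨p0, hp0⟩ := hne
  have hne' : (f '' X).Nonempty := ⟨_, p0, hp0, rfl⟩
  have h1 : BddAbove (f '' X) := ⟨f p0 + K, by
    rintro _ ⟨p, hp, rfl⟩; have := hK p hp p0 hp0; linarith⟩
  have h2 : BddBelow (f '' X) := ⟨f p0 - K, by
    rintro _ ⟨p, hp, rfl⟩; have := hK p0 hp0 p hp; linarith⟩
  refine ⟨(sSup (f '' X) + sInf (f '' X)) / 2, fun L hL c hc => ?_⟩
  have h3 : f c ≤ sSup (f '' X) := le_csSup h1 ⟨c, hc, rfl⟩
  have h4 : sInf (f '' X) ≤ f c := csInf_le h2 ⟨c, hc, rfl⟩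
  have h5 : sSup (f '' X) - 2 * L ≤ sInf (f '' X) := by
    refine le_csInf hne' ?_
    rintro _ ⟨q, hq, rfl⟩
    have : sSup (f '' X) ≤ f q + 2 * L := by
      refine csSup_le hne' ?_
      rintro _ ⟨p, hp, rfl⟩
      have := hL p hp q hq
      linarith
    linarith
  exact abs_le.2 ⟨by linarith, by linarith⟩

/-- The slicing form of the plank theorem. -/
theorem Good.slice {X : Set E} (hX : Good X) (hne : X.Nonempty) (hc : Convex ℝ X) (m : ℕ)
    (a : Fin m → E) (b : Fin m → ℝ) :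
    ∃ σ : Fin m → Bool, ∃ t : E, ∀ x ∈ X, t + (1 / ((m : ℝ) + 1)) • x ∈ X ∧
      ∀ i : Fin m, (σ i = true → inner ℝ (a i) (t + (1 / ((m : ℝ) + 1)) • x) ≤ b i) ∧
        (σ i = false → b i ≤ inner ℝ (a i) (t + (1 / ((m : ℝ) + 1)) • x)) := by
  rcases Nat.eq_zero_or_pos m with rfl | hm
  · exact ⟨fun _ => true, 0, fun x hx => ⟨by simpa using hx, fun i => i.elim0⟩⟩
  have hm' : (0 : ℝ) < m := by exact_mod_cast hm
  obtain ⟨h, -, hh, -⟩ := hX (Fin m) a (fun _ => 0) (by simp) (by simp)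
  choose μ hμ using fun i => exists_mid hne (fun p => inner ℝ (a i) p) (2 * h i)
    (fun p hp q hq => by rw [← inner_sub_right]; exact hh i p hp q hq)
  obtain ⟨x0, hx0, hx⟩ := hX.plank a (fun _ => 1 / (m : ℝ))
    (fun i => ((m + 1) * b i - μ i) / m) (fun _ => by positivity) (by simp [hm'.ne'])
  refine ⟨fun i => decide (inner ℝ (a i) x0 ≤ ((m + 1) * b i - μ i) / m),
    ((m : ℝ) / (m + 1)) • x0, fun x hxX => ⟨?_, fun i => ?_⟩⟩
  · exact hc hx0 hxX (by positivity) (by positivity) (by field_simp)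
  · set D := inner ℝ (a i) x0 - ((m + 1) * b i - μ i) / m with hD
    have h1 := abs_le.1 (hμ i (m * |D|) (fun p hp q hq => by
      have h2 := hx i p hp q hq
      rw [← hD, inner_sub_right, one_div, inv_mul_le_iff₀ hm'] at h2
      linarith) x hxX)
    have h3 : inner ℝ (a i) (((m : ℝ) / (m + 1)) • x0 + (1 / ((m : ℝ) + 1)) • x) - b i
        = (m * D + (inner ℝ (a i) x - μ i)) / (m + 1) := by
      rw [inner_add_right, inner_smul_right, inner_smul_right, hD]
      field_simp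
      ring
    constructor
    · intro hs
      have h4 : D ≤ 0 := sub_nonpos.2 (of_decide_eq_true hs)
      rw [abs_of_nonpos h4] at h1
      have : (m * D + (inner ℝ (a i) x - μ i)) / (m + 1) ≤ 0 :=
        div_nonpos_of_nonpos_of_nonneg (by linarith [h1.2]) (by positivity)
      linarith
    · intro hs
      have h4 : 0 ≤ D := sub_nonneg.2 (not_le.1 (of_decide_eq_false hs)).le
      rw [abs_of_nonneg h4] at h1
      have : 0 ≤ (m * D + (inner ℝ (a i) x - μ i)) / (m + 1) :=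
        div_nonneg (by linarith [h1.1]) (by positivity)
      linarith

end Pool.Agent.Lib.MP_70b2ae_gt
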