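import Mathlib
import Pool.Agent.Lib.MP_70b2ae_gt.BallBang

namespace Pool.Agent.Lib.MP_70b2ae_gt

open Finset Matrix

variable {ι : Type*} [Fintype ι] [DecidableEq ι]

/-- Bang's lemma with the sign information. -/
theorem bang_signed (K : Matrix ι ι ℝ) (κ : ι → ℝ) (hκ : ∀ i, 0 < κ i)
    (hsym : ∀ i j, κ i * K i j = κ j * K j i) (m : ι → ℝ) :
    ∃ ε : ι → ℝ, (∀ i, ε i = 1 ∨ ε i = -1) ∧ ∀ i, K i i ≤ ε i * (∑ j, K i j * ε j - m i) := by
  let sg : Bool → ℝ := fun b => if b then 1 else -1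
  let F : (ι → ℝ) → ℝ := fun ε => ∑ i, ∑ j, κ i * K i j * ε i * ε j - 2 * ∑ i, κ i * m i * ε i
  obtain ⟨β, -, hβ⟩ := Finset.exists_max_image (univ : Finset (ι → Bool))
    (fun β => F fun i => sg (β i)) ⟨fun _ => true, mem_univ _⟩
  set ε : ι → ℝ := fun i => sg (β i) with hε
  have h1 : ∀ i, ε i = 1 ∨ ε i = -1 := fun i => by
    simp only [hε, sg]; split_ifs <;> simp
  refine ⟨ε, h1, fun p => ?_⟩
  have hsq : ε p * ε p = 1 := by rcases h1 p with h | h <;> rw [h] <;> norm_num
  have h2 := hβ (Function.update β p (!β p)) (mem_univ _)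
  have h3 : (fun i => sg (Function.update β p (!β p) i))
      = fun i => ε i - 2 * ε p * (if i = p then 1 else 0) := by
    funext i
    by_cases h : i = p
    · subst h
      simp only [Function.update_self, hε, sg, if_true]
      cases β i <;> norm_num
    · simp [hε, h]
  simp only [h3] at h2
  have e1 : ∀ f : ι → ℝ, ∑ i, f i * (if i = p then (1 : ℝ) else 0) = f p := by
    intro f; simp
  have h4 : F (fun i => ε i - 2 * ε p * (if i = p then 1 else 0))
      = F ε - 4 * ε p * (κ p * ∑ j, K p j * ε j) + 4 * (κ p * K p p) + 4 * ε p * (κ p * m p) := by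
    simp only [F]
    have a1 : ∀ i, ∑ j, κ i * K i j * (ε i - 2 * ε p * (if i = p then 1 else 0))
          * (ε j - 2 * ε p * (if j = p then 1 else 0))
        = ∑ j, κ i * K i j * ε i * ε j - 2 * ε p * (κ p * (K p i * ε i))
          - (2 * ε p * (κ i * ∑ j, K i j * ε j) - 4 * (κ i * K i p))
            * (if i = p then 1 else 0) := by
      intro i
      have b1 : ∀ j, κ i * K i j * (ε i - 2 * ε p * (if i = p then 1 else 0))
          * (ε j - 2 * ε p * (if j = p then 1 else 0))
          = κ i * K i j * ε i * ε j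
            - 2 * ε p * (if i = p then 1 else 0) * κ i * (K i j * ε j)
            - (2 * ε p * (κ i * K i j) * (ε i - 2 * ε p * (if i = p then 1 else 0)))
              * (if j = p then 1 else 0) := fun j => by ring
      simp only [b1]
      rw [Finset.sum_sub_distrib, Finset.sum_sub_distrib, e1, ← Finset.mul_sum, hsym i p]
      linear_combination (4 * (if i = p then (1 : ℝ) else 0) * (κ p * K p i)) * hsq
    have a2 : ∀ i, κ i * m i * (ε i - 2 * ε p * (if i = p then 1 else 0))
        = κ i * m i * ε i - (2 * ε p * (κ i * m i)) * (if i = p then 1 else 0) := fun i => by ring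
    simp only [a1, a2]
    rw [Finset.sum_sub_distrib, Finset.sum_sub_distrib, Finset.sum_sub_distrib, e1, e1,
      ← Finset.mul_sum, ← Finset.mul_sum]
    ring
  rw [h4] at h2
  have h5 : κ p * K p p ≤ κ p * (ε p * (∑ j, K p j * ε j - m p)) := by nlinarith
  exact le_of_mul_le_mul_left h5 (hκ p)

/-- An orthogonal change of the columns makes a matrix with unit diagonal symmetrisable while
every diagonal entry stays at least one half. -/
theorem ball_half (G : Matrix ι ι ℝ) (hG : ∀ i, G i i = 1) :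
    ∃ (R : Matrix ι ι ℝ) (κ : ι → ℝ), Rᵀ * R = 1 ∧ (∀ i, 0 < κ i) ∧ (∀ i, 1 / 2 ≤ (G * R) i i) ∧
      ∀ i j, κ i * (G * R) i j = κ j * (G * R) j i := by
  set N := Fintype.card ι with hN
  let Φ : Matrix ι ι ℝ → ℝ := fun R => ∑ i, ((G * R) i i)⁻¹ ^ (N + 1)
  let K : Set (Matrix ι ι ℝ) := {R | Rᵀ * R = 1} ∩ {R | ∀ i, 1 / 4 ≤ (G * R) i i}
  have hent : ∀ i, Continuous fun R : Matrix ι ι ℝ => (G * R) i i := fun i =>
    (continuous_const.matrix_mul continuous_id).matrix_elem i i
  have hK : IsCompact K := orth_compact.inter_right (by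
    have : {R : Matrix ι ι ℝ | ∀ i, 1 / 4 ≤ (G * R) i i} = ⋂ i, {R | 1 / 4 ≤ (G * R) i i} := by
      ext R; simp
    rw [this]
    exact isClosed_iInter fun i => isClosed_le continuous_const (hent i))
  have h1K : (1 : Matrix ι ι ℝ) ∈ K := ⟨by simp, fun i => by
    simp only [Matrix.mul_one, hG]; norm_num⟩
  have hΦ : ContinuousOn Φ K := by
    refine continuousOn_finsetSum _ fun i _ => ContinuousOn.pow ?_ _
    refine (hent i).continuousOn.inv₀ fun R hR => ?_
    have := hR.2 i
    exact ne_of_gt (by linarith)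
  obtain ⟨R, hR, hmin⟩ := hK.exists_isMinOn ⟨1, h1K⟩ hΦ
  set H := G * R with hH
  have hpos : ∀ i, 0 < H i i := fun i => by
    have := hR.2 i
    linarith
  have hle : ∑ i, (H i i)⁻¹ ^ (N + 1) ≤ N := by
    have : Φ R ≤ Φ 1 := hmin h1K
    simpa [Φ, Matrix.mul_one, hG, hN] using this
  have hbig : ∀ i, 1 / 2 ≤ H i i := by
    intro i
    have h2 : (H i i)⁻¹ ^ (N + 1) ≤ N :=
      (Finset.single_le_sum (f := fun i => (H i i)⁻¹ ^ (N + 1))
        (fun j _ => by have := hpos j; positivity) (mem_univ i)).trans hle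
    have h3 : (N : ℝ) ≤ 2 ^ (N + 1) := by
      have : N < 2 ^ N := Nat.lt_two_pow_self
      have h4 : (N : ℝ) ≤ 2 ^ N := by exact_mod_cast this.le
      rw [pow_succ]
      have : (0 : ℝ) < 2 ^ N := by positivity
      linarith
    have h4 : (H i i)⁻¹ ≤ 2 := le_of_pow_le_pow_left₀ (Nat.succ_ne_zero N) (by norm_num)
      (h2.trans h3)
    rw [inv_le_comm₀ (hpos i) (by norm_num)] at h4
    simpa using h4
  refine ⟨R, fun i => (H i i)⁻¹ ^ (N + 2), hR.1, fun i => by have := hpos i; positivity, hbig,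
    fun p q => ?_⟩
  by_cases hpq : p = q
  · rw [hpq]
  let u : ℝ → ℝ := fun s => H p p * Real.cos s + H p q * Real.sin s
  let v : ℝ → ℝ := fun s => -(H q p * Real.sin s) + H q q * Real.cos s
  let φ : ℝ → ℝ := fun s => (u s)⁻¹ ^ (N + 1) + (v s)⁻¹ ^ (N + 1)
  have hd : ∀ s i, (G * (R * giv p q s)) i i
      = if i = p then u s else if i = q then v s else H i i := by
    intro s i
    rw [← Matrix.mul_assoc, ← hH, mul_giv hpq]
    split_ifs with h1 h2
    · rw [h1]
    · rw [h2]
    · rfl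
  have hΦs : ∀ s, Φ (R * giv p q s)
      = φ s + ∑ i ∈ (univ.erase p).erase q, (H i i)⁻¹ ^ (N + 1) := by
    intro s
    simp only [Φ, φ]
    rw [← Finset.add_sum_erase univ _ (mem_univ p), ← Finset.add_sum_erase (univ.erase p) _
      (mem_erase.2 ⟨Ne.symm hpq, mem_univ q⟩), hd, hd, if_pos rfl, if_neg (Ne.symm hpq),
      if_pos rfl, add_assoc]
    congr 2
    refine Finset.sum_congr rfl fun i hi => ?_
    simp only [mem_erase] at hi
    rw [hd, if_neg hi.2.1, if_neg hi.1]
  have hg0 : giv p q 0 = 1 := by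
    ext l j
    simp only [giv, Real.cos_zero, Real.sin_zero, neg_zero, Matrix.one_apply]
    by_cases h1 : j = p <;> by_cases h2 : j = q <;> by_cases h3 : l = p <;>
      by_cases h4 : l = q <;> simp_all [eq_comm]
  have hu : HasDerivAt u (H p q) 0 := by
    have := ((Real.hasDerivAt_cos 0).const_mul (H p p)).add
      ((Real.hasDerivAt_sin 0).const_mul (H p q))
    exact this.congr_deriv (by simp)
  have hv : HasDerivAt v (-H q p) 0 := by
    have := ((Real.hasDerivAt_sin 0).const_mul (H q p)).neg.add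
      ((Real.hasDerivAt_cos 0).const_mul (H q q))
    exact this.congr_deriv (by simp)
  have u0 : u 0 = H p p := by simp [u]
  have v0 : v 0 = H q q := by simp [v]
  have hloc : IsLocalMin φ 0 := by
    have e1 : ∀ᶠ s in nhds (0 : ℝ), 1 / 4 < u s :=
      hu.continuousAt.eventually (lt_mem_nhds (by rw [u0]; linarith [hbig p]))
    have e2 : ∀ᶠ s in nhds (0 : ℝ), 1 / 4 < v s :=
      hv.continuousAt.eventually (lt_mem_nhds (by rw [v0]; linarith [hbig q]))
    filter_upwards [e1, e2] with s h1 h2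
    have hmem : R * giv p q s ∈ K := by
      refine ⟨?_, fun i => ?_⟩
      · show (R * giv p q s)ᵀ * (R * giv p q s) = 1
        have hR1 : Rᵀ * R = 1 := hR.1
        rw [Matrix.transpose_mul, Matrix.mul_assoc, ← Matrix.mul_assoc Rᵀ, hR1, Matrix.one_mul,
          giv_orth hpq]
      · rw [hd]
        split_ifs with h3 h4
        · exact h1.le
        · exact h2.le
        · exact hR.2 i
    have h5 : Φ R ≤ Φ (R * giv p q s) := hmin hmem
    have h6 := hΦs 0
    rw [hg0, Matrix.mul_one] at h6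
    rw [h6, hΦs s] at h5
    linarith
  have hφ := ((hu.inv (by rw [u0]; exact (hpos p).ne')).pow (N + 1)).add
    ((hv.inv (by rw [v0]; exact (hpos q).ne')).pow (N + 1))
  have h0 := hloc.hasDerivAt_eq_zero hφ
  simp only [Pi.inv_apply, u0, v0, Nat.add_one_sub_one] at h0
  have hN1 : ((N + 1 : ℕ) : ℝ) ≠ 0 := by positivity
  have h7 : ((N + 1 : ℕ) : ℝ) * ((H p p)⁻¹ ^ (N + 2) * H p q) =
      ((N + 1 : ℕ) : ℝ) * ((H q q)⁻¹ ^ (N + 2) * H q p) := by
    rw [div_eq_mul_inv, div_eq_mul_inv, ← inv_pow, ← inv_pow] at h0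
    linear_combination -h0
  exact mul_left_cancel₀ hN1 h7

/-- One-sided use of Bang's lemma: only the planks that are crossed contribute to the move. -/
theorem cross_move (A : Matrix ι ι ℝ) (hA : ∀ i, A i i = 1) (ω : ι → ℝ) (hω : ∀ i, 0 < ω i)
    (c : ℝ) (hc : 0 < c) (u : ι → ℝ) :
    ∃ (T : Finset ι) (Δ : ι → ℝ), ∑ v, ω v * Δ v ^ 2 = 4 * c ^ 2 * ∑ j ∈ T, ω j ∧
      (∀ i, c / 2 ≤ |u i + ∑ v, A i v * Δ v|) ∧ ∀ i ∈ T, |u i| ≤ |∑ v, A i v * Δ v| := by
  set r : ι → ℝ := fun i => Real.sqrt (ω i) with hr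
  have hr0 : ∀ i, 0 < r i := fun i => Real.sqrt_pos.2 (hω i)
  have hrr : ∀ i, r i * r i = ω i := fun i => Real.mul_self_sqrt (hω i).le
  obtain ⟨R, κ, hR, hκ, hbig, hsym⟩ := ball_half (Matrix.of fun i v => r i * A i v / r v)
    (fun i => by simp only [Matrix.of_apply, hA]; field_simp [(hr0 i).ne'])
  set H := (Matrix.of fun i v => r i * A i v / r v) * R with hH
  set β : ι → ℝ := fun i => if 0 ≤ u i then 1 else -1 with hβ
  have hβu : ∀ i, β i * u i = |u i| := fun i => by
    simp only [hβ]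
    split_ifs with h
    · rw [one_mul, abs_of_nonneg h]
    · rw [abs_of_neg (not_le.1 h)]; ring
  have hβ1 : ∀ i, β i = 1 ∨ β i = -1 := fun i => by simp only [hβ]; split_ifs <;> simp
  obtain ⟨ε, hε, hB⟩ := bang_signed (Matrix.of fun i j => c * H i j * r j / r i)
    (fun i => κ i * ω i) (fun i => mul_pos (hκ i) (hω i)) (fun i j => by
      simp only [Matrix.of_apply]
      rw [← hrr i, ← hrr j]
      have := hsym i j
      field_simp [(hr0 i).ne', (hr0 j).ne']
      linear_combination this)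
    (fun i => ∑ j, c * H i j * r j / r i * β j - u i)
  set s : ι → ℝ := fun j => c * r j * (ε j - β j) with hs
  have hmove : ∀ i, ∑ v, A i v * ((R *ᵥ s) v / r v) =
      ∑ j, c * H i j * r j / r i * ε j - ∑ j, c * H i j * r j / r i * β j := by
    intro i
    rw [← sum_sub_distrib]
    simp only [mulVec, dotProduct, hH, Matrix.mul_apply, Matrix.of_apply, sum_div, mul_sum,
      sum_mul, ← sum_sub_distrib]
    rw [sum_comm]
    refine sum_congr rfl fun j _ => sum_congr rfl fun v _ => ?_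
    simp only [hs]
    field_simp [(hr0 i).ne', (hr0 v).ne']
  have hB' : ∀ i, c / 2 ≤ ε i * (u i + ∑ v, A i v * ((R *ᵥ s) v / r v)) := fun i => by
    have h1 := hB i
    simp only [Matrix.of_apply] at h1
    have h2 : c * H i i * r i / r i = c * H i i := by field_simp [(hr0 i).ne']
    have h3 := mul_le_mul_of_nonneg_left (hbig i) hc.le
    rw [hmove]
    rw [h2] at h1
    refine le_trans (by linarith) (h1.trans (le_of_eq ?_))
    ring
  refine ⟨univ.filter (fun j => ε j ≠ β j), fun v => (R *ᵥ s) v / r v, ?_, fun i => ?_,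
    fun i hi => ?_⟩
  · have h1 : ∑ v, ω v * ((R *ᵥ s) v / r v) ^ 2 = (R *ᵥ s) ⬝ᵥ (R *ᵥ s) := by
      refine sum_congr rfl fun v _ => ?_
      rw [← hrr v]
      field_simp [(hr0 v).ne']
    rw [h1, Matrix.dotProduct_mulVec, Matrix.vecMul_mulVec, hR, Matrix.vecMul_one, sum_filter,
      mul_sum]
    refine sum_congr rfl fun j _ => ?_
    simp only [hs]
    have := hrr j
    rcases hε j with h | h <;> rcases hβ1 j with h' | h' <;> rw [h, h'] <;> norm_num <;>
      linear_combination (4 * c ^ 2) * this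
  · refine (hB' i).trans ?_
    rcases hε i with h | h <;> rw [h]
    · rw [one_mul]; exact le_abs_self _
    · rw [neg_one_mul]; exact neg_le_abs _
  · have h1 := (mem_filter.1 hi).2
    have h2 := hB' i
    have h3 := hβu i
    have h4 := le_abs_self (∑ v, A i v * ((R *ᵥ s) v / r v))
    have h5 := neg_le_abs (∑ v, A i v * ((R *ᵥ s) v / r v))
    rcases hε i with h | h <;> rcases hβ1 i with h' | h' <;> rw [h] at h1 h2 <;>
      rw [h'] at h1 h3
    · exact absurd rfl h1
    · linarith
    · linarith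
    · exact absurd rfl h1

end Pool.Agent.Lib.MP_70b2ae_gt
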