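import Mathlib

namespace Pool.Agent.Lib.MP_70b2ae_gt

open Finset Matrix Filter Topology

variable {ι : Type*} [Fintype ι] [DecidableEq ι]

/-- The quadratic form of a matrix. -/
def qf (M : Matrix ι ι ℝ) (x : ι → ℝ) : ℝ := ∑ u, ∑ v, x u * M u v * x v

/-- Symmetric with nonnegative quadratic form. -/
def Psd (M : Matrix ι ι ℝ) : Prop := (∀ u v, M u v = M v u) ∧ ∀ x, 0 ≤ qf M x

omit [DecidableEq ι] in
theorem qf_add (M N : Matrix ι ι ℝ) (x : ι → ℝ) : qf (M + N) x = qf M x + qf N x := by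
  simp only [qf, Matrix.add_apply, mul_add, add_mul, sum_add_distrib]

omit [DecidableEq ι] in
theorem Psd.add {M N : Matrix ι ι ℝ} (hM : Psd M) (hN : Psd N) : Psd (M + N) :=
  ⟨fun u v => by simp only [Matrix.add_apply, hM.1 u v, hN.1 u v], fun x => by
    rw [qf_add]; exact add_nonneg (hM.2 x) (hN.2 x)⟩

omit [DecidableEq ι] in
theorem qf_sub_smul {M : Matrix ι ι ℝ} (hM : ∀ u v, M u v = M v u) (x y : ι → ℝ) (s : ℝ) :
    qf M (fun u => x u - s * y u)
      = qf M x - 2 * s * ∑ v, y v * ∑ u, x u * M u v + s ^ 2 * qf M y := by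
  have h1 : ∑ u, ∑ v, y u * M u v * x v = ∑ v, y v * ∑ u, x u * M u v := by
    simp only [mul_sum]
    exact sum_congr rfl fun u _ => sum_congr rfl fun v _ => by rw [hM u v]; ring
  have h2 : ∑ u, ∑ v, x u * M u v * y v = ∑ v, y v * ∑ u, x u * M u v := by
    rw [sum_comm]
    simp only [mul_sum]
    exact sum_congr rfl fun u _ => sum_congr rfl fun v _ => by ring
  have h3 : ∀ u v, (x u - s * y u) * M u v * (x v - s * y v) = x u * M u v * x v
      - s * (y u * M u v * x v) - s * (x u * M u v * y v) + s ^ 2 * (y u * M u v * y v) :=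
    fun u v => by ring
  simp only [qf, h3, sum_add_distrib, sum_sub_distrib, ← mul_sum]
  rw [h1, h2]
  ring

theorem qf_single (M : Matrix ι ι ℝ) (u : ι) : qf M (Pi.single u 1) = M u u := by
  simp [qf, Pi.single_apply]

theorem psd_compact : IsCompact {M : Matrix ι ι ℝ | Psd M ∧ ∀ v, M v v ≤ 1} := by
  have h1 : IsCompact (Set.univ.pi fun _ : ι => Set.univ.pi fun _ : ι => Set.Icc (-1 : ℝ) 1) :=
    isCompact_univ_pi fun _ => isCompact_univ_pi fun _ => isCompact_Icc
  have hent : ∀ u v, Continuous fun M : Matrix ι ι ℝ => M u v := fun u v =>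
    continuous_id.matrix_elem u v
  refine h1.of_isClosed_subset ?_ ?_
  · have : {M : Matrix ι ι ℝ | Psd M ∧ ∀ v, M v v ≤ 1}
        = ((⋂ u, ⋂ v, {M : Matrix ι ι ℝ | M u v = M v u}) ∩ ⋂ x, {M | 0 ≤ qf M x})
          ∩ ⋂ v, {M | M v v ≤ 1} := by
      ext M; simp [Psd]
    rw [this]
    refine IsClosed.inter (IsClosed.inter ?_ ?_) ?_
    · exact isClosed_iInter fun u => isClosed_iInter fun v => isClosed_eq (hent u v) (hent v u)
    · refine isClosed_iInter fun x => isClosed_le continuous_const ?_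
      exact continuous_finsetSum _ fun u _ => continuous_finsetSum _ fun v _ =>
        (continuous_const.mul (hent u v)).mul continuous_const
    · exact isClosed_iInter fun v => isClosed_le (hent v v) continuous_const
  · rintro M ⟨hM, hd⟩ u _ v _
    have h2 : ∀ s : ℝ, 0 ≤ M u u - 2 * s * M u v + s ^ 2 * M v v := fun s => by
      have := hM.2 (fun w => (Pi.single u 1 : ι → ℝ) w - s * (Pi.single v 1 : ι → ℝ) w)
      rw [qf_sub_smul hM.1, qf_single, qf_single] at this
      simpa [Pi.single_apply] using this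
    have h3 := h2 1
    have h4 := h2 (-1)
    have := hd u
    have := hd v
    constructor <;> nlinarith

/-- A factorisation of Grothendieck type. -/
theorem groth (A : Matrix ι ι ℝ) (hA : ∀ i, A i i = 1) (ω : ι → ℝ) (hω : ∀ i, 0 < ω i) :
    ∃ (M : Matrix ι ι ℝ) (D : ι → ℝ), Psd M ∧ (∀ v, M v v ≤ 1) ∧ (∀ j, 0 < qf M (A j)) ∧
      (∀ v, 0 < D v) ∧ ∑ v, D v ≤ ∑ j, ω j ∧
      ∀ z : ι → ℝ, ∑ j, ω j * ((∑ v, A j v * z v) ^ 2 / qf M (A j)) ≤ ∑ v, D v * z v ^ 2 := by
  have hcont : ∀ x, Continuous fun M : Matrix ι ι ℝ => qf M x := fun x =>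
    continuous_finsetSum _ fun u _ => continuous_finsetSum _ fun v _ =>
      (continuous_const.mul (continuous_id.matrix_elem u v)).mul continuous_const
  have hq1 : ∀ x : ι → ℝ, qf 1 x = ∑ u, x u ^ 2 := fun x => by
    simp [qf, Matrix.one_apply, sq]
  have h1K : (1 : Matrix ι ι ℝ) ∈ {M : Matrix ι ι ℝ | Psd M ∧ ∀ v, M v v ≤ 1} :=
    ⟨⟨fun u v => by simp [Matrix.one_apply, eq_comm], fun x => by
      rw [hq1]; exact sum_nonneg fun u _ => sq_nonneg _⟩, fun v => by simp⟩
  obtain ⟨M, ⟨hM, hd⟩, hmax⟩ := psd_compact.exists_isMaxOn ⟨_, h1K⟩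
    (f := fun M => ∏ j, qf M (A j) ^ ω j)
    (continuous_finsetProd _ fun j _ => (hcont _).rpow_const fun _ => Or.inr (hω j).le).continuousOn
  have hpos : ∀ j, 0 < qf M (A j) := by
    have h1 : 0 < ∏ j, qf M (A j) ^ ω j := by
      refine lt_of_lt_of_le (prod_pos fun j _ => Real.rpow_pos_of_pos ?_ _) (hmax h1K)
      rw [hq1]
      refine lt_of_lt_of_le ?_ (single_le_sum (f := fun u => A j u ^ 2)
        (fun u _ => sq_nonneg _) (mem_univ j))
      simp [hA]
    intro j
    refine lt_of_le_of_ne (hM.2 _) fun h => h1.ne' ?_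
    exact prod_eq_zero (mem_univ j) (by rw [← h, Real.zero_rpow (hω j).ne'])
  set D : ι → ℝ := fun v => ∑ j, ω j * (A j v * (∑ u, A j u * M u v) / qf M (A j)) with hD
  have key : ∀ z : ι → ℝ,
      ∑ j, ω j * ((∑ v, A j v * z v) ^ 2 / qf M (A j)) ≤ ∑ v, D v * z v ^ 2 := by
    intro z
    set Z := ∑ v, z v ^ 2 with hZ
    let N : ℝ → Matrix ι ι ℝ := fun s => Matrix.of fun u v =>
      (1 - s * z u ^ 2) * M u v * (1 - s * z v ^ 2) + (2 * s - s ^ 2 * Z) * (z u * z v)
    have hN : ∀ s x, qf (N s) x = qf M (fun u => x u - s * (z u ^ 2 * x u))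
        + (2 * s - s ^ 2 * Z) * (∑ v, x v * z v) ^ 2 := by
      intro s x
      rw [sq (∑ v, x v * z v), sum_mul_sum]
      simp only [qf, N, Matrix.of_apply, mul_sum, ← sum_add_distrib]
      exact sum_congr rfl fun u _ => sum_congr rfl fun v _ => by ring
    let α : ι → ℝ := fun j =>
      2 * (∑ v, A j v * z v) ^ 2 - 2 * ∑ v, z v ^ 2 * A j v * ∑ u, A j u * M u v
    let β : ι → ℝ := fun j => qf M (fun u => z u ^ 2 * A j u) - Z * (∑ v, A j v * z v) ^ 2
    have hq : ∀ s j, qf (N s) (A j) = qf M (A j) + α j * s + β j * s ^ 2 := by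
      intro s j
      rw [hN, qf_sub_smul hM.1]
      simp only [α, β]
      ring
    have hder : ∀ j, HasDerivAt (fun s => qf M (A j) + α j * s + β j * s ^ 2) (α j) 0 := by
      intro j
      have := (((hasDerivAt_id (0 : ℝ)).const_mul (α j)).const_add (qf M (A j))).add
        ((hasDerivAt_pow 2 (0 : ℝ)).const_mul (β j))
      exact this.congr_deriv (by simp)
    have hφ : HasDerivAt (fun s => ∑ j, ω j * Real.log (qf M (A j) + α j * s + β j * s ^ 2))
        (∑ j, ω j * (α j / qf M (A j))) 0 := by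
      refine HasDerivAt.fun_sum fun j _ => HasDerivAt.const_mul _ ?_
      have := (hder j).log (by simpa using (hpos j).ne')
      simpa using this
    have e1 : ∀ᶠ s in 𝓝 (0 : ℝ), ∀ j, 0 < qf M (A j) + α j * s + β j * s ^ 2 :=
      eventually_all.2 fun j => (hder j).continuousAt.eventually
        (lt_mem_nhds (by simpa using hpos j))
    have e2 : ∀ᶠ s in 𝓝 (0 : ℝ), s * Z < 2 := by
      have : ContinuousAt (fun s : ℝ => s * Z) 0 := by fun_prop
      exact this.eventually (gt_mem_nhds (by simp))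
    have h0 : ∑ j, ω j * (α j / qf M (A j)) ≤ 0 := by
      refine le_of_tendsto hφ.tendsto_slope_zero_right ?_
      filter_upwards [nhdsWithin_le_nhds e1, nhdsWithin_le_nhds e2, self_mem_nhdsWithin]
        with s h1 h2 h3
      have hs : 0 < s := h3
      have hτ : 0 ≤ 2 * s - s ^ 2 * Z := by nlinarith
      have hmem : N s ∈ {M : Matrix ι ι ℝ | Psd M ∧ ∀ v, M v v ≤ 1} := by
        refine ⟨⟨fun u v => ?_, fun x => ?_⟩, fun v => ?_⟩
        · simp only [N, Matrix.of_apply, hM.1 u v]; ring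
        · rw [hN]; exact add_nonneg (hM.2 _) (mul_nonneg hτ (sq_nonneg _))
        · have h4 : z v ^ 2 ≤ Z :=
            single_le_sum (f := fun v => z v ^ 2) (fun v _ => sq_nonneg _) (mem_univ v)
          have h5 := mul_le_mul_of_nonneg_left (hd v) (sq_nonneg (1 - s * z v ^ 2))
          have h6 := mul_le_mul_of_nonneg_left h4 (mul_nonneg (sq_nonneg s) (sq_nonneg (z v)))
          simp only [N, Matrix.of_apply]
          nlinarith
      have h4 : ∏ j, qf (N s) (A j) ^ ω j ≤ ∏ j, qf M (A j) ^ ω j := hmax hmem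
      simp only [hq] at h4
      have h5 := Real.log_le_log (prod_pos fun j _ => Real.rpow_pos_of_pos (h1 j) _) h4
      rw [Real.log_prod fun j _ => (Real.rpow_pos_of_pos (h1 j) _).ne',
        Real.log_prod fun j _ => (Real.rpow_pos_of_pos (hpos j) _).ne'] at h5
      simp only [Real.log_rpow (h1 _), Real.log_rpow (hpos _)] at h5
      simp only [zero_add, smul_eq_mul, mul_zero, add_zero, ne_eq, OfNat.ofNat_ne_zero,
        not_false_eq_true, zero_pow]
      exact mul_nonpos_of_nonneg_of_nonpos (inv_pos.2 hs).le (by linarith)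
    have h1 : ∑ j, ω j * (α j / qf M (A j))
        = 2 * ∑ j, ω j * ((∑ v, A j v * z v) ^ 2 / qf M (A j)) - 2 * ∑ v, D v * z v ^ 2 := by
      simp only [hD, sum_mul]
      rw [sum_comm (s := univ) (t := univ)
        (f := fun v j => ω j * (A j v * (∑ u, A j u * M u v) / qf M (A j)) * z v ^ 2),
        mul_sum, mul_sum, ← sum_sub_distrib]
      refine sum_congr rfl fun j _ => ?_
      have h2 : ∑ v, ω j * (A j v * (∑ u, A j u * M u v) / qf M (A j)) * z v ^ 2
          = ω j * ((∑ v, z v ^ 2 * A j v * ∑ u, A j u * M u v) / qf M (A j)) := by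
        rw [sum_div, mul_sum]
        exact sum_congr rfl fun v _ => by ring
      rw [h2]
      simp only [α]
      ring
    linarith
  refine ⟨M, D, hM, hd, hpos, fun v => ?_, le_of_eq ?_, key⟩
  · have h1 := key (Pi.single v 1)
    have h2 : ∑ w, D w * (Pi.single v 1 : ι → ℝ) w ^ 2 = D v := by simp [Pi.single_apply]
    have h3 : ∀ j, ∑ w, A j w * (Pi.single v 1 : ι → ℝ) w = A j v := fun j => by
      simp [Pi.single_apply]
    simp only [h2, h3] at h1
    refine lt_of_lt_of_le ?_ ((single_le_sum (f := fun j => ω j * (A j v ^ 2 / qf M (A j)))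
      (fun j _ => mul_nonneg (hω j).le (div_nonneg (sq_nonneg _) (hpos j).le)) (mem_univ v)).trans
      h1)
    have := hω v
    have := hpos v
    simp only [hA]
    positivity
  · simp only [hD]
    rw [sum_comm]
    refine sum_congr rfl fun j _ => ?_
    rw [← mul_sum, ← sum_div]
    have : ∑ v, A j v * ∑ u, A j u * M u v = qf M (A j) := by
      simp only [qf, mul_sum]
      rw [sum_comm]
      exact sum_congr rfl fun u _ => sum_congr rfl fun v _ => by ring
    rw [this, div_self (hpos j).ne', mul_one]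

/-- Iterating the factorisation. -/
theorem levels (A : Matrix ι ι ℝ) (hA : ∀ i, A i i = 1) (L : ℕ) :
    ∀ w : ι → ℝ, (∀ i, 0 < w i) → ∃ (ω : ι → ℝ) (Γ : Matrix ι ι ℝ) (ρ : ι → ℝ),
      (∀ i, w i ≤ ω i) ∧ Psd Γ ∧ (∀ v, Γ v v ≤ L + 1) ∧ (∀ j, 0 < qf Γ (A j)) ∧ (∀ v, 0 ≤ ρ v) ∧
      ∑ j, ω j ≤ 2 * ∑ j, w j ∧ 2 ^ L * ∑ v, ρ v ≤ ∑ j, w j ∧
      ∀ z z' : ι → ℝ, (∀ j, ∑ v, A j v * z v = ∑ v, A j v * z' v) →
        ∑ j, ω j * ((∑ v, A j v * z v) ^ 2 / qf Γ (A j))
          ≤ 2 * ∑ v, (ω v - w v) * z v ^ 2 + ∑ v, ρ v * z' v ^ 2 := by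
  induction L with
  | zero =>
    intro w hw
    obtain ⟨M, D, h1, h2, h3, h4, h5, h6⟩ := groth A hA w hw
    have h7 : 0 ≤ ∑ j, w j := sum_nonneg fun j _ => (hw j).le
    refine ⟨w, M, D, fun i => le_rfl, h1, by simpa using h2, h3, fun v => (h4 v).le, by linarith,
      by simpa using h5, fun z z' hz => ?_⟩
    simp only [hz, sub_self, zero_mul, sum_const_zero, mul_zero, zero_add]
    exact h6 z'
  | succ L ih =>
    intro w hw
    obtain ⟨M, D, h1, h2, h3, h4, h5, h6⟩ := groth A hA w hw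
    obtain ⟨ω, Γ, ρ, g1, g2, g3, g4, g5, g6, g7, g8⟩ := ih (fun v => D v / 2)
      (fun v => half_pos (h4 v))
    have hω : ∀ v, 0 < ω v := fun v => (half_pos (h4 v)).trans_le (g1 v)
    rw [← sum_div] at g6 g7
    refine ⟨fun v => w v + ω v, M + Γ, ρ, fun i => by linarith [hω i], h1.add g2, fun v => ?_,
      fun j => ?_, g5, ?_, ?_, fun z z' hz => ?_⟩
    · rw [Matrix.add_apply]
      push_cast
      linarith [h2 v, g3 v]
    · rw [qf_add]; linarith [h3 j, g4 j]
    · rw [sum_add_distrib]; linarith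
    · rw [pow_succ]; linarith
    · have k1 := h6 z
      have k2 := g8 z z' hz
      have k3 : ∑ j, (w j + ω j) * ((∑ v, A j v * z v) ^ 2 / qf (M + Γ) (A j))
          ≤ ∑ j, w j * ((∑ v, A j v * z v) ^ 2 / qf M (A j))
            + ∑ j, ω j * ((∑ v, A j v * z v) ^ 2 / qf Γ (A j)) := by
        rw [← sum_add_distrib]
        refine sum_le_sum fun j _ => ?_
        rw [add_mul, qf_add]
        have := h3 j
        have := g4 j
        have := hw j
        have := hω j
        gcongr <;> linarith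
      have k4 : 2 * ∑ v, (w v + ω v - w v) * z v ^ 2
          = ∑ v, D v * z v ^ 2 + 2 * ∑ v, (ω v - D v / 2) * z v ^ 2 := by
        rw [mul_sum, mul_sum, ← sum_add_distrib]
        exact sum_congr rfl fun v _ => by ring
      linarith

end Pool.Agent.Lib.MP_70b2ae_gt
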