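import Mathlib
import Pool.Agent.Lib.MP_70b2ae_gt.H76Groth

namespace Pool.Agent.Lib.MP_70b2ae_gt

open Finset Matrix MeasureTheory ProbabilityTheory

variable {ι : Type*} [Fintype ι] [DecidableEq ι]

omit [DecidableEq ι] in
theorem qf_eq (M : Matrix ι ι ℝ) (x : ι → ℝ) : qf M x = x ⬝ᵥ M *ᵥ x := by
  simp only [qf, dotProduct, mulVec, mul_sum, mul_assoc]

omit [DecidableEq ι] in
theorem Psd.posSemidef {M : Matrix ι ι ℝ} (hM : Psd M) : M.PosSemidef :=
  PosSemidef.of_dotProduct_mulVec_nonneg (by ext u v; simp [hM.1 u v]) fun x => by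
    simpa [qf_eq] using hM.2 x

/-- The law of a linear form of a centred Gaussian vector. -/
theorem map_form {Γ : Matrix ι ι ℝ} (hΓ : Psd Γ) (a : ι → ℝ) :
    (multivariateGaussian 0 Γ).map (fun g : EuclideanSpace ℝ ι => ∑ v, a v * g v)
      = gaussianReal 0 (qf Γ a).toNNReal := by
  have h1 : (fun g : EuclideanSpace ℝ ι => ∑ v, a v * g v)
      = innerSL ℝ (WithLp.toLp 2 a : EuclideanSpace ℝ ι) := by
    funext g
    simp [PiLp.inner_apply, mul_comm]
  rw [h1, IsGaussian.map_eq_gaussianReal, ContinuousLinearMap.integral_comp_id_comm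
    IsGaussian.integrable_id, integral_id_multivariateGaussian, map_zero]
  congr 2
  have h2 := covarianceBilin_self (μ := multivariateGaussian 0 Γ) IsGaussian.memLp_two_id
    (WithLp.toLp 2 a : EuclideanSpace ℝ ι)
  rw [covarianceBilin_multivariateGaussian hΓ.posSemidef] at h2
  rw [qf_eq]
  exact h2.symm

theorem gauss_Icc {q : ℝ} (hq : 0 < q) (a r : ℝ) (hr : 0 ≤ r) :
    (gaussianReal 0 q.toNNReal).real (Set.Icc (a - r * √q) (a + r * √q)) ≤ r := by
  have hv : q.toNNReal ≠ 0 := by simpa using hq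
  have hs : 0 < √q := Real.sqrt_pos.2 hq
  rw [Measure.real, gaussianReal_apply_eq_integral _ hv,
    ENNReal.toReal_ofReal (integral_nonneg fun x => gaussianPDFReal_nonneg _ _ x)]
  have h1 := norm_setIntegral_le_of_norm_le_const (μ := volume)
    (s := Set.Icc (a - r * √q) (a + r * √q)) (f := gaussianPDFReal 0 q.toNNReal)
    (C := (2 * √q)⁻¹) (by simp) (fun x _ => by
      rw [Real.norm_of_nonneg (gaussianPDFReal_nonneg _ _ x), gaussianPDFReal,
        Real.coe_toNNReal _ hq.le]
      have h2 : Real.exp (-(x - 0) ^ 2 / (2 * q)) ≤ 1 := Real.exp_le_one_iff.2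
        (div_nonpos_of_nonpos_of_nonneg (neg_nonpos.2 (sq_nonneg _)) (by positivity))
      have h3 : 2 * √q ≤ √(2 * Real.pi * q) := by
        refine Real.le_sqrt_of_sq_le ?_
        rw [mul_pow, Real.sq_sqrt hq.le]
        have := Real.two_le_pi
        nlinarith
      have h4 : (√(2 * Real.pi * q))⁻¹ ≤ (2 * √q)⁻¹ := inv_anti₀ (by positivity) h3
      calc _ ≤ (√(2 * Real.pi * q))⁻¹ * 1 := mul_le_mul_of_nonneg_left h2 (by positivity)
        _ ≤ _ := by rw [mul_one]; exact h4)
  rw [Real.volume_real_Icc_of_le (by nlinarith)] at h1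
  refine (le_abs_self _).trans (h1.trans (le_of_eq ?_))
  field_simp
  ring

theorem clip_sq (K t : ℝ) (hK : 0 ≤ K) :
    (t - max (-K) (min K t)) ^ 2 ≤ 2 * Real.exp (-K) * (Real.exp (1 * t) + Real.exp (-1 * t)) := by
  have h0 : ∀ y : ℝ, 0 ≤ y → y ^ 2 ≤ 2 * Real.exp y := fun y hy => by
    have := Real.quadratic_le_exp_of_nonneg hy
    linarith
  have e1 := Real.exp_pos (-K)
  have e2 := Real.exp_pos (1 * t)
  have e3 := Real.exp_pos (-1 * t)
  rcases le_total K t with h | h
  · rw [min_eq_left h, max_eq_right (by linarith)]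
    have h1 := h0 (t - K) (by linarith)
    have h2 : Real.exp (t - K) = Real.exp (-K) * Real.exp (1 * t) := by
      rw [← Real.exp_add]; congr 1; ring
    nlinarith [mul_pos e1 e3]
  · rw [min_eq_right h]
    rcases le_total (-K) t with h' | h'
    · rw [max_eq_right h', sub_self, zero_pow two_ne_zero]; positivity
    · rw [max_eq_left h']
      have h1 := h0 (-K - t) (by linarith)
      have h2 : Real.exp (-K - t) = Real.exp (-K) * Real.exp (-1 * t) := by
        rw [← Real.exp_add]; congr 1; ring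
      nlinarith [mul_pos e1 e2]

/-- A starting point in the half cube that is far from most hyperplanes. -/
theorem gauss_point (A : Matrix ι ι ℝ) (ω E : ι → ℝ) {Γ : Matrix ι ι ℝ} (hΓ : Psd Γ)
    (hq : ∀ j, 0 < qf Γ (A j)) (hω : ∀ j, 0 ≤ ω j) (hE0 : ∀ v, 0 ≤ E v)
    (hE : ∀ z : ι → ℝ,
      ∑ j, ω j * ((∑ v, A j v * z v) ^ 2 / qf Γ (A j)) ≤ ∑ v, E v * z v ^ 2)
    (Λ K τ : ℝ) (hd : ∀ v, Γ v v ≤ Λ) (hK : 0 < K) (hτ : 0 < τ) (m : ι → ℝ) :
    ∃ x : ι → ℝ, (∀ v, |x v| ≤ 1 / 2) ∧
      ∑ j, (if (∑ v, A j v * x v - m j) ^ 2 ≤ τ ^ 2 * qf Γ (A j) then ω j else 0)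
        ≤ 4 * K * τ * ∑ j, ω j + (∑ v, E v) * (4 * Real.exp (Λ / 2 - K)) / (2 * K * τ) ^ 2 := by
  set μ := multivariateGaussian 0 Γ with hμ
  let S : ι → Set (EuclideanSpace ℝ ι) := fun j => (fun g => ∑ v, A j v * g v) ⁻¹'
    Set.Icc (2 * K * m j - 4 * K * τ * √(qf Γ (A j))) (2 * K * m j + 4 * K * τ * √(qf Γ (A j)))
  have hform : ∀ a : ι → ℝ, Measurable fun g : EuclideanSpace ℝ ι => ∑ v, a v * g v :=
    fun a => by fun_prop
  have hS : ∀ j, MeasurableSet (S j) := fun j => hform _ measurableSet_Icc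
  have hSμ : ∀ j, μ.real (S j) ≤ 4 * K * τ := fun j => by
    have := gauss_Icc (hq j) (2 * K * m j) (4 * K * τ) (by positivity)
    rwa [← map_form hΓ, map_measureReal_apply (hform _) measurableSet_Icc] at this
  have hev : ∀ v, μ.map (fun g : EuclideanSpace ℝ ι => g v) = gaussianReal 0 (Γ v v).toNNReal :=
    fun v => (measurePreserving_eval_multivariateGaussian hΓ.posSemidef).map_eq
  have hint : ∀ v (t : ℝ), Integrable (fun g : EuclideanSpace ℝ ι => Real.exp (t * g v)) μ := by
    intro v t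
    have := integrable_exp_mul_gaussianReal (μ := 0) (v := (Γ v v).toNNReal) t
    rw [← hev] at this
    exact this.comp_measurable (by fun_prop)
  have hmgf : ∀ v (t : ℝ), t ^ 2 = 1 →
      ∫ g : EuclideanSpace ℝ ι, Real.exp (t * g v) ∂μ ≤ Real.exp (Λ / 2) := by
    intro v t ht
    have h1 := mgf_gaussianReal (hev v) t
    have h2 : 0 ≤ Γ v v := (hΓ.2 _).trans_eq (qf_single Γ v)
    rw [mgf, ht, Real.coe_toNNReal _ h2] at h1
    rw [h1]
    exact Real.exp_le_exp.2 (by linarith [hd v])
  let f1 : ι → EuclideanSpace ℝ ι → ℝ := fun j => (S j).indicator fun _ => ω j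
  let f2 : ι → EuclideanSpace ℝ ι → ℝ := fun v g => E v / (2 * K * τ) ^ 2 *
    (2 * Real.exp (-K) * (Real.exp (1 * g v) + Real.exp (-1 * g v)))
  have i1 : ∀ j, Integrable (f1 j) μ := fun j => (integrable_const _).indicator (hS j)
  have i2 : ∀ v, Integrable (f2 v) μ := fun v =>
    (((hint v 1).add (hint v (-1))).const_mul _).const_mul _
  have j1 := integrable_finsetSum univ fun j _ => i1 j
  have j2 := integrable_finsetSum univ fun v _ => i2 v
  obtain ⟨g, hg⟩ := exists_le_integral (j1.add j2)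
  have hI : ∫ a, ((fun a => ∑ j, f1 j a) + fun a => ∑ v, f2 v a) a ∂μ
      ≤ 4 * K * τ * ∑ j, ω j + (∑ v, E v) * (4 * Real.exp (Λ / 2 - K)) / (2 * K * τ) ^ 2 := by
    simp only [Pi.add_apply]
    rw [integral_add j1 j2, integral_finsetSum _ fun j _ => i1 j,
      integral_finsetSum _ fun v _ => i2 v, mul_sum, sum_mul, sum_div]
    refine add_le_add (sum_le_sum fun j _ => ?_) (sum_le_sum fun v _ => ?_)
    · simp only [f1]
      rw [integral_indicator_const _ (hS j), smul_eq_mul]
      exact mul_le_mul_of_nonneg_right (hSμ j) (hω j)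
    · simp only [f2]
      rw [integral_const_mul, integral_const_mul, integral_add (hint v 1) (hint v (-1)),
        mul_div_right_comm]
      refine mul_le_mul_of_nonneg_left ?_ (div_nonneg (hE0 v) (sq_nonneg _))
      have h1 := hmgf v 1 (by norm_num)
      have h2 := hmgf v (-1) (by norm_num)
      rw [sub_eq_add_neg, Real.exp_add]
      nlinarith [Real.exp_pos (-K)]
  let cl : ι → ℝ := fun v => max (-K) (min K (g v))
  refine ⟨fun v => cl v / (2 * K), fun v => ?_, le_trans ?_ (hg.trans hI)⟩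
  · rw [abs_div, abs_of_pos (by positivity : 0 < 2 * K), div_le_iff₀ (by positivity)]
    have : |cl v| ≤ K := abs_le.2 ⟨le_max_left _ _, max_le (by linarith) (min_le_left _ _)⟩
    linarith
  · simp only [Pi.add_apply]
    have h1 : ∀ j, (if (∑ v, A j v * (cl v / (2 * K)) - m j) ^ 2 ≤ τ ^ 2 * qf Γ (A j) then ω j
        else 0) ≤ f1 j g
          + ω j * ((∑ v, A j v * (g v - cl v)) ^ 2 / qf Γ (A j)) / (2 * K * τ) ^ 2 := by
      intro j
      have h2 : 0 ≤ f1 j g := Set.indicator_nonneg (fun _ _ => hω j) g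
      have h3 : 0 ≤ ω j * ((∑ v, A j v * (g v - cl v)) ^ 2 / qf Γ (A j)) / (2 * K * τ) ^ 2 := by
        have := hω j
        have := hq j
        positivity
      split_ifs with h
      · by_cases hm : g ∈ S j
        · have : f1 j g = ω j := Set.indicator_of_mem hm _
          linarith
        · have hs : 0 < √(qf Γ (A j)) := Real.sqrt_pos.2 (hq j)
          have hss : √(qf Γ (A j)) ^ 2 = qf Γ (A j) := Real.sq_sqrt (hq j).le
          have h4 : ∑ v, A j v * g v = 2 * K * ∑ v, A j v * (cl v / (2 * K))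
              + ∑ v, A j v * (g v - cl v) := by
            rw [mul_sum, ← sum_add_distrib]
            exact sum_congr rfl fun v _ => by field_simp; ring
          simp only [S, Set.mem_preimage, h4, Set.mem_Icc] at hm
          generalize ∑ v, A j v * (cl v / (2 * K)) = y at h hm
          generalize ∑ v, A j v * (g v - cl v) = r at hm h3 ⊢
          generalize √(qf Γ (A j)) = σ at hm hs hss
          rw [← hss, ← mul_pow] at h
          have h5 := abs_le_of_sq_le_sq' h (by positivity)
          have h6 : (2 * K * τ * σ) ^ 2 ≤ r ^ 2 := by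
            refine sq_le_sq.2 ?_
            rw [abs_of_pos (by positivity)]
            by_contra hc
            have h7 := abs_lt.1 (not_le.1 hc)
            apply hm
            have h8 := mul_le_mul_of_nonneg_left h5.1 (by positivity : 0 ≤ 2 * K)
            have h9 := mul_le_mul_of_nonneg_left h5.2 (by positivity : 0 ≤ 2 * K)
            constructor <;> nlinarith
          have h7 : 1 ≤ r ^ 2 / qf Γ (A j) / (2 * K * τ) ^ 2 := by
            rw [← hss, div_div, le_div_iff₀ (by positivity)]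
            nlinarith
          have h8 := mul_le_mul_of_nonneg_left h7 (hω j)
          rw [mul_div_assoc]
          linarith
      · linarith
    refine (sum_le_sum fun j _ => h1 j).trans ?_
    rw [sum_add_distrib, ← sum_div]
    refine add_le_add le_rfl ((div_le_div_of_nonneg_right (hE _) (sq_nonneg _)).trans ?_)
    rw [sum_div]
    refine sum_le_sum fun v _ => ?_
    rw [mul_div_right_comm]
    exact mul_le_mul_of_nonneg_left (clip_sq K (g v) hK.le) (div_nonneg (hE0 v) (sq_nonneg _))

end Pool.Agent.Lib.MP_70b2ae_gt
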