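import Mathlib

namespace Pool.Agent.Lib.MP_70b2ae_gt

open Finset Matrix

variable {ι : Type*} [Fintype ι] [DecidableEq ι]

/-- Lewis weights for a matrix of full row rank. -/
theorem lewis_full {κ : Type*} [Fintype κ] [DecidableEq κ] (V : Matrix κ ι ℝ) (B0 : Matrix ι κ ℝ)
    (h0 : V * B0 = 1) (hV : ∀ j, ∃ k, V k j ≠ 0) :
    ∃ w : ι → ℝ, (∀ j, 0 < w j) ∧ ∑ j, w j ≤ Fintype.card κ ∧
      ∀ x : ι → ℝ, ∃ x' : ι → ℝ, V *ᵥ x' = V *ᵥ x ∧ ∀ j, x' j ^ 2 ≤ ∑ v, w v * x v ^ 2 := by
  let K : Set (Matrix ι κ ℝ) := {B | ∀ j, ∑ k, B j k ^ 2 ≤ 1}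
  have hK : IsCompact K := by
    have h1 : IsCompact (Set.univ.pi fun _ : ι => Set.univ.pi fun _ : κ => Set.Icc (-1 : ℝ) 1) :=
      isCompact_univ_pi fun _ => isCompact_univ_pi fun _ => isCompact_Icc
    refine h1.of_isClosed_subset ?_ ?_
    · have : K = ⋂ j, {B : Matrix ι κ ℝ | ∑ k, B j k ^ 2 ≤ 1} := by ext B; simp [K]
      rw [this]
      refine isClosed_iInter fun j => isClosed_le ?_ continuous_const
      exact continuous_finsetSum _ fun k _ => (continuous_id.matrix_elem j k).pow 2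
    · intro B hB j _ k _
      have h3 : B j k ^ 2 ≤ 1 :=
        (Finset.single_le_sum (f := fun k => B j k ^ 2) (fun k _ => sq_nonneg _)
          (mem_univ k)).trans (hB j)
      exact abs_le.1 ((sq_le_one_iff_abs_le_one _).1 h3)
  set S : ℝ := ∑ j, ∑ k, B0 j k ^ 2 with hS
  have hS0 : 0 ≤ S := sum_nonneg fun j _ => sum_nonneg fun k _ => sq_nonneg _
  have hεK : (1 / (1 + S)) • B0 ∈ K := by
    intro j
    have h1 : ∑ k, B0 j k ^ 2 ≤ S :=
      Finset.single_le_sum (f := fun j => ∑ k, B0 j k ^ 2)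
        (fun j _ => sum_nonneg fun k _ => sq_nonneg _) (mem_univ j)
    simp only [Matrix.smul_apply, smul_eq_mul, mul_pow, ← mul_sum]
    rw [div_pow, one_pow, div_mul_eq_mul_div, one_mul, div_le_one (by positivity)]
    nlinarith
  obtain ⟨B, hB, hmax⟩ := hK.exists_isMaxOn ⟨_, hεK⟩ (f := fun B => (V * B).det)
    (continuous_const.matrix_mul continuous_id).matrix_det.continuousOn
  have hdet : 0 < (V * B).det := by
    refine lt_of_lt_of_le ?_ (hmax hεK)
    simp only [Matrix.mul_smul, h0, Matrix.det_smul, det_one, mul_one]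
    positivity
  have hu : IsUnit (V * B).det := isUnit_iff_ne_zero.2 hdet.ne'
  set G : Matrix κ ι ℝ := (V * B)⁻¹ * V with hG
  have hGB : G * B = 1 := by rw [hG, Matrix.mul_assoc, Matrix.nonsing_inv_mul _ hu]
  have hVG : V * B * G = V := by rw [hG, Matrix.mul_nonsing_inv_cancel_left _ _ hu]
  have hrow : ∀ j (y : κ → ℝ), ∑ k, y k ^ 2 ≤ 1 → ∑ k, y k * G k j ≤ ∑ k, B j k * G k j := by
    intro j y hy
    have hmem : B.updateRow j y ∈ K := by
      intro i
      by_cases h : i = j
      · subst h; simpa using hy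
      · simpa [Matrix.updateRow_ne h] using hB i
    have h1 : (V * B.updateRow j y).det ≤ (V * B).det := hmax hmem
    have h2 : G * B.updateRow j y
        = 1 + replicateCol Unit (fun k => G k j) * replicateRow Unit (y - B j) := by
      rw [← hGB]
      ext k l
      simp only [Matrix.mul_apply, Matrix.add_apply, replicateCol_apply, replicateRow_apply,
        Finset.univ_unique, sum_singleton, Pi.sub_apply]
      rw [← Finset.add_sum_erase univ _ (mem_univ j), ← Finset.add_sum_erase univ _ (mem_univ j),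
        updateRow_self]
      have : ∑ x ∈ univ.erase j, G k x * B.updateRow j y x l = ∑ x ∈ univ.erase j, G k x * B x l :=
        sum_congr rfl fun x hx => by rw [Matrix.updateRow_ne (mem_erase.1 hx).1]
      rw [this]
      ring
    have h3 : (V * B.updateRow j y).det = (V * B).det * (1 + (y - B j) ⬝ᵥ fun k => G k j) := by
      rw [← det_one_add_replicateCol_mul_replicateRow (ι := Unit), ← h2, ← det_mul,
        ← Matrix.mul_assoc, hVG]
    rw [h3] at h1
    have h4 : ((y - B j) ⬝ᵥ fun k => G k j) ≤ 0 := by nlinarith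
    simp only [dotProduct, Pi.sub_apply, sub_mul, sum_sub_distrib] at h4
    linarith
  have hG0 : ∀ j, 0 < ∑ k, G k j ^ 2 := by
    intro j
    obtain ⟨k, hk⟩ := hV j
    by_contra hn
    have h1 : ∀ l, G l j = 0 := fun l => by
      have := (Finset.single_le_sum (f := fun k => G k j ^ 2) (fun k _ => sq_nonneg _)
        (mem_univ l)).trans (not_lt.1 hn)
      exact pow_eq_zero_iff (two_ne_zero) |>.1 (le_antisymm this (sq_nonneg _))
    apply hk
    rw [← hVG, Matrix.mul_apply]
    simp [h1]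
  set w : ι → ℝ := fun j => Real.sqrt (∑ k, G k j ^ 2) with hw
  have hw0 : ∀ j, 0 < w j := fun j => Real.sqrt_pos.2 (hG0 j)
  have hww : ∀ j, w j ^ 2 = ∑ k, G k j ^ 2 := fun j => Real.sq_sqrt (hG0 j).le
  have hwle : ∀ j, w j ≤ ∑ k, B j k * G k j := by
    intro j
    have h1 := hrow j (fun k => G k j / w j) (by
      simp only [div_pow, ← sum_div, ← hww]
      rw [div_self (pow_pos (hw0 j) 2).ne'])
    refine le_trans (le_of_eq ?_) h1
    have : ∀ k, G k j / w j * G k j = G k j ^ 2 / w j := fun k => by ring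
    simp only [this, ← sum_div, ← hww]
    field_simp [(hw0 j).ne']
  have hGw : ∀ j k, G k j = w j * B j k := by
    intro j k
    have h1 : ∑ k, (G k j - w j * B j k) ^ 2 ≤ 0 := by
      have : ∀ k, (G k j - w j * B j k) ^ 2
          = G k j ^ 2 - 2 * w j * (B j k * G k j) + w j ^ 2 * B j k ^ 2 := fun k => by ring
      simp only [this, sum_add_distrib, sum_sub_distrib, ← mul_sum, ← hww]
      have h2 := mul_le_mul_of_nonneg_left (hB j) (sq_nonneg (w j))
      have h3 := mul_le_mul_of_nonneg_left (hwle j) (hw0 j).le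
      nlinarith
    have h2 := (Finset.single_le_sum (f := fun k => (G k j - w j * B j k) ^ 2)
      (fun k _ => sq_nonneg _) (mem_univ k)).trans h1
    have h3 := pow_eq_zero_iff (two_ne_zero) |>.1 (le_antisymm h2 (sq_nonneg _))
    linarith
  refine ⟨w, hw0, ?_, fun x => ?_⟩
  · refine (sum_le_sum fun j _ => hwle j).trans (le_of_eq ?_)
    rw [sum_comm]
    have : ∀ k, ∑ j, B j k * G k j = 1 := fun k => by
      have := congrFun (congrFun hGB k) k
      simp only [Matrix.mul_apply, one_apply_eq] at this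
      rw [← this]
      exact sum_congr rfl fun j _ => mul_comm _ _
    simp [this]
  · set z : κ → ℝ := G *ᵥ x with hz
    refine ⟨B *ᵥ z, ?_, fun j => ?_⟩
    · rw [hz, Matrix.mulVec_mulVec, Matrix.mulVec_mulVec, hVG]
    · have h1 : (B *ᵥ z) j ^ 2 ≤ ∑ k, z k ^ 2 := by
        have := Finset.sum_mul_sq_le_sq_mul_sq univ (fun k => B j k) z
        have h2 := mul_le_mul_of_nonneg_right (hB j)
          (sum_nonneg fun k (_ : k ∈ univ) => sq_nonneg (z k))
        simp only [mulVec, dotProduct]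
        linarith
      have h2 : ∀ y : ι → ℝ, ∑ k, z k * (G *ᵥ y) k = ∑ v, w v * (y v * (B *ᵥ z) v) := by
        intro y
        generalize z = z
        simp only [mulVec, dotProduct, mul_sum]
        rw [sum_comm]
        refine sum_congr rfl fun v _ => sum_congr rfl fun k _ => ?_
        rw [hGw]; ring
      have h3 : ∑ k, z k ^ 2 = ∑ v, w v * (x v * (B *ᵥ z) v) := by
        rw [← h2, ← hz]; exact sum_congr rfl fun k _ => sq _
      have h4 : ∑ k, z k ^ 2 = ∑ v, w v * ((B *ᵥ z) v * (B *ᵥ z) v) := by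
        rw [← h2, Matrix.mulVec_mulVec, hGB, Matrix.one_mulVec]
        exact sum_congr rfl fun k _ => sq _
      have h5 : 0 ≤ ∑ v, w v * (x v - (B *ᵥ z) v) ^ 2 :=
        sum_nonneg fun v _ => mul_nonneg (hw0 v).le (sq_nonneg _)
      have h6 : ∑ v, w v * (x v - (B *ᵥ z) v) ^ 2 = ∑ v, w v * x v ^ 2
          - 2 * ∑ v, w v * (x v * (B *ᵥ z) v) + ∑ v, w v * ((B *ᵥ z) v * (B *ᵥ z) v) := by
        rw [mul_sum, ← sum_sub_distrib, ← sum_add_distrib]
        exact sum_congr rfl fun v _ => by ring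
      linarith

/-- Lewis weights for nonzero vectors in dimension `d`. -/
theorem lewis {E : Type*} [AddCommGroup E] [Module ℝ E] [FiniteDimensional ℝ E] (v : ι → E)
    (hv : ∀ j, v j ≠ 0) :
    ∃ w : ι → ℝ, (∀ j, 0 < w j) ∧ ∑ j, w j ≤ Module.finrank ℝ E ∧
      ∀ x : ι → ℝ, ∃ x' : ι → ℝ, ∑ j, x' j • v j = ∑ j, x j • v j ∧
        ∀ j, x' j ^ 2 ≤ ∑ v, w v * x v ^ 2 := by
  set F := Submodule.span ℝ (Set.range v) with hF
  let b := Module.finBasis ℝ F
  let v' : ι → F := fun j => ⟨v j, Submodule.subset_span ⟨j, rfl⟩⟩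
  have hc : ∀ k, ∃ c : ι → ℝ, ∑ j, c j • v j = (b k : E) := fun k =>
    (Submodule.mem_span_range_iff_exists_fun ℝ).1 (b k).2
  choose c hc using hc
  have hrep : ∀ (x : ι → ℝ) k, ((Matrix.of fun k j => b.repr (v' j) k) *ᵥ x) k
      = b.repr (∑ j, x j • v' j) k := by
    intro x k
    simp [mulVec, dotProduct, mul_comm]
  have hcoe : ∀ x : ι → ℝ, ((∑ j, x j • v' j : F) : E) = ∑ j, x j • v j := by
    intro x; simp [v']
  obtain ⟨w, hw0, hw1, hw2⟩ := lewis_full (Matrix.of fun k j => b.repr (v' j) k)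
    (Matrix.of fun j k => c k j) (by
      ext k l
      have h1 := hrep (c l) k
      have h2 : ∑ j, c l j • v' j = b l := Subtype.ext (by rw [hcoe, hc])
      rw [h2] at h1
      have h3 : ((Matrix.of fun k j => b.repr (v' j) k) * (Matrix.of fun j k => c k j)) k l
          = b.repr (b l) k := by
        rw [← h1]; rfl
      rw [h3]
      simp [Matrix.one_apply, Finsupp.single_apply, eq_comm])
    (fun j => by
      by_contra hn
      push Not at hn
      apply hv j
      have : b.repr (v' j) = 0 := Finsupp.ext fun k => hn k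
      have h2 : v' j = 0 := by simpa using this
      exact congrArg Subtype.val h2)
  refine ⟨w, hw0, hw1.trans ?_, fun x => ?_⟩
  · rw [Fintype.card_fin]
    exact_mod_cast Submodule.finrank_le F
  · obtain ⟨x', h1, h2⟩ := hw2 x
    refine ⟨x', ?_, h2⟩
    rw [← hcoe, ← hcoe]
    congr 1
    apply b.repr.injective
    ext k
    rw [← hrep, ← hrep, h1]

end Pool.Agent.Lib.MP_70b2ae_gt
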