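import Mathlib
import Pool.Agent.Lib.MP_70b2ae_gt.H76Bang
import Pool.Agent.Lib.MP_70b2ae_gt.H76Lewis
import Pool.Agent.Lib.MP_70b2ae_gt.H76Gauss

namespace Pool.Agent.Lib.MP_70b2ae_gt

open Finset Matrix

variable {ι : Type*} [Fintype ι] [DecidableEq ι]

/-- A point of the cube whose image is far from all hyperplanes. -/
theorem cube_point {F : Type*} [AddCommGroup F] [Module ℝ F] [FiniteDimensional ℝ F]
    (a : ι → F →ₗ[ℝ] ℝ) (v : ι → F) (hav : ∀ i, a i (v i) = 1) (d L : ℕ)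
    (hd : Module.finrank ℝ F ≤ d) (hd1 : 1 ≤ d) (hL : d ≤ 2 ^ L) (c : ℝ) (hc : 0 < c)
    (hcd : 2560 * c ^ 3 * d * (2 * L + 4) ≤ 1) (m : ι → ℝ) :
    ∃ x : ι → ℝ, (∀ j, |x j| ≤ 1) ∧ ∀ i, c / 2 ≤ |a i (∑ j, x j • v j) - m i| := by
  set A : Matrix ι ι ℝ := Matrix.of fun i j => a i (v j) with hAdef
  have hA : ∀ i, A i i = 1 := hav
  have hAx : ∀ i (x : ι → ℝ), ∑ j, A i j * x j = a i (∑ j, x j • v j) := fun i x => by
    simp [hAdef, mul_comm]
  obtain ⟨w, hw0, hw1, hw2⟩ := lewis v (fun j h => by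
    have := hav j
    rw [h, map_zero] at this
    exact zero_ne_one this)
  have hwd : ∑ j, w j ≤ d := hw1.trans (by exact_mod_cast hd)
  have hd1' : (1 : ℝ) ≤ d := by exact_mod_cast hd1
  have hL' : (d : ℝ) ≤ 2 ^ L := by exact_mod_cast hL
  have hL0 : (0 : ℝ) ≤ L := Nat.cast_nonneg L
  obtain ⟨ω, Γ, ρ, g1, g2, g3, g4, g5, g6, g7, g8⟩ := levels A hA L w hw0
  have hω : ∀ j, 0 < ω j := fun j => (hw0 j).trans_le (g1 j)
  have hρ : ∑ v, ρ v ≤ 1 := by
    refine le_of_mul_le_mul_left ?_ (by positivity : (0 : ℝ) < 2 ^ L)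
    linarith
  obtain ⟨x0, hx0, hN⟩ := gauss_point A ω (fun v => 2 * (ω v - w v) + ρ v) g2 g4
    (fun j => (hω j).le) (fun v => by linarith [g1 v, g5 v]) (fun z => by
      refine (g8 z z fun _ => rfl).trans (le_of_eq ?_)
      rw [mul_sum, ← sum_add_distrib]
      exact sum_congr rfl fun v _ => by ring)
    (L + 1) (2 * L + 4) (5 * c) g3 (by positivity) (by positivity) m
  set N := ∑ j, (if (∑ v, A j v * x0 v - m j) ^ 2 ≤ (5 * c) ^ 2 * qf Γ (A j) then ω j else 0)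
    with hNdef
  have hN' : 32 * c ^ 2 * N ≤ 1 := by
    have h1 : ∑ v, (2 * (ω v - w v) + ρ v) ≤ 3 * d := by
      rw [sum_add_distrib, ← mul_sum, sum_sub_distrib]
      linarith
    have h2 : (d : ℝ) * Real.exp (((L : ℝ) + 1) / 2 - (2 * L + 4)) ≤ 1 := by
      have h3 : (2 : ℝ) ^ L ≤ Real.exp 1 ^ L :=
        pow_le_pow_left₀ (by norm_num) (by linarith [Real.add_one_le_exp 1]) L
      rw [← Real.exp_nat_mul, mul_one] at h3
      calc _ ≤ Real.exp L * Real.exp (((L : ℝ) + 1) / 2 - (2 * L + 4)) :=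
            mul_le_mul_of_nonneg_right (hL'.trans h3) (Real.exp_pos _).le
        _ ≤ 1 := by
            rw [← Real.exp_add]
            exact Real.exp_le_one_iff.2 (by linarith)
    have h3 : (∑ v, (2 * (ω v - w v) + ρ v)) * (4 * Real.exp (((L : ℝ) + 1) / 2 - (2 * L + 4)))
        ≤ 12 := by
      have := mul_le_mul_of_nonneg_right h1
        (by positivity : 0 ≤ 4 * Real.exp (((L : ℝ) + 1) / 2 - (2 * L + 4)))
      linarith
    have h4 : (∑ v, (2 * (ω v - w v) + ρ v)) * (4 * Real.exp (((L : ℝ) + 1) / 2 - (2 * L + 4)))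
        / (2 * (2 * L + 4) * (5 * c)) ^ 2 ≤ 1 / (64 * c ^ 2) := by
      rw [div_le_div_iff₀ (by positivity) (by positivity)]
      have h5 := mul_le_mul_of_nonneg_right h3 (by positivity : 0 ≤ 64 * c ^ 2)
      have h6 : 16 ≤ (2 * (L : ℝ) + 4) ^ 2 := by nlinarith
      have h7 := mul_le_mul_of_nonneg_right h6 (by positivity : 0 ≤ 100 * c ^ 2)
      have h8 := sq_nonneg c
      calc _ ≤ 12 * (64 * c ^ 2) := h5
        _ ≤ (2 * (L : ℝ) + 4) ^ 2 * (100 * c ^ 2) := by linarith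
        _ = _ := by ring
    have h5 : 4 * (2 * (L : ℝ) + 4) * (5 * c) * ∑ j, ω j ≤ 1 / (64 * c ^ 2) := by
      rw [le_div_iff₀ (by positivity)]
      have h6 : ∑ j, ω j ≤ 2 * d := by linarith
      have h7 := mul_le_mul_of_nonneg_left h6
        (by positivity : 0 ≤ 4 * (2 * (L : ℝ) + 4) * (5 * c) * (64 * c ^ 2))
      calc _ = 4 * (2 * (L : ℝ) + 4) * (5 * c) * (64 * c ^ 2) * ∑ j, ω j := by ring
        _ ≤ _ := h7
        _ = 2560 * c ^ 3 * d * (2 * L + 4) := by ring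
        _ ≤ 1 := hcd
    have h6 : N ≤ 1 / (32 * c ^ 2) := by
      refine hN.trans ((add_le_add h5 h4).trans (le_of_eq ?_))
      field_simp
      norm_num
    rw [le_div_iff₀ (by positivity)] at h6
    linarith
  obtain ⟨T, Δ, k1, k2, k3⟩ := cross_move A hA ω hω c hc fun i => ∑ v, A i v * x0 v - m i
  obtain ⟨Δ', k4, k5⟩ := hw2 Δ
  set t := ∑ j ∈ T, ω j with ht
  have ht0 : 0 ≤ t := sum_nonneg fun j _ => (hω j).le
  have hΔ : ∀ j, ∑ v, A j v * Δ v = ∑ v, A j v * Δ' v := fun j => by rw [hAx, hAx, k4]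
  have k6 : ∀ j, Δ' j ^ 2 ≤ 4 * c ^ 2 * t := fun j => by
    rw [← k1]
    exact (k5 j).trans (sum_le_sum fun v _ => mul_le_mul_of_nonneg_right (g1 v) (sq_nonneg _))
  have k7 : ∑ j, ω j * ((∑ v, A j v * Δ v) ^ 2 / qf Γ (A j)) ≤ 12 * c ^ 2 * t := by
    have h1 : ∑ v, (ω v - w v) * Δ v ^ 2 ≤ 4 * c ^ 2 * t := by
      rw [← k1]
      exact sum_le_sum fun v _ => mul_le_mul_of_nonneg_right (by linarith [hw0 v]) (sq_nonneg _)
    have h2 : ∑ v, ρ v * Δ' v ^ 2 ≤ 4 * c ^ 2 * t := by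
      refine (sum_le_sum fun v _ => mul_le_mul_of_nonneg_left (k6 v) (g5 v)).trans ?_
      rw [← sum_mul]
      exact mul_le_of_le_one_left (by positivity) hρ
    linarith [g8 Δ Δ' hΔ]
  have k8 : (5 * c) ^ 2 * (t - N) ≤ ∑ j, ω j * ((∑ v, A j v * Δ v) ^ 2 / qf Γ (A j)) := by
    have h1 : t = ∑ j, if j ∈ T then ω j else 0 := by rw [ht, sum_ite_mem, univ_inter]
    rw [h1, hNdef, ← sum_sub_distrib, mul_sum]
    refine sum_le_sum fun j _ => ?_
    have h2 : 0 ≤ ω j * ((∑ v, A j v * Δ v) ^ 2 / qf Γ (A j)) :=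
      mul_nonneg (hω j).le (div_nonneg (sq_nonneg _) (g4 j).le)
    have h3 : 0 ≤ (5 * c) ^ 2 * ω j := mul_nonneg (sq_nonneg _) (hω j).le
    split_ifs with h4 h5 h5
    · simpa using h2
    · have h6 := sq_le_sq.2 (k3 j h4)
      have h7 : (5 * c) ^ 2 ≤ (∑ v, A j v * Δ v) ^ 2 / qf Γ (A j) := by
        rw [le_div_iff₀ (g4 j)]
        linarith [not_le.1 h5]
      rw [sub_zero, mul_comm]
      exact mul_le_mul_of_nonneg_left h7 (hω j).le
    · linarith
    · simpa using h2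
  have k9 : ∀ j, |Δ' j| ≤ 1 / 2 := fun j => by
    refine abs_le_of_sq_le_sq' ?_ (by norm_num) |> abs_le.2
    have := k6 j
    have : 0 ≤ c ^ 2 * t := by positivity
    nlinarith
  refine ⟨x0 + Δ', fun j => ?_, fun i => ?_⟩
  · refine (abs_add_le _ _).trans ?_
    linarith [hx0 j, k9 j]
  · refine (k2 i).trans (le_of_eq ?_)
    rw [← hAx, hΔ]
    simp only [Pi.add_apply, mul_add, sum_add_distrib]
    congr 1
    ring

/-- The plank bound, with the directions of the widths given. -/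
theorem plank_bound {F : Type*} [AddCommGroup F] [Module ℝ F] [FiniteDimensional ℝ F]
    (C : Set F) (hC : Convex ℝ C) (hne : C.Nonempty) (a : ι → F →ₗ[ℝ] ℝ) (l u : ι → ℝ)
    (hlu : ∀ i, l i ≤ u i) (p q : ι → F) (hp : ∀ i, p i ∈ C) (hq : ∀ i, q i ∈ C)
    (hw : ∀ i, 0 < a i (p i - q i)) (hcov : ∀ x ∈ C, ∃ i, l i ≤ a i x ∧ a i x ≤ u i) (d L : ℕ)
    (hd : Module.finrank ℝ F ≤ d) (hd1 : 1 ≤ d) (hL : d ≤ 2 ^ L) (c : ℝ) (hc : 0 < c)
    (hcd : 2560 * c ^ 3 * d * (2 * L + 4) ≤ 1) :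
    c / 2 ≤ ∑ i, (u i - l i) / a i (p i - q i) := by
  by_contra hlt
  push Not at hlt
  set S := ∑ i, (u i - l i) / a i (p i - q i) with hS
  set n : ℝ := (Fintype.card ι : ℝ) with hn
  have hn0 : 0 ≤ n := Nat.cast_nonneg _
  set δ := (c / 2 - S) / (n + 1) with hδ
  have hδ0 : 0 < δ := div_pos (by linarith) (by linarith)
  set t : ι → ℝ := fun i => (u i - l i) / a i (p i - q i) + δ with ht
  have ht0 : ∀ i, 0 < t i := fun i =>
    add_pos_of_nonneg_of_pos (div_nonneg (sub_nonneg.2 (hlu i)) (hw i).le) hδ0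
  set W := ∑ i, t i with hW
  have hWc : W < c / 2 := by
    have h1 : W = S + n * δ := by
      simp only [hW, ht, sum_add_distrib, sum_const, card_univ, nsmul_eq_mul, hS, hn]
    have h2 : n * δ + δ = c / 2 - S := by rw [hδ]; field_simp
    linarith
  have hW0 : 0 < W := by
    obtain ⟨x, hx⟩ := hne
    obtain ⟨i, -⟩ := hcov x hx
    exact (ht0 i).trans_le (single_le_sum (fun j _ => (ht0 j).le) (mem_univ i))
  set P0 : F := ∑ j, (t j / W) • ((1 / 2 : ℝ) • (p j + q j)) with hP0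
  obtain ⟨x, hx1, hx2⟩ := cube_point (fun i => (t i * a i (p i - q i))⁻¹ • a i)
    (fun j => t j • (p j - q j)) (fun i => by
      have := ht0 i
      have := hw i
      simp only [LinearMap.smul_apply, map_smul, smul_eq_mul]
      field_simp) d L hd hd1 hL c hc hcd
    (fun i => 2 * W / (t i * a i (p i - q i)) * ((l i + u i) / 2 - a i P0))
  have hmem : ∑ j, (t j / W) • (((1 + x j) / 2) • p j + ((1 - x j) / 2) • q j) ∈ C := by
    refine hC.sum_mem (fun j _ => (div_pos (ht0 j) hW0).le) ?_ fun j _ => ?_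
    · rw [← sum_div, div_self hW0.ne']
    · have := abs_le.1 (hx1 j)
      exact hC (hp j) (hq j) (by linarith) (by linarith) (by ring)
  have heq : ∑ j, (t j / W) • (((1 + x j) / 2) • p j + ((1 - x j) / 2) • q j)
      = P0 + (2 * W)⁻¹ • ∑ j, x j • t j • (p j - q j) := by
    rw [hP0, smul_sum, ← sum_add_distrib]
    refine sum_congr rfl fun j _ => ?_
    match_scalars <;> field_simp <;> ring
  rw [heq] at hmem
  obtain ⟨i, h1, h2⟩ := hcov _ hmem
  have h3 := hx2 i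
  simp only [LinearMap.smul_apply, smul_eq_mul] at h3
  rw [map_add, map_smul, smul_eq_mul] at h1 h2
  generalize a i (∑ j, x j • t j • (p j - q j)) = y at h1 h2 h3
  have h4 : t i * a i (p i - q i) = u i - l i + δ * a i (p i - q i) := by
    have := hw i
    simp only [ht]
    field_simp
  have h5 := mul_pos hδ0 (hw i)
  have h6 := mul_pos (ht0 i) (hw i)
  generalize t i * a i (p i - q i) = b at h3 h4 h6
  have h7 : b⁻¹ * y - 2 * W / b * ((l i + u i) / 2 - a i P0)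
      = 2 * W / b * (a i P0 + (2 * W)⁻¹ * y - (l i + u i) / 2) := by
    field_simp
    ring
  have h8 : |a i P0 + (2 * W)⁻¹ * y - (l i + u i) / 2| ≤ b / 2 :=
    abs_le.2 ⟨by linarith, by linarith⟩
  rw [h7, abs_mul, abs_of_pos (by positivity : 0 < 2 * W / b)] at h3
  have h9 := mul_le_mul_of_nonneg_left h8 (by positivity : 0 ≤ 2 * W / b)
  have h10 : 2 * W / b * (b / 2) = W := by field_simp
  linarith

end Pool.Agent.Lib.MP_70b2ae_gt
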