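import Mathlib

namespace Pool.Agent.Lib.MP_70b2ae_gt.H8

open Finset

variable {I : Type*} [Fintype I]

/-- A rank one perturbation of the identity applied to `x`. -/
def tw (t : ℝ) (w x : I → ℝ) : I → ℝ := fun k => x k + t * (x ⬝ᵥ w) * w k

theorem dot_tw (t t' : ℝ) (w x c : I → ℝ) :
    tw t w x ⬝ᵥ tw t' w c = x ⬝ᵥ c + (t + t' + t * t' * (w ⬝ᵥ w)) * ((x ⬝ᵥ w) * (c ⬝ᵥ w)) := by
  have e1 : tw t w x = x + (t * (x ⬝ᵥ w)) • w := by funext k; simp [tw]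
  have e2 : tw t' w c = c + (t' * (c ⬝ᵥ w)) • w := by funext k; simp [tw]
  rw [e1, e2, add_dotProduct, dotProduct_add, dotProduct_add, dotProduct_smul, smul_dotProduct,
    smul_dotProduct, dotProduct_smul, dotProduct_comm w c]
  simp only [smul_eq_mul]
  ring

/-- The combination of the rows of `T` with coefficients `a`. -/
def cmb (a : I → ℝ) (T : I → I → ℝ) : I → ℝ := fun k => ∑ j, a j * T j k

theorem cmb_dot (a : I → ℝ) (T : I → I → ℝ) (w : I → ℝ) :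
    cmb a T ⬝ᵥ w = ∑ j, a j * (T j ⬝ᵥ w) := by
  simp only [cmb, dotProduct, Finset.sum_mul, Finset.mul_sum]
  rw [Finset.sum_comm]
  exact Finset.sum_congr rfl fun j _ => Finset.sum_congr rfl fun k _ => by ring

theorem cmb_tw (a : I → ℝ) (T : I → I → ℝ) (t : ℝ) (w : I → ℝ) :
    cmb a (fun j => tw t w (T j)) = tw t w (cmb a T) := by
  funext k
  simp only [tw, cmb_dot]
  simp only [cmb, tw, Finset.mul_sum, Finset.sum_mul, ← Finset.sum_add_distrib]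
  exact Finset.sum_congr rfl fun j _ => by ring

theorem dot_self_nonneg (x : I → ℝ) : 0 ≤ x ⬝ᵥ x :=
  Finset.sum_nonneg fun _ _ => mul_self_nonneg _

theorem dot_cs (x z : I → ℝ) : (x ⬝ᵥ z) ^ 2 ≤ (x ⬝ᵥ x) * (z ⬝ᵥ z) := by
  have := Finset.sum_mul_sq_le_sq_mul_sq Finset.univ x z
  simpa only [dotProduct, sq] using this

variable [DecidableEq I]

/-- The two families are biorthogonal. -/
def Bi (p : (I → I → ℝ) × (I → I → ℝ)) : Prop :=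
  ∀ i k, p.1 i ⬝ᵥ p.2 k = if i = k then 1 else 0

/-- The functional that is minimised. -/
noncomputable def fn (A : I → I → ℝ) (p : (I → I → ℝ) × (I → I → ℝ)) : ℝ :=
  ∑ i, p.1 i ⬝ᵥ p.1 i + ∑ i, p.2 i ⬝ᵥ p.2 i + ∑ i, Real.log (cmb (A i) p.1 ⬝ᵥ cmb (A i) p.1)

theorem Bi.cmb_dot {p : (I → I → ℝ) × (I → I → ℝ)} (h : Bi p) (a : I → ℝ) (k : I) :
    cmb a p.1 ⬝ᵥ p.2 k = a k := by
  rw [H8.cmb_dot]
  simp [h _ k]

theorem Bi.one_le {p : (I → I → ℝ) × (I → I → ℝ)} (h : Bi p) {A : I → I → ℝ}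
    (hA : ∀ i, A i i = 1) (i : I) :
    1 ≤ (cmb (A i) p.1 ⬝ᵥ cmb (A i) p.1) * (p.2 i ⬝ᵥ p.2 i) := by
  have := dot_cs (cmb (A i) p.1) (p.2 i)
  rwa [h.cmb_dot, hA, one_pow] at this

theorem Bi.pos {p : (I → I → ℝ) × (I → I → ℝ)} (h : Bi p) {A : I → I → ℝ}
    (hA : ∀ i, A i i = 1) (i : I) : 0 < cmb (A i) p.1 ⬝ᵥ cmb (A i) p.1 := by
  refine lt_of_le_of_ne (dot_self_nonneg _) fun h0 => ?_
  have := h.one_le hA i
  rw [← h0] at this
  linarith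

theorem Bi.fn_ge {p : (I → I → ℝ) × (I → I → ℝ)} (h : Bi p) {A : I → I → ℝ}
    (hA : ∀ i, A i i = 1) : ∑ i, p.1 i ⬝ᵥ p.1 i + (∑ i, p.2 i ⬝ᵥ p.2 i) / 2 ≤ fn A p := by
  have key : ∀ i, -((p.2 i ⬝ᵥ p.2 i) / 2) ≤ Real.log (cmb (A i) p.1 ⬝ᵥ cmb (A i) p.1) := by
    intro i
    have h1 := h.one_le hA i
    have h2 := h.pos hA i
    have h3 : 0 < p.2 i ⬝ᵥ p.2 i := by
      by_contra hc
      nlinarith
    have h4 := Real.log_nonneg h1
    rw [Real.log_mul h2.ne' h3.ne'] at h4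
    have h5 := Real.log_le_sub_one_of_pos (half_pos h3)
    rw [Real.log_div h3.ne' two_ne_zero] at h5
    linarith [Real.log_two_lt_d9]
  have := Finset.sum_le_sum (s := Finset.univ) fun i _ => key i
  rw [Finset.sum_neg_distrib, ← Finset.sum_div] at this
  unfold fn
  linarith

theorem exists_min (A : I → I → ℝ) (hA : ∀ i, A i i = 1) :
    ∃ p, Bi p ∧ ∀ q, Bi q → fn A p ≤ fn A q := by
  let p0 : (I → I → ℝ) × (I → I → ℝ) := (fun i => Pi.single i 1, fun i => Pi.single i 1)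
  have h0 : Bi p0 := fun i k => by
    simp only [p0, single_dotProduct, Pi.single_apply, one_mul]
  have hn : ∀ T : I → I → ℝ, 0 ≤ ∑ i, T i ⬝ᵥ T i := fun T =>
    Finset.sum_nonneg fun i _ => dot_self_nonneg _
  obtain ⟨C, hC⟩ : ∃ C, C = 2 * fn A p0 := ⟨_, rfl⟩
  have hc1 : Continuous fun p : (I → I → ℝ) × (I → I → ℝ) => ∑ i, p.1 i ⬝ᵥ p.1 i := by
    unfold dotProduct; fun_prop
  have hc2 : Continuous fun p : (I → I → ℝ) × (I → I → ℝ) => ∑ i, p.2 i ⬝ᵥ p.2 i := by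
    unfold dotProduct; fun_prop
  let K : Set ((I → I → ℝ) × (I → I → ℝ)) :=
    {p | Bi p} ∩ ({p | ∑ i, p.1 i ⬝ᵥ p.1 i ≤ C} ∩ {p | ∑ i, p.2 i ⬝ᵥ p.2 i ≤ C})
  have hcl : IsClosed K := by
    refine IsClosed.inter ?_ ((isClosed_le hc1 continuous_const).inter
      (isClosed_le hc2 continuous_const))
    unfold Bi
    simp only [Set.ofPred_forall]
    refine isClosed_iInter fun i => isClosed_iInter fun k => isClosed_eq ?_ continuous_const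
    unfold dotProduct; fun_prop
  have hb : ∀ T : I → I → ℝ, ∑ i, T i ⬝ᵥ T i ≤ C → ‖T‖ ≤ C + 1 := by
    intro T hT
    have hC0 : 0 ≤ C + 1 := by linarith [hn T]
    refine (pi_norm_le_iff_of_nonneg hC0).2 fun i => (pi_norm_le_iff_of_nonneg hC0).2 fun k => ?_
    have h1 : T i ⬝ᵥ T i ≤ ∑ i, T i ⬝ᵥ T i :=
      Finset.single_le_sum (f := fun i => T i ⬝ᵥ T i) (fun i _ => dot_self_nonneg _)
        (Finset.mem_univ i)
    have h2 : T i k * T i k ≤ T i ⬝ᵥ T i :=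
      Finset.single_le_sum (f := fun k => T i k * T i k) (fun i _ => mul_self_nonneg _)
        (Finset.mem_univ k)
    rw [Real.norm_eq_abs, abs_le]
    constructor <;> nlinarith [sq_nonneg (T i k + 1), sq_nonneg (T i k - 1)]
  have hK : IsCompact K := by
    refine (isCompact_closedBall 0 (C + 1)).of_isClosed_subset hcl fun p hp => ?_
    rw [mem_closedBall_zero_iff, Prod.norm_def]
    exact max_le (hb _ hp.2.1) (hb _ hp.2.2)
  have h0K : p0 ∈ K := by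
    have := h0.fn_ge hA
    refine ⟨h0, ?_, ?_⟩
    · change ∑ i, p0.1 i ⬝ᵥ p0.1 i ≤ C
      linarith [hn p0.1, hn p0.2]
    · change ∑ i, p0.2 i ⬝ᵥ p0.2 i ≤ C
      linarith [hn p0.1, hn p0.2]
  have hcont : ContinuousOn (fn A) K := by
    unfold fn
    refine (hc1.continuousOn.add hc2.continuousOn).add (continuousOn_finsetSum _ fun i _ => ?_)
    refine ContinuousOn.log (Continuous.continuousOn ?_) fun p hp => (hp.1.pos hA i).ne'
    unfold dotProduct cmb; fun_prop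
  obtain ⟨p, hp, hmin⟩ := hK.exists_isMinOn ⟨p0, h0K⟩ hcont
  refine ⟨p, hp.1, fun q hq => ?_⟩
  by_cases h : q ∈ K
  · exact hmin h
  · have h1 : fn A p ≤ fn A p0 := hmin h0K
    have h2 := hq.fn_ge hA
    by_contra hc
    refine h ⟨hq, ?_, ?_⟩
    · change ∑ i, q.1 i ⬝ᵥ q.1 i ≤ C
      linarith [hn q.1, hn q.2]
    · change ∑ i, q.2 i ⬝ᵥ q.2 i ≤ C
      linarith [hn q.1, hn q.2]

theorem vary {A : I → I → ℝ} (hA : ∀ i, A i i = 1) {p : (I → I → ℝ) × (I → I → ℝ)} (h : Bi p)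
    (hmin : ∀ q, Bi q → fn A p ≤ fn A q) (w : I → ℝ) {σ σ' : ℝ} (hσ : σ + σ' + σ * σ' = 0) :
    0 ≤ (2 * σ + σ ^ 2) * (∑ i, (p.1 i ⬝ᵥ w) ^ 2
        + ∑ i, (cmb (A i) p.1 ⬝ᵥ w) ^ 2 / (cmb (A i) p.1 ⬝ᵥ cmb (A i) p.1))
      + (2 * σ' + σ' ^ 2) * ∑ i, (p.2 i ⬝ᵥ w) ^ 2 := by
  rcases (dot_self_nonneg w).eq_or_lt with hw | hw
  · have : w = 0 := dotProduct_self_eq_zero.1 hw.symm
    subst this
    simp
  obtain ⟨s, hs⟩ : ∃ s, s = w ⬝ᵥ w := ⟨_, rfl⟩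
  rw [← hs] at hw
  let q : (I → I → ℝ) × (I → I → ℝ) :=
    (fun j => tw (σ / s) w (p.1 j), fun j => tw (σ' / s) w (p.2 j))
  have hq : Bi q := fun i k => by
    simp only [q]
    rw [dot_tw, h i k, ← hs]
    have : σ / s + σ' / s + σ / s * (σ' / s) * s = (σ + σ' + σ * σ') / s := by field_simp
    rw [this, hσ]
    simp
  have sq1 : ∀ (τ : ℝ) (x : I → ℝ), tw (τ / s) w x ⬝ᵥ tw (τ / s) w x
      = x ⬝ᵥ x + (2 * τ + τ ^ 2) / s * (x ⬝ᵥ w) ^ 2 := fun τ x => by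
    rw [dot_tw, ← hs]
    field_simp
    ring
  have h1 := hmin q hq
  have h2 : ∀ i, Real.log (cmb (A i) q.1 ⬝ᵥ cmb (A i) q.1)
      ≤ Real.log (cmb (A i) p.1 ⬝ᵥ cmb (A i) p.1) + (2 * σ + σ ^ 2) / s *
        ((cmb (A i) p.1 ⬝ᵥ w) ^ 2 / (cmb (A i) p.1 ⬝ᵥ cmb (A i) p.1)) := fun i => by
    have a1 := hq.pos hA i
    have a2 := h.pos hA i
    have a3 := Real.log_le_sub_one_of_pos (div_pos a1 a2)
    rw [Real.log_div a1.ne' a2.ne'] at a3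
    have e : cmb (A i) q.1 ⬝ᵥ cmb (A i) q.1 / (cmb (A i) p.1 ⬝ᵥ cmb (A i) p.1) - 1
        = (2 * σ + σ ^ 2) / s *
          ((cmb (A i) p.1 ⬝ᵥ w) ^ 2 / (cmb (A i) p.1 ⬝ᵥ cmb (A i) p.1)) := by
      simp only [q]
      rw [cmb_tw, sq1]
      field_simp
      ring
    linarith
  have h3 := Finset.sum_le_sum (s := Finset.univ) fun i _ => h2 i
  unfold fn at h1
  simp only [q, sq1, Finset.sum_add_distrib, ← Finset.mul_sum] at h1 h3
  have h4 : 0 ≤ ((2 * σ + σ ^ 2) * (∑ i, (p.1 i ⬝ᵥ w) ^ 2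
        + ∑ i, (cmb (A i) p.1 ⬝ᵥ w) ^ 2 / (cmb (A i) p.1 ⬝ᵥ cmb (A i) p.1))
      + (2 * σ' + σ' ^ 2) * ∑ i, (p.2 i ⬝ᵥ w) ^ 2) / s := by
    rw [add_div, mul_add, add_div, mul_div_right_comm, mul_div_right_comm, mul_div_right_comm]
    linarith
  exact (div_nonneg_iff.1 h4).elim (fun h => h.1) fun h => absurd h.2 (not_le.2 hw)

theorem ball_norm (A : I → I → ℝ) (hA : ∀ i, A i i = 1) :
    ∃ T : I → I → ℝ, (∀ i, 0 < cmb (A i) T ⬝ᵥ cmb (A i) T) ∧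
      ∑ i, 1 / (cmb (A i) T ⬝ᵥ cmb (A i) T) ≤ 12 * Fintype.card I ∧ (∀ j, T j ⬝ᵥ T j ≤ 2) ∧
      ∀ z : I → ℝ, ∑ i, (cmb (A i) T ⬝ᵥ cmb z T) ^ 2 / (cmb (A i) T ⬝ᵥ cmb (A i) T)
        ≤ 4 * ∑ j, z j ^ 2 := by
  obtain ⟨p, h, hmin⟩ := exists_min A hA
  have hpos := h.pos hA
  have v1 := fun w => vary hA h hmin w (σ := -1 / 2) (σ' := 1) (by norm_num)
  have v2 := fun w => vary hA h hmin w (σ := 1) (σ' := -1 / 2) (by norm_num)
  have hz : ∀ z : I → ℝ, ∑ i, (p.2 i ⬝ᵥ cmb z p.1) ^ 2 = ∑ j, z j ^ 2 := fun z =>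
    Finset.sum_congr rfl fun i _ => by rw [dotProduct_comm, h.cmb_dot]
  have hn : ∀ w : I → ℝ,
      0 ≤ ∑ i, (cmb (A i) p.1 ⬝ᵥ w) ^ 2 / (cmb (A i) p.1 ⬝ᵥ cmb (A i) p.1) := fun w =>
    Finset.sum_nonneg fun i _ => div_nonneg (sq_nonneg _) (hpos i).le
  have hT : ∀ j, p.1 j ⬝ᵥ p.1 j ≤ 2 := fun j => by
    have h1 := v1 (p.1 j)
    have h2 : ∑ i, (p.2 i ⬝ᵥ p.1 j) ^ 2 = 1 := by
      simp only [dotProduct_comm (p.2 _), h j]
      simp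
    have h3 : (p.1 j ⬝ᵥ p.1 j) ^ 2 ≤ ∑ i, (p.1 i ⬝ᵥ p.1 j) ^ 2 :=
      Finset.single_le_sum (f := fun i => (p.1 i ⬝ᵥ p.1 j) ^ 2) (fun i _ => sq_nonneg _)
        (Finset.mem_univ j)
    have h4 := hn (p.1 j)
    rw [h2] at h1
    nlinarith
  refine ⟨p.1, hpos, ?_, hT, fun z => ?_⟩
  · have h1 := Finset.sum_nonneg (s := Finset.univ) fun k _ => v2 (Pi.single k 1)
    have sw : ∀ T : I → I → ℝ, ∑ k, ∑ i, (T i ⬝ᵥ Pi.single k 1) ^ 2 = ∑ i, T i ⬝ᵥ T i := by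
      intro T
      rw [Finset.sum_comm]
      refine Finset.sum_congr rfl fun i _ => ?_
      simp only [dotProduct_single, mul_one]
      simp only [dotProduct, sq]
    have sw2 : ∑ k, ∑ i, (cmb (A i) p.1 ⬝ᵥ Pi.single k 1) ^ 2 / (cmb (A i) p.1 ⬝ᵥ cmb (A i) p.1)
        = Fintype.card I := by
      rw [Finset.sum_comm, ← Finset.card_univ, Finset.card_eq_sum_ones]
      push_cast
      refine Finset.sum_congr rfl fun i _ => ?_
      rw [← Finset.sum_div, div_eq_one_iff_eq (hpos i).ne']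
      simp only [dotProduct_single, mul_one]
      simp only [dotProduct, sq]
    rw [Finset.sum_add_distrib, ← Finset.mul_sum, ← Finset.mul_sum, Finset.sum_add_distrib, sw, sw,
      sw2] at h1
    have h2 : ∑ j, p.1 j ⬝ᵥ p.1 j ≤ 2 * Fintype.card I := by
      refine le_trans (Finset.sum_le_card_nsmul _ _ 2 fun j _ => hT j) ?_
      simp [mul_comm]
    have h3 : ∑ i, 1 / (cmb (A i) p.1 ⬝ᵥ cmb (A i) p.1) ≤ ∑ i, p.2 i ⬝ᵥ p.2 i :=
      Finset.sum_le_sum fun i _ => by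
        rw [div_le_iff₀ (hpos i), mul_comm]
        exact h.one_le hA i
    linarith
  · have h1 := v1 (cmb z p.1)
    have h2 : 0 ≤ ∑ i, (p.1 i ⬝ᵥ cmb z p.1) ^ 2 := Finset.sum_nonneg fun i _ => sq_nonneg _
    rw [hz] at h1
    linarith

end Pool.Agent.Lib.MP_70b2ae_gt.H8
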