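import Pool.Agent.Lib.MP_70b2ae_gt.H8Matrix

set_option autoImplicit false

open scoped RealInnerProductSpace

namespace Pool.Agent.Lib.MP_70b2ae_gt.H8

/-- In each direction: extreme values on the body and a far extreme point. -/
theorem far_point {d : ℕ} {C : Set (EuclideanSpace ℝ (Fin d))} (hc : IsCompact C)
    {x0 : EuclideanSpace ℝ (Fin d)} (hx0 : x0 ∈ interior C) {a : EuclideanSpace ℝ (Fin d)}
    (ha : a ≠ 0) : ∃ (lo hi : ℝ) (z : EuclideanSpace ℝ (Fin d)), z ∈ C ∧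
      (∀ x ∈ C, lo ≤ ⟪a, x⟫ ∧ ⟪a, x⟫ ≤ hi) ∧ ⟪a, z - x0⟫ ≠ 0 ∧ hi - lo ≤ 2 * |⟪a, z - x0⟫| := by
  have hx : x0 ∈ C := interior_subset hx0
  have hcont : Continuous fun x : EuclideanSpace ℝ (Fin d) => ⟪a, x⟫ := by fun_prop
  obtain ⟨p, hp, hpm⟩ := hc.exists_isMaxOn ⟨x0, hx⟩ hcont.continuousOn
  obtain ⟨q, hq, hqm⟩ := hc.exists_isMinOn ⟨x0, hx⟩ hcont.continuousOn
  have hp' : ∀ x ∈ C, ⟪a, x⟫ ≤ ⟪a, p⟫ := fun x hx => hpm hx
  have hq' : ∀ x ∈ C, ⟪a, q⟫ ≤ ⟪a, x⟫ := fun x hx => hqm hx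
  have hlt : ⟪a, x0⟫ < ⟪a, p⟫ := by
    obtain ⟨δ, hδ, hball⟩ := Metric.mem_nhds_iff.1 (mem_interior_iff_mem_nhds.1 hx0)
    have hna : 0 < ‖a‖ := norm_pos_iff.2 ha
    have hmem : x0 + (δ / (2 * ‖a‖)) • a ∈ C := by
      apply hball
      rw [Metric.mem_ball, dist_eq_norm, add_sub_cancel_left, norm_smul, Real.norm_eq_abs,
        abs_of_pos (by positivity)]
      have : δ / (2 * ‖a‖) * ‖a‖ = δ / 2 := by field_simp
      linarith
    have h1 := hp' _ hmem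
    rw [inner_add_right, inner_smul_right, real_inner_self_eq_norm_sq] at h1
    have : 0 < δ / (2 * ‖a‖) * ‖a‖ ^ 2 := by positivity
    linarith
  have hq0 := hq' x0 hx
  by_cases h : ⟪a, x0⟫ - ⟪a, q⟫ ≤ ⟪a, p⟫ - ⟪a, x0⟫
  · refine ⟨⟪a, q⟫, ⟪a, p⟫, p, hp, fun x hx => ⟨hq' x hx, hp' x hx⟩, ?_, ?_⟩
    · rw [inner_sub_right]
      exact (sub_pos.2 hlt).ne'
    · rw [inner_sub_right, abs_of_pos (by linarith)]; linarith
  · push Not at h
    refine ⟨⟪a, q⟫, ⟪a, p⟫, q, hq, fun x hx => ⟨hq' x hx, hp' x hx⟩, ?_, ?_⟩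
    · rw [inner_sub_right]
      have : ⟪a, q⟫ - ⟪a, x0⟫ < 0 := by linarith
      exact this.ne
    · rw [inner_sub_right, abs_of_neg (by linarith)]; linarith

theorem body_thm {ε : ℝ} (hε : 0 < ε) : ∃ c : ℝ, 0 < c ∧ ∀ (d : ℕ)
    (C : Set (EuclideanSpace ℝ (Fin d))), IsCompact C → Convex ℝ C → (interior C).Nonempty →
    ∀ (m : ℕ) (a : Fin m → EuclideanSpace ℝ (Fin d)) (b : Fin m → ℝ), (∀ i, a i ≠ 0) →
      ∃ (σ : Fin m → Bool) (t : EuclideanSpace ℝ (Fin d)), ∀ x ∈ C,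
        t + (c / ((m : ℝ) + 1) ^ (1 + ε)) • x ∈ C ∧ ∀ i : Fin m,
          (σ i = true → ⟪a i, t + (c / ((m : ℝ) + 1) ^ (1 + ε)) • x⟫ ≤ b i) ∧
          (σ i = false → b i ≤ ⟪a i, t + (c / ((m : ℝ) + 1) ^ (1 + ε)) • x⟫) := by
  obtain ⟨K, hK, h⟩ := matrix_thm hε
  refine ⟨1 / (K + 1), by positivity, fun d C hc hconv ⟨x0, hx0⟩ m a b ha => ?_⟩
  have hx : x0 ∈ C := interior_subset hx0
  choose lo hi z hz hb hne hw using fun i => far_point hc hx0 (ha i)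
  obtain ⟨P, hP⟩ : ∃ P, P = ((m : ℝ) + 1) ^ (1 + ε) := ⟨_, rfl⟩
  have hP1 : 1 ≤ P := by
    rw [hP]
    exact Real.one_le_rpow (by linarith [(Nat.cast_nonneg m : (0 : ℝ) ≤ m)]) (by linarith)
  rw [← hP]
  obtain ⟨r, hr⟩ : ∃ r, r = 1 / (K + 1) / P := ⟨_, rfl⟩
  rw [← hr]
  have hr0 : 0 < r := by rw [hr]; positivity
  obtain ⟨N, hN⟩ : ∃ N, N = K * P := ⟨_, rfl⟩
  have hN0 : 0 < N := by rw [hN]; positivity
  have hrN : r * (N + 1) ≤ 1 := by
    rw [hr, hN, div_div, div_mul_eq_mul_div, one_mul, div_le_one (by positivity)]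
    nlinarith
  have hr1 : r < 1 := by nlinarith
  obtain ⟨δ, hδ⟩ : ∃ δ : Fin m → ℝ, δ = fun i => ⟪a i, z i - x0⟫ := ⟨_, rfl⟩
  have hδ0 : ∀ i, δ i ≠ 0 := fun i => by rw [hδ]; exact hne i
  obtain ⟨ν, hν0, hνs, hν⟩ := h m (fun i j => ⟪a i, z j - x0⟫ / δ i)
    (fun i => by rw [hδ]; exact div_self (hne i))
    (fun i => (b i - (1 - r) * ⟪a i, x0⟫ - r * ((hi i + lo i) / 2)) * N / ((1 - r) * δ i))
  rw [← hP, ← hN] at hνs
  obtain ⟨y, hy⟩ : ∃ y, y = x0 + ∑ j, (ν j / N) • (z j - x0) := ⟨_, rfl⟩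
  have hyC : y ∈ C := by
    have e : y = (1 - ∑ j, ν j / N) • x0 + ∑ j, (ν j / N) • z j := by
      rw [hy]
      simp only [smul_sub, Finset.sum_sub_distrib, ← Finset.sum_smul, sub_smul, one_smul]
      abel
    have hs : ∑ j, ν j / N ≤ 1 := by
      rw [← Finset.sum_div, div_le_one hN0]; exact hνs
    have := hconv.sum_mem (t := (Finset.univ : Finset (Option (Fin m))))
      (w := fun o => o.elim (1 - ∑ j, ν j / N) fun j => ν j / N) (z := fun o => o.elim x0 z)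
      (fun o _ => by
        cases o with
        | none => simpa using hs
        | some j => exact div_nonneg (hν0 j) hN0.le)
      (by simp [Fintype.sum_option])
      (fun o _ => by
        cases o with
        | none => exact hx
        | some j => exact hz j)
    rw [e]
    simpa [Fintype.sum_option] using this
  have key : ∀ i, r * ((hi i - lo i) / 2) ≤
      |(1 - r) * ⟪a i, y⟫ + r * ((hi i + lo i) / 2) - b i| := by
    intro i
    have h1 := hν i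
    have e : (1 - r) * ⟪a i, y⟫ + r * ((hi i + lo i) / 2) - b i = ((1 - r) * δ i / N) *
        (∑ j, ⟪a i, z j - x0⟫ / δ i * ν j -
          (b i - (1 - r) * ⟪a i, x0⟫ - r * ((hi i + lo i) / 2)) * N / ((1 - r) * δ i)) := by
      have e1 : ∑ j, ⟪a i, z j - x0⟫ / δ i * ν j = (∑ j, ν j / N * ⟪a i, z j - x0⟫) * N / δ i := by
        rw [Finset.sum_mul, Finset.sum_div]
        refine Finset.sum_congr rfl fun j _ => ?_
        field_simp
      have h2 : (1 - r) ≠ 0 := by linarith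
      have h3 := hδ0 i
      rw [e1, hy, inner_add_right, inner_sum]
      simp only [inner_smul_right]
      field_simp
      ring
    rw [e, abs_mul, abs_div, abs_mul, abs_of_pos hN0, abs_of_pos (by linarith : 0 < 1 - r)]
    have h4 : hi i - lo i ≤ 2 * |δ i| := by rw [hδ]; exact hw i
    have h5 : r * |δ i| ≤ (1 - r) * |δ i| / N := by
      rw [le_div_iff₀ hN0]
      nlinarith [abs_nonneg (δ i)]
    have h6 : 0 ≤ (1 - r) * |δ i| / N := by
      have : 0 < 1 - r := by linarith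
      positivity
    nlinarith
  refine ⟨fun i => decide ((1 - r) * ⟪a i, y⟫ + r * ((hi i + lo i) / 2) - b i ≤ 0),
    (1 - r) • y, fun x hxC => ⟨hconv hyC hxC (by linarith) hr0.le (by ring), fun i => ?_⟩⟩
  have e : ⟪a i, (1 - r) • y + r • x⟫ = (1 - r) * ⟪a i, y⟫ + r * ⟪a i, x⟫ := by
    rw [inner_add_right, inner_smul_right, inner_smul_right]
  obtain ⟨b1, b2⟩ := hb i x hxC
  have k := key i
  rw [e]
  refine ⟨fun hs => ?_, fun hs => ?_⟩
  · rw [decide_eq_true_iff] at hs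
    rw [abs_of_nonpos hs] at k
    nlinarith
  · rw [decide_eq_false_iff_not, not_le] at hs
    rw [abs_of_pos hs] at k
    nlinarith

end Pool.Agent.Lib.MP_70b2ae_gt.H8
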