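import Mathlib

namespace Pool.Agent.Lib.MP_70b2ae_gt.H8

open Finset
open scoped RealInnerProductSpace

variable {E : Type*} [NormedAddCommGroup E] [InnerProductSpace ℝ E] [FiniteDimensional ℝ E]
variable {I : Type*}

/-- Orthogonal projection onto a subspace. -/
noncomputable def pr (F : Submodule ℝ E) (x : E) : E := F.starProjection x

theorem pr_mem (F : Submodule ℝ E) (x : E) : pr F x ∈ F := F.starProjection_apply_mem x

theorem inner_pr {F : Submodule ℝ E} (x : E) {w : E} (hw : w ∈ F) : ⟪pr F x, w⟫ = ⟪x, w⟫ := by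
  have h := (Submodule.mem_orthogonal' _ _).1 (F.sub_starProjection_mem_orthogonal x) w hw
  rw [inner_sub_left] at h
  unfold pr
  linarith

theorem pr_unique {F : Submodule ℝ E} {x u : E} (hu : u ∈ F) (h : ∀ w ∈ F, ⟪x, w⟫ = ⟪u, w⟫) :
    pr F x = u :=
  Submodule.eq_starProjection_of_mem_of_inner_eq_zero hu fun w hw => by
    rw [inner_sub_left, h w hw, sub_self]

theorem norm_pr_le (F : Submodule ℝ E) (x : E) : ‖pr F x‖ ≤ ‖x‖ := F.norm_starProjection_apply_le x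

theorem norm_le_pr {F : Submodule ℝ E} {x u : E} (hu : u ∈ F) (h : ‖u‖ ^ 2 ≤ ⟪x, u⟫) :
    ‖u‖ ≤ ‖pr F x‖ := by
  rw [← inner_pr x hu] at h
  have h2 := real_inner_le_norm (pr F x) u
  by_contra hc
  push Not at hc
  have := norm_nonneg (pr F x)
  nlinarith

theorem norm_pr_mono {F G : Submodule ℝ E} (h : G ≤ F) (x : E) : ‖pr G x‖ ≤ ‖pr F x‖ :=
  norm_le_pr (h (pr_mem G x)) (by rw [← inner_pr x (pr_mem G x), real_inner_self_eq_norm_sq])

theorem split (v : I → E) (R : Finset I) {B : ℝ} (hB : 0 ≤ B) (F : Submodule ℝ E) :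
    ∃ G : Submodule ℝ E, G ≤ F ∧ (∀ w ∈ G, ∑ i ∈ R, ⟪v i, w⟫ ^ 2 ≤ B * ‖w‖ ^ 2) ∧
      B * ∑ i ∈ R, (‖pr F (v i)‖ ^ 2 - ‖pr G (v i)‖ ^ 2) ≤
        ∑ i ∈ R, ∑ k ∈ R, ⟪pr F (v i), pr F (v k)⟫ ^ 2
          - ∑ i ∈ R, ∑ k ∈ R, ⟪pr G (v i), pr G (v k)⟫ ^ 2 := by
  induction hn : Module.finrank ℝ F using Nat.strong_induction_on generalizing F with
  | _ n ih =>
  by_cases h : ∀ w ∈ F, ∑ i ∈ R, ⟪v i, w⟫ ^ 2 ≤ B * ‖w‖ ^ 2
  · exact ⟨F, le_rfl, h, by simp⟩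
  push Not at h
  obtain ⟨w, hw, hlt⟩ := h
  have hw0 : w ≠ 0 := by
    rintro rfl
    simp at hlt
  have hn0 : 0 < ‖w‖ := norm_pos_iff.2 hw0
  obtain ⟨u, hu⟩ : ∃ u, u = (‖w‖⁻¹ : ℝ) • w := ⟨_, rfl⟩
  have huF : u ∈ F := hu ▸ F.smul_mem _ hw
  have huu : ⟪u, u⟫ = 1 := by
    rw [real_inner_self_eq_norm_sq, hu, norm_smul, norm_inv, norm_norm, inv_mul_cancel₀ hn0.ne']
    ring
  have hq : B < ∑ i ∈ R, ⟪v i, u⟫ ^ 2 := by
    have e : ∑ i ∈ R, ⟪v i, u⟫ ^ 2 = (∑ i ∈ R, ⟪v i, w⟫ ^ 2) / ‖w‖ ^ 2 := by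
      rw [Finset.sum_div]
      refine Finset.sum_congr rfl fun i _ => ?_
      rw [hu, real_inner_smul_right]
      field_simp
    rw [e, lt_div_iff₀ (by positivity)]
    exact hlt
  obtain ⟨F1, hF1⟩ : ∃ F1 : Submodule ℝ E, F1 = F ⊓ (ℝ ∙ u)ᗮ := ⟨_, rfl⟩
  have mem1 : ∀ x, x ∈ F1 ↔ x ∈ F ∧ ⟪u, x⟫ = 0 := fun x => by
    rw [hF1, Submodule.mem_inf, Submodule.mem_orthogonal_singleton_iff_inner_right]
  have hle : F1 ≤ F := fun x hx => ((mem1 x).1 hx).1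
  have hlt1 : F1 < F := lt_of_le_of_ne hle fun he => by
    have := ((mem1 u).1 (he ▸ huF)).2
    rw [huu] at this
    exact one_ne_zero this
  obtain ⟨G, g1, g2, g3⟩ := ih _ (hn ▸ Submodule.finrank_lt_finrank_of_lt hlt1) F1 rfl
  refine ⟨G, g1.trans hle, g2, ?_⟩
  have dec : ∀ x, pr F x = pr F1 x + ⟪x, u⟫ • u := fun x => by
    have : pr F1 x = pr F x - ⟪x, u⟫ • u := by
      refine pr_unique ((mem1 _).2 ⟨F.sub_mem (pr_mem F x) (F.smul_mem _ huF), ?_⟩) fun z hz => ?_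
      · rw [inner_sub_right, real_inner_smul_right, huu, real_inner_comm, inner_pr x huF]
        ring
      · rw [inner_sub_left, real_inner_smul_left, ((mem1 z).1 hz).2, inner_pr x ((mem1 z).1 hz).1]
        ring
    rw [this]
    abel
  have orth : ∀ x, ⟪u, pr F1 x⟫ = 0 := fun x => ((mem1 _).1 (pr_mem F1 x)).2
  have gram : ∀ x z, ⟪pr F x, pr F z⟫ = ⟪pr F1 x, pr F1 z⟫ + ⟪x, u⟫ * ⟪z, u⟫ := fun x z => by
    rw [dec x, dec z, inner_add_left, inner_add_right, inner_add_right, real_inner_smul_right,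
      real_inner_smul_left, real_inner_smul_left, real_inner_smul_right, huu, orth,
      real_inner_comm u (pr F1 x), orth]
    ring
  have e1 : ∑ i ∈ R, (‖pr F (v i)‖ ^ 2 - ‖pr G (v i)‖ ^ 2)
      = ∑ i ∈ R, (‖pr F1 (v i)‖ ^ 2 - ‖pr G (v i)‖ ^ 2) + ∑ i ∈ R, ⟪v i, u⟫ ^ 2 := by
    rw [← Finset.sum_add_distrib]
    refine Finset.sum_congr rfl fun i _ => ?_
    rw [← real_inner_self_eq_norm_sq (pr F (v i)), ← real_inner_self_eq_norm_sq (pr F1 (v i)), gram]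
    ring
  have e2 : ∑ i ∈ R, ∑ k ∈ R, ⟪pr F (v i), pr F (v k)⟫ ^ 2
      = ∑ i ∈ R, ∑ k ∈ R, ⟪pr F1 (v i), pr F1 (v k)⟫ ^ 2
        + 2 * ‖∑ i ∈ R, ⟪v i, u⟫ • pr F1 (v i)‖ ^ 2 + (∑ i ∈ R, ⟪v i, u⟫ ^ 2) ^ 2 := by
    rw [← real_inner_self_eq_norm_sq, sum_inner, sq (∑ i ∈ R, ⟪v i, u⟫ ^ 2), Finset.sum_mul_sum,
      Finset.mul_sum, ← Finset.sum_add_distrib, ← Finset.sum_add_distrib]
    refine Finset.sum_congr rfl fun i _ => ?_
    rw [inner_sum, Finset.mul_sum, ← Finset.sum_add_distrib, ← Finset.sum_add_distrib]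
    refine Finset.sum_congr rfl fun k _ => ?_
    rw [gram, real_inner_smul_left, real_inner_smul_right]
    ring
  rw [e1, e2]
  nlinarith [sq_nonneg ‖∑ i ∈ R, ⟪v i, u⟫ • pr F1 (v i)‖]

theorem degenerate [DecidableEq I] (G : I → I → ℝ) (hs : ∀ i k, G i k = G k i)
    (h0 : ∀ i k, 0 ≤ G i k) {B : ℝ} (R : Finset I)
    (h : ∀ S ⊆ R, S.Nonempty → ∃ i ∈ S, ∑ k ∈ S, G i k < B) :
    ∑ i ∈ R, ∑ k ∈ R, G i k ≤ 2 * B * R.card := by
  induction R using Finset.strongInduction with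
  | H R ih =>
  rcases R.eq_empty_or_nonempty with rfl | hR
  · simp
  obtain ⟨i, hi, hlt⟩ := h R le_rfl hR
  have h1 := ih (R.erase i) (Finset.erase_ssubset hi) fun S hS =>
    h S (hS.trans (Finset.erase_subset _ _))
  have e1 : ∑ j ∈ R, ∑ k ∈ R, G j k
      = ∑ k ∈ R, G i k + (∑ j ∈ R.erase i, G i j + ∑ j ∈ R.erase i, ∑ k ∈ R.erase i, G j k) := by
    rw [← Finset.add_sum_erase R _ hi, ← Finset.sum_add_distrib]
    congr 1
    refine Finset.sum_congr rfl fun j _ => ?_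
    rw [← Finset.add_sum_erase R _ hi, hs j i]
  have e2 := Finset.add_sum_erase R (G i) hi
  have e3 : (R.card : ℝ) = (R.erase i).card + 1 := by
    exact_mod_cast (Finset.card_erase_add_one hi).symm
  rw [e1, e3]
  linarith [h0 i i]

theorem levels [DecidableEq I] (v : I → E) (F : Submodule ℝ E) {μ B : ℝ} (hμ : 0 < μ) (hB : 0 < B)
    (L : ℕ) : ∀ R : Finset I, R.card < 2 ^ L → (∀ i ∈ R, μ ≤ ‖pr F (v i)‖ ^ 2) →
      (∀ S ⊆ R, S.Nonempty → ∃ i ∈ S, ∑ k ∈ S, ⟪pr F (v i), pr F (v k)⟫ ^ 2 < B) →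
      ∃ (G : ℕ → Submodule ℝ E) (lev : I → ℕ), (∀ l, G l ≤ F) ∧ (∀ i ∈ R, lev i < L) ∧
        (∀ i ∈ R, μ / 2 ≤ ‖pr (G (lev i)) (v i)‖ ^ 2) ∧
        ∀ l, ∀ w ∈ G l, ∑ i ∈ R.filter (fun i => lev i = l), ⟪v i, w⟫ ^ 2 ≤ 8 * B / μ * ‖w‖ ^ 2 := by
  induction L with
  | zero =>
    intro R hR _ _
    have : R = ∅ := Finset.card_eq_zero.1 (by simpa using hR)
    subst this
    exact ⟨fun _ => F, fun _ => 0, fun _ => le_rfl, by simp, by simp, fun l w _ => by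
      simp only [Finset.filter_empty, Finset.sum_empty]; positivity⟩
  | succ L ih =>
    intro R hR hm hc
    obtain ⟨G0, g1, g2, g3⟩ := split v R (B := 8 * B / μ) (by positivity) F
    have hdeg := degenerate (fun i k => ⟪pr F (v i), pr F (v k)⟫ ^ 2)
      (fun i k => by rw [real_inner_comm]) (fun i k => sq_nonneg _) R hc
    obtain ⟨R1, hR1⟩ : ∃ R1, R1 = R.filter (fun i => ‖pr G0 (v i)‖ ^ 2 < μ / 2) := ⟨_, rfl⟩
    have hsub : R1 ⊆ R := hR1 ▸ Finset.filter_subset _ _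
    have hcard : R1.card < 2 ^ L := by
      have h1 : (R1.card : ℝ) * (μ / 2) ≤ ∑ i ∈ R, (‖pr F (v i)‖ ^ 2 - ‖pr G0 (v i)‖ ^ 2) := by
        refine le_trans ?_ (Finset.sum_le_sum_of_subset_of_nonneg hsub fun i _ _ => ?_)
        · rw [← nsmul_eq_mul]
          refine Finset.card_nsmul_le_sum _ _ _ fun i hi => ?_
          have h2 := hm i (hsub hi)
          rw [hR1, Finset.mem_filter] at hi
          linarith [hi.2]
        · exact sub_nonneg.2 (pow_le_pow_left₀ (norm_nonneg _) (norm_pr_mono g1 _) 2)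
      have h2 : 0 ≤ ∑ i ∈ R, ∑ k ∈ R, ⟪pr G0 (v i), pr G0 (v k)⟫ ^ 2 := by positivity
      have h3 := mul_le_mul_of_nonneg_left h1 (show 0 ≤ 8 * B / μ by positivity)
      have e : 8 * B / μ * (R1.card * (μ / 2)) = 2 * B * (2 * R1.card) := by field_simp; ring
      have h4 : 2 * B * (2 * R1.card) ≤ 2 * B * R.card := by linarith
      have h5 : (2 * R1.card : ℝ) ≤ R.card := le_of_mul_le_mul_left h4 (by positivity)
      have h6 : 2 * R1.card ≤ R.card := by exact_mod_cast h5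
      rw [pow_succ] at hR
      omega
    obtain ⟨G, lev, a1, a2, a3, a4⟩ := ih R1 hcard (fun i hi => hm i (hsub hi))
      fun S hS => hc S (hS.trans hsub)
    refine ⟨fun l => Nat.casesOn l G0 G, fun i => if i ∈ R1 then lev i + 1 else 0, ?_, ?_, ?_, ?_⟩
    · intro l
      cases l with
      | zero => exact g1
      | succ l => exact a1 l
    · intro i _
      dsimp only
      split_ifs with h
      · exact Nat.succ_lt_succ (a2 i h)
      · exact Nat.succ_pos _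
    · intro i hi
      dsimp only
      split_ifs with h
      · exact a3 i h
      · rw [hR1, Finset.mem_filter] at h
        by_contra hc2
        exact h ⟨hi, lt_of_not_ge hc2⟩
    · intro l w hw
      cases l with
      | zero =>
        exact le_trans (Finset.sum_le_sum_of_subset_of_nonneg (Finset.filter_subset _ _)
          fun i _ _ => sq_nonneg _) (g2 w hw)
      | succ l =>
        refine le_trans (Finset.sum_le_sum_of_subset_of_nonneg (fun i hi => ?_)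
          fun i _ _ => sq_nonneg _) (a4 l w hw)
        rw [Finset.mem_filter] at hi ⊢
        have h2 := hi.2
        dsimp only at h2
        split_ifs at h2 with h
        exact ⟨h, by omega⟩

end Pool.Agent.Lib.MP_70b2ae_gt.H8
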