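import Mathlib

namespace Pool.Agent.Lib.MP_70b2ae_gt.H8

open Finset
open scoped RealInnerProductSpace

/-- Truncation of `y` to the interval `[-r, r]`. -/
noncomputable def clamp (r y : ℝ) : ℝ := max (-r) (min r y)

/-- The Huber function. -/
noncomputable def hub (r y : ℝ) : ℝ := clamp r y * y - clamp r y ^ 2 / 2

theorem abs_clamp_le {r : ℝ} (hr : 0 ≤ r) (y : ℝ) : |clamp r y| ≤ r := by
  unfold clamp
  rw [abs_le]
  exact ⟨le_max_left _ _, max_le (by linarith) (min_le_left _ _)⟩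

theorem clamp_of_le {r y : ℝ} (h : |y| ≤ r) : clamp r y = y := by
  unfold clamp
  obtain ⟨h1, h2⟩ := abs_le.1 h
  rw [min_eq_right h2, max_eq_right h1]

theorem hub_ge {r s : ℝ} (hs : |s| ≤ r) (y : ℝ) : s * y - s ^ 2 / 2 ≤ hub r y := by
  obtain ⟨h1, h2⟩ := abs_le.1 hs
  unfold hub clamp
  rcases le_total r y with h | h
  · rw [min_eq_left h, max_eq_right (by linarith)]
    nlinarith [mul_nonneg (sub_nonneg.2 h2) (sub_nonneg.2 h), sq_nonneg (r - s)]
  · rw [min_eq_right h]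
    rcases le_total (-r) y with h' | h'
    · rw [max_eq_right h']
      nlinarith [sq_nonneg (y - s)]
    · rw [max_eq_left h']
      nlinarith [mul_nonneg (sub_nonneg.2 h1) (sub_nonneg.2 h'), sq_nonneg (r + s)]

theorem hub_step {r : ℝ} (hr : 0 ≤ r) (y h : ℝ) : hub r y + clamp r y * h ≤ hub r (y + h) := by
  have := hub_ge (abs_clamp_le hr y) (y + h)
  unfold hub at this ⊢
  linarith

theorem hub_step_in {r y h : ℝ} (h1 : |y| ≤ r) (h2 : |y + h| ≤ r) :
    hub r y + clamp r y * h + h ^ 2 / 2 = hub r (y + h) := by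
  unfold hub
  rw [clamp_of_le h1, clamp_of_le h2]
  ring

theorem hub_lip {r : ℝ} (hr : 0 ≤ r) (y h : ℝ) : hub r (y + h) - hub r y ≤ r * |h| := by
  have h1 := hub_ge (abs_clamp_le hr (y + h)) y
  have h2 : clamp r (y + h) * h ≤ r * |h| := by
    refine (le_abs_self _).trans ?_
    rw [abs_mul]
    exact mul_le_mul_of_nonneg_right (abs_clamp_le hr _) (abs_nonneg _)
  unfold hub at h1 ⊢
  linarith

theorem sign_choice {τ : Type*} [Fintype τ] (X Xp Xm c : τ → ℝ)
    (hp : ∀ t, Xp t ≤ X t + c t - c t ^ 2 / 2) (hm : ∀ t, Xm t ≤ X t - c t - c t ^ 2 / 2) :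
    ∑ t, Real.exp (Xp t) ≤ ∑ t, Real.exp (X t) ∨ ∑ t, Real.exp (Xm t) ≤ ∑ t, Real.exp (X t) := by
  have key : ∀ t, Real.exp (Xp t) + Real.exp (Xm t) ≤ 2 * Real.exp (X t) := fun t => by
    have h1 := Real.exp_le_exp.2 (hp t)
    have h2 := Real.exp_le_exp.2 (hm t)
    have h3 := Real.cosh_le_exp_half_sq (c t)
    rw [Real.cosh_eq] at h3
    have e1 : Real.exp (X t + c t - c t ^ 2 / 2)
        = Real.exp (X t - c t ^ 2 / 2) * Real.exp (c t) := by
      rw [← Real.exp_add]; congr 1; ring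
    have e2 : Real.exp (X t - c t - c t ^ 2 / 2)
        = Real.exp (X t - c t ^ 2 / 2) * Real.exp (-c t) := by
      rw [← Real.exp_add]; congr 1; ring
    have e3 : Real.exp (X t) = Real.exp (X t - c t ^ 2 / 2) * Real.exp (c t ^ 2 / 2) := by
      rw [← Real.exp_add]; congr 1; ring
    have h4 := Real.exp_pos (X t - c t ^ 2 / 2)
    rw [e1] at h1
    rw [e2] at h2
    rw [e3]
    nlinarith
  have h := Finset.sum_le_sum (s := Finset.univ) fun t _ => key t
  rw [Finset.sum_add_distrib, ← Finset.mul_sum] at h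
  by_contra hc
  push Not at hc
  linarith [hc.1, hc.2]

variable {E : Type*} [NormedAddCommGroup E] [InnerProductSpace ℝ E]
variable {I J : Type*} [Fintype I] [Fintype J] [DecidableEq I]

/-- Accumulated variance seen by the vector `u`. -/
noncomputable def Var (d : I → E) (u : E) (t : I → ℝ) : ℝ := ∑ k, t k * ⟪u, d k⟫ ^ 2

/-- The exponents of the potential. -/
noncomputable def expo (v d : I → E) (U : J → E) (Y : I → ℝ) (β β' r : ℝ) (W : E)
    (t A : I → ℝ) : J ⊕ I → ℝ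
  | Sum.inl j => β * ⟪U j, W⟫ - β ^ 2 / 2 * Var d (U j) t
  | Sum.inr i => β' * (A i / 2 - hub r (Y i + ⟪v i, W⟫) + hub r (Y i))
      - β' ^ 2 * r ^ 2 / 2 * Var d (v i) t

/-- The potential. -/
noncomputable def pot (v d : I → E) (U : J → E) (Y : I → ℝ) (β β' r : ℝ) (W : E)
    (t A : I → ℝ) : ℝ := ∑ x, Real.exp (expo v d U Y β β' r W t A x)

theorem Var_add (d : I → E) (u : E) (t : I → ℝ) (k : I) (e : ℝ) :
    Var d u (fun i => t i + if i = k then e else 0) = Var d u t + e * ⟪u, d k⟫ ^ 2 := by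
  unfold Var
  simp only [add_mul, Finset.sum_add_distrib, ite_mul, zero_mul, Finset.sum_ite_eq',
    Finset.mem_univ, if_true]

theorem one_step (v d : I → E) (U : J → E) (Y : I → ℝ) {β β' r η : ℝ} (hr : 0 ≤ r)
    (hβ' : 0 ≤ β') (hη : 0 ≤ η) (h1 : ∀ i k, |⟪v i, d k⟫| ≤ 1) (W : E) (t A : I → ℝ) (k : I) :
    ∃ s : ℝ, |s| = η ∧ ∃ A' : I → ℝ, (∀ i, A i ≤ A' i) ∧
      (∀ i, |Y i + ⟪v i, W⟫| ≤ r - η → A i + η ^ 2 * ⟪v i, d k⟫ ^ 2 ≤ A' i) ∧
      pot v d U Y β β' r (W + s • d k) (fun i => t i + if i = k then η ^ 2 else 0) A'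
        ≤ pot v d U Y β β' r W t A := by
  classical
  let A' : I → ℝ := fun i =>
    A i + if |Y i + ⟪v i, W⟫| ≤ r - η then η ^ 2 * ⟪v i, d k⟫ ^ 2 else 0
  let c : J ⊕ I → ℝ := Sum.elim (fun j => β * η * ⟪U j, d k⟫)
    (fun i => -(β' * clamp r (Y i + ⟪v i, W⟫) * η * ⟪v i, d k⟫))
  have key : ∀ s : ℝ, |s| = η → ∀ σ : ℝ, s = σ * η → σ ^ 2 = 1 → ∀ x,
      expo v d U Y β β' r (W + s • d k) (fun i => t i + if i = k then η ^ 2 else 0) A' x
        ≤ expo v d U Y β β' r W t A x + σ * c x - c x ^ 2 / 2 := by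
    intro s hs σ hσ hσ2 x
    rcases x with j | i
    · simp only [expo, Var_add, c, Sum.elim_inl, inner_add_right, real_inner_smul_right]
      rw [hσ]
      apply le_of_eq
      ring
    · simp only [expo, Var_add, c, Sum.elim_inr, inner_add_right, real_inner_smul_right, A']
      set y := Y i + ⟪v i, W⟫ with hy
      set p := ⟪v i, d k⟫ with hp
      have hc := abs_clamp_le hr y
      have hc2 : clamp r y ^ 2 ≤ r ^ 2 := by
        rw [← sq_abs]; exact pow_le_pow_left₀ (abs_nonneg _) hc 2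
      have e1 : Y i + (⟪v i, W⟫ + s * p) = y + s * p := by rw [hy]; ring
      rw [e1]
      have hq : (β' * η * p) ^ 2 * clamp r y ^ 2 ≤ (β' * η * p) ^ 2 * r ^ 2 :=
        mul_le_mul_of_nonneg_left hc2 (sq_nonneg _)
      have hs2 : s ^ 2 = η ^ 2 := by rw [← sq_abs, hs]
      have main : (if |y| ≤ r - η then η ^ 2 * p ^ 2 else 0) / 2 + hub r y + clamp r y * (s * p)
          ≤ hub r (y + s * p) := by
        split_ifs with h
        · have hsp : |s * p| ≤ η := by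
            rw [abs_mul, hs]
            exact mul_le_of_le_one_right hη (h1 i k)
          have h2 : |y + s * p| ≤ r := (abs_add_le _ _).trans (by linarith)
          rw [← hub_step_in (by linarith) h2, mul_pow, hs2]
          linarith
        · have := hub_step hr y (s * p)
          linarith
      have := mul_le_mul_of_nonneg_left main hβ'
      rw [hσ] at this ⊢
      nlinarith
  have hA : ∀ i, A i ≤ A' i := fun i => by
    simp only [A']
    split_ifs
    · nlinarith [mul_nonneg (sq_nonneg η) (sq_nonneg ⟪v i, d k⟫)]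
    · simp
  have hA2 : ∀ i, |Y i + ⟪v i, W⟫| ≤ r - η → A i + η ^ 2 * ⟪v i, d k⟫ ^ 2 ≤ A' i := fun i h => by
    simp only [A', if_pos h, le_refl]
  have hp := key η (abs_of_nonneg hη) 1 (by ring) (by ring)
  have hm := key (-η) (by rw [abs_neg, abs_of_nonneg hη]) (-1) (by ring) (by ring)
  rcases sign_choice (expo v d U Y β β' r W t A) _ _ c (fun x => by simpa using hp x)
    (fun x => (hm x).trans (le_of_eq (by ring))) with h | h
  · exact ⟨η, abs_of_nonneg hη, A', hA, hA2, h⟩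
  · exact ⟨-η, by rw [abs_neg, abs_of_nonneg hη], A', hA, hA2, h⟩

theorem one_round (v d : I → E) (U : J → E) (Y : I → ℝ) {β β' ρ η : ℝ} (hρ : 0 ≤ ρ)
    (hβ' : 0 ≤ β') (hη : 0 ≤ η) (hηρ : η * (Fintype.card I + 1) ≤ ρ)
    (h1 : ∀ i k, |⟪v i, d k⟫| ≤ 1) (W : E) (t A : I → ℝ) (S : Finset I) :
    ∃ W' : E, ∃ A' : I → ℝ, (∀ i, |⟪v i, W' - W⟫| ≤ η * S.card) ∧ (∀ i, A i ≤ A' i) ∧
      (∀ i, |Y i + ⟪v i, W⟫| ≤ ρ → A i + η ^ 2 * ∑ k ∈ S, ⟪v i, d k⟫ ^ 2 ≤ A' i) ∧
      pot v d U Y β β' (2 * ρ) W' (fun i => t i + if i ∈ S then η ^ 2 else 0) A'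
        ≤ pot v d U Y β β' (2 * ρ) W t A := by
  induction S using Finset.induction_on with
  | empty => exact ⟨W, A, by simp, by simp, by simp, by simp⟩
  | insert k S hk ih =>
    obtain ⟨W1, A1, b1, b2, b3, b4⟩ := ih
    obtain ⟨s, hs, A2, c1, c2, c3⟩ := one_step v d U Y (β := β) (r := 2 * ρ) (by linarith) hβ' hη h1
      W1 (fun i => t i + if i ∈ S then η ^ 2 else 0) A1 k
    refine ⟨W1 + s • d k, A2, fun i => ?_, fun i => (b2 i).trans (c1 i), fun i hi => ?_, ?_⟩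
    · have e : W1 + s • d k - W = (W1 - W) + s • d k := by abel
      rw [e, inner_add_right, real_inner_smul_right, Finset.card_insert_of_notMem hk]
      have h2 : |s * ⟪v i, d k⟫| ≤ η := by
        rw [abs_mul, hs]
        exact mul_le_of_le_one_right hη (h1 i k)
      push_cast
      linarith [abs_add_le ⟪v i, W1 - W⟫ (s * ⟪v i, d k⟫), b1 i]
    · have hS : (S.card : ℝ) ≤ Fintype.card I := by exact_mod_cast Finset.card_le_univ S
      have e : Y i + ⟪v i, W1⟫ = (Y i + ⟪v i, W⟫) + ⟪v i, W1 - W⟫ := by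
        rw [inner_sub_right]; ring
      have h3 : |Y i + ⟪v i, W1⟫| ≤ 2 * ρ - η := by
        rw [e]
        have := mul_le_mul_of_nonneg_left hS hη
        linarith [abs_add_le (Y i + ⟪v i, W⟫) ⟪v i, W1 - W⟫, b1 i]
      rw [Finset.sum_insert hk]
      linarith [c2 i h3, b3 i hi]
    · refine le_trans (le_of_eq ?_) (c3.trans b4)
      congr 1
      funext i
      by_cases h : i = k
      · subst h
        simp [hk]
      · simp [h]

theorem phase (v d : I → E) (U : J → E) (Y : I → ℝ) {D ρ a g : ℝ} (hD : 0 < D) (hρ : 0 < ρ)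
    (ha : 0 < a) (hg : 0 < g) (hcard : (Fintype.card J + Fintype.card I : ℝ) ≤ Real.exp g)
    (h1 : ∀ i k, |⟪v i, d k⟫| ≤ 1) (hU : ∀ j, ∑ k, ⟪U j, d k⟫ ^ 2 ≤ D)
    (hv : ∀ i, ∑ k, ⟪v i, d k⟫ ^ 2 ≤ D)
    (hUv : ∀ W : E, (∀ j, ⟪U j, W⟫ ≤ a) → ∀ i, |⟪v i, W⟫| ≤ a) :
    ∃ W : E, (∀ j, ⟪U j, W⟫ ≤ a) ∧ ∀ S : Finset I, S.Nonempty →
      (∀ i ∈ S, |Y i + ⟪v i, W⟫| ≤ ρ) → ∃ i ∈ S, ∑ k ∈ S, ⟪v i, d k⟫ ^ 2 < 32 * g * ρ * D / a := by
  obtain ⟨B, hB⟩ : ∃ B, B = 32 * g * ρ * D / a := ⟨_, rfl⟩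
  rw [← hB]
  have hB0 : 0 < B := by rw [hB]; positivity
  obtain ⟨N, hN⟩ : ∃ N, N = 8 * ρ * a / B := ⟨_, rfl⟩
  have hN0 : 0 < N := by rw [hN]; positivity
  obtain ⟨η, hη0, hη1, hη2⟩ : ∃ η : ℝ, 0 < η ∧ η * (Fintype.card I + 1) ≤ ρ ∧ η ^ 2 ≤ N := by
    refine ⟨min (ρ / (Fintype.card I + 1)) (min 1 N), by positivity, ?_, ?_⟩
    · rw [← le_div_iff₀ (by positivity)]
      exact min_le_left _ _
    · have h0 : 0 ≤ min (ρ / (Fintype.card I + 1)) (min 1 N) := by positivity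
      have h2 : min (ρ / (Fintype.card I + 1)) (min 1 N) ≤ 1 :=
        (min_le_right _ _).trans (min_le_left _ _)
      have h3 : min (ρ / (Fintype.card I + 1)) (min 1 N) ≤ N :=
        (min_le_right _ _).trans (min_le_right _ _)
      nlinarith
  obtain ⟨β, hβ⟩ : ∃ β, β = 2 * g / a := ⟨_, rfl⟩
  obtain ⟨β', hβ'⟩ : ∃ β', β' = 2 * g / (2 * ρ * a) := ⟨_, rfl⟩
  have hβ0 : 0 < β := by rw [hβ]; positivity
  have hβ'0 : 0 < β' := by rw [hβ']; positivity
  have hVar : ∀ (u : E) (t : I → ℝ), ∑ k, ⟪u, d k⟫ ^ 2 ≤ D → (∀ i, t i ≤ 2 * N) →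
      Var d u t ≤ a ^ 2 / (2 * g) := by
    intro u t hu ht
    have e : a ^ 2 / (2 * g) = 2 * N * D := by
      rw [hN, hB]; field_simp; ring
    rw [e]
    refine le_trans ?_ (mul_le_mul_of_nonneg_left hu (by positivity))
    rw [Finset.mul_sum]
    exact Finset.sum_le_sum fun k _ => mul_le_mul_of_nonneg_right (ht k) (sq_nonneg _)
  have bounds : ∀ (W : E) (t A : I → ℝ), (∀ i, B * t i ≤ A i) → (∀ i, t i ≤ 2 * N) →
      pot v d U Y β β' (2 * ρ) W t A ≤ Real.exp g → (∀ j, ⟪U j, W⟫ ≤ a) ∧ ∀ i, t i ≤ N := by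
    intro W t A hA ht hpot
    have hx : ∀ x, expo v d U Y β β' (2 * ρ) W t A x ≤ g := fun x =>
      Real.exp_le_exp.1 ((Finset.single_le_sum (f := fun x =>
        Real.exp (expo v d U Y β β' (2 * ρ) W t A x)) (fun x _ => (Real.exp_pos _).le)
        (Finset.mem_univ x)).trans hpot)
    have hj : ∀ j, ⟪U j, W⟫ ≤ a := fun j => by
      have h2 := hx (Sum.inl j)
      simp only [expo] at h2
      have h3 := mul_le_mul_of_nonneg_left (hVar (U j) t (hU j) ht) (show 0 ≤ β ^ 2 / 2 by positivity)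
      have e1 : β ^ 2 / 2 * (a ^ 2 / (2 * g)) = g := by rw [hβ]; field_simp
      have e2 : β * a = 2 * g := by rw [hβ]; field_simp
      have : β * ⟪U j, W⟫ ≤ β * a := by linarith
      exact le_of_mul_le_mul_left this hβ0
    refine ⟨hj, fun i => ?_⟩
    have h2 := hx (Sum.inr i)
    simp only [expo] at h2
    have h3 := mul_le_mul_of_nonneg_left (hVar (v i) t (hv i) ht)
      (show 0 ≤ β' ^ 2 * (2 * ρ) ^ 2 / 2 by positivity)
    have e1 : β' ^ 2 * (2 * ρ) ^ 2 / 2 * (a ^ 2 / (2 * g)) = g := by rw [hβ']; field_simp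
    have e2 : β' * (2 * ρ * a) = 2 * g := by rw [hβ']; field_simp
    have h4 : β' * (A i / 2 - hub (2 * ρ) (Y i + ⟪v i, W⟫) + hub (2 * ρ) (Y i))
        ≤ β' * (2 * ρ * a) := by linarith
    have h5 := le_of_mul_le_mul_left h4 hβ'0
    have h6 := hub_lip (r := 2 * ρ) (by linarith) (Y i) ⟪v i, W⟫
    have h7 := mul_le_mul_of_nonneg_left (hUv W hj i) (show 0 ≤ 2 * ρ by linarith)
    have e3 : B * N = 8 * ρ * a := by rw [hN]; field_simp
    have h8 : B * t i ≤ B * N := by linarith [hA i]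
    exact le_of_mul_le_mul_left h8 hB0
  by_contra hcon
  push Not at hcon
  have loop : ∀ m : ℕ, ∃ (W : E) (t A : I → ℝ), (∀ i, B * t i ≤ A i) ∧ (∀ i, t i ≤ N) ∧
      pot v d U Y β β' (2 * ρ) W t A ≤ Real.exp g ∧ m * η ^ 2 ≤ ∑ i, t i := by
    intro m
    induction m with
    | zero =>
      refine ⟨0, fun _ => 0, fun _ => 0, by simp, fun _ => hN0.le, ?_, by simp⟩
      refine le_trans (le_of_eq ?_) hcard
      unfold pot
      rw [Fintype.sum_sum_type]
      simp [expo, Var]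
    | succ m ih =>
      obtain ⟨W, t, A, c1, c2, c3, c4⟩ := ih
      have hW := (bounds W t A c1 (fun i => by linarith [c2 i]) c3).1
      obtain ⟨S, hS, hnear, hcore⟩ := hcon W hW
      obtain ⟨W', A', -, b2, b3, b4⟩ := one_round v d U Y (β := β) hρ.le hβ'0.le hη0.le hη1 h1 W t A S
      have d1 : ∀ i, B * (t i + if i ∈ S then η ^ 2 else 0) ≤ A' i := fun i => by
        split_ifs with h
        · have := mul_le_mul_of_nonneg_left (hcore i h) (sq_nonneg η)
          linarith [b3 i (hnear i h), c1 i]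
        · linarith [b2 i, c1 i]
      have d2 : ∀ i, (t i + if i ∈ S then η ^ 2 else 0) ≤ 2 * N := fun i => by
        split_ifs <;> linarith [c2 i]
      refine ⟨W', _, A', d1, (bounds W' _ A' d1 d2 (b4.trans c3)).2, b4.trans c3, ?_⟩
      rw [Finset.sum_add_distrib]
      obtain ⟨i0, hi0⟩ := hS
      have : η ^ 2 ≤ ∑ i, if i ∈ S then η ^ 2 else 0 := by
        have h9 := Finset.single_le_sum (f := fun i => if i ∈ S then η ^ 2 else 0)
          (fun i _ => by split_ifs <;> positivity) (Finset.mem_univ i0)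
        simpa [hi0] using h9
      push_cast
      linarith
  obtain ⟨m, hm⟩ := exists_nat_gt (Fintype.card I * N / η ^ 2)
  obtain ⟨W, t, A, -, c2, -, c4⟩ := loop m
  have h2 : ∑ i, t i ≤ Fintype.card I * N := by
    have := Finset.sum_le_sum (s := Finset.univ) fun i _ => c2 i
    simpa using this
  rw [div_lt_iff₀ (by positivity)] at hm
  linarith

end Pool.Agent.Lib.MP_70b2ae_gt.H8
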