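import Mathlib
import Pool.Agent.Lib.MP_70b2ae_gt.H8Phase
import Pool.Agent.Lib.MP_70b2ae_gt.H8Flag

namespace Pool.Agent.Lib.MP_70b2ae_gt.H8

open Finset
open scoped RealInnerProductSpace

variable {E : Type*} [NormedAddCommGroup E] [InnerProductSpace ℝ E] [FiniteDimensional ℝ E]
variable {I J : Type*} [Fintype I] [Fintype J] [DecidableEq I]

theorem phase2 (v : I → E) (hv : ∀ i, ‖v i‖ ≤ 1) (y : J → E) {X B a ρ g : ℝ} (hX : 0 < X)
    (hB : 0 < B) (ha : 0 < a) (hρ : 0 < ρ) (hg : 0 < g)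
    (hcard : (3 * Fintype.card I + 2 * Fintype.card J : ℝ) ≤ Real.exp g)
    (R : Finset I) (cl : I → List ℕ) (F : List ℕ → Submodule ℝ E) (Y : I → ℝ)
    (hq : ((R.image cl).card : ℝ) ≤ X)
    (hF : ∀ c, ∀ w ∈ F c, ∑ i ∈ R.filter (fun i => cl i = c), ⟪v i, w⟫ ^ 2 ≤ B * ‖w‖ ^ 2)
    (hy : ∀ c j, ‖pr (F c) (y j)‖ ≤ 1) :
    ∃ W : E, (∀ j, |⟪y j, W⟫| ≤ a) ∧ (∀ i, |⟪v i, W⟫| ≤ a) ∧
      ∀ c, ∀ S ⊆ R.filter (fun i => cl i = c ∧ |Y i + ⟪v i, W⟫| ≤ ρ), S.Nonempty →
        ∃ i ∈ S, ∑ k ∈ S, ⟪pr (F c) (v i), pr (F c) (v k)⟫ ^ 2 < 32 * g * ρ * (X * B) / a := by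
  let d : I → E := fun k => if k ∈ R then pr (F (cl k)) (v k) else 0
  have hd : ∀ u : E, (∀ c, ‖pr (F c) u‖ ≤ 1) → ∑ k, ⟪u, d k⟫ ^ 2 ≤ X * B := by
    intro u hu
    have e1 : ∑ k, ⟪u, d k⟫ ^ 2 = ∑ k ∈ R, ⟪v k, pr (F (cl k)) u⟫ ^ 2 := by
      rw [← Finset.sum_subset (Finset.subset_univ R) fun k _ hk => by simp [d, hk]]
      refine Finset.sum_congr rfl fun k hk => ?_
      simp only [d, if_pos hk]
      rw [← inner_pr u (pr_mem _ _), ← inner_pr (v k) (pr_mem _ _), real_inner_comm]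
    rw [e1, ← Finset.sum_fiberwise_of_maps_to (t := R.image cl) (g := cl)
      fun k hk => Finset.mem_image_of_mem cl hk]
    refine le_trans (Finset.sum_le_card_nsmul _ _ B fun c _ => ?_) ?_
    · have e2 : ∑ k ∈ R.filter (fun i => cl i = c), ⟪v k, pr (F (cl k)) u⟫ ^ 2
          = ∑ k ∈ R.filter (fun i => cl i = c), ⟪v k, pr (F c) u⟫ ^ 2 :=
        Finset.sum_congr rfl fun k hk => by rw [(Finset.mem_filter.1 hk).2]
      rw [e2]
      refine (hF c _ (pr_mem _ _)).trans (mul_le_of_le_one_right hB.le ?_)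
      exact pow_le_one₀ (norm_nonneg _) (hu c)
    · rw [nsmul_eq_mul]
      exact mul_le_mul_of_nonneg_right hq hB.le
  let U : Bool × (I ⊕ J) → E := fun p => (if p.1 then (1 : ℝ) else -1) • Sum.elim v y p.2
  have hU1 : ∀ (W : E) (x : I ⊕ J), (∀ p, ⟪U p, W⟫ ≤ a) → |⟪Sum.elim v y x, W⟫| ≤ a := by
    intro W x h
    have h1 := h (true, x)
    have h2 := h (false, x)
    simp only [U, real_inner_smul_left] at h1 h2
    rw [abs_le]
    constructor
    · simp at h2
      linarith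
    · simpa using h1
  have hvd : ∀ i, ∑ k, ⟪v i, d k⟫ ^ 2 ≤ X * B := fun i =>
    hd _ fun c => (norm_pr_le _ _).trans (hv i)
  obtain ⟨W, h1, h2⟩ := phase v d U Y (D := X * B) (by positivity) hρ ha hg (by
      simp only [Fintype.card_prod, Fintype.card_bool, Fintype.card_sum]
      push_cast
      linarith) (fun i k => by
      refine (abs_real_inner_le_norm _ _).trans (mul_le_one₀ (hv i) (norm_nonneg _) ?_)
      simp only [d]
      split_ifs
      · exact (norm_pr_le _ _).trans (hv k)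
      · simp) (fun p => by
      have e : ∑ k, ⟪U p, d k⟫ ^ 2 = ∑ k, ⟪Sum.elim v y p.2, d k⟫ ^ 2 := by
        refine Finset.sum_congr rfl fun k _ => ?_
        simp only [U, real_inner_smul_left]
        split_ifs <;> ring
      rw [e]
      rcases p with ⟨b, i | j⟩
      · exact hvd i
      · exact hd _ fun c => hy c j) hvd (fun W h i => hU1 W (Sum.inl i) h)
  refine ⟨W, fun j => hU1 W (Sum.inr j) h1, fun i => hU1 W (Sum.inl i) h1, fun c S hS hne => ?_⟩
  obtain ⟨i, hi, hlt⟩ := h2 S hne fun i hi => (Finset.mem_filter.1 (hS hi)).2.2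
  refine ⟨i, hi, lt_of_le_of_lt (le_of_eq (Finset.sum_congr rfl fun k hk => ?_)) hlt⟩
  have hk2 := Finset.mem_filter.1 (hS hk)
  simp only [d, if_pos hk2.1, hk2.2.1]
  rw [inner_pr _ (pr_mem _ _)]

theorem multi (v : I → E) (hv : ∀ i, ‖v i‖ ≤ 1) (y : J → E) (κ : J → ℝ) (hκ : ∀ j, 0 < κ j)
    (band : I → ℕ) (Bd : ℕ → Submodule ℝ E) {Γ g Λ X0 τ : ℝ} {L : ℕ} (hΓ : 2 ≤ Γ) (hg : 1 ≤ g)
    (hcard : (3 * Fintype.card I + 2 * Fintype.card J : ℝ) ≤ Real.exp g)
    (hL : Fintype.card I < 2 ^ L) (hΛ : 768 * g * (L + 1) ≤ Λ) (hX0 : 1 ≤ X0)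
    (hb1 : ∀ i, 1 / X0 ≤ ‖pr (Bd (band i)) (v i)‖ ^ 2)
    (hb2 : ∀ s, ∀ w ∈ Bd s, ∑ i, ⟪v i, w⟫ ^ 2 ≤ Γ ^ s * ‖w‖ ^ 2)
    (hb3 : ∀ s j, Γ ^ s * ‖pr (Bd s) (y j)‖ ≤ Γ * κ j) (s : ℕ) :
    ∀ X : ℝ, X0 ≤ X → (Λ * X) ^ (4 * 3 ^ s) ≤ τ →
    ∀ (R : Finset I) (cl : I → List ℕ) (F : List ℕ → Submodule ℝ E) (Y : I → ℝ),
      ((R.image cl).card : ℝ) ≤ X → (∀ i ∈ R, 1 / X ≤ ‖pr (F (cl i)) (v i)‖ ^ 2) →
      (∀ c, ∀ w ∈ F c,
        ∑ i ∈ R.filter (fun i => cl i = c), ⟪v i, w⟫ ^ 2 ≤ X * Γ ^ s * ‖w‖ ^ 2) →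
      (∀ c j, Γ ^ s * ‖pr (F c) (y j)‖ ≤ Γ * κ j) →
      ∃ W : E, (∀ j, |⟪y j, W⟫| ≤ (s + 1) * (τ * Γ * κ j)) ∧ (∀ i, |⟪v i, W⟫| ≤ 2 * (τ * Γ ^ s)) ∧
        ∀ i, (i ∈ R ∨ band i < s) → 1 ≤ |Y i + ⟪v i, W⟫| := by
  have hΓ0 : 0 < Γ := by linarith
  have hL0 : (0 : ℝ) ≤ L := Nat.cast_nonneg L
  have hΛg : 768 * g ≤ Λ := by nlinarith
  have hΛL : 768 * (L + 1) ≤ Λ := by nlinarith
  have hΛ1 : 768 ≤ Λ := by linarith
  have ph : ∀ (s : ℕ) (X ρ : ℝ), 0 < X → 0 < τ → 0 < ρ →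
      ∀ (R : Finset I) (cl : I → List ℕ) (F : List ℕ → Submodule ℝ E) (Y : I → ℝ),
      ((R.image cl).card : ℝ) ≤ X → (∀ c, ∀ w ∈ F c,
        ∑ i ∈ R.filter (fun i => cl i = c), ⟪v i, w⟫ ^ 2 ≤ X * Γ ^ s * ‖w‖ ^ 2) →
      (∀ c j, Γ ^ s * ‖pr (F c) (y j)‖ ≤ Γ * κ j) →
      ∃ W : E, (∀ j, |⟪y j, W⟫| ≤ τ * Γ * κ j) ∧ (∀ i, |⟪v i, W⟫| ≤ τ * Γ ^ s) ∧
      ∀ c, ∀ S ⊆ R.filter (fun i => cl i = c ∧ |Y i + ⟪v i, W⟫| ≤ ρ), S.Nonempty →
        ∃ i ∈ S, ∑ k ∈ S, ⟪pr (F c) (v i), pr (F c) (v k)⟫ ^ 2 < 32 * g * ρ * X ^ 2 / τ := by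
    intro s X ρ hX hτ hρ R cl F Y hq hF hy
    obtain ⟨W, h1, h2, h3⟩ := phase2 v hv (fun j => (Γ ^ s / (Γ * κ j)) • y j) hX
      (B := X * Γ ^ s) (a := τ * Γ ^ s) (g := g) (by positivity) (by positivity) hρ (by linarith)
      hcard R cl F Y hq hF (fun c j => by
        have := hκ j
        unfold pr
        rw [map_smul, norm_smul, Real.norm_of_nonneg (by positivity), div_mul_eq_mul_div,
          div_le_one (by positivity)]
        exact hy c j)
    refine ⟨W, fun j => ?_, h2, fun c S hS hne => ?_⟩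
    · have h4 := h1 j
      have := hκ j
      rw [real_inner_smul_left, abs_mul, abs_of_nonneg (by positivity), div_mul_eq_mul_div,
        div_le_iff₀ (by positivity)] at h4
      have h5 : Γ ^ s * |⟪y j, W⟫| ≤ Γ ^ s * (τ * Γ * κ j) := by linarith
      exact le_of_mul_le_mul_left h5 (by positivity)
    · obtain ⟨i, hi, hlt⟩ := h3 c S hS hne
      refine ⟨i, hi, hlt.trans_le (le_of_eq ?_)⟩
      field_simp
  induction s with
  | zero =>
    intro X hX hτ R cl F Y hq hm hF hy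
    have hX1 : 1 ≤ X := hX0.trans hX
    have hτ1 : 32 * g * X ^ 4 ≤ τ := by
      refine le_trans ?_ hτ
      have h1 : Λ ≤ Λ ^ 4 := le_self_pow₀ (by linarith) (by norm_num)
      rw [pow_zero, mul_one, mul_pow]
      exact mul_le_mul_of_nonneg_right (by linarith) (by positivity)
    have hτ0 : 0 < τ := lt_of_lt_of_le (by positivity) hτ1
    obtain ⟨W, h1, h2, h3⟩ := ph 0 X 1 (by linarith) hτ0 one_pos R cl F Y hq hF hy
    refine ⟨W, fun j => by simpa using h1 j, fun i => ?_, fun i hi => ?_⟩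
    · have := h2 i
      have h4 : 0 ≤ τ * Γ ^ 0 := by positivity
      linarith
    · have hi : i ∈ R := by simpa using hi
      by_contra hc
      push Not at hc
      obtain ⟨k, hk, hlt⟩ := h3 (cl i) {i} (by simp [hi, hc.le]) (Finset.singleton_nonempty i)
      rw [Finset.mem_singleton] at hk
      subst hk
      rw [Finset.sum_singleton, real_inner_self_eq_norm_sq] at hlt
      have h4 := pow_le_pow_left₀ (by positivity) (hm k hi) 2
      have h5 : 32 * g * 1 * X ^ 2 / τ ≤ (1 / X) ^ 2 := by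
        rw [div_pow, div_le_div_iff₀ hτ0 (by positivity)]
        linarith
      linarith
  | succ s ih =>
    intro X hX hτ R cl F Y hq hm hF hy
    have hX1 : 1 ≤ X := hX0.trans hX
    have hXp : 0 < X := by linarith
    have hτ1 : 1 ≤ τ := le_trans (one_le_pow₀ (by nlinarith)) hτ
    have hτ0 : 0 < τ := by linarith
    have hG1 : 1 ≤ Γ ^ s := one_le_pow₀ (by linarith)
    obtain ⟨W1, h1, h2, h3⟩ := ph (s + 1) X (3 * (τ * Γ ^ s)) hXp hτ0 (by positivity) R cl F Y hq hF hy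
    have hlev := fun c => levels v (F c) (μ := 1 / X) (B := 32 * g * (3 * (τ * Γ ^ s)) * X ^ 2 / τ)
      (by positivity) (by positivity) L
      (R.filter (fun i => cl i = c ∧ |Y i + ⟪v i, W1⟫| ≤ 3 * (τ * Γ ^ s)))
      (lt_of_le_of_lt (Finset.card_le_univ _) hL) (fun i hi => by
        have := Finset.mem_filter.1 hi
        rw [← this.2.1]
        exact hm i this.1) (h3 c)
    choose G lev a1 a2 a3 a4 using hlev
    have hX3 : X ≤ X ^ 3 := le_self_pow₀ hX1 (by norm_num)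
    have hXX : 768 * (L + 1) * X ≤ Λ * X ^ 3 := by gcongr
    obtain ⟨W2, b1, b2, b3⟩ := ih (Λ * X ^ 3) (by nlinarith) (by
        refine le_trans ?_ hτ
        have e : 4 * 3 ^ (s + 1) = 3 * (4 * 3 ^ s) := by ring
        rw [e, pow_mul (Λ * X) 3]
        refine pow_le_pow_left₀ (by positivity) ?_ _
        have : Λ ^ 2 ≤ Λ ^ 3 := pow_le_pow_right₀ (by linarith) (by norm_num)
        have h5 := mul_le_mul_of_nonneg_right this (show 0 ≤ X ^ 3 by positivity)
        nlinarith)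
      (Finset.univ.filter fun i => band i = s ∨ (i ∈ R ∧ |Y i + ⟪v i, W1⟫| ≤ 3 * (τ * Γ ^ s)))
      (fun i => if band i = s then [] else lev (cl i) i :: cl i)
      (fun c => List.casesOn c (Bd s) fun l c => G c l) (fun i => Y i + ⟪v i, W1⟫) (by
        have hsub : (Finset.univ.filter fun i => band i = s ∨
            (i ∈ R ∧ |Y i + ⟪v i, W1⟫| ≤ 3 * (τ * Γ ^ s))).image
            (fun i => if band i = s then [] else lev (cl i) i :: cl i) ⊆
            insert [] ((Finset.range L ×ˢ R.image cl).image fun p => p.1 :: p.2) := by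
          intro c hc
          obtain ⟨i, hi, rfl⟩ := Finset.mem_image.1 hc
          have hi := (Finset.mem_filter.1 hi).2
          split_ifs with h
          · exact Finset.mem_insert_self _ _
          · have hi := hi.resolve_left h
            refine Finset.mem_insert_of_mem (Finset.mem_image.2 ⟨(lev (cl i) i, cl i), ?_, rfl⟩)
            exact Finset.mem_product.2 ⟨Finset.mem_range.2 (a2 _ i (Finset.mem_filter.2
              ⟨hi.1, rfl, hi.2⟩)), Finset.mem_image_of_mem cl hi.1⟩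
        have h5 := (Finset.card_le_card hsub).trans ((Finset.card_insert_le _ _).trans
          (Nat.add_le_add_right Finset.card_image_le 1))
        rw [Finset.card_product, Finset.card_range] at h5
        have h6 := (Nat.cast_le (α := ℝ)).2 h5
        push_cast at h6
        refine h6.trans ?_
        nlinarith [mul_le_mul_of_nonneg_left hq hL0]) (fun i hi => by
        have hi := (Finset.mem_filter.1 hi).2
        dsimp only
        split_ifs with h
        · refine le_trans (one_div_le_one_div_of_le (by linarith) (by nlinarith)) (h ▸ hb1 i)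
        · have hi := hi.resolve_left h
          refine le_trans ?_ (a3 _ i (Finset.mem_filter.2 ⟨hi.1, rfl, hi.2⟩))
          rw [div_div]
          exact one_div_le_one_div_of_le (by linarith) (by nlinarith)) (fun c w hw => by
        cases c with
        | nil =>
          refine le_trans (Finset.sum_le_sum_of_subset_of_nonneg (Finset.subset_univ _)
            fun i _ _ => sq_nonneg _) ((hb2 s w hw).trans ?_)
          refine mul_le_mul_of_nonneg_right (le_mul_of_one_le_left (by positivity) ?_) (sq_nonneg _)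
          nlinarith
        | cons l c =>
          refine le_trans (Finset.sum_le_sum_of_subset_of_nonneg (fun i hi => ?_)
            fun i _ _ => sq_nonneg _) ((a4 c l w hw).trans ?_)
          · obtain ⟨hi1, hi2⟩ := Finset.mem_filter.1 hi
            have hi1 := (Finset.mem_filter.1 hi1).2
            split_ifs at hi2 with h
            have hi1 := hi1.resolve_left h
            obtain ⟨e1, e2⟩ := List.cons.inj hi2
            exact Finset.mem_filter.2 ⟨Finset.mem_filter.2 ⟨hi1.1, e2, hi1.2⟩, e2 ▸ e1⟩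
          · refine mul_le_mul_of_nonneg_right ?_ (sq_nonneg _)
            have e : 8 * (32 * g * (3 * (τ * Γ ^ s)) * X ^ 2 / τ) / (1 / X)
                = 768 * g * X ^ 3 * Γ ^ s := by field_simp; ring
            rw [e]
            gcongr) (fun c j => by
        cases c with
        | nil => exact hb3 s j
        | cons l c =>
          refine le_trans ?_ (hy c j)
          exact mul_le_mul (pow_le_pow_right₀ (by linarith) (Nat.le_succ s))
            (norm_pr_mono (a1 c l) _) (norm_nonneg _) (by positivity))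
    refine ⟨W1 + W2, fun j => ?_, fun i => ?_, fun i hi => ?_⟩
    · rw [inner_add_right]
      push_cast
      linarith [abs_add_le ⟪y j, W1⟫ ⟪y j, W2⟫, h1 j, b1 j]
    · rw [inner_add_right]
      have h5 : 2 * (τ * Γ ^ s) ≤ τ * Γ ^ (s + 1) := by
        rw [pow_succ]
        nlinarith [mul_pos hτ0 (pow_pos hΓ0 s)]
      linarith [abs_add_le ⟪v i, W1⟫ ⟪v i, W2⟫, h2 i, b2 i]
    · rw [inner_add_right, ← add_assoc]
      by_cases hn : |Y i + ⟪v i, W1⟫| ≤ 3 * (τ * Γ ^ s)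
      · refine b3 i ?_
        rcases hi with hi | hi
        · exact Or.inl (Finset.mem_filter.2 ⟨Finset.mem_univ _, Or.inr ⟨hi, hn⟩⟩)
        · rcases Nat.lt_succ_iff_lt_or_eq.1 hi with hi | hi
          · exact Or.inr hi
          · exact Or.inl (Finset.mem_filter.2 ⟨Finset.mem_univ _, Or.inl hi⟩)
      · push Not at hn
        have h5 := abs_add_le (Y i + ⟪v i, W1⟫ + ⟪v i, W2⟫) (-⟪v i, W2⟫)
        rw [add_neg_cancel_right, abs_neg] at h5
        nlinarith [b2 i]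

end Pool.Agent.Lib.MP_70b2ae_gt.H8
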