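import Mathlib
import Pool.Agent.Lib.MP_70b2ae_gt.H8Multi

namespace Pool.Agent.Lib.MP_70b2ae_gt.H8

open Finset
open scoped RealInnerProductSpace

variable {E : Type*} [NormedAddCommGroup E] [InnerProductSpace ℝ E] [FiniteDimensional ℝ E]
variable {I J : Type*} [Fintype I] [Fintype J]

/-- The frame operator of a finite family of vectors. -/
noncomputable def fr (v : I → E) : E →ₗ[ℝ] E where
  toFun x := ∑ i, ⟪v i, x⟫ • v i
  map_add' x z := by simp only [inner_add_right, add_smul, Finset.sum_add_distrib]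
  map_smul' c x := by
    simp only [real_inner_smul_right, RingHom.id_apply, Finset.smul_sum, smul_smul]

omit [FiniteDimensional ℝ E] in
theorem inner_fr (v : I → E) (x z : E) : ⟪fr v x, z⟫ = ∑ i, ⟪v i, x⟫ * ⟪v i, z⟫ := by
  simp only [fr, LinearMap.coe_mk, AddHom.coe_mk, sum_inner, real_inner_smul_left]

omit [FiniteDimensional ℝ E] in
theorem fr_symm (v : I → E) : (fr v).IsSymmetric := fun x z => by
  rw [inner_fr, real_inner_comm, inner_fr]
  exact Finset.sum_congr rfl fun i _ => mul_comm _ _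

theorem bands (v : I → E) (hv : ∀ i, ‖v i‖ = 1) {Γ : ℝ} (hΓ : 1 ≤ Γ) (S : ℕ)
    (hS : (Fintype.card I : ℝ) ≤ Γ ^ S) :
    ∃ (band : I → ℕ) (Bd : ℕ → Submodule ℝ E), (∀ i, band i ≤ S) ∧
      (∀ i, 1 / ((S : ℝ) + 1) ≤ ‖pr (Bd (band i)) (v i)‖ ^ 2) ∧
      (∀ s, ∀ w ∈ Bd s, ∑ i, ⟪v i, w⟫ ^ 2 ≤ Γ ^ s * ‖w‖ ^ 2) ∧
      ∀ s (y : E) (κ : ℝ), ‖fr v y‖ ≤ κ → ‖y‖ ≤ κ → Γ ^ s * ‖pr (Bd s) y‖ ≤ Γ * κ := by
  classical
  obtain ⟨e, he⟩ : ∃ e, e = (fr_symm v).eigenvectorBasis rfl := ⟨_, rfl⟩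
  obtain ⟨l, hl⟩ : ∃ l, l = (fr_symm v).eigenvalues rfl := ⟨_, rfl⟩
  have hel : ∀ k, fr v (e k) = l k • e k := fun k => by
    rw [he, hl]
    exact (fr_symm v).apply_eigenvectorBasis rfl k
  have hel2 : ∀ k x, ⟪e k, fr v x⟫ = l k * ⟪e k, x⟫ := fun k x => by
    rw [← fr_symm v, hel, real_inner_smul_left]
  have hlS : ∀ k, l k ≤ Γ ^ S := fun k => by
    have h1 := hel2 k (e k)
    rw [real_inner_self_eq_norm_sq, e.orthonormal.1 k, real_inner_comm, inner_fr] at h1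
    have h2 : ∑ i, ⟪v i, e k⟫ * ⟪v i, e k⟫ ≤ Fintype.card I := by
      refine le_trans (Finset.sum_le_card_nsmul _ _ 1 fun i _ => ?_) (by simp)
      have h3 := abs_real_inner_le_norm (v i) (e k)
      rw [hv, e.orthonormal.1 k, mul_one] at h3
      nlinarith [abs_le.1 h3]
    linarith
  let bk := fun k => Nat.find (⟨S, hlS k⟩ : ∃ s, l k ≤ Γ ^ s)
  have bk1 : ∀ k, bk k ≤ S := fun k => Nat.find_min' _ (hlS k)
  have bk2 : ∀ k, l k ≤ Γ ^ bk k := fun k => Nat.find_spec (⟨S, hlS k⟩ : ∃ s, l k ≤ Γ ^ s)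
  have bk3 : ∀ k t, bk k = t + 1 → Γ ^ t ≤ l k := fun k t h =>
    le_of_lt (lt_of_not_ge (Nat.find_min (⟨S, hlS k⟩ : ∃ s, l k ≤ Γ ^ s) (m := t)
      (by change t < bk k; omega)))
  let Bd : ℕ → Submodule ℝ E := fun s =>
    { carrier := {w | ∀ k, bk k ≠ s → ⟪e k, w⟫ = 0}
      add_mem' := fun {a b} ha hb k hk => by rw [inner_add_right, ha k hk, hb k hk, add_zero]
      zero_mem' := fun k _ => inner_zero_right _
      smul_mem' := fun c x hx k hk => by rw [real_inner_smul_right, hx k hk, mul_zero] }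
  have memB : ∀ s w, w ∈ Bd s ↔ ∀ k, bk k ≠ s → ⟪e k, w⟫ = 0 := fun s w => Iff.rfl
  have normpr : ∀ s x, ‖pr (Bd s) x‖ ^ 2
      = ∑ k ∈ Finset.univ.filter (fun k => bk k = s), ⟪e k, x⟫ ^ 2 := fun s x => by
    rw [← e.sum_sq_inner_right, Finset.sum_filter]
    refine Finset.sum_congr rfl fun k _ => ?_
    split_ifs with h
    · have hk : e k ∈ Bd s := (memB _ _).2 fun j hj => e.orthonormal.2 fun hjk => hj (hjk ▸ h)
      rw [real_inner_comm, inner_pr x hk, real_inner_comm]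
    · rw [(memB _ _).1 (pr_mem (Bd s) x) k h]
      ring
  have hband : ∀ i, ∃ s, s ≤ S ∧ 1 / ((S : ℝ) + 1) ≤ ‖pr (Bd s) (v i)‖ ^ 2 := fun i => by
    have h1 : ∑ s ∈ Finset.range (S + 1), ‖pr (Bd s) (v i)‖ ^ 2 = 1 := by
      simp only [normpr]
      rw [Finset.sum_fiberwise_of_maps_to (g := bk) fun k _ =>
        Finset.mem_range.2 (Nat.lt_succ_of_le (bk1 k)), e.sum_sq_inner_right, hv]
      ring
    have h2 : ∑ _s ∈ Finset.range (S + 1), 1 / ((S : ℝ) + 1) = 1 := by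
      rw [Finset.sum_const, Finset.card_range, nsmul_eq_mul]
      push_cast
      field_simp
    obtain ⟨s, hs, h3⟩ := Finset.exists_le_of_sum_le (Finset.nonempty_range_add_one (n := S))
      (h2.trans h1.symm).le
    exact ⟨s, Nat.lt_succ_iff.1 (Finset.mem_range.1 hs), h3⟩
  choose band hb1 hb2 using hband
  refine ⟨band, Bd, hb1, hb2, fun s w hw => ?_, fun s y κ h1 h2 => ?_⟩
  · have e1 : ∑ i, ⟪v i, w⟫ ^ 2 = ∑ k, l k * ⟪e k, w⟫ ^ 2 := by
      have h1 := inner_fr v w w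
      rw [← e.sum_inner_mul_inner] at h1
      simp only [sq]
      rw [← h1]
      refine Finset.sum_congr rfl fun k _ => ?_
      rw [real_inner_comm, hel2]
      ring
    rw [e1, ← e.sum_sq_inner_right, Finset.mul_sum]
    refine Finset.sum_le_sum fun k _ => ?_
    by_cases h : bk k = s
    · exact mul_le_mul_of_nonneg_right (h ▸ bk2 k) (sq_nonneg _)
    · rw [(memB _ _).1 hw k h]
      simp
  · have hκ : 0 ≤ κ := (norm_nonneg _).trans h2
    cases s with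
    | zero =>
      rw [pow_zero, one_mul]
      exact ((norm_pr_le _ _).trans h2).trans (le_mul_of_one_le_left hκ hΓ)
    | succ t =>
      have h3 : (Γ ^ t * ‖pr (Bd (t + 1)) y‖) ^ 2 ≤ ‖fr v y‖ ^ 2 := by
        rw [mul_pow, normpr, ← e.sum_sq_inner_right, Finset.mul_sum]
        refine le_trans (Finset.sum_le_sum fun k hk => ?_)
          (Finset.sum_le_sum_of_subset_of_nonneg (Finset.filter_subset _ _) fun i _ _ => sq_nonneg _)
        rw [hel2, mul_pow]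
        exact mul_le_mul_of_nonneg_right (pow_le_pow_left₀ (by positivity)
          (bk3 k t (Finset.mem_filter.1 hk).2) 2) (sq_nonneg _)
      have h4 := (abs_le_of_sq_le_sq' h3 (norm_nonneg _)).2
      rw [pow_succ', mul_assoc]
      exact mul_le_mul_of_nonneg_left (h4.trans h1) (by linarith)

theorem params {ε : ℝ} (hε : 0 < ε) : ∃ C : ℝ, 0 < C ∧ ∃ S : ℕ, ∀ N : ℕ, 1 ≤ N →
    ∃ (Γ g : ℝ) (L : ℕ), 2 ≤ Γ ∧ (N : ℝ) ≤ Γ ^ S ∧ 1 ≤ g ∧ 5 * (N : ℝ) ≤ Real.exp g ∧ N < 2 ^ L ∧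
      ((S : ℝ) + 2) * ((768 * g * (L + 1) * (S + 1)) ^ (4 * 3 ^ (S + 1)) * Γ) ≤ C * (N : ℝ) ^ ε := by
  obtain ⟨S, hS⟩ := exists_nat_gt (2 / ε)
  have hS0 : (0 : ℝ) < S := lt_trans (by positivity) hS
  obtain ⟨p, hp⟩ : ∃ p : ℕ, p = 4 * 3 ^ (S + 1) := ⟨_, rfl⟩
  have hp0 : (0 : ℝ) < p := by rw [hp]; positivity
  obtain ⟨η, hη⟩ : ∃ η, η = ε / (4 * p) := ⟨_, rfl⟩
  have hη0 : 0 < η := by rw [hη]; positivity
  refine ⟨(S + 2) * ((3072 * (S + 1) * ((5 : ℝ) ^ η / η) ^ 2) ^ p * 2), by positivity, S,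
    fun N hN => ?_⟩
  have hN1 : (1 : ℝ) ≤ N := by exact_mod_cast hN
  have hN0 : (0 : ℝ) < N := by linarith
  have hg1 : 1 ≤ Real.log (5 * N) := by
    rw [Real.le_log_iff_exp_le (by positivity)]
    linarith [Real.exp_one_lt_d9]
  refine ⟨2 * (N : ℝ) ^ (1 / (S : ℝ)), Real.log (5 * N), Nat.log 2 N + 1, ?_, ?_, hg1, ?_,
    Nat.lt_pow_succ_log_self (by norm_num) N, ?_⟩
  · have := Real.one_le_rpow hN1 (show 0 ≤ 1 / (S : ℝ) by positivity)
    linarith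
  · rw [mul_pow, ← Real.rpow_natCast ((N : ℝ) ^ (1 / (S : ℝ))), ← Real.rpow_mul hN0.le,
      one_div_mul_cancel hS0.ne', Real.rpow_one]
    exact le_mul_of_one_le_left hN0.le (one_le_pow₀ (by norm_num))
  · rw [Real.exp_log (by positivity)]
  · rw [← hp]
    set g := Real.log (5 * N) with hg
    have h1 : (Nat.log 2 N : ℝ) ≤ 2 * g := by
      have h2 : ((2 : ℝ) ^ Nat.log 2 N) ≤ 5 * N := by
        have : 2 ^ Nat.log 2 N ≤ N := Nat.pow_log_le_self 2 (by omega)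
        have h3 : ((2 : ℝ) ^ Nat.log 2 N) ≤ N := by exact_mod_cast this
        linarith
      have h3 := Real.log_le_log (by positivity) h2
      rw [Real.log_pow] at h3
      have h4 : (0 : ℝ) ≤ Nat.log 2 N := Nat.cast_nonneg _
      nlinarith [Real.log_two_gt_d9]
    have h2 : g ≤ (5 : ℝ) ^ η / η * (N : ℝ) ^ η := by
      have := Real.log_le_rpow_div (show (0 : ℝ) ≤ 5 * N by positivity) hη0
      rw [Real.mul_rpow (by norm_num) hN0.le] at this
      refine this.trans (le_of_eq ?_)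
      ring
    have h3 : 768 * g * (((Nat.log 2 N + 1 : ℕ) : ℝ) + 1) * (S + 1)
        ≤ 3072 * (S + 1) * ((5 : ℝ) ^ η / η) ^ 2 * ((N : ℝ) ^ η) ^ 2 := by
      have h4 := pow_le_pow_left₀ (by linarith) h2 2
      have h5 : g * (((Nat.log 2 N + 1 : ℕ) : ℝ) + 1) ≤ 4 * g ^ 2 := by
        push_cast
        nlinarith
      rw [mul_pow] at h4
      have h6 : (0 : ℝ) ≤ S + 1 := by positivity
      nlinarith [mul_le_mul_of_nonneg_right (h5.trans (mul_le_mul_of_nonneg_left h4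
        (show (0 : ℝ) ≤ 4 by norm_num))) h6]
    have h4 := pow_le_pow_left₀ (by positivity) h3 p
    have e1 : (((N : ℝ) ^ η) ^ 2) ^ p = (N : ℝ) ^ (ε / 2) := by
      rw [← pow_mul, ← Real.rpow_natCast, ← Real.rpow_mul hN0.le]
      congr 1
      rw [hη]
      push_cast
      field_simp
      ring
    rw [mul_pow _ (((N : ℝ) ^ η) ^ 2), e1] at h4
    have h5 : (N : ℝ) ^ (1 / (S : ℝ)) ≤ (N : ℝ) ^ (ε / 2) := by
      refine Real.rpow_le_rpow_of_exponent_le hN1 ?_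
      rw [div_lt_iff₀ hε] at hS
      rw [div_le_iff₀ hS0]
      linarith
    have e2 : (N : ℝ) ^ ε = (N : ℝ) ^ (ε / 2) * (N : ℝ) ^ (ε / 2) := by
      rw [← Real.rpow_add hN0]
      congr 1
      ring
    rw [e2, mul_assoc ((S : ℝ) + 2)]
    refine mul_le_mul_of_nonneg_left ?_ (by positivity)
    refine (mul_le_mul h4 (mul_le_mul_of_nonneg_left h5 (show (0 : ℝ) ≤ 2 by norm_num))
      (by positivity) (by positivity)).trans (le_of_eq ?_)
    ring

/-- The statement of the core theorem with constant `K` for families of size at most `N`. -/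
def Core (N : ℕ) (K : ℝ) : Prop :=
  ∀ (ι I J : Type) [Fintype ι] [Fintype I] [Fintype J], Fintype.card I ≤ N → Fintype.card J ≤ N →
    ∀ (v : I → EuclideanSpace ℝ ι) (m : I → ℝ) (y : J → EuclideanSpace ℝ ι) (κ : J → ℝ),
      (∀ i, ‖v i‖ = 1) → (∀ j, 0 < κ j) → (∀ j, ‖fr v (y j)‖ ≤ κ j) → (∀ j, ‖y j‖ ≤ κ j) →
      ∃ W : EuclideanSpace ℝ ι, (∀ j, |⟪y j, W⟫| ≤ K * κ j) ∧ ∀ i, 1 ≤ |⟪v i, W⟫ - m i|

theorem core {ε : ℝ} (hε : 0 < ε) :
    ∃ C : ℝ, 0 < C ∧ ∀ N : ℕ, 1 ≤ N → Core N (C * (N : ℝ) ^ ε) := by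
  classical
  obtain ⟨C, hC, S, h⟩ := params hε
  refine ⟨C, hC, fun N hN ι I J _ _ _ hI hJ v m y κ hv hκ h1 h2 => ?_⟩
  obtain ⟨Γ, g, L, a1, a2, a3, a4, a5, a6⟩ := h N hN
  have hI2 : (Fintype.card I : ℝ) ≤ N := by exact_mod_cast hI
  have hJ2 : (Fintype.card J : ℝ) ≤ N := by exact_mod_cast hJ
  obtain ⟨band, Bd, b1, b2, b3, b4⟩ := bands v hv (by linarith : 1 ≤ Γ) S (hI2.trans a2)
  have hS : (0 : ℝ) ≤ S := Nat.cast_nonneg S
  obtain ⟨W, c1, -, c3⟩ := multi v (fun i => (hv i).le) y κ hκ band Bd a1 a3 (by linarith)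
    (lt_of_le_of_lt hI a5) le_rfl (X0 := S + 1) (by linarith) b2 b3
    (fun s j => b4 s _ _ (h1 j) (h2 j)) (S + 1) (S + 1) le_rfl le_rfl ∅ (fun _ => [])
    (fun _ => ⊥) (fun i => -m i) (by simp; positivity) (by simp) (fun c w _ => by
      simp only [Finset.filter_empty, Finset.sum_empty]
      have : 0 < Γ := by linarith
      positivity) (fun c j => by
      have h3 : pr (⊥ : Submodule ℝ (EuclideanSpace ℝ ι)) (y j) = 0 :=
        (Submodule.mem_bot ℝ).1 (pr_mem _ _)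
      rw [h3, norm_zero, mul_zero]
      exact mul_nonneg (by linarith) (hκ j).le)
  refine ⟨W, fun j => (c1 j).trans ?_, fun i => ?_⟩
  · have := mul_le_mul_of_nonneg_right a6 (hκ j).le
    refine le_trans (le_of_eq ?_) this
    push_cast
    ring
  · have := c3 i (Or.inr (Nat.lt_succ_of_le (b1 i)))
    rwa [neg_add_eq_sub] at this

end Pool.Agent.Lib.MP_70b2ae_gt.H8
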