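import Mathlib
import Pool.Agent.Lib.MP_70b2ae_gt.H8Core
import Pool.Agent.Lib.MP_70b2ae_gt.H8Ball

namespace Pool.Agent.Lib.MP_70b2ae_gt.H8

open Finset
open scoped RealInnerProductSpace

theorem transpose_bound {I J : Type*} [Fintype I] [Fintype J] (β : I → J → ℝ) {c : ℝ} (hc : 0 ≤ c)
    (h : ∀ z : J → ℝ, ∑ i, (∑ j, β i j * z j) ^ 2 ≤ c * ∑ j, z j ^ 2) (α : I → ℝ) :
    ∑ j, (∑ i, α i * β i j) ^ 2 ≤ c * ∑ i, α i ^ 2 := by
  obtain ⟨u, hu⟩ : ∃ u : J → ℝ, u = fun j => ∑ i, α i * β i j := ⟨_, rfl⟩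
  have e0 : ∑ j, (∑ i, α i * β i j) ^ 2 = ∑ j, u j ^ 2 := by rw [hu]
  have e1 : ∑ j, u j ^ 2 = ∑ i, α i * ∑ j, β i j * u j := by
    simp only [Finset.mul_sum]
    rw [Finset.sum_comm]
    refine Finset.sum_congr rfl fun j _ => ?_
    have : u j ^ 2 = (∑ i, α i * β i j) * u j := by rw [sq, hu]
    rw [this, Finset.sum_mul]
    exact Finset.sum_congr rfl fun i _ => by ring
  have h1 := Finset.sum_mul_sq_le_sq_mul_sq Finset.univ α fun i => ∑ j, β i j * u j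
  rw [← e1] at h1
  have h2 : 0 ≤ ∑ i, α i ^ 2 := by positivity
  have h3 := mul_le_mul_of_nonneg_left (h u) h2
  have h4 : 0 ≤ ∑ j, u j ^ 2 := by positivity
  rw [e0]
  by_contra hlt
  push Not at hlt
  nlinarith [mul_nonneg hc h2]

theorem inner_toLp {I : Type*} [Fintype I] (x : I → ℝ) (W : EuclideanSpace ℝ I) :
    ⟪(WithLp.toLp 2 x : EuclideanSpace ℝ I), W⟫ = x ⬝ᵥ W.ofLp := by
  simp [PiLp.inner_apply, dotProduct, mul_comm]

theorem matrix_of_core {I : Type} [Fintype I] [DecidableEq I] {K : ℝ} (hK : 0 ≤ K)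
    (hcore : Core (16 * (Fintype.card I + 1)) K) (A : I → I → ℝ) (hA : ∀ i, A i i = 1)
    (m : I → ℝ) : ∃ ν : I → ℝ, (∀ j, 0 ≤ ν j) ∧ ∑ j, ν j ≤ 1000 * K * Fintype.card I ∧
      ∀ i, 1 ≤ |∑ j, A i j * ν j - m i| := by
  obtain ⟨T, t1, t2, t3, t4⟩ := ball_norm A hA
  obtain ⟨θ, hθ⟩ : ∃ θ : I → ℝ, θ = fun i => 1 / Real.sqrt (cmb (A i) T ⬝ᵥ cmb (A i) T) := ⟨_, rfl⟩
  have hθ0 : ∀ i, 0 < θ i := fun i => by
    rw [hθ]
    exact one_div_pos.2 (Real.sqrt_pos.2 (t1 i))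
  have hθ2 : ∀ i, θ i ^ 2 = 1 / (cmb (A i) T ⬝ᵥ cmb (A i) T) := fun i => by
    rw [hθ]
    simp only [div_pow, one_pow, Real.sq_sqrt (t1 i).le]
  have hθs : ∑ i, θ i ^ 2 ≤ 12 * Fintype.card I := by simpa only [hθ2] using t2
  obtain ⟨k, hk⟩ : ∃ k : I → ℕ, k = fun i => ⌈θ i⌉₊ := ⟨_, rfl⟩
  have hk1 : ∀ i, θ i ≤ k i := fun i => hk ▸ Nat.le_ceil _
  have hk2 : ∀ i, (k i : ℝ) ≤ θ i + 1 := fun i => hk ▸ (Nat.ceil_lt_add_one (hθ0 i).le).le
  let v : I → EuclideanSpace ℝ I := fun i => WithLp.toLp 2 (θ i • cmb (A i) T)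
  let y : I → EuclideanSpace ℝ I := fun j => WithLp.toLp 2 (T j)
  have hv : ∀ i, ‖v i‖ = 1 := fun i => by
    have h1 : ‖v i‖ ^ 2 = 1 := by
      rw [← real_inner_self_eq_norm_sq, inner_toLp]
      simp only [v, smul_dotProduct, dotProduct_smul, smul_eq_mul]
      rw [← mul_assoc, ← sq, hθ2, one_div_mul_cancel (t1 i).ne']
    exact (pow_eq_one_iff_of_nonneg (norm_nonneg _) two_ne_zero).1 h1
  let v' : (Σ i : I, Fin (2 * k i + 1)) → EuclideanSpace ℝ I := fun p => v p.1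
  obtain ⟨κ, hκ⟩ : ∃ κ : I → ℝ, κ = fun j => 1 + ‖fr v' (y j)‖ ^ 2 + ‖y j‖ ^ 2 := ⟨_, rfl⟩
  have hn : ∑ _i : I, (1 : ℝ) = Fintype.card I := by simp
  have hfr : ∑ j, ‖fr v' (y j)‖ ^ 2 ≤ 456 * Fintype.card I := by
    have e1 : ∀ j, ‖fr v' (y j)‖ ^ 2
        = ∑ l, (∑ i, ((2 * k i + 1 : ℝ) * (v i).ofLp l) * ⟪v i, y j⟫) ^ 2 := fun j => by
      rw [EuclideanSpace.real_norm_sq_eq]
      refine Finset.sum_congr rfl fun l _ => ?_
      congr 1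
      simp only [fr, LinearMap.coe_mk, AddHom.coe_mk, v', Fintype.sum_sigma, Finset.sum_const,
        Finset.card_univ, Fintype.card_fin, WithLp.ofLp_sum, Finset.sum_apply]
      refine Finset.sum_congr rfl fun i _ => ?_
      simp only [← Nat.cast_smul_eq_nsmul ℝ, WithLp.ofLp_smul, Pi.smul_apply, smul_eq_mul]
      push_cast
      ring
    have hb : ∀ z : I → ℝ, ∑ i, (∑ j, ⟪v i, y j⟫ * z j) ^ 2 ≤ 4 * ∑ j, z j ^ 2 := fun z => by
      refine le_trans (le_of_eq (Finset.sum_congr rfl fun i _ => ?_)) (t4 z)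
      have e : ∑ j, ⟪v i, y j⟫ * z j = θ i * (cmb (A i) T ⬝ᵥ cmb z T) := by
        rw [dotProduct_comm, cmb_dot, Finset.mul_sum]
        refine Finset.sum_congr rfl fun j _ => ?_
        simp only [v, y, inner_toLp, smul_dotProduct, smul_eq_mul]
        rw [dotProduct_comm]
        ring
      rw [e, mul_pow, hθ2]
      ring
    simp only [e1]
    rw [Finset.sum_comm]
    refine le_trans (Finset.sum_le_sum fun l _ =>
      transpose_bound (fun i j => ⟪v i, y j⟫) (by norm_num) hb _) ?_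
    rw [← Finset.mul_sum, Finset.sum_comm]
    have h2 : ∀ i, ∑ l, ((2 * k i + 1 : ℝ) * (v i).ofLp l) ^ 2 ≤ 8 * θ i ^ 2 + 18 * 1 := fun i => by
      simp only [mul_pow]
      rw [← Finset.mul_sum, ← EuclideanSpace.real_norm_sq_eq, hv]
      have h3 : (2 * k i + 1 : ℝ) ^ 2 ≤ (2 * θ i + 3) ^ 2 :=
        pow_le_pow_left₀ (by positivity) (by linarith [hk2 i]) 2
      nlinarith [sq_nonneg (2 * θ i - 3)]
    have h3 := Finset.sum_le_sum (s := Finset.univ) fun i _ => h2 i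
    rw [Finset.sum_add_distrib, ← Finset.mul_sum, ← Finset.mul_sum, hn] at h3
    linarith
  have hy : ∑ j, ‖y j‖ ^ 2 ≤ 2 * Fintype.card I := by
    rw [← hn, Finset.mul_sum]
    refine Finset.sum_le_sum fun j _ => ?_
    rw [← real_inner_self_eq_norm_sq, inner_toLp]
    simpa [y] using t3 j
  have hκs : ∑ j, κ j ≤ 500 * Fintype.card I := by
    rw [hκ, Finset.sum_add_distrib, Finset.sum_add_distrib, hn]
    have : (0 : ℝ) ≤ Fintype.card I := Nat.cast_nonneg _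
    linarith
  have hcard : Fintype.card (Σ i : I, Fin (2 * k i + 1)) ≤ 16 * (Fintype.card I + 1) := by
    rw [← Nat.cast_le (α := ℝ), Fintype.card_sigma]
    simp only [Fintype.card_fin]
    push_cast
    have h2 : ∀ i, (2 * k i + 1 : ℝ) ≤ θ i ^ 2 + 4 * 1 := fun i => by
      nlinarith [hk2 i, sq_nonneg (θ i - 1)]
    have h3 := Finset.sum_le_sum (s := Finset.univ) fun i _ => h2 i
    rw [Finset.sum_add_distrib (f := fun i => θ i ^ 2), ← Finset.mul_sum, hn] at h3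
    linarith
  obtain ⟨W, w1, w2⟩ := hcore I _ I hcard (by omega) v'
    (fun p => θ p.1 * (m p.1 - ∑ j, A p.1 j * (K * κ j)) + ((p.2 : ℕ) - k p.1 : ℝ)) y κ
    (fun p => hv p.1) (fun j => by rw [hκ]; positivity)
    (fun j => by
      rw [hκ]
      nlinarith [sq_nonneg (‖fr v' (y j)‖ - 1), sq_nonneg ‖y j‖, sq_nonneg ‖fr v' (y j)‖])
    (fun j => by
      rw [hκ]
      nlinarith [sq_nonneg (‖y j‖ - 1), sq_nonneg ‖y j‖, sq_nonneg ‖fr v' (y j)‖])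
  refine ⟨fun j => K * κ j + ⟪y j, W⟫, fun j => by linarith [(abs_le.1 (w1 j)).1], ?_, fun i => ?_⟩
  · have h2 : ∑ j, (K * κ j + ⟪y j, W⟫) ≤ ∑ j, 2 * K * κ j :=
      Finset.sum_le_sum fun j _ => by linarith [(abs_le.1 (w1 j)).2]
    rw [← Finset.mul_sum] at h2
    nlinarith [mul_le_mul_of_nonneg_left hκs hK]
  · obtain ⟨Y, hY⟩ : ∃ Y, Y = ∑ j, A i j * (K * κ j + ⟪y j, W⟫) - m i := ⟨_, rfl⟩
    have e : ⟪v i, W⟫ - θ i * (m i - ∑ j, A i j * (K * κ j)) = θ i * Y := by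
      simp only [hY, v, y, inner_toLp, smul_dotProduct, smul_eq_mul, cmb_dot, mul_add,
        Finset.sum_add_distrib]
      ring
    rw [← hY]
    by_contra hc
    push Not at hc
    obtain ⟨c1, c2⟩ := abs_lt.1 hc
    have a1 : θ i * Y < k i := by nlinarith [hθ0 i, hk1 i]
    have a2 : 0 < θ i * Y + k i := by nlinarith [hθ0 i, hk1 i]
    have a3 : ⌊θ i * Y + k i⌋₊ < 2 * k i + 1 := by
      rw [Nat.floor_lt a2.le]
      push_cast
      linarith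
    have a4 := w2 ⟨i, ⟨_, a3⟩⟩
    simp only [v'] at a4
    rw [← sub_sub, e] at a4
    have a5 := Nat.floor_le a2.le
    have a6 := Nat.lt_floor_add_one (θ i * Y + k i)
    refine absurd a4 (not_le.2 (abs_lt.2 ⟨?_, ?_⟩)) <;> linarith

theorem matrix_thm {ε : ℝ} (hε : 0 < ε) : ∃ C : ℝ, 0 < C ∧ ∀ (n : ℕ) (A : Fin n → Fin n → ℝ),
    (∀ i, A i i = 1) → ∀ m : Fin n → ℝ, ∃ ν : Fin n → ℝ, (∀ j, 0 ≤ ν j) ∧
      ∑ j, ν j ≤ C * ((n : ℝ) + 1) ^ (1 + ε) ∧ ∀ i, 1 ≤ |∑ j, A i j * ν j - m i| := by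
  obtain ⟨C, hC, h⟩ := core hε
  refine ⟨1000 * (C * (16 : ℝ) ^ ε), by positivity, fun n A hA m => ?_⟩
  obtain ⟨ν, h1, h2, h3⟩ := matrix_of_core (by positivity) (h _ (by omega)) A hA m
  refine ⟨ν, h1, h2.trans ?_, h3⟩
  rw [Fintype.card_fin, Real.rpow_add (by positivity), Real.rpow_one]
  push_cast
  rw [Real.mul_rpow (by norm_num) (by positivity)]
  have : 0 ≤ 1000 * (C * (16 : ℝ) ^ ε) * ((n : ℝ) + 1) ^ ε := by positivity
  nlinarith

end Pool.Agent.Lib.MP_70b2ae_gt.H8
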