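import Pool.Agent.Lib.MP_70b2ae_gt.KdLim
import Pool.Agent.Lib.MP_70b2ae_gt.BgGeo

/-! Coverings of a compact convex set by closed convex sets. -/

namespace Pool.Agent.Lib.MP_70b2ae_gt.Kd

open Bg
open scoped Pointwise

theorem sep {n : ℕ} (L : Set (Fin n → ℝ)) (hc : IsCompact L) (hv : Convex ℝ L)
    (hcov : ∀ y ∈ L, ∃ i, y i < 0) :
    ∃ (T : Fin n → ℝ) (δ : ℝ), 0 < δ ∧ (∀ i, 0 ≤ T i) ∧ ∀ y ∈ L, ∑ i, T i * y i ≤ -δ := by
  obtain ⟨B, B0, hB⟩ := hc.isBounded.exists_pos_norm_le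
  obtain ⟨c, δ, h1, h2, h3⟩ := geo_sep ((fun z => (fun _ => 1) + z) '' (B⁻¹ • L))
    ((hc.smul _).image (by fun_prop)) ((hv.smul _).translate _) (by
      rintro _ ⟨_, ⟨y, hy, rfl⟩, rfl⟩
      obtain ⟨i, hi⟩ := hcov y hy
      have h4 := (abs_le.1 ((norm_le_pi_norm y i).trans (hB y hy))).1
      have h5 := mul_le_mul_of_nonneg_left h4 (inv_pos.2 B0).le
      rw [mul_neg, inv_mul_cancel₀ B0.ne'] at h5
      have h6 := mul_neg_of_pos_of_neg (inv_pos.2 B0) hi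
      refine ⟨i, abs_lt.2 ⟨?_, ?_⟩⟩ <;> simp only [Pi.add_apply, Pi.smul_apply, smul_eq_mul] <;>
        linarith) fun _ => true
  refine ⟨fun i => c i * B⁻¹, δ, h1, fun i => mul_nonneg (h2 i) (inv_pos.2 B0).le, fun y hy => ?_⟩
  have := h3 _ ⟨_, ⟨y, hy, rfl⟩, rfl⟩
  simp only [Pi.add_apply, Pi.smul_apply, smul_eq_mul, sg, if_true, one_mul, mul_add, mul_one,
    Finset.sum_add_distrib, ← mul_assoc] at this
  linarith

variable {E : Type*} [AddCommGroup E] [Module ℝ E] [TopologicalSpace E] [IsTopologicalAddGroup E]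
  [ContinuousSMul ℝ E] [LocallyConvexSpace ℝ E] [T2Space E]

theorem dual {J : Type} [Fintype J] [Inhabited J] {Q : Set E} (hc : IsCompact Q) (hv : Convex ℝ Q)
    (hne : Q.Nonempty) (y : J → E) (h : ∀ t, ∃ s, t + y s ∉ Q) :
    ∃ (a : J → E →L[ℝ] ℝ) (c : J → ℝ), (∀ x, ∑ s, a s x = 0) ∧ (∀ x ∈ Q, ∀ s, a s x < c s) ∧
      ∑ s, c s = ∑ s, a s (y s) := by
  classical
  obtain ⟨f, u, v, h1, h2, h3⟩ := geometric_hahn_banach_compact_closed
    (s := Set.univ.pi fun s => (fun x => -y s + x) '' Q) (t := ⋂ s, {z : J → E | z s = z default})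
    (convex_pi fun s _ => hv.translate _) (isCompact_univ_pi fun s => hc.image (by fun_prop))
    (convex_iInter fun s x hx z hz p q _ _ _ => by
      simp only [Set.mem_ofPred_eq, Pi.add_apply, Pi.smul_apply] at hx hz ⊢
      rw [hx, hz])
    (isClosed_iInter fun s => isClosed_eq (continuous_apply s) (continuous_apply _))
    (Set.disjoint_left.2 fun z hz hz' => by
      obtain ⟨s, hs⟩ := h (z default)
      obtain ⟨x, hx, e⟩ := hz s trivial
      rw [← show z s = z default from Set.mem_iInter.1 hz' s, ← e] at hs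
      exact hs (by simpa using hx))
  let a : J → E →L[ℝ] ℝ := fun s => f.comp (ContinuousLinearMap.single ℝ (fun _ : J => E) s)
  have ha : ∀ z : J → E, ∑ s, a s (z s) = f z := fun z => by
    conv_rhs => rw [← Finset.univ_sum_single z, map_sum]
    rfl
  have h4 : ∀ x : E, v < f fun _ => x := fun x => h3 _ (Set.mem_iInter.2 fun _ => rfl)
  have h5 : v < 0 := by simpa using h3 0 (Set.mem_iInter.2 fun _ => rfl)
  choose x hx hx' using fun s => hc.exists_isMaxOn hne (a s).continuous.continuousOn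
  have h6 := h1 (fun s => -y s + x s) fun s _ => ⟨_, hx s, rfl⟩
  simp only [← ha, map_add, map_neg, Finset.sum_add_distrib, Finset.sum_neg_distrib] at h6
  have h7 : (0 : ℝ) < Fintype.card J := by exact_mod_cast Fintype.card_pos
  refine ⟨a, fun s => a s (x s) + (∑ s, a s (y s) - ∑ s, a s (x s)) / Fintype.card J,
    fun z => (ha fun _ => z).trans (by_contra fun h0 => ?_),
    fun z hz s => (hx' s hz).trans_lt (lt_add_of_pos_right _ (div_pos (by linarith) h7)), ?_⟩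
  · have := h4 ((v / f fun _ => z) • z)
    rw [show (fun _ => (v / f fun _ => z) • z) = (v / f fun _ => z) • fun _ : J => z from rfl,
      map_smul, smul_eq_mul, div_mul_cancel₀ _ h0] at this
    exact lt_irrefl _ this
  · rw [Finset.sum_add_distrib, Finset.sum_const, Finset.card_univ, nsmul_eq_mul,
      mul_div_cancel₀ _ h7.ne']
    ring

theorem cover_le {K : Set E} (hK : IsCompact K) (hKv : Convex ℝ K) (hne : K.Nonempty) {n : ℕ}
    {Q : Fin n → Set E} (hc : ∀ i, IsCompact (Q i)) (hv : ∀ i, Convex ℝ (Q i))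
    (hQ : ∀ i, (Q i).Nonempty) (hcov : ∀ x ∈ K, ∃ i, x ∈ Q i) {lam : Fin n → ℝ}
    (hl : ∀ i, 0 < lam i) (h : ∀ i t, ∃ x ∈ K, t + lam i • x ∉ Q i) : 1 ≤ ∑ i, lam i := by
  classical
  obtain ⟨x₀, hx₀⟩ := hne
  have h1 : ∀ i, ∃ F : Finset K, ∀ t, t + lam i • x₀ ∈ Q i → ∃ x ∈ F, t + lam i • (x : E) ∉ Q i := by
    intro i
    obtain ⟨F, hF⟩ := (hc i).elim_finite_subfamily_closed
      (fun x : K => {z | z - lam i • x₀ + lam i • (x : E) ∈ Q i})
      (fun x => (hc i).isClosed.preimage (by fun_prop)) (Set.eq_empty_of_forall_notMem fun z hz => by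
        obtain ⟨x, hx, hx'⟩ := h i (z - lam i • x₀)
        exact hx' (Set.mem_iInter.1 hz.2 ⟨x, hx⟩))
    refine ⟨F, fun t ht => by_contra fun hn => ?_⟩
    push Not at hn
    exact Set.eq_empty_iff_forall_notMem.1 hF _ ⟨ht, Set.mem_iInter₂.2 fun x hx => by
      simpa using hn x hx⟩
  choose F hF using h1
  obtain ⟨m, y, -, hy⟩ := (insert ⟨x₀, hx₀⟩ (Finset.univ.biUnion F)).finite_toSet.fin_param
  have hy' : ∀ x ∈ insert ⟨x₀, hx₀⟩ (Finset.univ.biUnion F), ∃ s, y s = x := fun x hx =>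
    hy.ge (Finset.mem_coe.2 hx)
  obtain ⟨s₀, hs₀⟩ := hy' _ (Finset.mem_insert_self _ _)
  let : Inhabited (Fin m) := ⟨s₀⟩
  choose a c a1 a2 a3 using fun i => dual (hc i) (hv i) (hQ i) (fun s => lam i • (y s : E)) fun t => by
    by_cases ht : t + lam i • x₀ ∈ Q i
    · obtain ⟨x, hx, hx'⟩ := hF i t ht
      obtain ⟨s, rfl⟩ := hy' x (by simpa using Or.inr ⟨i, hx⟩)
      exact ⟨s, hx'⟩
    · exact ⟨s₀, by rwa [hs₀]⟩
  have a4 : ∀ i, 0 < ∑ s, c i s := fun i => by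
    obtain ⟨x, hx⟩ := hQ i
    rw [← a1 i x]
    exact Finset.sum_lt_sum_of_nonempty Finset.univ_nonempty fun s _ => a2 i x hx s
  refine matrix_form (fun j i s => (a i s (y j) - c i s) / ∑ s, c i s) (fun j i => ?_) (fun τ => ?_)
    (fun _ s => s) lam hl fun i => ?_
  · rw [← Finset.sum_div, Finset.sum_sub_distrib, a1, zero_sub, neg_div, div_self (a4 i).ne']
  · obtain ⟨T, δ, b1, b2, b3⟩ := sep ((fun x i => (a i (τ i) x - c i (τ i)) / ∑ s, c i s) '' K)
      (hK.image (by fun_prop)) (by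
        rintro _ ⟨x, hx, rfl⟩ _ ⟨z, hz, rfl⟩ p q hp hq hpq
        refine ⟨p • x + q • z, hKv hx hz hp hq hpq, funext fun i => ?_⟩
        simp only [map_add, map_smul, Pi.add_apply, Pi.smul_apply, smul_eq_mul]
        rw [show q = 1 - p by linarith]
        ring) (by
        rintro _ ⟨x, hx, rfl⟩
        obtain ⟨i, hi⟩ := hcov x hx
        exact ⟨i, div_neg_of_neg_of_pos (sub_neg.2 (a2 i x hi _)) (a4 i)⟩)
    exact ⟨T, δ, b1, b2, fun j => b3 _ ⟨_, (y j).2, rfl⟩⟩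
  · have h1 := a3 i
    simp only [map_smul, smul_eq_mul, ← Finset.mul_sum] at h1
    have h2 := (a4 i).ne'
    have h3 := (hl i).ne'
    rw [← Finset.sum_div, Finset.sum_sub_distrib]
    field_simp
    linarith

omit [LocallyConvexSpace ℝ E] in
theorem exists_max {K Q : Set E} (hne : K.Nonempty) (hc : IsCompact Q) (hQ : Q.Nonempty) :
    ∃ (r : ℝ) (t : E), 0 ≤ r ∧ (∀ x ∈ K, t + r • x ∈ Q) ∧
      ∀ l, r < l → l ≤ 1 → ∀ t, ∃ x ∈ K, t + l • x ∉ Q := by
  obtain ⟨x₀, hx₀⟩ := hne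
  obtain ⟨p, hp⟩ := hQ
  obtain ⟨z, ⟨h1, h2⟩, h3⟩ := (((isCompact_Icc (a := (0 : ℝ)) (b := 1)).prod hc).inter_right
    (t := ⋂ x ∈ K, {z : ℝ × E | z.2 - z.1 • x₀ + z.1 • x ∈ Q})
    (isClosed_biInter fun x _ => hc.isClosed.preimage (by fun_prop))).exists_isMaxOn
    ⟨(0, p), ⟨⟨le_rfl, zero_le_one⟩, hp⟩, Set.mem_iInter₂.2 fun x _ => by simpa using hp⟩
    continuous_fst.continuousOn
  refine ⟨z.1, z.2 - z.1 • x₀, h1.1.1, Set.mem_iInter₂.1 h2, fun l a1 a2 t => by_contra fun hn => ?_⟩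
  push Not at hn
  exact not_le.2 a1 (h3 (a := (l, t + l • x₀)) ⟨⟨⟨h1.1.1.trans a1.le, a2⟩, hn _ hx₀⟩,
    Set.mem_iInter₂.2 fun x hx => by simpa using hn x hx⟩)

theorem kadets {K : Set E} (hK : IsCompact K) (hKv : Convex ℝ K) (hne : K.Nonempty) {n : ℕ}
    {C : Fin n → Set E} (hc : ∀ i, IsClosed (C i)) (hv : ∀ i, Convex ℝ (C i))
    (hC : ∀ i, (C i).Nonempty) (hcov : ∀ x ∈ K, ∃ i, x ∈ C i) :
    ∃ (r : Fin n → ℝ) (t : Fin n → E), (∀ i, 0 ≤ r i) ∧ 1 ≤ ∑ i, r i ∧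
      ∀ i, ∀ x ∈ K, t i + r i • x ∈ C i := by
  obtain ⟨x₀, hx₀⟩ := id hne
  choose p hp using hC
  let Q : Fin n → Set E := fun i => C i ∩ (K + segment ℝ 0 (p i - x₀))
  have q1 : ∀ i, IsCompact (Q i) := fun i => (hK.add (by
    rw [segment_eq_image]
    exact isCompact_Icc.image (by fun_prop))).inter_left (hc i)
  have q2 : ∀ i, (Q i).Nonempty := fun i =>
    ⟨p i, hp i, x₀, hx₀, _, right_mem_segment _ _ _, by simp⟩
  choose r t h1 h2 h3 using fun i => exists_max hne (q1 i) (q2 i)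
  refine ⟨r, t, h1, by_contra fun hn => ?_, fun i x hx => (h2 i x hx).1⟩
  have h4 : 0 < (1 - ∑ i, r i) / (n + 1) := div_pos (by linarith) (by positivity)
  have h5 : (1 - ∑ i, r i) / (n + 1) * (n + 1) = 1 - ∑ i, r i := div_mul_cancel₀ _ (by positivity)
  have h6 := mul_nonneg h4.le (Nat.cast_nonneg n)
  have h7 := cover_le hK hKv hne q1 (fun i => (hv i).inter (hKv.add (convex_segment _ _))) q2
    (fun x hx => (hcov x hx).imp fun i hi => ⟨hi, x, hx, 0, left_mem_segment _ _ _, add_zero x⟩)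
    (lam := fun i => r i + (1 - ∑ i, r i) / (n + 1)) (fun i => by linarith [h1 i])
    fun i => h3 i _ (by linarith) (by
      linarith [Finset.single_le_sum (f := r) (fun j _ => h1 j) (Finset.mem_univ i)])
  simp only [Finset.sum_add_distrib, Finset.sum_const, Finset.card_univ, Fintype.card_fin,
    nsmul_eq_mul] at h7
  linarith

end Pool.Agent.Lib.MP_70b2ae_gt.Kd
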