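import Pool.Agent.Lib.MP_70b2ae_gt.KdStar

/-! Removing the truncation, for a finite set of labels. -/

namespace Pool.Agent.Lib.MP_70b2ae_gt.Kd

open MeasureTheory Function Filter Topology Bg

set_option linter.unusedSectionVars false

variable {n : ℕ} {B c r : ℝ}

theorem top_one {g : (Fin n → ℝ) → ℝ} (hg : Adm B g)
    (htop : ∀ M : ℝ, ∃ T : Fin n → ℝ, (∀ i, 0 ≤ T i) ∧ M ≤ (∑ i, T i) / 2 - g T) :
    limX g (fun _ => some true) = 0 := by
  apply lim_zero
  rintro ⟨b, hb⟩
  obtain ⟨T, hT, hM⟩ := htop (b + n * B)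
  have hR : ∀ i, T i + 1 ≤ ∑ j, T j + 1 := fun i => by
    have := Finset.single_le_sum (f := T) (fun j _ => hT j) (Finset.mem_univ i)
    linarith
  have h1 := phi_ge hg (p := fun _ => pS (∑ j, T j + 1) (some true) 0) (fun i => ok_pS _ _ _)
    (fun i t => pS_nonneg _ _ _ _) T
  have h2 : ∏ i, Real.exp (T i / 2 - B) ≤ ∏ i, ∫ t, Real.exp (-(B * |t - T i|)) *
      pS (∑ j, T j + 1) (some true) 0 t ∂nu := by
    refine Finset.prod_le_prod (fun i _ => (Real.exp_pos _).le) fun i _ => ?_
    have := lim_int_ge hg.pos true (hT i) (hR i)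
    rwa [show sg true = 1 from rfl, one_mul] at this
  have h3 : X g (∑ j, T j + 1) (fun _ => some true) ≤ b := hb ⟨_, rfl⟩
  have h4 := le_trans (mul_le_mul_of_nonneg_left h2 (Real.exp_pos (-g T)).le) (le_trans h1 h3)
  rw [← Real.exp_sum, ← Real.exp_add, Finset.sum_sub_distrib, ← Finset.sum_div] at h4
  simp only [Finset.sum_const, Finset.card_univ, Fintype.card_fin, nsmul_eq_mul] at h4
  have h5 := Real.add_one_le_exp (-g T + ((∑ i, T i) / 2 - n * B))
  linarith

theorem pt_one {g : (Fin n → ℝ) → ℝ} (hg : Adm B g) (a : Fin n) (y : Fin n → ℝ) (κ : ℝ)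
    (hy : ∀ u, (∑ i, u i * y i) / 2 - κ ≤ g u) :
    (y a - 1) / 2 ≤ Real.exp κ * (1 / limX g (pt a true)) := by
  rcases le_or_gt ((y a - 1) / 2) 0 with hφ | hφ
  · exact le_trans hφ (mul_nonneg (Real.exp_pos _).le (one_div_nonneg.2 (lim_nonneg hg _)))
  have h1 : ∀ R, X g R (pt a true) ≤ Real.exp κ * (1 / ((y a - 1) / 2)) := by
    refine lim_bdd_of hg (R0 := 0) fun R hR => ?_
    have hp : ∀ i, Ok (pS R (pt a true i) 0) := fun i => ok_pS _ _ _
    have h2 : X g R (pt a true) ≤ Real.exp κ *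
        ∏ i, ∫ t, Real.exp (-(t * y i / 2)) * pS R (pt a true i) 0 t ∂nu := by
      rw [← integral_fintype_prod_eq_prod
        (fun i t => Real.exp (-(t * y i / 2)) * pS R (pt a true i) 0 t), ← integral_const_mul]
      refine integral_mono (phi_int hg hp) ((phi2_int (ψ := fun i t => Real.exp (-(t * y i / 2))) hp
        fun _ => by fun_prop).const_mul _) fun u => ?_
      dsimp only
      rw [Finset.prod_mul_distrib, ← Real.exp_sum, ← mul_assoc, ← Real.exp_add]
      refine mul_le_mul_of_nonneg_right (Real.exp_le_exp.2 ?_)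
        (Finset.prod_nonneg fun i _ => pS_nonneg _ _ _ _)
      rw [Finset.sum_neg_distrib, ← Finset.sum_div]
      linarith [hy u]
    refine h2.trans (mul_le_mul_of_nonneg_left ?_ (Real.exp_pos _).le)
    rw [Finset.prod_eq_single a (fun i _ hi => ?_) (by simp)]
    · have := lim_int_le true (y a) hR (by rwa [show sg true = 1 from rfl, one_mul])
      rw [show sg true = 1 from rfl, one_mul] at this
      rwa [show pt a true a = some true by simp [pt]]
    · rw [show pt a true i = none by simp [pt, update_of_ne hi]]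
      have h4 := int_dl fun t => Real.exp (-(t * y i / 2))
      simp only [zero_mul, zero_div, neg_zero, Real.exp_zero] at h4
      exact h4
  have hb : BddAbove (Set.range fun R => X g R (pt a true)) := ⟨_, by
    rintro _ ⟨R, rfl⟩
    exact h1 R⟩
  have h5 : limX g (pt a true) ≤ Real.exp κ * (1 / ((y a - 1) / 2)) := ciSup_le h1
  rw [mul_one_div, le_div_iff₀ hφ] at h5
  rw [mul_one_div, le_div_iff₀ (lim_pos hg hb)]
  linarith

variable {σ : Type} [Fintype σ] [DecidableEq σ] [Inhabited σ]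
  {g : (Fin n → σ) → (Fin n → ℝ) → ℝ}

/-- the untruncated integral, or zero if it diverges -/
noncomputable def LX (g : (Fin n → σ) → (Fin n → ℝ) → ℝ) (G : Sx (Fin n) σ) : ℝ :=
  limX (g (lab G)) (hat G)

theorem L_dn (hg : Fam B c r g) (G : Sx (Fin n) σ) (k : Fin n) (h : 0 < LX g G) :
    0 < LX g (update G k none) := by
  refine (lim_dn (hg.adm _) (hat G) k h).trans_eq (congrArg iSup (funext fun R => ?_))
  rw [show update (hat G) k none = hat (update G k none) from (hat_update G k none).symm]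
  refine X_eq hg _ fun i hi => ?_
  by_cases hk : i = k
  · simp [hk] at hi
  · simp [lab, hk]

theorem L_star (hg : Fam B c r g) (N : Fin n → Sx (Fin n) σ → ℝ)
    (hN : ∀ k G, N k G ≠ 0 → G k = none ∧ 0 < LX g G) : Stx (LX g) N := by
  have hz : ∀ k G, LX g G = 0 → N k G = 0 := fun k G h =>
    by_contra fun h1 => (hN k G h1).2.ne' h
  have hup : ∀ k m H, LX g H = 0 → ux k (N m) H = 0 := by
    intro k m H h
    unfold ux
    split_ifs with hk
    · refine Finset.sum_eq_zero fun b _ => by_contra fun h1 => ?_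
      have h2 := L_dn hg _ k (hN m _ h1).2
      rw [update_idem, ← hk, update_eq_self, h] at h2
      exact lt_irrefl _ h2
    · rfl
  have hm : ∀ G {c : ℝ}, (LX g G = 0 → c = 0) →
      Tendsto (fun R => XX g R G * c) atTop (𝓝 (LX g G * c)) :=
    fun G _ h => lim_tend_mul (hg.adm _) _ h
  have hL : Tendsto (fun R => ∑ H, XX g R H * ∑ k, ∑ m, ux k (N m) H * ux m (N k) H) atTop
      (𝓝 (∑ H, LX g H * ∑ k, ∑ m, ux k (N m) H * ux m (N k) H)) := by
    refine tendsto_finsetSum _ fun H _ => hm H fun h => ?_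
    refine Finset.sum_eq_zero fun k _ => Finset.sum_eq_zero fun m _ => ?_
    rw [hup k m H h, zero_mul]
  have hR1 : Tendsto (fun R => ∑ G, XX g R G * ∑ k, N k G ^ 2) atTop
      (𝓝 (∑ G, LX g G * ∑ k, N k G ^ 2)) := by
    refine tendsto_finsetSum _ fun G _ => hm G fun h => ?_
    refine Finset.sum_eq_zero fun k _ => ?_
    rw [hz k G h]
    norm_num
  have hD : ∀ k C, Tendsto (fun R => dx k (fun G => XX g R G * N k G) C) atTop
      (𝓝 (dx k (fun G => LX g G * N k G) C)) := by
    intro k C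
    unfold dx
    split_ifs
    · exact tendsto_const_nhds
    · exact hm _ (hz k _)
  have hR2 : Tendsto (fun R => ∑ C, (∑ k, dx k (fun G => XX g R G * N k G) C) ^ 2 / XX g R C) atTop
      (𝓝 (∑ C, (∑ k, dx k (fun G => LX g G * N k G) C) ^ 2 / LX g C)) := by
    refine tendsto_finsetSum _ fun C _ => ?_
    simp only [div_eq_mul_inv]
    exact ((tendsto_finsetSum _ fun k _ => hD k C).pow 2).mul (lim_tend_inv (hg.adm _) _)
  refine le_of_tendsto_of_tendsto hL (hR1.add hR2) ?_
  filter_upwards [eventually_gt_atTop (0 : ℝ)] with R hR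
  exact star_XX hg hR N fun k G h => (hN k G h).1

theorem core (hg : Fam B c r g)
    (htop : ∀ τ (M : ℝ), ∃ T : Fin n → ℝ, (∀ i, 0 ≤ T i) ∧ M ≤ (∑ i, T i) / 2 - g τ T)
    {κ : ℝ} (hκ : 0 ≤ κ) (y : Fin n → σ → ℝ)
    (hy : ∀ a s, ∃ Y : Fin n → ℝ, (Y a - 1) / 2 = y a s ∧
      ∀ u, (∑ i, u i * Y i) / 2 - κ ≤ g (lab (px a s)) u)
    (lam : Fin n → ℝ) (hl : ∀ a, 0 < lam a) (he : ∀ a, 1 + ∑ s, y a s = 1 / lam a) :
    1 ≤ Real.exp κ * ∑ a, lam a := by
  have h := alg (LX g) (fun G => lim_nonneg (hg.adm _) _) (lim_one (hg.adm _)) (L_dn hg)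
    (fun G hG => ?_) (L_star hg)
  · rw [Finset.mul_sum]
    refine le_trans h (Finset.sum_le_sum fun a _ => ?_)
    have h1 : ∑ s, y a s ≤ Real.exp κ * ∑ s, 1 / LX g (px a s) := by
      rw [Finset.mul_sum]
      refine Finset.sum_le_sum fun s _ => ?_
      obtain ⟨Y, h1, h2⟩ := hy a s
      have := pt_one (hg.adm _) a Y κ h2
      rwa [h1, show pt a true = hat (px a s) from (hat_update (fun _ => none) a (some s)).symm] at this
    have h2 : 0 ≤ ∑ s, 1 / LX g (px a s) :=
      Finset.sum_nonneg fun s _ => one_div_nonneg.2 (lim_nonneg (hg.adm _) _)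
    have h3 := Real.one_le_exp hκ
    have h4 := (div_le_iff₀ (hl a)).1 ((he a).ge.trans (add_le_add h3 h1))
    rw [div_le_iff₀ (by linarith)]
    linarith
  · have : hat G = fun _ => some true := funext fun i => by
      obtain ⟨s, hs⟩ := Option.ne_none_iff_exists'.1 (hG i)
      simp [hat, hs]
    rw [LX, this]
    exact top_one (hg.adm _) (htop _)

section

variable {J : Type} [Fintype J] [Nonempty J] {β : ℝ}

/-- the smoothed maximum -/
noncomputable def lse (β : ℝ) (x : J → ℝ) : ℝ :=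
  β⁻¹ * (Real.log (∑ j, Real.exp (β * x j)) - Real.log (Fintype.card J))

theorem lse_pos (β : ℝ) (x : J → ℝ) : 0 < ∑ j, Real.exp (β * x j) :=
  Finset.sum_pos (fun _ _ => Real.exp_pos _) Finset.univ_nonempty

theorem lse_zero : lse β (fun _ : J => 0) = 0 := by
  simp [lse]

theorem lse_le (hβ : 0 < β) {x x' : J → ℝ} {d : ℝ} (h : ∀ j, x j ≤ x' j + d) :
    lse β x ≤ lse β x' + d := by
  have h1 : ∑ j, Real.exp (β * x j) ≤ (∑ j, Real.exp (β * x' j)) * Real.exp (β * d) := by
    rw [Finset.sum_mul]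
    refine Finset.sum_le_sum fun j _ => ?_
    rw [← Real.exp_add, ← mul_add]
    exact Real.exp_le_exp.2 (mul_le_mul_of_nonneg_left (h j) hβ.le)
  have h2 := Real.log_le_log (lse_pos β x) h1
  rw [Real.log_mul (lse_pos β x').ne' (Real.exp_pos _).ne', Real.log_exp] at h2
  have h3 := mul_le_mul_of_nonneg_left h2 (inv_pos.2 hβ).le
  rw [mul_add, inv_mul_cancel_left₀ hβ.ne'] at h3
  simp only [lse, mul_sub]
  linarith

theorem lse_mid (hβ : 0 < β) (x x' : J → ℝ) :
    lse β (fun j => (x j + x' j) / 2) ≤ (lse β x + lse β x') / 2 := by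
  have h1 := Finset.sum_sq_le_sum_mul_sum_of_sq_le_mul Finset.univ
    (r := fun j => Real.exp (β * ((x j + x' j) / 2))) (f := fun j => Real.exp (β * x j))
    (g := fun j => Real.exp (β * x' j)) (fun _ _ => (Real.exp_pos _).le)
    (fun _ _ => (Real.exp_pos _).le) (fun j _ => by
      rw [sq, ← Real.exp_add, ← Real.exp_add]
      exact Real.exp_le_exp.2 (by linarith))
  have h2 := Real.log_le_log (pow_pos (lse_pos β _) 2) h1
  rw [Real.log_mul (lse_pos β x).ne' (lse_pos β x').ne', Real.log_pow] at h2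
  have h3 := mul_le_mul_of_nonneg_left h2 (inv_pos.2 hβ).le
  push_cast at h3
  simp only [lse, mul_sub]
  linarith

theorem lse_ge (hβ : 0 < β) (x : J → ℝ) (j : J) :
    x j - β⁻¹ * Real.log (Fintype.card J) ≤ lse β x := by
  have h2 := Real.log_le_log (Real.exp_pos _) (Finset.single_le_sum
    (f := fun j => Real.exp (β * x j)) (fun _ _ => (Real.exp_pos _).le) (Finset.mem_univ j))
  have h3 := mul_le_mul_of_nonneg_left h2 (inv_pos.2 hβ).le
  rw [Real.log_exp, inv_mul_cancel_left₀ hβ.ne'] at h3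
  simp only [lse, mul_sub]
  linarith

theorem lse_shift (hβ : 1 ≤ β) (x : J → ℝ) : ∃ w : J → ℝ, ∑ j, w j = 1 ∧
    ∀ (v : J → ℝ) (d : ℝ), (∀ j, |v j| ≤ d) → β * d ≤ 1 →
      |Real.exp (-lse β fun j => x j + v j) - Real.exp (-lse β x) * (1 - ∑ j, w j * v j)| ≤
        β * d ^ 2 * Real.exp (-lse β x) := by
  have hZ := lse_pos β x
  have hβ0 : 0 < β := by linarith
  let w : J → ℝ := fun j => Real.exp (β * x j) / ∑ j, Real.exp (β * x j)
  have w0 : ∀ j, 0 ≤ w j := fun j => div_nonneg (Real.exp_pos _).le hZ.le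
  have w1 : ∑ j, w j = 1 := by
    simp only [w]
    rw [← Finset.sum_div, div_self hZ.ne']
  refine ⟨w, w1, fun v d hv hd => ?_⟩
  have d0 : 0 ≤ d := (abs_nonneg _).trans (hv (Classical.arbitrary J))
  set A := ∑ j, w j * Real.exp (β * v j) with hA
  set p := ∑ j, w j * v j with hp
  have a1 : Real.exp (β * p) ≤ A := by
    have := convexOn_exp.map_sum_le (t := Finset.univ) (w := w) (p := fun j => β * v j)
      (fun j _ => w0 j) w1 fun _ _ => trivial
    simp only [smul_eq_mul] at this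
    refine le_of_eq_of_le ?_ this
    rw [hp, Finset.mul_sum]
    congr 1
    exact Finset.sum_congr rfl fun j _ => by ring
  have a0 : 0 < A := (Real.exp_pos _).trans_le a1
  have a2 : A ≤ 1 + β * p + (β * d) ^ 2 := by
    have : ∑ j, w j * (1 + β * v j + (β * d) ^ 2) = 1 + β * p + (β * d) ^ 2 := by
      simp only [mul_add, Finset.sum_add_distrib, ← Finset.sum_mul, w1, hp, Finset.mul_sum, one_mul]
      congr 2
      exact Finset.sum_congr rfl fun j _ => by ring
    rw [← this]
    refine Finset.sum_le_sum fun j _ => mul_le_mul_of_nonneg_left ?_ (w0 j)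
    have h1 : |β * v j| ≤ β * d := by
      rw [abs_mul, abs_of_pos hβ0]
      exact mul_le_mul_of_nonneg_left (hv j) hβ0.le
    have h2 := (abs_le.1 (Real.abs_exp_sub_one_sub_id_le (h1.trans hd))).2
    have h3 := sq_le_sq' (abs_le.1 h1).1 (abs_le.1 h1).2
    linarith
  have a3 : (lse β fun j => x j + v j) = lse β x + β⁻¹ * Real.log A := by
    have : ∑ j, Real.exp (β * (x j + v j)) = (∑ j, Real.exp (β * x j)) * A := by
      rw [hA, Finset.mul_sum]
      refine Finset.sum_congr rfl fun j _ => ?_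
      simp only [w]
      rw [mul_add, Real.exp_add]
      field_simp
    simp only [lse]
    rw [this, Real.log_mul hZ.ne' a0.ne']
    ring
  have a4 : |p| ≤ d := by
    refine (Finset.abs_sum_le_sum_abs _ _).trans (le_of_le_of_eq (Finset.sum_le_sum
      (g := fun j => w j * d) fun j _ => ?_) (by rw [← Finset.sum_mul, w1, one_mul]))
    rw [abs_mul, abs_of_nonneg (w0 j)]
    exact mul_le_mul_of_nonneg_left (hv j) (w0 j)
  have a5 : p ≤ β⁻¹ * Real.log A := by
    rw [le_inv_mul_iff₀ hβ0]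
    exact (Real.le_log_iff_exp_le a0).2 a1
  have a6 : β⁻¹ * Real.log A ≤ p + β * d ^ 2 := by
    rw [inv_mul_le_iff₀ hβ0]
    nlinarith [Real.log_le_sub_one_of_pos a0]
  have a7 : Real.exp (-p) ≤ 1 - p + β * d ^ 2 := by
    have h2 := (abs_le.1 (Real.abs_exp_sub_one_sub_id_le (x := -p)
      (by rw [abs_neg]; nlinarith))).2
    have h3 := sq_le_sq' (abs_le.1 a4).1 (abs_le.1 a4).2
    nlinarith [sq_nonneg d]
  rw [a3, neg_add, Real.exp_add, ← mul_sub, abs_mul, abs_of_pos (Real.exp_pos _), mul_comm]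
  refine mul_le_mul_of_nonneg_right (abs_le.2 ⟨?_, ?_⟩) (Real.exp_pos _).le
  · linarith [Real.add_one_le_exp (-(β⁻¹ * Real.log A))]
  · linarith [Real.exp_le_exp.2 (neg_le_neg a5)]

theorem fam_lse (hβ : 1 ≤ β) (y : J → Fin n → σ → ℝ) (hB : 1 ≤ B) (hy : ∀ j i s, |y j i s| ≤ B)
    (h1 : ∀ j i, ∑ s, y j i s = -1) :
    Fam (B + 1) (Fintype.card σ * (β * B ^ 2)) (β * B)⁻¹
      fun τ u => lse β fun j => ∑ i, u i * (y j i (τ i) + 1 / 2) := by
  have hβ0 : 0 < β := by linarith
  have hB0 : 0 < β * B := mul_pos hβ0 (by linarith)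
  refine ⟨fun τ => ⟨by linarith, by simpa using lse_zero, fun u v => ?_, fun u v => ?_⟩,
    fun τ τ' u h => ?_, inv_pos.2 hB0, fun τ k u t ht => ?_⟩
  · refine sub_le_iff_le_add'.2 (lse_le hβ0 fun j => ?_)
    rw [Finset.mul_sum, ← Finset.sum_add_distrib]
    refine Finset.sum_le_sum fun i _ => ?_
    have h2 : |y j i (τ i) + 1 / 2| ≤ B + 1 := by
      have := abs_le.1 (hy j i (τ i))
      exact abs_le.2 ⟨by linarith, by linarith⟩
    have h3 := mul_le_mul_of_nonneg_left h2 (abs_nonneg (u i - v i))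
    rw [← abs_mul] at h3
    linarith [le_abs_self ((u i - v i) * (y j i (τ i) + 1 / 2))]
  · refine le_of_eq_of_le ?_ (lse_mid hβ0 _ _)
    congr 1
    funext j
    rw [← Finset.sum_add_distrib, Finset.sum_div]
    exact Finset.sum_congr rfl fun i _ => by ring
  · congr 1
    funext j
    refine Finset.sum_congr rfl fun i _ => ?_
    by_cases hi : u i = 0
    · simp [hi]
    · rw [h i hi]
  · set x : J → ℝ := fun j => ∑ i, update u k 0 i * (y j i (τ i) + 1 / 2)
    obtain ⟨w, w1, hw⟩ := lse_shift hβ x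
    have e1 : ∀ s j, ∑ i, update u k t i * (y j i (update τ k s i) + 1 / 2) =
        x j + t * y j k s + t / 2 := fun s j => by
      simp only [x]
      rw [← Finset.add_sum_erase _ _ (Finset.mem_univ k), ← Finset.add_sum_erase _ _
        (Finset.mem_univ k), Finset.sum_congr rfl fun i hi => by
          rw [update_of_ne (Finset.ne_of_mem_erase hi), update_of_ne (Finset.ne_of_mem_erase hi),
            ← update_of_ne (Finset.ne_of_mem_erase hi) 0 u]]
      simp only [update_self]
      ring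
    have e2 : ∀ s, -(lse β fun j => x j + t * y j k s + t / 2) + t / 2 =
        -lse β fun j => x j + t * y j k s := fun s => by
      have a1 := lse_le hβ0 (x := fun j => x j + t * y j k s + t / 2)
        (x' := fun j => x j + t * y j k s) (d := t / 2) fun j => le_rfl
      have a2 := lse_le hβ0 (x' := fun j => x j + t * y j k s + t / 2)
        (x := fun j => x j + t * y j k s) (d := -(t / 2)) fun j => by linarith
      linarith
    have e3 : (Fintype.card σ : ℝ) + t = ∑ s : σ, (1 - ∑ j, w j * (t * y j k s)) := by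
      rw [Finset.sum_sub_distrib, Finset.sum_comm]
      simp only [← Finset.mul_sum, h1, ← Finset.sum_mul, w1]
      simp
    simp only [e1, e2]
    rw [e3, Finset.mul_sum, ← Finset.sum_sub_distrib]
    refine (Finset.abs_sum_le_sum_abs _ _).trans ((Finset.sum_le_sum fun s _ => hw _ (|t| * B)
      (fun j => ?_) ?_).trans_eq ?_)
    · rw [abs_mul]
      exact mul_le_mul_of_nonneg_left (hy j k s) (abs_nonneg t)
    · have := mul_le_mul_of_nonneg_left ht hB0.le
      rw [mul_inv_cancel₀ hB0.ne'] at this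
      linarith
    · simp only [Finset.sum_const, Finset.card_univ, nsmul_eq_mul, mul_pow, sq_abs]
      ring

/-- The matrix form of the inequality. -/
theorem matrix_form (y : J → Fin n → σ → ℝ) (h1 : ∀ j i, ∑ s, y j i s = -1)
    (h2 : ∀ τ : Fin n → σ, ∃ (T : Fin n → ℝ) (δ : ℝ), 0 < δ ∧ (∀ i, 0 ≤ T i) ∧
      ∀ j, ∑ i, T i * y j i (τ i) ≤ -δ)
    (v : Fin n → σ → J) (lam : Fin n → ℝ) (hl : ∀ a, 0 < lam a)
    (he : ∀ a, 1 + ∑ s, y (v a s) a s = 1 / lam a) : 1 ≤ ∑ a, lam a := by
  obtain ⟨B, hB⟩ := (Set.finite_range fun q : J × Fin n × σ => |y q.1 q.2.1 q.2.2|).bddAbove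
  have hL : 0 ≤ Real.log (Fintype.card J) := Real.log_natCast_nonneg _
  have key : ∀ β : ℝ, 1 ≤ β →
      1 ≤ Real.exp (β⁻¹ * Real.log (Fintype.card J)) * ∑ a, lam a := fun β hβ => by
    have hβ0 : 0 < β := by linarith
    refine core (fam_lse hβ y (le_max_left 1 B) (fun j i s => le_max_of_le_right (hB ⟨(j, i, s), rfl⟩))
      h1) (fun τ M => ?_) (by positivity) _ (fun a s => ⟨fun i => 2 * y (v a s) i (lab (px a s) i) + 1,
        by simp [lab, px], fun u => le_of_eq_of_le ?_ (lse_ge hβ0 _ (v a s))⟩) lam hl he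
    · obtain ⟨T, δ, a1, a2, a3⟩ := h2 τ
      have a4 : 0 ≤ |M| / δ := by positivity
      refine ⟨fun i => |M| / δ * T i, fun i => mul_nonneg a4 (a2 i), ?_⟩
      have a5 := lse_le hβ0 (x := fun j => ∑ i, |M| / δ * T i * (y j i (τ i) + 1 / 2))
        (x' := fun _ => 0) (d := (∑ i, |M| / δ * T i) / 2 - |M|) fun j => by
          have := mul_le_mul_of_nonneg_left (a3 j) a4
          rw [mul_neg, div_mul_cancel₀ _ a1.ne', Finset.mul_sum] at this
          simp only [mul_add, Finset.sum_add_distrib, mul_assoc]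
          rw [← Finset.mul_sum, ← Finset.mul_sum, ← Finset.mul_sum, ← Finset.sum_mul]
          rw [← Finset.mul_sum] at this
          linarith
      rw [lse_zero] at a5
      linarith [le_abs_self M]
    · rw [Finset.sum_div]
      congr 1
      exact Finset.sum_congr rfl fun i _ => by ring
  have := ((Real.continuous_exp.tendsto _).comp
    (tendsto_inv_atTop_zero.mul_const (Real.log (Fintype.card J)))).mul_const (∑ a, lam a)
  simpa using ge_of_tendsto this ((eventually_ge_atTop 1).mono key)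

end

end Pool.Agent.Lib.MP_70b2ae_gt.Kd
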