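import Pool.Agent.Lib.MP_70b2ae_gt.KdAlg
import Pool.Agent.Lib.MP_70b2ae_gt.BgLim

/-! The quadratic inequality for a finite set of labels. -/

namespace Pool.Agent.Lib.MP_70b2ae_gt.Kd

open MeasureTheory Function Filter Topology Bg

set_option linter.unusedSectionVars false

variable {n : ℕ} {σ : Type} [Fintype σ] [DecidableEq σ] [Inhabited σ]

/-- the support of a state, as a sign vector -/
def hat (G : Sx (Fin n) σ) : St (Fin n) := fun i => (G i).map fun _ => true

/-- a full labelling that extends a state -/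
def lab (G : Sx (Fin n) σ) : Fin n → σ := fun i => (G i).getD default

/-- a compatible family of admissible functions whose first order terms add up -/
structure Fam (B c r : ℝ) (g : (Fin n → σ) → (Fin n → ℝ) → ℝ) : Prop where
  adm : ∀ τ, Adm B (g τ)
  cmp : ∀ τ τ' u, (∀ i, u i ≠ 0 → τ i = τ' i) → g τ u = g τ' u
  pos : 0 < r
  sm : ∀ τ k u t, |t| ≤ r → |∑ s, Real.exp (-g (update τ k s) (update u k t) + t / 2) -
    Real.exp (-g τ (update u k 0)) * (Fintype.card σ + t)| ≤
      c * t ^ 2 * Real.exp (-g τ (update u k 0))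

/-- the truncated orthant integral of a state -/
noncomputable def XX (g : (Fin n → σ) → (Fin n → ℝ) → ℝ) (R : ℝ) (G : Sx (Fin n) σ) : ℝ :=
  X (g (lab G)) R (hat G)

variable {B c r R : ℝ} {g : (Fin n → σ) → (Fin n → ℝ) → ℝ} {N : Fin n → Sx (Fin n) σ → ℝ}

theorem hat_none {G : Sx (Fin n) σ} {i : Fin n} : hat G i = none ↔ G i = none := by
  simp [hat]

theorem hat_update (G : Sx (Fin n) σ) (k : Fin n) (o : Option σ) :
    hat (update G k o) = update (hat G) k (o.map fun _ => true) := by
  funext i
  by_cases h : i = k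
  · subst h
    simp [hat]
  · simp [hat, h]

theorem lab_update (G : Sx (Fin n) σ) (k : Fin n) (s : σ) :
    lab (update G k (some s)) = update (lab G) k s := by
  funext i
  by_cases h : i = k
  · subst h
    simp [lab]
  · simp [lab, h]

theorem X_eq (hg : Fam B c r g) (G : Sx (Fin n) σ) {τ : Fin n → σ}
    (h : ∀ i, G i ≠ none → τ i = lab G i) : X (g τ) R (hat G) = XX g R G := by
  unfold XX X Phi
  congr 1
  funext u
  by_cases h0 : ∏ i, pS R (hat G i) 0 (u i) = 0
  · rw [h0, mul_zero, mul_zero]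
  · rw [hg.cmp τ (lab G) u fun i hi => h i fun hc => ?_]
    have := Finset.prod_ne_zero_iff.1 h0 i (Finset.mem_univ i)
    rw [hat_none.2 hc] at this
    exact this (if_neg hi)

theorem ok_cmul {p ψ : ℝ → ℝ} (hp : Ok p) (hψ : Continuous ψ) : Ok fun t => ψ t * p t := by
  obtain ⟨mp, M, hM⟩ := hp
  obtain ⟨L, hL⟩ := (isCompact_Icc (a := -M) (b := M)).exists_bound_of_continuousOn hψ.continuousOn
  have M0 : 0 ≤ M := (abs_nonneg _).trans (hM 0).1
  have h0 : 0 ≤ |L| * M := mul_nonneg (abs_nonneg _) M0
  refine ⟨hψ.measurable.mul mp, M + |L| * M, fun t => ⟨?_, fun h => ?_⟩⟩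
  · rcases le_or_gt |t| M with h | h
    · have := mul_le_mul ((hL t (abs_le.1 h)).trans (le_abs_self L)) (hM t).1 (abs_nonneg _)
        (abs_nonneg _)
      rw [Real.norm_eq_abs, ← abs_mul] at this
      linarith
    · simp only [(hM t).2 h, mul_zero, abs_zero]
      linarith
  · simp only [(hM t).2 (by linarith), mul_zero]

theorem int_poly (m c : ℝ) {z : ℝ} (hz : z ≤ R) :
    ∫ t, Real.exp (-(t / 2)) * (m + t + c * t ^ 2) * pw R true z t ∂nu =
      (m * R + R ^ 2 / 2 + c * R ^ 3 / 3) - (m * z + z ^ 2 / 2 + c * z ^ 3 / 3) := by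
  rw [int_pw (ψ := fun t => Real.exp (-(t / 2)) * (m + t + c * t ^ 2)) (by fun_prop) true hz]
  have e : ∀ t : ℝ, Real.exp (-(sg true * t / 2)) * (m + sg true * t + c * (sg true * t) ^ 2) *
      Real.exp (t / 2) = m + t + c * t ^ 2 := fun t => by
    rw [show sg true = 1 from rfl, one_mul, mul_right_comm, ← Real.exp_add]
    simp
  simp only [e]
  refine intervalIntegral.integral_eq_sub_of_hasDerivAt
    (f := fun t => m * t + t ^ 2 / 2 + c * t ^ 3 / 3) (fun t _ => ?_)
    ((by fun_prop : Continuous fun t : ℝ => m + t + c * t ^ 2).intervalIntegrable _ _)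
  refine ((((hasDerivAt_id t).const_mul m).add ((hasDerivAt_pow 2 t).div_const 2)).add
    (((hasDerivAt_pow 3 t).const_mul c).div_const 3)).congr_deriv ?_
  push_cast
  ring

/-- the symmetric difference of the shifted densities -/
noncomputable def bb (R w t : ℝ) : ℝ :=
  (pw R true 0 t - pw R true w t) + (pw R true 0 t - pw R true (-w) t)

theorem ok_bb (R w : ℝ) : Ok (bb R w) :=
  ((ok_pw _ _ _).sub (ok_pw _ _ _)).add ((ok_pw _ _ _).sub (ok_pw _ _ _))

theorem bb_abs (R w : ℝ) : bb R |w| = bb R w := by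
  rcases abs_choice w with h | h <;> rw [h]
  funext t
  simp only [bb, neg_neg]
  ring

theorem diag_le (hg : Fam B c r g) {p : Fin n → ℝ → ℝ} (hp : ∀ i, Ok (p i))
    (h0 : ∀ i t, 0 ≤ p i t) (τ : Fin n → σ) (k : Fin n) {w : ℝ} (hw : 0 ≤ w) (h1 : w ≤ R)
    (h2 : w ≤ r) : ∑ s, Phi (g (update τ k s)) (update p k (bb R w)) ≤
      (w ^ 2 + 2 * c * w ^ 3 / 3) * Phi (g τ) (update p k dl) := by
  set m : ℝ := (Fintype.card σ : ℝ) with hm
  have c1 : ∀ c : ℝ, Continuous fun t : ℝ => Real.exp (-(t / 2)) * (m + t + c * t ^ 2) :=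
    fun c => by fun_prop
  let a : ℝ → ℝ := fun t =>
    Real.exp (-(t / 2)) * (m + t + c * t ^ 2) * (pw R true 0 t - pw R true w t) +
      Real.exp (-(t / 2)) * (m + t + -c * t ^ 2) * (pw R true 0 t - pw R true (-w) t)
  have ha : Ok a := (ok_cmul ((ok_pw _ _ _).sub (ok_pw _ _ _)) (c1 c)).add
    (ok_cmul ((ok_pw _ _ _).sub (ok_pw _ _ _)) (c1 (-c)))
  have hi : ∫ t, a t ∂nu = w ^ 2 + 2 * c * w ^ 3 / 3 := by
    have i := fun c z => (ok_pw R true z).int (c1 c)
    have j : ∀ c z : ℝ, Integrable (fun t => Real.exp (-(t / 2)) * (m + t + c * t ^ 2) *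
        pw R true 0 t - Real.exp (-(t / 2)) * (m + t + c * t ^ 2) * pw R true z t) nu :=
      fun c z => (i c 0).sub (i c z)
    simp only [a, mul_sub]
    rw [integral_add (j _ _) (j _ _), integral_sub (i _ _) (i _ _), integral_sub (i _ _) (i _ _),
      int_poly _ _ (hw.trans h1), int_poly _ _ h1, int_poly _ _ (hw.trans h1),
      int_poly _ _ (by linarith : -w ≤ R)]
    ring
  have i := fun s => phi_int (hg.adm (update τ k s)) (phi2_ok hp k (ok_bb R w))
  rw [← hi, ← phi_fub]
  unfold Phi
  rw [← integral_finsetSum _ fun s _ => i s]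
  refine integral_mono (integrable_finsetSum _ fun s _ => i s)
    (phi_int ((hg.adm τ).phi2_adm k) (phi2_ok hp k ha)) fun u => ?_
  simp only [phi2_prod, ← mul_assoc, ← Finset.sum_mul]
  refine mul_le_mul_of_nonneg_right ?_ (Finset.prod_nonneg fun i _ => h0 i _)
  rcases le_or_gt |u k| r with h | h
  · have h3 := abs_le.1 (hg.sm τ k u (u k) h)
    simp only [update_eq_self, Real.exp_add, ← Finset.sum_mul] at h3
    have h4 := sub_nonneg.2 (sa_anti R true hw (u k))
    have h5 := sub_nonpos.2 (sa_anti R true (neg_nonpos.2 hw) (u k))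
    have h6 : Real.exp (u k / 2) * Real.exp (-(u k / 2)) = 1 := by
      rw [← Real.exp_add]
      simp
    have h7 := Real.exp_pos (-(u k / 2))
    simp only [a, bb]
    generalize pw R true 0 (u k) - pw R true w (u k) = d at *
    generalize pw R true 0 (u k) - pw R true (-w) (u k) = d' at *
    generalize ∑ s, Real.exp (-g (update τ k s) u) = E at *
    generalize Real.exp (-g τ (update u k 0)) = F at *
    generalize Real.exp (-(u k / 2)) = q at *
    generalize Real.exp (u k / 2) = q' at *
    have a1 := mul_le_mul_of_nonneg_right h3.2 (mul_nonneg h7.le h4)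
    have a2 := mul_le_mul_of_nonpos_right h3.1 (mul_nonpos_of_nonneg_of_nonpos h7.le h5)
    have a3 : E * (d + d') = E * (q' * q) * (d + d') := by rw [h6, mul_one]
    rw [a3]
    nlinarith
  · have h3 : ∀ z, |z| = w → pw R true 0 (u k) - pw R true z (u k) = 0 := fun z hz =>
      by_contra fun hc => by linarith [sa_supp hc]
    simp only [a, bb, h3 w (abs_of_nonneg hw), h3 (-w) ((abs_neg w).trans (abs_of_nonneg hw))]
    simp

/-- the coefficients of the expansion -/
noncomputable def FX (g : (Fin n → σ) → (Fin n → ℝ) → ℝ) (R : ℝ) (N : Fin n → Sx (Fin n) σ → ℝ)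
    (C : Sx (Fin n) σ) : Finset (Fin n) → ℝ → ℝ :=
  FC (g (lab C)) R (fun i _ => dx i (N i) C) (hat C)

/-- their limits -/
noncomputable def YX (g : (Fin n → σ) → (Fin n → ℝ) → ℝ) (R : ℝ) (N : Fin n → Sx (Fin n) σ → ℝ)
    (C : Sx (Fin n) σ) (S : Finset (Fin n)) : ℝ :=
  (∏ i ∈ S, dx i (N i) C) * XX g R (S.piecewise (fun _ => none) C)

theorem zC_eq (C : Sx (Fin n) σ) (i : Fin n) :
    zC (fun i _ => dx i (N i) C) (hat C) i = dx i (N i) C := by
  by_cases h : C i = none <;> simp [zC, dn, dx, hat_none, h]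

theorem sx_FX (hg : Fam B c r g) (hR : 0 < R) (C : Sx (Fin n) σ) (S : Finset (Fin n)) :
    Tendsto (FX g R N C S) (𝓝[≠] 0) (𝓝 (YX g R N C S)) := by
  have h := st_FC (N := fun i _ => dx i (N i) C) (hg.adm (lab C)) hR (hat C) S
  have e : S.piecewise (fun _ => none) (hat C) = hat (S.piecewise (fun _ => none) C) := by
    funext i
    by_cases h : i ∈ S <;> simp [hat, h]
  simp only [YC, zC_eq, e] at h
  rw [X_eq hg _ fun i hi => ?_] at h
  · exact h
  · by_cases h : i ∈ S
    · simp [h] at hi
    · simp [lab, h]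

theorem sx_diag (hg : Fam B c r g) (hR : 0 < R) (hN : ∀ k G, N k G ≠ 0 → G k = none) (k : Fin n) :
    ∀ᶠ e in 𝓝[≠] (0 : ℝ), ∑ C, e⁻¹ * (FX g R N C {k} e - FX g R N C {k} (-e)) ≤
      ∑ G, XX g R G * (N k G ^ 2 + |e| * (2 * c * |N k G| ^ 3 / 3)) := by
  filter_upwards [sa_ne, eventually_all.2 fun H => sa_small hR (N k H),
    eventually_all.2 fun H => sa_small hg.pos (N k H)] with e he h1 h2
  have h := up_adj k (fun C => e⁻¹ * (FX g R N C {k} e - FX g R N C {k} (-e))) fun _ => 1
  have e1 : ∀ C : Sx (Fin n) σ,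
      e⁻¹ * (FX g R N C {k} e - FX g R N C {k} (-e)) * dx k (fun _ => 1) C =
      e⁻¹ * (FX g R N C {k} e - FX g R N C {k} (-e)) := fun C => by
    unfold dx
    split_ifs with c
    · simp [FX, FC, Finset.piecewise_singleton, hat_none.2 c, ah_none]
    · rw [mul_one]
  simp only [e1, mul_one] at h
  rw [← h]
  refine Finset.sum_le_sum fun H _ => ?_
  unfold ux
  split_ifs with hc
  · have hp : ∀ i, Ok (pS R (hat H i) 0) := fun i => ok_pS _ _ _
    have e2 : ∀ s f, FX g R N (update H k (some s)) {k} f = Phi (g (update (lab H) k s))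
        (update (fun i => pS R (hat H i) 0) k (ah R (some true) (N k H) f)) := fun s f => by
      have e3 : update H k none = H := by rw [← hc, update_eq_self]
      unfold FX FC
      simp only [zC_eq, lab_update]
      congr 1
      funext i
      by_cases hi : i = k
      · subst hi
        simp [dx, e3, hat]
      · simp [hi, hat]
    have e4 : ∀ s, e⁻¹ * (FX g R N (update H k (some s)) {k} e -
        FX g R N (update H k (some s)) {k} (-e)) = e⁻¹ ^ 2 * Phi (g (update (lab H) k s))
          (update (fun i => pS R (hat H i) 0) k (bb R |e * N k H|)) := fun s => by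
      have i := fun f => phi_int (hg.adm (update (lab H) k s))
        (phi2_ok hp k (ok_ah R (some true) (N k H) f))
      rw [e2, e2, bb_abs]
      unfold Phi
      rw [← integral_sub (i _) (i _), ← integral_const_mul, ← integral_const_mul]
      congr 1
      funext u
      simp only [phi2_prod, ah, bb, pS, inv_neg, neg_mul]
      ring
    simp only [e4, ← Finset.mul_sum]
    have h3 := diag_le hg hp (fun i t => pS_nonneg _ _ _ _) (lab H) k (abs_nonneg _) (h1 H) (h2 H)
    have e5 : update (fun i => pS R (hat H i) 0) k dl = fun i => pS R (hat H i) 0 := by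
      funext i
      by_cases hi : i = k
      · subst hi
        simp [hat_none.2 hc, pS]
      · simp [hi]
    rw [e5] at h3
    refine (mul_le_mul_of_nonneg_left h3 (sq_nonneg _)).trans_eq ?_
    have e6 : e ^ 2 = |e| ^ 2 := (sq_abs e).symm
    have e7 : |e| ≠ 0 := abs_ne_zero.2 he
    rw [abs_mul, inv_pow, e6, ← sq_abs (N k H)]
    change _ * (_ * XX g R H) = _
    field_simp
  · have : N k H = 0 := by_contra fun h => hc (hN k H h)
    simp [this]

theorem sx_Y1 (C : Sx (Fin n) σ) (k : Fin n) :
    YX g R N C {k} = dx k (fun G => XX g R G * N k G) C := by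
  simp only [YX, Finset.prod_singleton, Finset.piecewise_singleton, dx]
  split_ifs
  · rw [zero_mul]
  · rw [mul_comm]

theorem sx_Y2 (hN : ∀ k G, N k G ≠ 0 → G k = none) (k m : Fin n) :
    ∑ C, (if k = m then 0 else YX g R N C {k, m}) =
      ∑ H, XX g R H * (ux k (N m) H * ux m (N k) H) := by
  by_cases h : k = m
  · subst h
    simp only [if_true]
    refine Finset.sum_congr rfl fun H _ => ?_
    have : ∀ s, N k (update H k (some s)) = 0 := fun s => by_contra fun c => by simpa using hN _ _ c
    simp [ux, this]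
  · have h' : m ≠ k := Ne.symm h
    have e1 : ∀ C, YX g R N C {k, m} =
        (dx k (N k) C * dx m (N m) C) * dx m (dx k (XX g R)) C := fun C => by
      simp only [YX, Finset.prod_pair h, Finset.piecewise_insert, Finset.piecewise_singleton]
      by_cases c1 : C k = none
      · simp [dx, c1]
      · by_cases c2 : C m = none
        · simp [dx, c2]
        · simp [dx, c1, c2, h]
    simp only [h, if_false, e1]
    rw [← up_adj, ← up_adj]
    refine Finset.sum_congr rfl fun H _ => ?_
    rw [mul_comm]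
    congr 1
    by_cases c1 : H k = none
    · by_cases c2 : H m = none
      · have e3 : update H k none = H := by rw [← c1, update_eq_self]
        have e4 : ∀ s, update (update H k s) m none = update H k s := fun s => by
          rw [← c2, ← update_of_ne h' s H, update_eq_self]
        have e5 : ∀ s t, update (update (update H k s) m t) k none = update H m t := fun s t => by
          rw [update_comm h, update_idem, update_comm h', e3]
        simp [ux, dx, c1, c2, h, h', e4, e5, Finset.sum_mul_sum, mul_comm]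
      · simp [ux, c2, h']
    · simp [ux, c1]

theorem star_XX (hg : Fam B c r g) (hR : 0 < R) (N : Fin n → Sx (Fin n) σ → ℝ)
    (hN : ∀ k G, N k G ≠ 0 → G k = none) : Stx (XX g R) N := by
  have h0 : ∀ C e, FX g R N C ∅ e = XX g R C := fun C e => by simp [FX, FC, XX, X]
  have a1 := tendsto_finsetSum Finset.univ fun C _ =>
    sa_even (fun S => sx_FX (N := N) hg hR C S) (h0 C)
  have a2 := tendsto_finsetSum Finset.univ fun k _ => tendsto_finsetSum Finset.univ fun G _ =>
    ((st_abs (2 * c * |N k G| ^ 3 / 3)).const_add (N k G ^ 2)).const_mul (XX g R G)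
  have a3 := tendsto_finsetSum Finset.univ fun C _ =>
    ((sa_odd (fun S => sx_FX (N := N) hg hR C S) (h0 C)).pow 2).div_const (4 * XX g R C)
  have a4 := le_of_tendsto_of_tendsto a1 (a2.add a3) (by
    filter_upwards [sa_ne, eventually_all.2 (sx_diag hg hR hN)] with e he h
    simp only [Finset.sum_add_distrib]
    rw [add_comm, Finset.sum_comm]
    exact add_le_add (Finset.sum_le_sum fun k _ => h k)
      (Finset.sum_le_sum fun C _ => st_ineq (hg.adm _) hR (hat C) he))
  have b1 : ∑ C, ∑ k, ∑ m, (if k = m then 0 else YX g R N C {k, m}) =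
      ∑ H, XX g R H * ∑ k, ∑ m, ux k (N m) H * ux m (N k) H := by
    simp only [Finset.mul_sum]
    rw [Finset.sum_comm, Finset.sum_comm (s := (Finset.univ : Finset (Sx (Fin n) σ)))]
    refine Finset.sum_congr rfl fun k _ => ?_
    rw [Finset.sum_comm, Finset.sum_comm (s := (Finset.univ : Finset (Sx (Fin n) σ)))]
    exact Finset.sum_congr rfl fun m _ => sx_Y2 hN k m
  have b2 : ∑ k, ∑ G, XX g R G * N k G ^ 2 = ∑ G, XX g R G * ∑ k, N k G ^ 2 := by
    simp only [Finset.mul_sum]
    exact Finset.sum_comm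
  have b3 : ∀ C, (-2 * ∑ k, YX g R N C {k}) ^ 2 / (4 * XX g R C) =
      (∑ k, dx k (fun G => XX g R G * N k G) C) ^ 2 / XX g R C := fun C => by
    have : XX g R C ≠ 0 := (X_pos (hg.adm _) hR _).ne'
    simp only [sx_Y1]
    field_simp
    ring
  simp only [add_zero, b1, b2, b3] at a4
  exact a4

end Pool.Agent.Lib.MP_70b2ae_gt.Kd
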