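import Mathlib
import Pool.Agent.Lib.MP_70b2ae_gt.Good

namespace Pool.Agent.Lib.MP_70b2ae_gt

open Finset Pointwise

variable {E : Type} [NormedAddCommGroup E] [InnerProductSpace ℝ E]

/-- The data of Bang's argument with a loss, closed under Minkowski sums; `h` plays the role of
half the width. -/
def LB (κ : ℝ) (X : Set E) (h : E → ℝ) : Prop :=
  ∀ (ι : Type) [Fintype ι] (a : ι → E), ∃ ρ g : ι → ℝ,
    (∀ i, 0 ≤ ρ i ∧ 0 ≤ g i ∧ ρ i + h (a i) ≤ g i) ∧ ∀ θ : ι → ℝ, (∀ i, 0 < θ i) →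
      ∃ (y : ι → E) (L : ℝ), 0 ≤ L ∧ L ≤ ∑ i, θ i * ρ i ∧
        (∀ i l, inner ℝ (a i) (y l) = inner ℝ (a l) (y i)) ∧
        (∀ i, 0 ≤ inner ℝ (a i) (y i) ∧ g i ^ 2 ≤ 4 * κ * L * inner ℝ (a i) (y i)) ∧
        ∃ w : E, ∀ ε : ι → ℝ, (∀ i, ε i = 1 ∨ ε i = -1) → w + ∑ i, (ε i * θ i) • y i ∈ X

theorem LB.mono {κ : ℝ} {X X' : Set E} {h h' : E → ℝ} (H : LB κ X h) (h1 : X ⊆ X')
    (h2 : ∀ a, h' a ≤ h a) : LB κ X' h' := by
  intro ι _ a
  obtain ⟨ρ, g, a1, a2⟩ := H ι a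
  refine ⟨ρ, g, fun i => ⟨(a1 i).1, (a1 i).2.1, by linarith [(a1 i).2.2, h2 (a i)]⟩,
    fun θ hθ => ?_⟩
  obtain ⟨y, L, b1, b2, b3, b4, w, b5⟩ := a2 θ hθ
  exact ⟨y, L, b1, b2, b3, b4, w, fun ε hε => h1 (b5 ε hε)⟩

theorem LB.point (κ : ℝ) (x : E) : LB κ {x} fun _ => 0 := by
  intro ι _ a
  exact ⟨fun _ => 0, fun _ => 0, by simp, fun θ _ =>
    ⟨fun _ => 0, 0, le_rfl, by simp, by simp, by simp, x, by simp⟩⟩

theorem LB.add {κ : ℝ} (hκ : 0 ≤ κ) {X X' : Set E} {h h' : E → ℝ} (H : LB κ X h)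
    (H' : LB κ X' h') : LB κ (X + X') fun a => h a + h' a := by
  intro ι _ a
  obtain ⟨ρ, g, a1, a2⟩ := H ι a
  obtain ⟨ρ', g', a1', a2'⟩ := H' ι a
  refine ⟨fun i => ρ i + ρ' i, fun i => g i + g' i, fun i => ⟨add_nonneg (a1 i).1 (a1' i).1,
    add_nonneg (a1 i).2.1 (a1' i).2.1, by linarith [(a1 i).2.2, (a1' i).2.2]⟩, fun θ hθ => ?_⟩
  obtain ⟨y, L, b1, b2, b3, b4, w, b5⟩ := a2 θ hθ
  obtain ⟨y', L', b1', b2', b3', b4', w', b5'⟩ := a2' θ hθ
  refine ⟨fun i => y i + y' i, L + L', add_nonneg b1 b1', ?_, fun i l => ?_, fun i => ?_, w + w',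
    fun ε hε => ⟨_, b5 ε hε, _, b5' ε hε, ?_⟩⟩
  · simp only [mul_add, Finset.sum_add_distrib]; linarith
  · rw [inner_add_right, inner_add_right, b3, b3']
  · rw [inner_add_right]
    obtain ⟨c1, c2⟩ := b4 i
    obtain ⟨c1', c2'⟩ := b4' i
    refine ⟨add_nonneg c1 c1', ?_⟩
    set q := inner ℝ (a i) (y i)
    set q' := inner ℝ (a i) (y' i)
    have d1 : 0 ≤ 4 * κ * L * q' := by positivity
    have d2 : 0 ≤ 4 * κ * L' * q := by positivity
    have d3 : (g i * g' i) ^ 2 ≤ (4 * κ * L * q') * (4 * κ * L' * q) := by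
      calc (g i * g' i) ^ 2 = g i ^ 2 * g' i ^ 2 := by ring
        _ ≤ (4 * κ * L * q) * (4 * κ * L' * q') :=
          mul_le_mul c2 c2' (sq_nonneg _) (by positivity)
        _ = _ := by ring
    have d4 : 2 * (g i * g' i) ≤ 4 * κ * L * q' + 4 * κ * L' * q := by
      refine abs_le_of_sq_le_sq' ?_ (by positivity) |>.2
      nlinarith [sq_nonneg (4 * κ * L * q' - 4 * κ * L' * q)]
    nlinarith
  · simp only [smul_add, Finset.sum_add_distrib]
    abel

/-- The plank inequality with the loss factor `κ`. -/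
theorem LB.plank {κ : ℝ} (hκ : 0 < κ) {X : Set E} {h : E → ℝ} (H : LB κ X h) {ι : Type}
    [Fintype ι] (a : ι → E) (ω m : ι → ℝ) (hh : ∀ i, 0 < h (a i)) (h0 : ∀ i, 0 < ω i)
    (h1 : ∑ i, ω i ≤ 1) : ∃ x ∈ X, ∀ i, ω i * h (a i) ≤ κ * |inner ℝ (a i) x - m i| := by
  classical
  obtain ⟨ρ, g, a1, a2⟩ := H ι a
  let θ : ι → ℝ := fun i => ω i * (4 * h (a i)) / (ρ i + h (a i)) ^ 2
  have hs : ∀ i, 0 < ρ i + h (a i) := fun i => by linarith [(a1 i).1, hh i]
  have hθ : ∀ i, 0 < θ i := fun i => by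
    have := hh i; have := h0 i; have := hs i; positivity
  obtain ⟨y, L, b1, b2, b3, b4, w, b5⟩ := a2 θ hθ
  have hL : L ≤ 1 := by
    refine b2.trans (le_trans (Finset.sum_le_sum fun i _ => ?_) h1)
    simp only [θ]
    rw [div_mul_eq_mul_div, div_le_iff₀ (pow_pos (hs i) 2)]
    nlinarith [mul_nonneg (h0 i).le (sq_nonneg (ρ i - h (a i)))]
  obtain ⟨ε, e1, e2⟩ := bang (Matrix.of fun i l => inner ℝ (a i) (y l) * θ l) θ hθ
    (fun i l => by simp only [Matrix.of_apply]; rw [b3 i l]; ring)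
    (fun i => m i - inner ℝ (a i) w)
  refine ⟨_, b5 ε e1, fun i => ?_⟩
  have c1 := e2 i
  simp only [Matrix.of_apply] at c1
  have c2 : inner ℝ (a i) (w + ∑ l, (ε l * θ l) • y l) - m i
      = ∑ l, inner ℝ (a i) (y l) * θ l * ε l - (m i - inner ℝ (a i) w) := by
    simp only [inner_add_right, inner_sum, inner_smul_right]
    have : ∀ l, ε l * θ l * inner ℝ (a i) (y l) = inner ℝ (a i) (y l) * θ l * ε l :=
      fun l => by ring
    simp only [this]; ring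
  rw [c2]
  obtain ⟨c3, c4⟩ := b4 i
  have c5 : (ρ i + h (a i)) ^ 2 ≤ g i ^ 2 := pow_le_pow_left₀ (hs i).le (a1 i).2.2 2
  have c6 : 4 * κ * L * inner ℝ (a i) (y i) ≤ 4 * κ * inner ℝ (a i) (y i) := by
    nlinarith [mul_nonneg hκ.le c3]
  have c7 : θ i * (ρ i + h (a i)) ^ 2 = ω i * (4 * h (a i)) := by
    simp only [θ]; field_simp [(hs i).ne']
  have c8 := mul_le_mul_of_nonneg_left (c5.trans (c4.trans c6)) (hθ i).le
  have c9 := mul_le_mul_of_nonneg_left c1 hκ.le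
  nlinarith

theorem ineq3 {r : ℝ} (hr : r ^ 2 = 3) (x y z : ℝ) (hs : x + y + z = 0)
    (h1 : y ≤ x) (h2 : z ≤ y) :
    ((|x - y| + |y - y| + |z - y|) * r / 6 + (|x| + |y| + |z|) / 4) ^ 2
      ≤ (2 + r) / 6 * (x ^ 2 + y ^ 2 + z ^ 2) := by
  have hx : 0 ≤ x := by linarith
  have hz : z ≤ 0 := by linarith
  rw [abs_of_nonneg (by linarith : 0 ≤ x - y), sub_self, abs_zero,
    abs_of_nonpos (by linarith : z - y ≤ 0), abs_of_nonneg hx, abs_of_nonpos hz]
  rcases le_total 0 y with hy | hy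
  · rw [abs_of_nonneg hy]
    obtain rfl : x = -y - z := by linarith
    refine sub_nonneg.1 (le_of_le_of_eq (by positivity : 0 ≤ ((2 + r) * y + z) ^ 2 / 12) ?_)
    linear_combination ((y ^ 2 + y * z + z ^ 2) / 9) * hr
  · rw [abs_of_nonpos hy]
    obtain rfl : z = -y - x := by linarith
    refine sub_nonneg.1 (le_of_le_of_eq (by positivity : 0 ≤ ((2 + r) * y + x) ^ 2 / 12) ?_)
    linear_combination ((y ^ 2 + y * x + x ^ 2) / 9) * hr

theorem ineq_small {K : Type} {r : ℝ} (hr : r ^ 2 = 3) (hr0 : 0 < r) (s : Finset K)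
    (hc : s.card ≤ 3) (α : K → ℝ) (hs : ∑ k ∈ s, α k = 0) :
    ∃ μ : ℝ, ((∑ k ∈ s, |α k - μ|) * r / 6 + (∑ k ∈ s, |α k|) / 4) ^ 2
      ≤ (2 + r) / 6 * ∑ k ∈ s, α k ^ 2 := by
  classical
  rcases (by omega : s.card = 0 ∨ s.card = 1 ∨ s.card = 2 ∨ s.card = 3) with h | h | h | h
  · rw [Finset.card_eq_zero] at h
    subst h
    exact ⟨0, by simp⟩
  · obtain ⟨i, rfl⟩ := Finset.card_eq_one.1 h
    simp only [sum_singleton] at hs ⊢
    exact ⟨0, by simp [hs]⟩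
  · obtain ⟨i, j, hij, rfl⟩ := Finset.card_eq_two.1 h
    simp only [Finset.sum_pair hij] at hs ⊢
    refine ⟨0, ?_⟩
    obtain h' : α j = -α i := by linarith
    rw [h', sub_zero, sub_zero, abs_neg]
    have h2 := sq_abs (α i)
    have h3 : r ≤ 2 := by nlinarith
    nlinarith [sq_nonneg (α i)]
  · obtain ⟨i, j, k, hij, hik, hjk, rfl⟩ := Finset.card_eq_three.1 h
    have e : ∀ f : K → ℝ, ∑ l ∈ ({i, j, k} : Finset K), f l = f i + f j + f k := by
      intro f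
      rw [Finset.sum_insert (by simp [hij, hik]), Finset.sum_pair hjk, add_assoc]
    simp only [e] at hs ⊢
    rcases le_total (α i) (α j) with h1 | h1 <;> rcases le_total (α j) (α k) with h2 | h2 <;>
      rcases le_total (α i) (α k) with h3 | h3
    · exact ⟨α j, by convert ineq3 hr (α k) (α j) (α i) (by linarith) h2 h1 using 2 <;> ring⟩
    · exact ⟨α j, by convert ineq3 hr (α k) (α j) (α i) (by linarith) h2 h1 using 2 <;> ring⟩
    · exact ⟨α k, by convert ineq3 hr (α j) (α k) (α i) (by linarith) h2 h3 using 2 <;> ring⟩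
    · exact ⟨α i, by convert ineq3 hr (α j) (α i) (α k) (by linarith) h1 h3 using 2 <;> ring⟩
    · exact ⟨α i, by convert ineq3 hr (α k) (α i) (α j) (by linarith) h3 h1 using 2 <;> ring⟩
    · exact ⟨α k, by convert ineq3 hr (α i) (α k) (α j) (by linarith) h3 h2 using 2 <;> ring⟩
    · exact ⟨α j, by convert ineq3 hr (α i) (α j) (α k) (by linarith) h1 h2 using 2 <;> ring⟩
    · exact ⟨α j, by convert ineq3 hr (α i) (α j) (α k) (by linarith) h1 h2 using 2 <;> ring⟩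

/-- A convex set with at most three chords that add up to zero. -/
theorem LB.triangle {K : Type} {r : ℝ} (hr : r ^ 2 = 3) (hr0 : 0 < r) {X : Set E}
    (hX : Convex ℝ X) {c : E} (hcX : c ∈ X) (s : Finset K) (hc : s.card ≤ 3) (f : K → E)
    (hf : ∑ k ∈ s, f k = 0) (hch : ∀ k, ∃ p ∈ X, ∃ q ∈ X, p - q = f k) :
    LB ((2 * r + 3) / 6) X fun a => (∑ k ∈ s, |inner ℝ a (f k)|) / 4 := by
  classical
  intro ι _ a
  choose p hp q hq hpq using hch
  have hsum : ∀ i, ∑ k ∈ s, inner ℝ (a i) (f k) = 0 := fun i => by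
    rw [← inner_sum, hf, inner_zero_right]
  choose μ hμ using fun i => ineq_small hr hr0 s hc (fun k => inner ℝ (a i) (f k)) (hsum i)
  let ρ : ι → ℝ := fun i => (∑ k ∈ s, |inner ℝ (a i) (f k) - μ i|) * r / 6
  have hρ : ∀ i, 0 ≤ ρ i := fun i => by
    have : 0 ≤ ∑ k ∈ s, |inner ℝ (a i) (f k) - μ i| := Finset.sum_nonneg fun _ _ => abs_nonneg _
    positivity
  refine ⟨ρ, fun i => ρ i + (∑ k ∈ s, |inner ℝ (a i) (f k)|) / 4, fun i => ⟨hρ i, ?_, le_rfl⟩,
    fun θ hθ => ?_⟩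
  · have : 0 ≤ ∑ k ∈ s, |inner ℝ (a i) (f k)| := Finset.sum_nonneg fun _ _ => abs_nonneg _
    have := hρ i
    positivity
  set L := ∑ i, θ i * ρ i with hL
  have hL0 : 0 ≤ L := Finset.sum_nonneg fun i _ => mul_nonneg (hθ i).le (hρ i)
  have hin : ∀ i l, inner ℝ (a i) ((L⁻¹ * (r / 12)) • ∑ k ∈ s, inner ℝ (a l) (f k) • f k)
      = L⁻¹ * (r / 12) * ∑ k ∈ s, inner ℝ (a l) (f k) * inner ℝ (a i) (f k) := by
    intro i l
    simp only [inner_smul_right, inner_sum]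
  refine ⟨fun i => (L⁻¹ * (r / 12)) • ∑ k ∈ s, inner ℝ (a i) (f k) • f k, L, hL0, le_rfl,
    fun i l => ?_, fun i => ?_, ?_⟩
  · rw [hin, hin]; simp only [mul_comm]
  · rw [hin]
    simp only [← sq]
    have h2 : 0 ≤ ∑ k ∈ s, inner ℝ (a i) (f k) ^ 2 := Finset.sum_nonneg fun _ _ => sq_nonneg _
    refine ⟨by positivity, (hμ i).trans ?_⟩
    rcases hL0.lt_or_eq with h3 | h3
    · refine le_of_eq ?_
      field_simp
      linear_combination (-8 * ∑ k ∈ s, inner ℝ (a i) (f k) ^ 2) * hr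
    · have h4 : θ i * ρ i = 0 := (Finset.sum_eq_zero_iff_of_nonneg
        (fun i _ => mul_nonneg (hθ i).le (hρ i))).1 h3.symm i (mem_univ i)
      have h5 : ∑ k ∈ s, |inner ℝ (a i) (f k) - μ i| = 0 := by
        have := (mul_eq_zero.1 h4).resolve_left (hθ i).ne'
        simp only [ρ] at this
        have h6 : (∑ k ∈ s, |inner ℝ (a i) (f k) - μ i|) * r = 0 := by linarith
        exact (mul_eq_zero.1 h6).resolve_right hr0.ne'
      have h6 : ∀ k ∈ s, inner ℝ (a i) (f k) = μ i := fun k hk => by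
        have := (Finset.sum_eq_zero_iff_of_nonneg (fun _ _ => abs_nonneg _)).1 h5 k hk
        exact sub_eq_zero.1 (abs_eq_zero.1 this)
      have h7 : ∑ k ∈ s, inner ℝ (a i) (f k) ^ 2 = μ i * ∑ k ∈ s, inner ℝ (a i) (f k) := by
        rw [Finset.mul_sum]
        exact Finset.sum_congr rfl fun k hk => by rw [sq]; congr 1; exact h6 k hk
      rw [h7, hsum]; simp
  · let τ : ι × s → ℝ := fun j => θ j.1 * (L⁻¹ * (r / 12)) * (inner ℝ (a j.1) (f j.2) - μ j.1)
    refine ⟨c + ∑ j : ι × s, (2 * |τ j|) • ((1 / 2 : ℝ) • (p j.2 + q j.2) - c), fun ε hε => ?_⟩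
    have hw : ∑ j : ι × s, 2 * |τ j| ≤ 1 := by
      have e1 : ∑ j : ι × s, 2 * |τ j| = L⁻¹ * L := by
        rw [Fintype.sum_prod_type, hL, Finset.mul_sum]
        refine Finset.sum_congr rfl fun i _ => ?_
        simp only [ρ, τ]
        rw [← hL, Finset.sum_coe_sort s (fun k => 2 * |θ i * (L⁻¹ * (r / 12)) *
          (inner ℝ (a i) (f k) - μ i)|), Finset.sum_mul, Finset.sum_div, Finset.mul_sum,
          Finset.mul_sum]
        refine Finset.sum_congr rfl fun k _ => ?_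
        have := (hθ i).le
        rw [abs_mul, abs_of_nonneg (by positivity : 0 ≤ θ i * (L⁻¹ * (r / 12)))]
        ring
      rw [e1]
      exact inv_mul_le_one_of_le₀ le_rfl hL0
    have := mem_of_weights hX hcX (fun j : ι × s => 2 * |τ j|) (fun j => by positivity) hw
      (fun j => if 0 ≤ ε j.1 * τ j then p j.2 else q j.2)
      (fun j => by split_ifs; exacts [hp _, hq _])
    convert this using 1
    have e2 : ∑ i, (ε i * θ i) • (L⁻¹ * (r / 12)) • ∑ k ∈ s, inner ℝ (a i) (f k) • f k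
        = ∑ j : ι × s, (ε j.1 * τ j) • f j.2 := by
      rw [Fintype.sum_prod_type]
      refine Finset.sum_congr rfl fun i _ => ?_
      simp only [τ]
      rw [Finset.sum_coe_sort s (fun k => (ε i * (θ i * (L⁻¹ * (r / 12)) *
        (inner ℝ (a i) (f k) - μ i))) • f k)]
      have e3 : ∑ k ∈ s, inner ℝ (a i) (f k) • f k
          = ∑ k ∈ s, (inner ℝ (a i) (f k) - μ i) • f k := by
        simp only [sub_smul, Finset.sum_sub_distrib, ← Finset.smul_sum, hf, smul_zero, sub_zero]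
      rw [e3, Finset.smul_sum, Finset.smul_sum]
      refine Finset.sum_congr rfl fun k _ => ?_
      simp only [smul_smul]
      congr 1; ring
    rw [e2, add_assoc, ← Finset.sum_add_distrib]
    congr 1
    refine Finset.sum_congr rfl fun j _ => ?_
    have e4 : |τ j| = |ε j.1 * τ j| := by
      rcases hε j.1 with h | h <;> simp [h]
    rw [← hpq, e4]
    split_ifs with h
    · rw [abs_of_nonneg h]; module
    · rw [abs_of_neg (not_le.1 h)]; module

end Pool.Agent.Lib.MP_70b2ae_gt
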