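import Mathlib
import Pool.Agent.Lib.MP_70b2ae_gt.Tri
import Pool.Agent.Lib.MP_70b2ae_gt.Chain

namespace Pool.Agent.Lib.MP_70b2ae_gt

open Finset Pointwise

/-- The sign attached to a tag. -/
def sg (b : Bool) : ℝ := if b then 1 else -1

theorem sg_not {b b' : Bool} (h : b' ≠ b) : sg b' = -sg b := by
  cases b <;> cases b' <;> simp_all [sg]

theorem sg_sq (b : Bool) : sg b * sg b = 1 := by cases b <;> simp [sg]

variable {K : Type} [Fintype K]

/-- The polygon with upper edges and lower edges `c k • p k`, the leftmost vertex at `0`. -/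
def Body (p : K → EuclideanSpace ℝ (Fin 2)) (s : K → Bool) (c : K → ℝ) :
    Set (EuclideanSpace ℝ (Fin 2)) :=
  {z | ∀ (b : Bool) (u : EuclideanSpace ℝ (Fin 2)), 0 ≤ sg b * u 1 →
    inner ℝ u z ≤ ∑ k, if s k = b then c k * max (inner ℝ u (p k)) 0 else 0}

theorem body_convex (p : K → EuclideanSpace ℝ (Fin 2)) (s : K → Bool) (c : K → ℝ) :
    Convex ℝ (Body p s c) := by
  intro x hx y hy α β hα hβ hs b u hu
  rw [inner_add_right, inner_smul_right, inner_smul_right]
  have h1 := mul_le_mul_of_nonneg_left (hx b u hu) hα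
  have h2 := mul_le_mul_of_nonneg_left (hy b u hu) hβ
  calc _ ≤ _ := add_le_add h1 h2
    _ = _ := by rw [← add_mul, hs, one_mul]

theorem body_add (p : K → EuclideanSpace ℝ (Fin 2)) (s : K → Bool) (c c' : K → ℝ) :
    Body p s c + Body p s c' ⊆ Body p s fun k => c k + c' k := by
  rintro _ ⟨x, hx, y, hy, rfl⟩ b u hu
  rw [inner_add_right]
  refine (add_le_add (hx b u hu) (hy b u hu)).trans (le_of_eq ?_)
  rw [← Finset.sum_add_distrib]
  refine Finset.sum_congr rfl fun k _ => ?_
  split_ifs <;> ring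

theorem key_sign {u0 w x y x' y' : ℝ} (hw : w ≤ 0) (hx : 0 ≤ x) (hx' : 0 ≤ x')
    (h : 0 < u0 * x + w * y) (hk : y' / (x' + |y'|) ≤ y / (x + |y|)) : 0 ≤ u0 * x' + w * y' := by
  have hN : 0 < x + |y| := by
    by_contra h1
    have h2 : |y| = 0 := le_antisymm (by linarith) (abs_nonneg y)
    have h3 : x = 0 := by linarith [abs_nonneg y]
    rw [h3, abs_eq_zero.1 h2] at h
    simp at h
  rcases (by positivity : 0 ≤ x' + |y'|).lt_or_eq with hN' | hN'
  · rw [div_le_div_iff₀ hN' hN] at hk
    by_contra h1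
    push Not at h1
    rcases le_total 0 y with hy | hy <;> rcases le_total 0 y' with hy' | hy'
    · rw [abs_of_nonneg hy, abs_of_nonneg hy'] at *
      have h2 : y' * x ≤ y * x' := by linarith
      have h3 : 0 < u0 * x := by nlinarith
      have h4 : 0 < x := lt_of_le_of_ne hx fun h5 => by rw [← h5] at h3; simp at h3
      nlinarith [mul_nonneg hx' h.le, mul_pos h4 (neg_pos.2 h1),
        mul_nonneg (neg_nonneg.2 hw) (sub_nonneg.2 h2)]
    · have h3 : 0 < u0 * x := by nlinarith
      have h4 : 0 < u0 := by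
        by_contra h5
        nlinarith
      nlinarith [mul_nonneg h4.le hx', mul_nonneg (neg_nonneg.2 hw) (neg_nonneg.2 hy')]
    · rw [abs_of_nonpos hy, abs_of_nonneg hy'] at *
      have h2 : y' * (x + -y) = 0 := le_antisymm (by nlinarith) (by positivity)
      have h3 : y' = 0 := (mul_eq_zero.1 h2).resolve_right hN.ne'
      have h4 : y = 0 := by
        have : y * (x' + y') = 0 := le_antisymm (by nlinarith) (by linarith)
        exact (mul_eq_zero.1 this).resolve_right hN'.ne'
      rw [h3] at h1; rw [h4] at h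
      have h5 : 0 < u0 := by
        by_contra h5
        nlinarith
      nlinarith
    · rw [abs_of_nonpos hy, abs_of_nonpos hy'] at *
      have h2 : y' * x ≤ y * x' := by linarith
      have h3 : u0 * x' < 0 := by nlinarith
      have h4 : 0 < x' := lt_of_le_of_ne hx' fun h5 => by rw [← h5] at h3; simp at h3
      nlinarith [mul_nonneg hx (neg_pos.2 h1).le, mul_pos h4 h,
        mul_nonneg (neg_nonneg.2 hw) (sub_nonneg.2 h2)]
  · have h2 : |y'| = 0 := le_antisymm (by linarith) (abs_nonneg _)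
    have h3 : x' = 0 := by linarith [abs_nonneg y']
    rw [h3, abs_eq_zero.1 h2]
    simp

/-- An initial segment of a chain ends in a point of the polygon. -/
theorem body_vertex {p : K → EuclideanSpace ℝ (Fin 2)} {s : K → Bool} {c : K → ℝ}
    (hp : ∀ k, 0 ≤ p k 0) (hc : ∀ k, 0 ≤ c k) (hcl : ∑ k, (c k * sg (s k)) • p k = 0) (b0 : Bool)
    (S : Finset K) (hS : ∀ k ∈ S, s k = b0)
    (hup : ∀ k ∈ S, ∀ k', k' ∉ S → s k' = b0 → sg b0 * p k' 1 / (p k' 0 + |sg b0 * p k' 1|)
      ≤ sg b0 * p k 1 / (p k 0 + |sg b0 * p k 1|)) : ∑ k ∈ S, c k • p k ∈ Body p s c := by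
  classical
  intro b u hu
  have hnn : ∀ k, 0 ≤ if s k = b then c k * max (inner ℝ u (p k)) 0 else 0 := fun k => by
    have := hc k
    split_ifs
    · exact mul_nonneg this (le_max_right _ _)
    · exact le_rfl
  rw [inner_sum]
  simp only [inner_smul_right]
  by_cases hb : b = b0
  · refine le_trans (Finset.sum_le_sum fun k hk => ?_)
      (Finset.sum_le_sum_of_subset_of_nonneg (subset_univ S) fun k _ _ => hnn k)
    rw [if_pos (hb ▸ hS k hk)]
    exact mul_le_mul_of_nonneg_left (le_max_left _ _) (hc k)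
  · by_cases h1 : ∀ k ∈ S, inner ℝ u (p k) ≤ 0
    · exact le_trans (Finset.sum_nonpos fun k hk => mul_nonpos_of_nonneg_of_nonpos (hc k) (h1 k hk))
        (Finset.sum_nonneg fun k _ => hnn k)
    · push Not at h1
      obtain ⟨k0, hk0, h1⟩ := h1
      have hi : ∀ z : EuclideanSpace ℝ (Fin 2),
          inner ℝ u z = u 0 * z 0 + (sg b0 * u 1) * (sg b0 * z 1) :=
        fun z => by rw [inner2]; linear_combination (-(u 1 * z 1)) * sg_sq b0
      have h2 : ∀ k, k ∉ S → s k = b0 → 0 ≤ inner ℝ u (p k) := fun k h3 h4 => by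
        rw [hi] at h1 ⊢
        rw [sg_not hb] at hu
        exact key_sign (by linarith) (hp k0) (hp k) h1 (hup k0 hk0 k h3 h4)
      have h3 : ∑ k, c k * sg (s k) * inner ℝ u (p k) = 0 := by
        have := congrArg (inner ℝ u) hcl
        simpa only [inner_sum, inner_smul_right, inner_zero_right] using this
      have h4 : ∑ k ∈ S, c k * inner ℝ u (p k)
          = ∑ k, if k ∈ S then c k * inner ℝ u (p k) else 0 := by simp
      have h5 : ∑ k, sg b0 * (c k * sg (s k) * inner ℝ u (p k)) = 0 := by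
        rw [← Finset.mul_sum, h3, mul_zero]
      rw [h4]
      refine le_of_le_of_eq ?_ ((congrArg (_ + ·) h5).trans (add_zero _))
      rw [← Finset.sum_add_distrib]
      refine Finset.sum_le_sum fun k _ => ?_
      by_cases h6 : s k = b0
      · rw [if_neg (show ¬ s k = b from h6 ▸ Ne.symm hb), h6]
        have h7 : sg b0 * (c k * sg b0 * inner ℝ u (p k)) = c k * inner ℝ u (p k) := by
          linear_combination (c k * inner ℝ u (p k)) * sg_sq b0
        rw [h7]
        split_ifs with h8
        · simp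
        · simpa using mul_nonneg (hc k) (h2 k h8 h6)
      · have h7 : s k = b := by
          revert h6 hb; cases s k <;> cases b <;> cases b0 <;> simp
        rw [if_neg fun h => h6 (hS k h), if_pos h7, sg_not h6]
        have h8 := mul_le_mul_of_nonneg_left (le_max_left (inner ℝ u (p k)) 0) (hc k)
        have h9 : sg b0 * (c k * -sg b0 * inner ℝ u (p k)) = -(c k * inner ℝ u (p k)) := by
          linear_combination (-(c k * inner ℝ u (p k))) * sg_sq b0
        linarith

theorem body_chord {p : K → EuclideanSpace ℝ (Fin 2)} {s : K → Bool} {c : K → ℝ}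
    (hp : ∀ k, 0 ≤ p k 0) (hc : ∀ k, 0 ≤ c k) (hcl : ∑ k, (c k * sg (s k)) • p k = 0) (k0 : K) :
    ∃ x ∈ Body p s c, ∃ y ∈ Body p s c, x - y = (c k0 * sg (s k0)) • p k0 := by
  classical
  let κ : K → ℝ := fun k => sg (s k0) * p k 1 / (p k 0 + |sg (s k0) * p k 1|)
  let S := univ.filter fun k => s k = s k0 ∧ κ k0 < κ k
  have hS : ∀ k, k ∈ S ↔ s k = s k0 ∧ κ k0 < κ k := fun k => by simp [S]
  have h0 : k0 ∉ S := fun h => lt_irrefl _ ((hS _).1 h).2
  have h3 : ∀ k', k' ∉ S → s k' = s k0 → κ k' ≤ κ k0 := fun k' h h' =>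
    not_lt.1 fun h'' => h ((hS _).2 ⟨h', h''⟩)
  have h1 := body_vertex hp hc hcl (s k0) S (fun k hk => ((hS k).1 hk).1)
    fun k hk k' hk' h => (h3 k' hk' h).trans ((hS k).1 hk).2.le
  have h2 := body_vertex hp hc hcl (s k0) (insert k0 S)
    (fun k hk => by
      rcases mem_insert.1 hk with rfl | h
      exacts [rfl, ((hS k).1 h).1])
    fun k hk k' hk' h => by
      have h4 := h3 k' (fun h5 => hk' (mem_insert_of_mem h5)) h
      rcases mem_insert.1 hk with rfl | h5
      exacts [h4, h4.trans ((hS k).1 h5).2.le]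
  rw [Finset.sum_insert h0] at h2
  cases h : s k0
  · exact ⟨_, h1, _, h2, by simp [sg]⟩
  · exact ⟨_, h2, _, h1, by simp [sg]⟩

theorem exists_shrink [DecidableEq K] (c ν : K → ℝ) (hc : ∀ k, 0 ≤ c k)
    (h1 : ∀ k, c k = 0 → ν k = 0) (h2 : ∃ k, 0 < ν k) :
    ∃ t, 0 < t ∧ (∀ k, 0 ≤ c k - t * ν k) ∧ ∀ α : ℝ,
      (univ.filter fun k => α * (c k - t * ν k) ≠ 0).card < (univ.filter fun k => c k ≠ 0).card := by
  obtain ⟨k0, hk0, hmin⟩ := Finset.exists_min_image (univ.filter fun k => 0 < ν k)
    (fun k => c k / ν k) (by obtain ⟨k, hk⟩ := h2; exact ⟨k, by simpa using hk⟩)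
  have h3 : 0 < ν k0 := by simpa using hk0
  have h4 : c k0 ≠ 0 := fun h => h3.ne' (h1 _ h)
  have h5 : 0 < c k0 / ν k0 := div_pos (lt_of_le_of_ne (hc _) h4.symm) h3
  refine ⟨_, h5, fun k => ?_, fun α => Finset.card_lt_card ⟨fun k hk => ?_, fun h => ?_⟩⟩
  · rcases le_or_gt (ν k) 0 with h | h
    · nlinarith [hc k]
    · have := hmin k (by simpa using h)
      rw [le_div_iff₀ h] at this
      linarith
  · simp only [mem_filter, mem_univ, true_and] at hk ⊢
    intro h
    rw [h, h1 k h] at hk
    simp at hk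
  · have := @h k0 (by simpa using h4)
    simp only [mem_filter, mem_univ, true_and] at this
    rw [div_mul_cancel₀ _ h3.ne'] at this
    simp at this

/-- Every polygon is a Minkowski sum of triangles and segments. -/
theorem body_LB {r : ℝ} (hr : r ^ 2 = 3) (hr0 : 0 < r) {p : K → EuclideanSpace ℝ (Fin 2)}
    {s : K → Bool} (hp : ∀ k, 0 ≤ p k 0) (N : ℕ) : ∀ c : K → ℝ,
    (univ.filter fun k => c k ≠ 0).card ≤ N → (∀ k, 0 ≤ c k) → ∑ k, (c k * sg (s k)) • p k = 0 →
    LB ((2 * r + 3) / 6) (Body p s c) fun a => (∑ k, c k * |inner ℝ a (p k)|) / 4 := by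
  classical
  induction N using Nat.strong_induction_on with
  | _ N ih =>
  intro c hN hc hcl
  set S := univ.filter fun k => c k ≠ 0 with hS
  have hmem : ∀ k, k ∉ S → c k = 0 := fun k h => by simpa [hS] using h
  by_cases h3 : S.card ≤ 3
  · have h0 : (0 : EuclideanSpace ℝ (Fin 2)) ∈ Body p s c := by
      simpa using body_vertex hp hc hcl true ∅ (by simp) (by simp)
    refine (LB.triangle hr hr0 (body_convex p s c) h0 S h3 (fun k => (c k * sg (s k)) • p k) ?_
      (body_chord hp hc hcl)).mono subset_rfl fun a => le_of_eq ?_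
    · rw [← hcl]
      exact Finset.sum_subset (subset_univ _) fun k _ h => by simp [hmem k h]
    · congr 1
      rw [← Finset.sum_subset (subset_univ S) fun k _ h => by simp [hmem k h]]
      refine Finset.sum_congr rfl fun k _ => ?_
      rw [inner_smul_right, abs_mul, abs_mul, abs_of_nonneg (hc k)]
      cases s k <;> simp [sg]
  · have hdep : ¬ LinearIndependent ℝ fun k : S => ((sg (s k) • p k, 1) :
        EuclideanSpace ℝ (Fin 2) × ℝ) := fun h => by
      have := h.fintype_card_le_finrank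
      simp at this
      omega
    obtain ⟨g, hg, k1, hk1⟩ := Fintype.not_linearIndependent_iff.1 hdep
    let ν : K → ℝ := fun k => if h : k ∈ S then g ⟨k, h⟩ else 0
    have hν : ∀ k : S, ν k = g k := fun k => by simp [ν]
    have hν0 : ∀ k, k ∉ S → ν k = 0 := fun k h => by simp [ν, h]
    have hν1 : ∀ k, c k = 0 → ν k = 0 := fun k h => hν0 k (by simp [hS, h])
    have e1 : ∑ k, (ν k * sg (s k)) • p k = 0 := by
      have := congrArg Prod.fst hg
      simp only [Prod.fst_sum, Prod.smul_fst, Prod.fst_zero, ← hν, smul_smul] at this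
      rw [Finset.sum_coe_sort S fun k => (ν k * sg (s k)) • p k] at this
      rw [← this]
      exact (Finset.sum_subset (subset_univ S) fun k _ h => by simp [hν0 k h]).symm
    have e2 : ∑ k, ν k = 0 := by
      have := congrArg Prod.snd hg
      simp only [Prod.snd_sum, Prod.smul_snd, Prod.snd_zero, ← hν, smul_eq_mul, mul_one] at this
      rw [Finset.sum_coe_sort S ν] at this
      rw [← this]
      exact (Finset.sum_subset (subset_univ S) fun k _ h => hν0 k h).symm
    have e3 : ∃ k, 0 < ν k := by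
      by_contra h
      push Not at h
      exact hk1 (hν k1 ▸ (Finset.sum_eq_zero_iff_of_nonpos fun k _ => h k).1 e2 k1 (mem_univ _))
    have e4 : ∃ k, 0 < -ν k := by
      by_contra h
      push Not at h
      exact hk1 (hν k1 ▸ (Finset.sum_eq_zero_iff_of_nonneg fun k _ => by linarith [h k]).1 e2 k1
        (mem_univ _))
    obtain ⟨t, t0, t1, t2⟩ := exists_shrink c ν hc hν1 e3
    obtain ⟨t', t0', t1', t2'⟩ := exists_shrink c (fun k => -ν k) hc
      (fun k h => by rw [hν1 k h, neg_zero]) e4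
    have hcl' : ∀ α τ : ℝ, ∑ k, (α * (c k - τ * ν k) * sg (s k)) • p k = 0 := fun α τ => by
      have : ∀ k, (α * (c k - τ * ν k) * sg (s k)) • p k
          = α • ((c k * sg (s k)) • p k) - (α * τ) • ((ν k * sg (s k)) • p k) := fun k => by module
      simp only [this, Finset.sum_sub_distrib, ← Finset.smul_sum, hcl, e1, smul_zero, sub_zero]
    have htt : 0 < t + t' := add_pos t0 t0'
    have H1 := ih _ ((t2 (t' / (t + t'))).trans_le hN) (fun k => t' / (t + t') * (c k - t * ν k))
      le_rfl (fun k => mul_nonneg (by positivity) (t1 k)) (hcl' _ _)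
    have H2 := ih _ ((t2' (t / (t + t'))).trans_le hN)
      (fun k => t / (t + t') * (c k - t' * -ν k))
      le_rfl (fun k => mul_nonneg (by positivity) (t1' k))
      (by simpa only [mul_neg, neg_mul] using hcl' (t / (t + t')) (-t'))
    have e5 : ∀ k, t' / (t + t') * (c k - t * ν k) + t / (t + t') * (c k - t' * -ν k) = c k :=
      fun k => by field_simp; ring
    refine (H1.add (by positivity) H2).mono ((body_add p s _ _).trans (by simp only [e5]; rfl))
      fun a => le_of_eq ?_
    rw [← add_div, ← Finset.sum_add_distrib]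
    simp only [← add_mul, e5]

/-- Every planar compact convex set carries Bang's data with the loss `(2√3+3)/6`. -/
theorem plane_LB {r : ℝ} (hr : r ^ 2 = 3) (hr0 : 0 < r) {C : Set (EuclideanSpace ℝ (Fin 2))}
    (hC : IsCompact C) (hc : Convex ℝ C) (hne : C.Nonempty) {ι : Type} [Fintype ι]
    (a : ι → EuclideanSpace ℝ (Fin 2)) : ∃ h, LB ((2 * r + 3) / 6) C h ∧
      ∀ i, ∀ x ∈ C, ∀ y ∈ C, inner ℝ (a i) (x - y) ≤ 2 * h (a i) := by
  classical
  obtain ⟨v0, hv0, h0⟩ := hC.exists_isMinOn (f := fun x : EuclideanSpace ℝ (Fin 2) => x 0) hne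
    (by fun_prop)
  obtain ⟨v1, hv1, h1⟩ := hC.exists_isMaxOn (f := fun x : EuclideanSpace ℝ (Fin 2) => x 0) hne
    (by fun_prop)
  let U := univ.image a ∪ univ.image fun i => -a i
  have hU : ∀ i, a i ∈ U ∧ -a i ∈ U := fun i => by simp [U]
  choose n p a0 as a1 a2 using fun b => chain hC (sg_sq b) hv0 hv1 (fun x hx => h0 hx)
    (fun x hx => h1 hx) U
  let P : (Σ b, Fin (n b)) → EuclideanSpace ℝ (Fin 2) := fun j => p j.1 j.2
  have hcl : ∑ j : Σ b, Fin (n b), ((1 : ℝ) * sg j.1) • P j = 0 := by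
    rw [Fintype.sum_sigma]
    simp only [P, ← Finset.smul_sum, as]
    simp [sg]
  have H := body_LB hr hr0 (p := P) (s := fun j => j.1) (fun j => a0 j.1 j.2) _ (fun _ => 1) le_rfl
    (fun _ => zero_le_one) hcl
  refine ⟨_, ((LB.point _ v0).add (by positivity) H).mono ?_ fun _ => le_rfl,
    fun i x hx y hy => ?_⟩
  · rintro _ ⟨w, hw, z, hz, rfl⟩
    rw [Set.mem_singleton_iff.1 hw]
    by_contra hn
    obtain ⟨f, α, f1, f2⟩ := geometric_hahn_banach_closed_point hc hC.isClosed hn
    let u := (InnerProductSpace.toDual ℝ _).symm f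
    have hu : ∀ x, inner ℝ u x = f x := fun x => InnerProductSpace.toDual_symm_apply
    obtain ⟨b, hb⟩ : ∃ b, 0 ≤ sg b * u 1 := by
      rcases le_total 0 (u 1) with h | h
      · exact ⟨true, by simpa [sg] using h⟩
      · exact ⟨false, by simpa [sg] using h⟩
    obtain ⟨x, hx, h2⟩ := a1 b u hb
    have h3 := hz b u hb
    rw [Fintype.sum_sigma] at h3
    simp only [Finset.sum_ite_irrel, Finset.sum_const_zero, Finset.sum_ite_eq', mem_univ, if_true,
      one_mul, P] at h3
    have h4 := f1 x hx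
    rw [hu] at h3
    rw [hu (x - v0), map_sub] at h2
    simp only [map_add] at f2
    linarith
  · have key : ∀ u : EuclideanSpace ℝ (Fin 2), u ∈ U → -u ∈ U → 0 ≤ u 1 → ∀ x ∈ C, ∀ y ∈ C,
        inner ℝ u (x - y) ≤ (∑ j, |inner ℝ u (P j)|) / 2 := by
      intro u u1 u2 hu x hx y hy
      have b1 := a2 true u u1 (by simpa [sg] using hu) x hx
      have b2 := a2 false (-u) u2 (by simpa [sg] using hu) y hy
      have b3 : ∀ z : ℝ, max z 0 = (|z| + z) / 2 := fun z => by
        rcases le_total 0 z with h | h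
        · rw [max_eq_left h, abs_of_nonneg h]; ring
        · rw [max_eq_right h, abs_of_nonpos h]; ring
      simp only [b3, ← Finset.sum_div, Finset.sum_add_distrib, ← inner_sum, as, inner_neg_left,
        abs_neg, Finset.sum_neg_distrib] at b1 b2
      rw [Fintype.sum_sigma, Fintype.sum_bool]
      simp only [inner_sub_right, P] at b1 b2 ⊢
      linarith
    simp only [one_mul, zero_add]
    rcases le_total 0 (a i 1) with h | h
    · linarith [key (a i) (hU i).1 (hU i).2 h x hx y hy]
    · have := key (-a i) (hU i).2 (by simpa using (hU i).1) (by simpa using h) y hy x hx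
      simp only [inner_neg_left, abs_neg, inner_sub_right] at this ⊢
      linarith

end Pool.Agent.Lib.MP_70b2ae_gt
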